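import Pool.Agent.K.MP_ec89a0_al.C0

-- part Pool.Agent.P.MP_ec89a0_al.Words
section

namespace Pool.Agent.FitW

open Subgroup
open scoped commutatorElement

variable {G : Type} [Group G]

theorem ev_nil (π : Fin 2 → G) : ev π [] = 1 := by
  simp [ev]

theorem ev_cons_true (π : Fin 2 → G) (j : Fin 2) (L : List Lt) :
    ev π ((j, true) :: L) = π j * ev π L := by
  simp [ev]

theorem ev_cons_false (π : Fin 2 → G) (j : Fin 2) (L : List Lt) :
    ev π ((j, false) :: L) = (π j)⁻¹ * ev π L := by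
  simp [ev]

theorem ev_append (π : Fin 2 → G) (L M : List Lt) : ev π (L ++ M) = ev π L * ev π M := by
  unfold ev
  rw [← FreeGroup.mul_mk, map_mul]

theorem ev_conj (π : Fin 2 → G) (g : G) (L : List Lt) :
    ev (fun j => g⁻¹ * π j * g) L = g⁻¹ * ev π L * g := by
  induction L with
  | nil => simp [ev_nil]
  | cons z L ih =>
    obtain ⟨j, b⟩ := z
    cases b
    · rw [ev_cons_false, ev_cons_false, ih]; group
    · rw [ev_cons_true, ev_cons_true, ih]; group

theorem Gen.conj {π : Fin 2 → G} (h : Gen π) (g : G) : Gen (fun j => g⁻¹ * π j * g) := by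
  unfold Gen at *
  rw [eq_top_iff]
  intro x _
  have hx : g * x * g⁻¹ ∈ Subgroup.closure (Set.range π) := by rw [h]; trivial
  have key : ∀ y ∈ Subgroup.closure (Set.range π),
      g⁻¹ * y * g ∈ Subgroup.closure (Set.range (fun j => g⁻¹ * π j * g)) := by
    intro y hy
    induction hy using Subgroup.closure_induction with
    | mem y hy =>
      obtain ⟨j, rfl⟩ := hy
      exact Subgroup.subset_closure ⟨j, rfl⟩
    | one => simp
    | mul a b _ _ ha hb =>
      have : g⁻¹ * (a * b) * g = (g⁻¹ * a * g) * (g⁻¹ * b * g) := by group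
      rw [this]; exact Subgroup.mul_mem _ ha hb
    | inv a _ ha =>
      have : g⁻¹ * a⁻¹ * g = (g⁻¹ * a * g)⁻¹ := by group
      rw [this]; exact Subgroup.inv_mem _ ha
  have := key _ hx
  have e : g⁻¹ * (g * x * g⁻¹) * g = x := by group
  rwa [e] at this

theorem ev_mem_closure (π : Fin 2 → G) (L : List Lt) :
    ev π L ∈ Subgroup.closure (Set.range π) := by
  induction L with
  | nil => rw [ev_nil]; exact Subgroup.one_mem _
  | cons z L ih =>
    obtain ⟨j, b⟩ := z
    have hj : π j ∈ Subgroup.closure (Set.range π) := Subgroup.subset_closure ⟨j, rfl⟩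
    cases b
    · rw [ev_cons_false]; exact Subgroup.mul_mem _ (Subgroup.inv_mem _ hj) ih
    · rw [ev_cons_true]; exact Subgroup.mul_mem _ hj ih

theorem exists_ev_of_mem {π : Fin 2 → G} {g : G} (hg : g ∈ Subgroup.closure (Set.range π)) :
    ∃ L : List Lt, ev π L = g := by
  rw [← FreeGroup.range_lift_eq_closure] at hg
  obtain ⟨w, rfl⟩ := hg
  refine ⟨w.toWord, ?_⟩
  unfold ev
  rw [FreeGroup.mk_toWord]

theorem ev_congr {π π' : Fin 2 → G} (Q : Subgroup G) [hQ : Q.Normal]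
    (h : ∀ j, π' j * (π j)⁻¹ ∈ Q) (L : List Lt) : ev π' L * (ev π L)⁻¹ ∈ Q := by
  induction L with
  | nil => simp [ev_nil]
  | cons z L ih =>
    obtain ⟨j, b⟩ := z
    cases b
    · rw [ev_cons_false, ev_cons_false]
      have e : (π' j)⁻¹ * ev π' L * ((π j)⁻¹ * ev π L)⁻¹ =
          (π j)⁻¹ * ((π' j * (π j)⁻¹)⁻¹ * (ev π' L * (ev π L)⁻¹)) * ((π j)⁻¹)⁻¹ := by group
      rw [e]
      exact hQ.conj_mem _ (Q.mul_mem (Q.inv_mem (h j)) ih) _
    · rw [ev_cons_true, ev_cons_true]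
      have e : π' j * ev π' L * (π j * ev π L)⁻¹ =
          (π' j * (π j)⁻¹) * (π j * (ev π' L * (ev π L)⁻¹) * (π j)⁻¹) := by group
      rw [e]
      exact Q.mul_mem (h j) (hQ.conj_mem _ ih _)

theorem Gen.surjective {π : Fin 2 → G} (h : Gen π) :
    Function.Surjective (FreeGroup.lift π) := by
  rw [← MonoidHom.range_eq_top, FreeGroup.range_lift_eq_closure]
  exact h

section Count

variable [Finite G]

theorem cnt_mono (N : Subgroup G) {P P' : G → Prop} (h : ∀ y ∈ N, P y → P' y) :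
    cnt N P ≤ cnt N P' := by
  unfold cnt
  exact Set.ncard_le_ncard (fun y hy => ⟨hy.1, h y hy.1 hy.2⟩) (Set.toFinite _)

theorem words_cnt_true (N : Subgroup G) : cnt N (fun _ => True) = Nat.card N := by
  unfold cnt
  have : {y : G | y ∈ N ∧ True} = (N : Set G) := by ext y; simp
  rw [this]
  rfl

theorem cnt_true (N : Subgroup G) : cnt N (fun _ => True) = Nat.card N :=
  words_cnt_true N

theorem cnt_or_le (N : Subgroup G) (P P' : G → Prop) :
    cnt N (fun y => P y ∨ P' y) ≤ cnt N P + cnt N P' := by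
  unfold cnt
  have : {y : G | y ∈ N ∧ (P y ∨ P' y)} = {y : G | y ∈ N ∧ P y} ∪ {y : G | y ∈ N ∧ P' y} := by
    ext y; simp only [Set.mem_setOf_eq, Set.mem_union]; tauto
  rw [this]
  exact Set.ncard_union_le _ _

theorem cnt_add_le (N : Subgroup G) {P P' : G → Prop} (h : ∀ y ∈ N, ¬ (P y ∧ P' y)) :
    cnt N P + cnt N P' ≤ Nat.card N := by
  rw [← cnt_true N]
  unfold cnt
  rw [← Set.ncard_union_eq]
  · exact Set.ncard_le_ncard (by
      rintro y (hy | hy)
      · exact ⟨hy.1, trivial⟩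
      · exact ⟨hy.1, trivial⟩) (Set.toFinite _)
  · rw [Set.disjoint_left]
    intro y hy hy'
    exact h y hy.1 ⟨hy.2, hy'.2⟩

theorem cnt_mul_left (N : Subgroup G) (P : G → Prop) {k : G} (hk : k ∈ N) :
    cnt N (fun y => P (k * y)) = cnt N P := by
  unfold cnt
  rw [← Set.ncard_image_of_injective {y : G | y ∈ N ∧ P (k * y)} (mul_right_injective k)]
  congr 1
  ext y
  simp only [Set.mem_image, Set.mem_setOf_eq]
  constructor
  · rintro ⟨x, ⟨hx, hP⟩, rfl⟩
    exact ⟨N.mul_mem hk hx, hP⟩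
  · rintro ⟨hy, hP⟩
    exact ⟨k⁻¹ * y, ⟨N.mul_mem (N.inv_mem hk) hy, by simpa using hP⟩, by simp⟩

theorem cnt_mul_right (N : Subgroup G) (P : G → Prop) {k : G} (hk : k ∈ N) :
    cnt N (fun y => P (y * k)) = cnt N P := by
  unfold cnt
  rw [← Set.ncard_image_of_injective {y : G | y ∈ N ∧ P (y * k)} (mul_left_injective k)]
  congr 1
  ext y
  simp only [Set.mem_image, Set.mem_setOf_eq]
  constructor
  · rintro ⟨x, ⟨hx, hP⟩, rfl⟩
    exact ⟨N.mul_mem hx hk, hP⟩
  · rintro ⟨hy, hP⟩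
    exact ⟨y * k⁻¹, ⟨N.mul_mem hy (N.inv_mem hk), by simpa using hP⟩, by simp⟩

/-- union bound -/
theorem cnt_exists_le {α : Type} (N : Subgroup G) (D : Finset α) (P : α → G → Prop) (n : ℕ)
    (h : ∀ d ∈ D, n * cnt N (P d) ≤ Nat.card N) :
    n * cnt N (fun y => ∃ d ∈ D, P d y) ≤ D.card * Nat.card N := by
  classical
  induction D using Finset.induction_on with
  | empty => simp [cnt]
  | insert a D ha ih =>
    have h1 : cnt N (fun y => ∃ d ∈ insert a D, P d y) ≤
        cnt N (P a) + cnt N (fun y => ∃ d ∈ D, P d y) := by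
      refine le_trans (cnt_mono N ?_) (cnt_or_le N (P a) (fun y => ∃ d ∈ D, P d y))
      rintro y _ ⟨d, hd, hP⟩
      rcases Finset.mem_insert.1 hd with rfl | hd
      · exact Or.inl hP
      · exact Or.inr ⟨d, hd, hP⟩
    have h2 := h a (Finset.mem_insert_self _ _)
    have h3 := ih (fun d hd => h d (Finset.mem_insert_of_mem hd))
    rw [Finset.card_insert_of_notMem ha]
    calc n * cnt N (fun y => ∃ d ∈ insert a D, P d y)
        ≤ n * (cnt N (P a) + cnt N (fun y => ∃ d ∈ D, P d y)) := Nat.mul_le_mul_left _ h1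
      _ = n * cnt N (P a) + n * cnt N (fun y => ∃ d ∈ D, P d y) := by ring
      _ ≤ Nat.card N + D.card * Nat.card N := Nat.add_le_add h2 h3
      _ = (D.card + 1) * Nat.card N := by ring

theorem exists_not_of_cnt_lt (N : Subgroup G) (P : G → Prop) (h : cnt N P < Nat.card N) :
    ∃ y ∈ N, ¬ P y := by
  by_contra hc
  push Not at hc
  have := cnt_mono N (P := fun _ => True) (P' := P) (fun y hy _ => hc y hy)
  rw [cnt_true] at this
  omega

theorem words_cnt_eq_card (N : Subgroup G) (P : G → Prop) [Fintype G] [DecidablePred P]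
    [DecidablePred (· ∈ N)] :
    cnt N P = (Finset.univ.filter (fun y => y ∈ N ∧ P y)).card := by
  unfold cnt
  rw [← Set.ncard_coe_finset]
  congr 1
  ext y; simp

/-- counting through a homomorphism -/
theorem cnt_comap {H : Type} [Group H] (f : G →* H) (N : Subgroup G) (P : H → Prop) :
    cnt N (fun y => P (f y)) = Nat.card (N ⊓ f.ker : Subgroup G) * cnt (N.map f) P := by
  classical
  haveI := Fintype.ofFinite G
  have hfin : {z : H | z ∈ N.map f ∧ P z}.Finite := by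
    refine (Set.finite_range f).subset ?_
    rintro z ⟨⟨x, _, rfl⟩, _⟩
    exact ⟨x, rfl⟩
  have h2 : cnt (N.map f) P = hfin.toFinset.card := by
    unfold cnt
    rw [Set.ncard_eq_toFinset_card _ hfin]
  rw [words_cnt_eq_card, h2]
  rw [Finset.card_eq_sum_card_fiberwise (f := fun y => f y) (t := hfin.toFinset)]
  · rw [mul_comm, ← smul_eq_mul, ← Finset.sum_const]
    refine Finset.sum_congr rfl ?_
    intro z hz
    rw [Set.Finite.mem_toFinset] at hz
    obtain ⟨⟨x, hx, rfl⟩, hP⟩ := hz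
    rw [← cnt_true, words_cnt_eq_card]
    symm
    refine Finset.card_bij (fun k _ => x * k) ?_ ?_ ?_
    · intro k hk
      simp only [Finset.mem_filter, Finset.mem_univ, true_and, and_true, Subgroup.mem_inf,
        MonoidHom.mem_ker] at hk ⊢
      have : f (x * k) = f x := by rw [map_mul, hk.2, mul_one]
      exact ⟨⟨N.mul_mem hx hk.1, by rw [this]; exact hP⟩, this⟩
    · intro a _ b _ hab
      exact mul_left_cancel hab
    · intro y hy
      simp only [Finset.mem_filter, Finset.mem_univ, true_and] at hy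
      refine ⟨x⁻¹ * y, ?_, by simp⟩
      simp only [Finset.mem_filter, Finset.mem_univ, true_and, and_true, Subgroup.mem_inf,
        MonoidHom.mem_ker]
      exact ⟨N.mul_mem (N.inv_mem hx) hy.1.1, by rw [map_mul, map_inv, hy.2]; simp⟩
  · intro y hy
    simp only [Finset.coe_filter, Finset.mem_univ, true_and, Set.mem_setOf_eq] at hy
    simp only [Set.Finite.coe_toFinset, Set.mem_setOf_eq]
    exact ⟨⟨y, hy.1, rfl⟩, hy.2⟩

/-- double counting: every point of `A` sees a `1 / b` share of `E` in its coset of `Q` -/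
theorem cnt_le_mul_of_cover (N Q : Subgroup G) (hQ : Q ≤ N) (A E : G → Prop) (b : ℕ)
    (h : ∀ y ∈ N, A y → ∃ H : Finset G, (∀ a ∈ H, a ∈ Q) ∧ H.card ≤ b ∧
      ∀ q ∈ Q, ∃ a ∈ H, E (y * a⁻¹ * q)) :
    cnt N A ≤ b * cnt N E := by
  classical
  haveI := Fintype.ofFinite G
  have hpos : 0 < Nat.card Q := Nat.card_pos
  -- local bound
  have h1 : ∀ y ∈ N, A y → Nat.card Q ≤ b * cnt Q (fun q => E (y * q)) := by
    intro y hy hA
    obtain ⟨H, hHQ, hHb, hH⟩ := h y hy hA
    have e1 : cnt Q (fun _ => True) ≤ cnt Q (fun q => ∃ a ∈ H, E (y * (a⁻¹ * q))) := by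
      refine cnt_mono Q ?_
      intro q hq _
      obtain ⟨a, ha, hE⟩ := hH q hq
      exact ⟨a, ha, by rwa [← mul_assoc]⟩
    have e2 : ∀ D : Finset G, (∀ a ∈ D, a ∈ Q) →
        cnt Q (fun q => ∃ a ∈ D, E (y * (a⁻¹ * q))) ≤ D.card * cnt Q (fun q => E (y * q)) := by
      intro D
      induction D using Finset.induction_on with
      | empty => intro _; simp [cnt]
      | insert a D ha ih =>
        intro hD
        have i1 : cnt Q (fun q => ∃ d ∈ insert a D, E (y * (d⁻¹ * q))) ≤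
            cnt Q (fun q => E (y * (a⁻¹ * q))) + cnt Q (fun q => ∃ d ∈ D, E (y * (d⁻¹ * q))) := by
          refine le_trans (cnt_mono Q ?_) (cnt_or_le Q _ _)
          rintro q _ ⟨d, hd, hP⟩
          rcases Finset.mem_insert.1 hd with rfl | hd
          · exact Or.inl hP
          · exact Or.inr ⟨d, hd, hP⟩
        have i2 : cnt Q (fun q => E (y * (a⁻¹ * q))) = cnt Q (fun q => E (y * q)) :=
          cnt_mul_left Q (fun q => E (y * q)) (Q.inv_mem (hD a (Finset.mem_insert_self _ _)))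
        have i3 := ih (fun d hd => hD d (Finset.mem_insert_of_mem hd))
        rw [Finset.card_insert_of_notMem ha]
        rw [i2] at i1
        calc _ ≤ _ := i1
          _ ≤ cnt Q (fun q => E (y * q)) + D.card * cnt Q (fun q => E (y * q)) :=
            Nat.add_le_add_left i3 _
          _ = (D.card + 1) * cnt Q (fun q => E (y * q)) := by ring
    rw [cnt_true] at e1
    exact e1.trans ((e2 H hHQ).trans (Nat.mul_le_mul_right _ hHb))
  -- double counting
  set NF := Finset.univ.filter (fun y : G => y ∈ N) with hNF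
  set QF := Finset.univ.filter (fun y : G => y ∈ Q) with hQF
  have c1 : ∀ (K : Subgroup G) (P : G → Prop),
      cnt K P = ∑ y ∈ Finset.univ.filter (fun y : G => y ∈ K), if P y then 1 else 0 := by
    intro K P
    rw [words_cnt_eq_card, ← Finset.filter_filter, Finset.card_filter]
  have hQc : QF.card = Nat.card Q := by
    rw [← cnt_true, words_cnt_eq_card]
    congr 1
    ext y; simp [hQF]
  have h2 : ∑ y ∈ NF, cnt Q (fun q => E (y * q)) = Nat.card Q * cnt N E := by
    simp only [c1 Q]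
    rw [Finset.sum_comm]
    rw [← hQc, ← smul_eq_mul, ← Finset.sum_const]
    refine Finset.sum_congr rfl ?_
    intro q hq
    have hq' : q ∈ Q := by simpa [hQF] using hq
    rw [← cnt_mul_right N E (hQ hq'), c1 N]
  have h3 : Nat.card Q * cnt N A ≤ b * ∑ y ∈ NF, cnt Q (fun q => E (y * q)) := by
    rw [c1 N A, Finset.mul_sum, Finset.mul_sum]
    refine Finset.sum_le_sum ?_
    intro y hy
    have hy' : y ∈ N := by simpa [hNF] using hy
    by_cases hA : A y
    · simpa [hA] using h1 y hy' hA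
    · simp [hA]
  rw [h2] at h3
  have h4 : Nat.card Q * cnt N A ≤ Nat.card Q * (b * cnt N E) := by
    calc _ ≤ _ := h3
      _ = _ := by ring
  exact Nat.le_of_mul_le_mul_left h4 hpos

end Count

end Pool.Agent.FitW
end

-- part Pool.Agent.P.MP_ec89a0_al.Basic
section

namespace Pool.Agent.FitW

open Subgroup
open scoped commutatorElement

variable {G : Type} [Group G]

theorem dser_mono {K L : Subgroup G} (h : K ≤ L) (n : ℕ) : dser K n ≤ dser L n := by
  induction n with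
  | zero => exact h
  | succ n ih => exact Subgroup.commutator_mono ih ih

theorem dser_succ_le (K : Subgroup G) (n : ℕ) : dser K (n + 1) ≤ dser K n := by
  show ⁅dser K n, dser K n⁆ ≤ dser K n
  simpa using Subgroup.commutator_le_sup (dser K n) (dser K n)

theorem dser_anti (K : Subgroup G) {m n : ℕ} (h : m ≤ n) : dser K n ≤ dser K m :=
  antitone_nat_of_succ_le (dser_succ_le K) h

theorem map_dser {H : Type} [Group H] (f : G →* H) (K : Subgroup G) (n : ℕ) :
    (dser K n).map f = dser (K.map f) n := by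
  induction n with
  | zero => rfl
  | succ n ih =>
    show (⁅dser K n, dser K n⁆).map f = ⁅dser (K.map f) n, dser (K.map f) n⁆
    rw [Subgroup.map_commutator, ih]

theorem Basic_top_eq_bot (H : Type) [Group H] [Finite H] [Group.IsSolvable H] (n : ℕ) :
    dser (⊤ : Subgroup H) n = ⊥ ∨ Nat.card (dser (⊤ : Subgroup H) n) + n ≤ Nat.card H := by
  induction n with
  | zero =>
    right
    show Nat.card (⊤ : Subgroup H) + 0 ≤ _
    simp
  | succ n ih =>
    by_cases hb : dser (⊤ : Subgroup H) n = ⊥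
    · left
      have := dser_succ_le (⊤ : Subgroup H) n
      rw [hb] at this
      exact le_bot_iff.mp this
    · right
      have h1 := ih.resolve_left hb
      have h2 : ⁅dser (⊤ : Subgroup H) n, dser (⊤ : Subgroup H) n⁆ < dser (⊤ : Subgroup H) n :=
        Group.IsSolvable.commutator_lt_of_ne_bot hb
      have h3 : Nat.card (dser (⊤ : Subgroup H) (n + 1)) < Nat.card (dser (⊤ : Subgroup H) n) := by
        have h4 : ((dser (⊤ : Subgroup H) (n + 1) : Subgroup H) : Set H) ⊂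
            ((dser (⊤ : Subgroup H) n : Subgroup H) : Set H) := h2
        exact Set.ncard_lt_ncard h4 (Set.toFinite _)
      omega

/-- a solvable subgroup of order at most `n` has trivial `n`-th derived subgroup -/
theorem dser_eq_bot (K : Subgroup G) [Finite K] [Group.IsSolvable K] {n : ℕ} (h : Nat.card K ≤ n) :
    dser K n = ⊥ := by
  have h1 : dser (⊤ : Subgroup K) n = ⊥ := by
    rcases Basic_top_eq_bot K n with h2 | h2
    · exact h2
    · have h3 : 0 < Nat.card (dser (⊤ : Subgroup K) n) := Nat.card_pos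
      omega
  have h2 := map_dser K.subtype ⊤ n
  rw [h1, Subgroup.map_bot, ← MonoidHom.range_eq_map, Subgroup.subtype_range] at h2
  exact h2.symm

theorem Chain.antitone {R : ℕ → Subgroup G} (h : Chain R) : Antitone R :=
  antitone_nat_of_succ_le h.anti

theorem Chain.le_dser {R : ℕ → Subgroup G} (h : Chain R) {K : Subgroup G} {j : ℕ}
    (hj : R j ≤ K) (f : ℕ) : R (j + f) ≤ dser K f := by
  induction f with
  | zero => exact hj
  | succ f ih =>
    show R (j + f + 1) ≤ ⁅dser K f, dser K f⁆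
    rw [← h.comm (j + f)]
    exact Subgroup.commutator_mono ((h.anti _).trans ih) ih

theorem Basic_lcs_normal (S : Subgroup G) [S.Normal] (k : ℕ) : (S.lowerCentralSeries k).Normal := by
  induction k with
  | zero => simpa using (inferInstance : S.Normal)
  | succ k ih =>
    rw [Subgroup.lowerCentralSeries_succ]
    infer_instance

theorem Basic_lcs_stab [Finite G] (S : Subgroup G) :
    ∃ k, 1 ≤ k ∧ S.lowerCentralSeries (k + 1) = S.lowerCentralSeries k := by
  obtain ⟨T, ⟨k, hk, rfl⟩, hmin⟩ := (wellFounded_lt (α := Subgroup G)).has_min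
    {T | ∃ k, 1 ≤ k ∧ S.lowerCentralSeries k = T} ⟨_, 1, le_rfl, rfl⟩
  refine ⟨k, hk, ?_⟩
  have h1 : S.lowerCentralSeries (k + 1) ≤ S.lowerCentralSeries k :=
    S.lowerCentralSeries_antitone (Nat.le_succ k)
  rcases h1.lt_or_eq with h2 | h2
  · exact absurd h2 (hmin _ ⟨k + 1, by omega, rfl⟩)
  · exact h2

theorem exists_chain (G : Type) [Group G] [Finite G] [Group.IsSolvable G] :
    ∃ R : ℕ → Subgroup G, Chain R := by
  choose κ hκ1 hκ2 using fun S : Subgroup G => Basic_lcs_stab S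
  let R : ℕ → Subgroup G := fun j => Nat.rec ⊤ (fun _ S => S.lowerCentralSeries (κ S)) j
  have hR : ∀ j, R (j + 1) = (R j).lowerCentralSeries (κ (R j)) := fun _ => rfl
  have hN : ∀ j, (R j).Normal := by
    intro j
    induction j with
    | zero => exact (inferInstance : (⊤ : Subgroup G).Normal)
    | succ j ih => rw [hR]; exact @Basic_lcs_normal _ _ _ ih _
  have hle : ∀ j, R j ≤ dser (⊤ : Subgroup G) j := by
    intro j
    induction j with
    | zero => exact le_rfl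
    | succ j ih =>
      rw [hR]
      refine ((R j).lowerCentralSeries_antitone (hκ1 (R j))).trans ?_
      show ⁅R j, R j⁆ ≤ ⁅dser ⊤ j, dser ⊤ j⁆
      exact Subgroup.commutator_mono ih ih
  refine ⟨R, rfl, hN, fun j => ?_, fun j => ?_, fun j => ⟨κ (R j), le_of_eq (hR j).symm⟩, ?_⟩
  · rw [hR]
    exact (R j).lowerCentralSeries_antitone (Nat.zero_le _)
  · rw [hR, ← Subgroup.lowerCentralSeries_succ]
    exact hκ2 _
  · refine ⟨Nat.card G, le_bot_iff.mp ((hle _).trans (le_of_eq ?_))⟩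
    exact dser_eq_bot ⊤ (by simp)

theorem exists_sect [Finite G] (Q K : Subgroup G) [Q.Normal] [K.Normal] (hle : K ≤ Q)
    (hab : ⁅Q, Q⁆ ≤ K) :
    ∃ (X : Type) (_ : AddCommGroup X) (_ : Finite X) (_ : DistribMulAction G X) (p : G → X),
      IsSect Q K p := by
  classical
  let π := QuotientGroup.mk' K
  let M : Subgroup (G ⧸ K) := Q.map π
  have hMn : M.Normal := Subgroup.Normal.map inferInstance π (QuotientGroup.mk'_surjective K)
  have hcomm : ∀ a b : M, a * b = b * a := by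
    rintro ⟨_, a, ha, rfl⟩ ⟨_, b, hb, rfl⟩
    apply Subtype.ext
    show π a * π b = π b * π a
    have h1 : π ⁅a, b⁆ = 1 := by
      rw [← MonoidHom.mem_ker, QuotientGroup.ker_mk']
      exact hab (Subgroup.commutator_mem_commutator ha hb)
    rw [map_commutatorElement] at h1
    exact commutatorElement_eq_one_iff_mul_comm.mp h1
  let iC : CommGroup M := { (inferInstance : Group M) with mul_comm := hcomm }
  let act : G → Additive M → Additive M := fun g x =>
    Additive.ofMul ⟨π g * (Additive.toMul x : M).1 * (π g)⁻¹,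
      hMn.conj_mem _ (Additive.toMul x).2 _⟩
  let iS : SMul G (Additive M) := ⟨act⟩
  have hact : ∀ (g : G) (x : Additive M),
      ((Additive.toMul (g • x) : M) : G ⧸ K) = π g * (Additive.toMul x : M).1 * (π g)⁻¹ :=
    fun _ _ => rfl
  have hext : ∀ x y : Additive M,
      ((Additive.toMul x : M) : G ⧸ K) = (Additive.toMul y : M) → x = y := by
    intro x y h
    exact Additive.toMul.injective (Subtype.ext h)
  let iD : DistribMulAction G (Additive M) :=
    { one_smul := fun x => hext _ _ (by rw [hact]; simp)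
      mul_smul := fun g h x => hext _ _ (by rw [hact, hact, hact, map_mul]; group)
      smul_zero := fun g => hext _ _ (by rw [hact]; simp)
      smul_add := fun g x y => hext _ _ (by
        rw [hact, toMul_add, toMul_add, Subgroup.coe_mul, Subgroup.coe_mul, hact, hact]; group) }
  let p : G → Additive M := fun x =>
    if h : x ∈ Q then Additive.ofMul ⟨π x, Subgroup.mem_map_of_mem π h⟩ else 0
  have hp : ∀ x ∈ Q, ((Additive.toMul (p x) : M) : G ⧸ K) = π x := by
    intro x hx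
    simp only [p, dif_pos hx]
    rfl
  refine ⟨Additive M, inferInstance, inferInstance, iD, p, ?_, ?_, ?_, ?_⟩
  · intro x hx y hy
    apply hext
    rw [toMul_add, Subgroup.coe_mul, hp _ hx, hp _ hy, hp _ (Q.mul_mem hx hy), map_mul]
  · intro g x hx
    apply hext
    rw [hact, hp _ hx, hp _ (Subgroup.Normal.conj_mem inferInstance x hx g), map_mul, map_mul,
      map_inv]
  · intro x hx
    constructor
    · intro h
      have h1 := hp x hx
      rw [h] at h1
      have h2 : π x = 1 := by simpa using h1.symm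
      rwa [← MonoidHom.mem_ker, QuotientGroup.ker_mk'] at h2
    · intro h
      apply hext
      rw [hp x hx]
      have h2 : π x = 1 := by
        rwa [← MonoidHom.mem_ker, QuotientGroup.ker_mk']
      simpa using h2
  · intro v
    obtain ⟨x, hx, hxv⟩ := (Additive.toMul v : M).2
    exact ⟨x, hx, hext _ _ (by rw [hp x hx]; exact hxv)⟩

section
variable {X : Type} [AddCommGroup X] [DistribMulAction G X] {Q K : Subgroup G} {p : G → X}

theorem IsSect.one (h : IsSect Q K p) : p 1 = 0 := by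
  have h1 := h.mul 1 Q.one_mem 1 Q.one_mem
  rw [mul_one] at h1
  simpa using h1

theorem IsSect.inv (h : IsSect Q K p) {x : G} (hx : x ∈ Q) : p x⁻¹ = -p x := by
  have h1 := h.mul x hx x⁻¹ (Q.inv_mem hx)
  rw [mul_inv_cancel, h.one] at h1
  exact (neg_eq_of_add_eq_zero_right h1.symm).symm

/-- the preimage in `Q` of a subgroup of the section -/
def IsSect.pre (h : IsSect Q K p) (U : AddSubgroup X) : Subgroup G where
  carrier := {u | u ∈ Q ∧ p u ∈ U}
  one_mem' := ⟨Q.one_mem, by rw [h.one]; exact U.zero_mem⟩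
  mul_mem' := by
    rintro a b ⟨ha, ha'⟩ ⟨hb, hb'⟩
    exact ⟨Q.mul_mem ha hb, by rw [h.mul a ha b hb]; exact U.add_mem ha' hb'⟩
  inv_mem' := by
    rintro a ⟨ha, ha'⟩
    exact ⟨Q.inv_mem ha, by rw [h.inv ha]; exact U.neg_mem ha'⟩

theorem IsSect.mem_pre (h : IsSect Q K p) (U : AddSubgroup X) (u : G) :
    u ∈ h.pre U ↔ u ∈ Q ∧ p u ∈ U := Iff.rfl

/-- `[Q, T] = Q` passes to the section -/
theorem IsSect.mov (h : IsSect Q K p) [Q.Normal] {T : Subgroup G} (hT : ⁅Q, T⁆ = Q) :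
    Mov X T := by
  unfold Mov
  set U := AddSubgroup.closure {v : X | ∃ t ∈ T, ∃ x : X, v = t • x - x} with hU
  have h1 : ⁅Q, T⁆ ≤ h.pre U := by
    rw [Subgroup.commutator_le]
    intro q hq t ht
    have hq' : t * q⁻¹ * t⁻¹ ∈ Q := Subgroup.Normal.conj_mem inferInstance _ (Q.inv_mem hq) t
    have he : ⁅q, t⁆ = q * (t * q⁻¹ * t⁻¹) := by
      rw [commutatorElement_def]; group
    rw [h.mem_pre, he]
    refine ⟨Q.mul_mem hq hq', ?_⟩
    rw [h.mul _ hq _ hq', h.conj t _ (Q.inv_mem hq), h.inv hq]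
    apply AddSubgroup.subset_closure
    exact ⟨t, ht, -p q, by abel⟩
  rw [eq_top_iff]
  intro v _
  obtain ⟨x, hx, rfl⟩ := h.surj v
  rw [hT] at h1
  exact (h1 hx).2

/-- elements centralising `Q` modulo `K` act trivially -/
theorem IsSect.smul_eq (h : IsSect Q K p) [Q.Normal] {g : G} (hg : ∀ u ∈ Q, ⁅g, u⁆ ∈ K)
    (x : X) : g • x = x := by
  obtain ⟨u, hu, rfl⟩ := h.surj x
  have hu' : g * u * g⁻¹ ∈ Q := Subgroup.Normal.conj_mem inferInstance _ hu g
  have he : ⁅g, u⁆ = (g * u * g⁻¹) * u⁻¹ := by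
    rw [commutatorElement_def]
  have h1 : p ⁅g, u⁆ = 0 := (h.ker _ (by rw [he]; exact Q.mul_mem hu' (Q.inv_mem hu))).mpr (hg u hu)
  rw [he, h.mul _ hu' _ (Q.inv_mem hu), h.conj g u hu, h.inv hu] at h1
  exact add_neg_eq_zero.mp h1

/-- a chief factor is a simple module -/
theorem IsSect.simple (h : IsSect Q K p) [Q.Normal] [K.Normal] (hle : K ≤ Q)
    (hmin : ∀ U : Subgroup G, U.Normal → K ≤ U → U ≤ Q → U = K ∨ U = Q) : SimpleMod G X := by
  intro U hU
  have hn : (h.pre U).Normal := ⟨by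
    rintro u ⟨hu, hu'⟩ g
    exact ⟨Subgroup.Normal.conj_mem inferInstance _ hu g, by rw [h.conj g u hu]; exact hU g _ hu'⟩⟩
  have hK : K ≤ h.pre U := fun k hk =>
    ⟨hle hk, by rw [(h.ker k (hle hk)).mpr hk]; exact U.zero_mem⟩
  rcases hmin _ hn hK (fun u hu => hu.1) with h1 | h1
  · left
    rw [eq_bot_iff]
    intro v hv
    obtain ⟨x, hx, rfl⟩ := h.surj v
    have h2 : x ∈ h.pre U := ⟨hx, hv⟩
    rw [h1] at h2
    exact (h.ker x hx).mpr h2
  · right
    rw [eq_top_iff]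
    intro v _
    obtain ⟨x, hx, rfl⟩ := h.surj v
    have h2 : x ∈ h.pre U := by rw [h1]; exact hx
    exact h2.2

/-- the image of `Q ⊓ A` in the section -/
theorem IsSect.exists_image (h : IsSect Q K p) [Q.Normal] (A : Subgroup G) (hK : K ≤ A) :
    ∃ Y : AddSubgroup X, (∀ u ∈ Q, p u ∈ Y ↔ u ∈ A) ∧ (∀ a ∈ A, ∀ x ∈ Y, a • x ∈ Y) ∧
      (¬ Q ≤ A → Y ≠ ⊤) := by
  let Y : AddSubgroup X :=
    { carrier := {v | ∃ u, u ∈ Q ∧ u ∈ A ∧ p u = v}
      zero_mem' := ⟨1, Q.one_mem, A.one_mem, h.one⟩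
      add_mem' := by
        rintro _ _ ⟨a, ha, ha', rfl⟩ ⟨b, hb, hb', rfl⟩
        exact ⟨a * b, Q.mul_mem ha hb, A.mul_mem ha' hb', h.mul a ha b hb⟩
      neg_mem' := by
        rintro _ ⟨a, ha, ha', rfl⟩
        exact ⟨a⁻¹, Q.inv_mem ha, A.inv_mem ha', h.inv ha⟩ }
  have hY : ∀ u ∈ Q, p u ∈ Y ↔ u ∈ A := by
    intro u hu
    constructor
    · rintro ⟨a, ha, ha', hau⟩
      have h1 : p (a⁻¹ * u) = 0 := by
        rw [h.mul _ (Q.inv_mem ha) _ hu, h.inv ha, hau, neg_add_cancel]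
      have h2 := hK ((h.ker _ (Q.mul_mem (Q.inv_mem ha) hu)).mp h1)
      have h3 := A.mul_mem ha' h2
      simpa using h3
    · intro hA
      exact ⟨u, hu, hA, rfl⟩
  refine ⟨Y, hY, ?_, ?_⟩
  · rintro a ha _ ⟨u, hu, hu', rfl⟩
    exact ⟨a * u * a⁻¹, Subgroup.Normal.conj_mem inferInstance _ hu a,
      A.mul_mem (A.mul_mem ha hu') (A.inv_mem ha), h.conj a u hu⟩
  · intro hQ htop
    apply hQ
    intro u hu
    exact (hY u hu).mp (by rw [htop]; trivial)

end

end Pool.Agent.FitW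
end

-- part Pool.Agent.P.MP_ec89a0_al.Cop
section

namespace Pool.Agent.FitW

open Subgroup
open scoped commutatorElement

/-- a transitive solvable group generated by elements of small support has small degree -/
theorem perm_card_le {Γ Ω : Type} [Group Γ] [Finite Γ] [Group.IsSolvable Γ] [Finite Ω] [MulAction Γ Ω]
    [MulAction.IsPretransitive Γ Ω] (S : Set Γ) (hS : Subgroup.closure S = ⊤) (σ : ℕ)
    (hσ : ∀ t ∈ S, Set.ncard {ω : Ω | t • ω ≠ ω} ≤ σ) : Nat.card Ω ≤ max 1 (2 * σ) := by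
  by_cases h1 : Nat.card Ω ≤ 1
  · exact h1.trans (le_max_left _ _)
  refine le_trans ?_ (le_max_right _ _)
  have : Nontrivial Ω := Finite.one_lt_card_iff_nontrivial.1 (not_le.1 h1)
  obtain ⟨ω₀, ω₁, hω⟩ := exists_pair_ne Ω
  set A := MulAction.stabilizer Γ ω₀ with hA
  have hA' : A ≠ ⊤ := fun h => by
    obtain ⟨g, hg⟩ := MulAction.exists_smul_eq Γ ω₀ ω₁
    exact hω ((show g ∈ A from h ▸ mem_top g).symm.trans hg)
  obtain ⟨j, j1, j2⟩ : ∃ j, derivedSeries Γ j ⊔ A = ⊤ ∧ derivedSeries Γ (j + 1) ⊔ A ≠ ⊤ := by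
    by_contra h
    push Not at h
    have key : ∀ j, derivedSeries Γ j ⊔ A = ⊤ := fun j => by
      induction j with
      | zero => simp
      | succ j ih => exact h j ih
    obtain ⟨n, hn⟩ := Group.IsSolvable.solvable (G := Γ)
    exact hA' (by simpa [hn] using key n)
  have trans : ∀ ω : Ω, ∃ d ∈ derivedSeries Γ j, d • ω₀ = ω := fun ω => by
    obtain ⟨g, hg⟩ := MulAction.exists_smul_eq Γ ω₀ ω
    obtain ⟨d, hd, a, ha, rfl⟩ := mem_sup_of_normal_left.1 (j1 ▸ mem_top g)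
    exact ⟨d, hd, by rw [← hg, mul_smul, show a • ω₀ = ω₀ from ha]⟩
  have conj : ∀ (c d : Γ), c • d • ω₀ = d • ω₀ → d⁻¹ * c * d ∈ derivedSeries Γ (j + 1) ⊔ A :=
    fun c d h => mem_sup_right (by
      rw [hA, MulAction.mem_stabilizer_iff, mul_smul, mul_smul, h, inv_smul_smul])
  have free : ∀ c ∈ derivedSeries Γ j, c ∉ derivedSeries Γ (j + 1) ⊔ A → ∀ ω : Ω, c • ω ≠ ω := by
    intro c hc hc' ω h
    obtain ⟨d, hd, rfl⟩ := trans ω
    have h2 : ⁅d⁻¹, c⁆ ∈ derivedSeries Γ (j + 1) ⊔ A :=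
      mem_sup_left (commutator_mem_commutator (inv_mem hd) hc)
    refine hc' ?_
    have := mul_mem (inv_mem h2) (conj c d h)
    simpa [commutatorElement_def, mul_assoc] using this
  obtain ⟨t, t1, t2⟩ : ∃ t ∈ S, t ∉ derivedSeries Γ (j + 1) ⊔ A := by
    by_contra h
    push Not at h
    exact j2 (top_le_iff.1 (hS ▸ (closure_le _).2 h))
  have t3 := hσ t t1
  by_cases h : ∃ ω : Ω, t • ω = ω
  · obtain ⟨ω, h⟩ := h
    obtain ⟨d, hd, rfl⟩ := trans ω
    have h2 := conj t d h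
    have h3 := free (t⁻¹ * (d⁻¹ * t * d)) (by
      have := mul_mem ((inferInstance : (derivedSeries Γ j).Normal).conj_mem _ (inv_mem hd) t⁻¹) hd
      simpa [mul_assoc] using this) fun h3 => t2 (by
        simpa [mul_assoc] using mul_mem h2 (inv_mem h3))
    have h4 : (Set.univ : Set Ω) ⊆ {ω | t • ω ≠ ω} ∪ (fun ω => d⁻¹ • ω) '' {ω | t • ω ≠ ω} := by
      intro ω _
      by_contra h4
      simp only [Set.mem_union, Set.mem_ofPred_eq, Set.mem_image, not_or, not_not, not_exists,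
        not_and] at h4
      refine h3 ω ?_
      have h5 : t • d • ω = d • ω := by
        by_contra h5
        exact h4.2 _ h5 (inv_smul_smul _ _)
      rw [mul_smul, mul_smul, mul_smul, h5, inv_smul_smul, inv_smul_eq_iff, h4.1]
    have h5 := (Set.ncard_le_ncard h4 (Set.toFinite _)).trans (Set.ncard_union_le _ _)
    have h6 := Set.ncard_image_le (f := fun ω => d⁻¹ • ω) (s := {ω : Ω | t • ω ≠ ω})
      (Set.toFinite _)
    rw [Set.ncard_univ] at h5
    omega
  · rw [Set.eq_univ_of_forall (s := {ω : Ω | t • ω ≠ ω}) fun ω h' => h ⟨ω, h'⟩,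
      Set.ncard_univ] at t3
    omega

variable {G : Type} [Group G] {X : Type} [AddCommGroup X] [DistribMulAction G X]

/-- a nontrivial normal `r`-subgroup of exponent `r` of a faithful simple module -/
theorem cop_zero [Finite G] [Finite X] (hs : SimpleMod G X) (hf : Faith G X) (E : Subgroup G)
    [E.Normal] (hE : E ≠ ⊥) {r : ℕ} (hr : r.Prime) (hexp : ∀ e ∈ E, e ^ r = 1) :
    (∀ x : X, (∀ e ∈ E, e • x = x) → x = 0) ∧ ∀ x : X, r • x = 0 → x = 0 := by
  have triv : ¬ ∀ x : X, ∀ e ∈ E, e • x = x := fun h =>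
    hE (eq_bot_iff.2 fun e he => hf e fun x => h x e he)
  have h1 : ∀ x : X, (∀ e ∈ E, e • x = x) → x = 0 := by
    rcases hs (FixedPoints.addSubgroup E X) (fun g x hx e => by
      have := hx ⟨g⁻¹ * e * g, by
        simpa using (inferInstance : E.Normal).conj_mem _ e.2 g⁻¹⟩
      change (g⁻¹ * e * g) • x = x at this
      change (e : G) • g • x = g • x
      rwa [mul_smul, mul_smul, inv_smul_eq_iff] at this) with h | h
    · exact fun x hx => (AddSubgroup.eq_bot_iff_forall _).1 h x fun e => hx e e.2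
    · exact absurd (fun x e he => (show x ∈ FixedPoints.addSubgroup E X from
        h ▸ AddSubgroup.mem_top x) ⟨e, he⟩) triv
  refine ⟨h1, ?_⟩
  rcases hs (nsmulAddMonoidHom (α := X) r).ker (fun g x hx => by
    change r • x = 0 at hx
    change r • g • x = 0
    rw [← smul_comm, hx, smul_zero]) with h | h
  · exact (AddSubgroup.eq_bot_iff_forall _).1 h
  intro x hx
  by_contra h0
  have := Fact.mk hr
  have hp : IsPGroup r E := fun e => ⟨1, Subtype.ext (by simpa using hexp e e.2)⟩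
  obtain ⟨b, b1, b2⟩ := hp.exists_fixed_point_of_prime_dvd_card_of_fixed_point X
    (addOrderOf_eq_prime hx h0 ▸ addOrderOf_dvd_natCard x) (a := 0) fun e => smul_zero e
  exact b2 (h1 b fun e he => b1 ⟨e, he⟩).symm

/-- coprime action of an elementary abelian group: a hyperplane whose fixed points leave `Y` -/
theorem cop_eta [Finite G] [Finite X] (E : Subgroup G) (hc : ∀ e ∈ E, ∀ e' ∈ E, e * e' = e' * e)
    {r : ℕ} (hr : r.Prime) (hexp : ∀ e ∈ E, e ^ r = 1)
    (h0 : ∀ x : X, (∀ e ∈ E, e • x = x) → x = 0) (hr0 : ∀ x : X, r • x = 0 → x = 0)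
    (Y : AddSubgroup X) (hY : Y ≠ ⊤) :
    ∃ η : Subgroup G, η ≤ E ∧ (∃ x : X, (∀ e ∈ η, e • x = x) ∧ x ∉ Y) ∧
      (∀ e ∈ E, e ∉ η → ∀ x : X, (∀ e' ∈ η, e' • x = x) → e • x = x → x = 0) ∧
      ∃ e₀ ∈ E, e₀ ∉ η ∧ ∀ e ∈ E, ∃ k : ℕ, (e₀ ^ k)⁻¹ * e ∈ η := by
  obtain ⟨η, ⟨a1, x₀, a2, a3⟩, a4⟩ := (Set.toFinite {η : Subgroup G | η ≤ E ∧
      ∃ x : X, (∀ e ∈ η, e • x = x) ∧ x ∉ Y}).exists_maximal (by
    obtain ⟨x, hx⟩ : ∃ x, x ∉ Y := by
      by_contra h
      push Not at h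
      exact hY ((AddSubgroup.eq_top_iff' _).2 h)
    exact ⟨⊥, bot_le, x, fun e he => by rw [mem_bot.1 he, one_smul], hx⟩)
  have c1 : ∀ e ∈ E, e ∉ η → ∀ x : X, (∀ e' ∈ η, e' • x = x) → e • x = x → x ∈ Y := by
    intro e he he' x h1 h2
    by_contra h3
    have h4 : η ⊔ zpowers e ≤ MulAction.stabilizer G x := sup_le h1 (zpowers_le.2 h2)
    exact he' (a4 ⟨sup_le a1 (zpowers_le.2 he), x, h4, h3⟩ le_sup_left
      (mem_sup_right (mem_zpowers e)))
  have inv : ∀ e ∈ E, ∀ x : X, (∀ e' ∈ η, e' • x = x) → ∀ e' ∈ η, e' • e • x = e • x :=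
    fun e he x hx e' he' => by rw [← mul_smul, hc e' (a1 he') e he, mul_smul, hx e' he']
  have c2 : ∀ e ∈ E, e ∉ η → ∀ x : X, (∀ e' ∈ η, e' • x = x) →
      ∑ i ∈ Finset.range r, e ^ i • x ∈ Y := by
    intro e he he' x hx
    refine c1 e he he' _ (fun e' h1 => ?_) ?_
    · rw [Finset.smul_sum]
      exact Finset.sum_congr rfl fun i _ => inv _ (pow_mem he i) x hx e' h1
    · have h1 := Finset.sum_range_succ (fun i => e ^ i • x) r
      rw [Finset.sum_range_succ', hexp e he, pow_zero, add_left_inj] at h1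
      rw [Finset.smul_sum]
      refine Eq.trans (Finset.sum_congr rfl fun i _ => ?_) h1
      rw [pow_succ', mul_smul]
  have c3 : ∀ e₁ ∈ E, e₁ ∉ η → ∀ e ∈ E, ∃ k : ℕ, (e₁ ^ k)⁻¹ * e ∈ η := by
    intro e₁ h1 h2 e h3
    by_contra h4
    push Not at h4
    have d1 : ∀ x : X, (∀ e' ∈ η, e' • x = x) → r • x ∈ Y := by
      intro x hx
      have d2 : ∑ j ∈ Finset.range r, ∑ i ∈ Finset.range r, (e₁ ^ j * e) ^ i • x ∈ Y := by
        refine sum_mem fun j _ => c2 _ (mul_mem (pow_mem h1 j) h3) (fun d3 => ?_) x hx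
        refine h4 ((r - 1) * j) ?_
        rwa [inv_eq_of_mul_eq_one_left (a := e₁ ^ j) (by
          rw [← pow_add, ← one_add_mul, Nat.add_sub_of_le hr.one_le, pow_mul, hexp e₁ h1,
            one_pow])]
      obtain ⟨s, rfl⟩ := Nat.exists_eq_succ_of_ne_zero hr.ne_zero
      rw [Finset.sum_comm, Finset.sum_range_succ'] at d2
      simp only [pow_zero, one_smul, Finset.sum_const, Finset.card_range] at d2
      refine (AddSubgroup.add_mem_cancel_left Y (sum_mem fun i hi => ?_)).1 d2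
      have d3 : e₁ ^ (i + 1) ∉ η := fun d3 => by
        obtain ⟨m, hm⟩ := exists_pow_eq_self_of_coprime (x := e₁) (n := i + 1)
          (Nat.Coprime.coprime_dvd_right (orderOf_dvd_of_pow_eq_one (hexp e₁ h1))
            (Nat.coprime_of_lt_prime i.succ_ne_zero
              (Nat.succ_lt_succ (Finset.mem_range.1 hi)) hr).symm)
        exact h2 (hm ▸ pow_mem d3 m)
      have d4 := c2 _ (pow_mem h1 (i + 1)) d3 _ (inv _ (pow_mem h3 (i + 1)) x hx)
      have d5 : ∑ j ∈ Finset.range (s + 1), (e₁ ^ j * e) ^ (i + 1) • x =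
          ∑ j ∈ Finset.range (s + 1), (e₁ ^ (i + 1)) ^ j • e ^ (i + 1) • x :=
        Finset.sum_congr rfl fun j _ => by
          rw [Commute.mul_pow (hc _ (pow_mem h1 j) e h3), mul_smul, ← pow_mul, ← pow_mul, mul_comm]
      exact d5 ▸ d4
    let f : {x : X // ∀ e' ∈ η, e' • x = x} → {x : X // ∀ e' ∈ η, e' • x = x} :=
      fun x => ⟨r • x.1, fun e' he' => by rw [smul_comm, x.2 e' he']⟩
    have d2 : Function.Injective f := fun x y h => Subtype.ext (sub_eq_zero.1 (hr0 _ (by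
      rw [smul_sub, sub_eq_zero]
      exact congrArg Subtype.val h)))
    obtain ⟨x, hx⟩ := Finite.surjective_of_injective d2 ⟨x₀, a2⟩
    exact a3 ((show r • x.1 = x₀ from congrArg Subtype.val hx) ▸ d1 x.1 x.2)
  refine ⟨η, a1, ⟨x₀, a2, a3⟩, fun e he he' x h1 h2 => h0 x fun e' h3 => ?_, ?_⟩
  · obtain ⟨k, hk⟩ := c3 e he he' e' h3
    have := h1 _ hk
    rw [mul_smul, inv_smul_eq_iff] at this
    exact this.trans (pow_mem (show e ∈ MulAction.stabilizer G x from h2) k)
  · obtain ⟨e₀, b1, b2⟩ : ∃ e₀ ∈ E, e₀ ∉ η := by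
      by_contra h
      push Not at h
      exact a3 (h0 x₀ (fun e he => a2 e (h e he)) ▸ zero_mem Y)
    exact ⟨e₀, b1, b2, c3 e₀ b1 b2⟩

end Pool.Agent.FitW
end

-- part Pool.Agent.P.MP_ec89a0_al.Refl
section

namespace Pool.Agent.FitW

open Subgroup
open scoped commutatorElement Pointwise

section Rank

variable {Γ : Type} [Group Γ] (V : Type) [AddCommGroup V] [DistribMulAction Γ V]

/-- number of values of `t - 1` -/
noncomputable def refl_rk (t : Γ) : ℕ := Set.ncard (Set.range fun v : V => t • v - v)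

variable {V}

theorem refl_rk_mul [Finite V] (s t : Γ) : refl_rk V (s * t) ≤ refl_rk V s * refl_rk V t := by
  unfold refl_rk
  rw [← Set.ncard_prod]
  refine le_trans (Set.ncard_le_ncard ?_ (Set.toFinite _))
    (Set.ncard_image_le (f := fun p : V × V => p.1 + p.2) (Set.toFinite _))
  rintro _ ⟨v, rfl⟩
  exact ⟨(s • t • v - t • v, t • v - v), ⟨⟨t • v, rfl⟩, ⟨v, rfl⟩⟩, by simp [mul_smul]⟩

theorem refl_rk_conj [Finite V] (g t : Γ) : refl_rk V (g * t * g⁻¹) ≤ refl_rk V t := by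
  unfold refl_rk
  refine le_trans (Set.ncard_le_ncard ?_ (Set.toFinite _))
    (Set.ncard_image_le (f := fun v : V => g • v) (Set.toFinite _))
  rintro _ ⟨v, rfl⟩
  exact ⟨_, ⟨g⁻¹ • v, rfl⟩, by simp [mul_smul, smul_sub]⟩

theorem refl_rk_inv [Finite V] (t : Γ) : refl_rk V t⁻¹ ≤ refl_rk V t := by
  unfold refl_rk
  refine le_trans (Set.ncard_le_ncard ?_ (Set.toFinite _))
    (Set.ncard_image_le (f := fun v : V => -v) (Set.toFinite _))
  rintro _ ⟨v, rfl⟩
  exact ⟨_, ⟨t⁻¹ • v, rfl⟩, by simp⟩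

theorem refl_rk_comm_right [Finite V] (y t : Γ) : refl_rk V ⁅y, t⁆ ≤ refl_rk V t * refl_rk V t := by
  rw [commutatorElement_def]
  exact (refl_rk_mul _ _).trans (Nat.mul_le_mul (refl_rk_conj _ _) (refl_rk_inv _))

theorem refl_rk_comm_left [Finite V] (e z : Γ) : refl_rk V ⁅e, z⁆ ≤ refl_rk V e * refl_rk V e := by
  rw [commutatorElement_def, show e * z * e⁻¹ * z⁻¹ = e * (z * e⁻¹ * z⁻¹) by group]
  exact (refl_rk_mul _ _).trans (Nat.mul_le_mul le_rfl ((refl_rk_conj _ _).trans (refl_rk_inv _)))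

/-- the fixed points of one element -/
def refl_fix (t : Γ) : AddSubgroup V where
  carrier := {v | t • v = v}
  add_mem' := fun {a b} ha hb => by
    simp only [Set.mem_ofPred_eq] at ha hb ⊢; rw [smul_add, ha, hb]
  zero_mem' := smul_zero t
  neg_mem' := fun {a} ha => by
    simp only [Set.mem_ofPred_eq] at ha ⊢; rw [smul_neg, ha]

theorem refl_fix_ne_top (hf : Faith Γ V) {t : Γ} (ht : t ≠ 1) : (refl_fix t : AddSubgroup V) ≠ ⊤ := by
  intro h
  exact ht (hf t fun x => (h ▸ AddSubgroup.mem_top x : x ∈ (refl_fix t : AddSubgroup V)))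

theorem refl_central [Finite V] (hs : SimpleMod Γ V) (hf : Faith Γ V) {t : Γ}
    (hc : t ∈ center Γ) (ht : t ≠ 1) : Nat.card V ≤ refl_rk V t := by
  have h1 : (refl_fix t : AddSubgroup V) = ⊥ := by
    refine (hs _ fun g x hx => ?_).resolve_right (refl_fix_ne_top hf ht)
    change t • x = x at hx
    change t • g • x = g • x
    rw [← mul_smul, ← mem_center_iff.1 hc g, mul_smul, hx]
  have h2 : Function.Injective fun v : V => t • v - v := by
    intro a b hab
    have : a - b ∈ (refl_fix t : AddSubgroup V) := by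
      change t • (a - b) = a - b
      simp only at hab
      rw [smul_sub, sub_eq_sub_iff_sub_eq_sub, hab]
    rw [h1, AddSubgroup.mem_bot] at this
    exact sub_eq_zero.1 this
  unfold refl_rk
  rw [← Set.image_univ, Set.ncard_image_of_injective _ h2, Set.ncard_univ]

end Rank

/-- the imprimitive case -/
theorem refl_blocks {Γ V : Type} [Group Γ] [Finite Γ] [Group.IsSolvable Γ]
    [AddCommGroup V] [Finite V] [DistribMulAction Γ V] (hs : SimpleMod Γ V)
    (S : Set Γ) (hS : Subgroup.closure S = ⊤) {n m : ℕ} (hn : ∀ t ∈ S, refl_rk V t ≤ n)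
    (E η : Subgroup Γ) [hE : E.Normal] (hc : ∀ e ∈ E, ∀ e' ∈ E, e * e' = e' * e) (hη : η ≤ E)
    (hinj : ∀ e ∈ E, e ∉ η → ∀ x : V, (∀ e' ∈ η, e' • x = x) → e • x = x → x = 0)
    {v0 : V} (hv0 : ∀ e ∈ η, e • v0 = v0) (hv : v0 ≠ 0)
    (hm : Set.ncard {x : V | ∀ e ∈ η, e • x = x} ≤ m) :
    Nat.card V ≤ (m + 1) ^ (max 1 (2 * (2 * n))) := by
  classical
  set W : Set V := {x : V | ∀ e ∈ η, e • x = x} with hW
  have mem : ∀ (g : Γ) (v : V), v ∈ g • W ↔ ∀ e ∈ η, (g * e * g⁻¹) • v = v := by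
    intro g v
    rw [Set.mem_smul_set_iff_inv_smul_mem]
    refine forall₂_congr fun e _ => ?_
    rw [mul_smul, mul_smul, smul_eq_iff_eq_inv_smul g]
  have orb : ∀ ω : MulAction.orbit Γ W, ∃ g : Γ, (ω : Set V) = g • W := fun ω => by
    obtain ⟨g, hg⟩ := ω.2
    exact ⟨g, hg.symm⟩
  have hsub : ∀ ω : MulAction.orbit Γ W, ∀ e ∈ E, ∀ v ∈ (ω : Set V), e • v - v ∈ (ω : Set V) := by
    intro ω e he v hvω
    obtain ⟨g, hg⟩ := orb ω
    rw [hg, mem] at hvω ⊢
    intro x hx
    rw [smul_sub, ← mul_smul, hc _ (hE.conj_mem _ (hη hx) g) _ he, mul_smul, hvω x hx]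
  have sep : ∀ ω1 ω2 : MulAction.orbit Γ W, ω1 ≠ ω2 → ∃ e ∈ E, (∀ v ∈ (ω2 : Set V), e • v - v = 0) ∧
      ∀ v ∈ (ω1 : Set V), e • v - v = 0 → v = 0 := by
    intro ω1 ω2 hne
    obtain ⟨g1, h1⟩ := orb ω1
    obtain ⟨g2, h2⟩ := orb ω2
    by_contra hcon
    apply hne
    apply Subtype.ext
    apply Set.eq_of_subset_of_ncard_le
    · intro v hv1
      rw [h2, mem]
      intro x hx
      have hxE : g2 * x * g2⁻¹ ∈ E := hE.conj_mem _ (hη hx) g2
      have hx' : g1⁻¹ * (g2 * x * g2⁻¹) * g1⁻¹⁻¹ ∈ E := hE.conj_mem _ hxE g1⁻¹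
      by_cases hin : g1⁻¹ * (g2 * x * g2⁻¹) * g1⁻¹⁻¹ ∈ η
      · rw [h1, mem] at hv1
        have := hv1 _ hin
        rwa [show g1 * (g1⁻¹ * (g2 * x * g2⁻¹) * g1⁻¹⁻¹) * g1⁻¹ = g2 * x * g2⁻¹ by group] at this
      · exfalso
        apply hcon
        refine ⟨_, hxE, fun w hw => ?_, fun w hw h0 => ?_⟩
        · rw [h2, mem] at hw
          rw [hw x hx, sub_self]
        · rw [h1, Set.mem_smul_set_iff_inv_smul_mem] at hw
          have := hinj _ hx' hin (g1⁻¹ • w) hw (by
            rw [mul_smul, mul_smul, inv_inv, smul_inv_smul, sub_eq_zero.1 h0])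
          exact (smul_eq_zero_iff_eq g1⁻¹).1 this
    · rw [h1, h2, Set.ncard_smul_set, Set.ncard_smul_set]
    · exact Set.toFinite _
  have hex : ∀ ω : MulAction.orbit Γ W, ∃ v ∈ (ω : Set V), v ≠ 0 := by
    intro ω
    obtain ⟨g, hg⟩ := orb ω
    exact ⟨g • v0, hg ▸ Set.smul_mem_smul_set hv0, fun h => hv ((smul_eq_zero_iff_eq g).1 h)⟩
  choose vv hvv hvv0 using hex
  have act : ∀ (t : Γ) (ω : MulAction.orbit Γ W) (v : V), v ∈ (ω : Set V) →
      t • v ∈ ((t • ω : MulAction.orbit Γ W) : Set V) := fun t ω v h => Set.smul_mem_smul_set h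
  have hsupp : ∀ t ∈ S, Set.ncard {ω : MulAction.orbit Γ W | t • ω ≠ ω} ≤ 2 * n := by
    intro t ht
    have := Fintype.ofFinite (MulAction.orbit Γ W)
    have key : ∀ ω1 ω2 : MulAction.orbit Γ W, t • ω1 ≠ ω1 →
        t • vv ω1 - vv ω1 = t • vv ω2 - vv ω2 → ω2 = ω1 ∨ ω2 = t⁻¹ • ω1 := by
      intro ω1 ω2 hm1 heq
      by_contra hcon
      rw [not_or] at hcon
      obtain ⟨e1, he1, a1, b1⟩ := sep ω1 (t • ω1) hm1.symm
      obtain ⟨e2, he2, a2, b2⟩ := sep ω1 (t • ω2) (fun h => hcon.2 (by rw [h, inv_smul_smul]))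
      obtain ⟨e3, he3, a3, b3⟩ := sep ω1 ω2 (fun h => hcon.1 h.symm)
      have hv1 : vv ω1 = t • vv ω1 - t • vv ω2 + vv ω2 := by
        rw [sub_eq_sub_iff_sub_eq_sub] at heq
        rw [heq]; abel
      let D : Γ → V →+ V := fun e => DistribSMul.toAddMonoidHom V e - AddMonoidHom.id V
      have hD : ∀ e v, D e v = e • v - v := fun e v => rfl
      have z : D e1 (D e2 (D e3 (vv ω1))) = 0 := by
        rw [hv1]
        simp only [map_add, map_sub]
        have z1 : D e1 (D e2 (D e3 (t • vv ω1))) = 0 :=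
          a1 _ (hsub _ _ he2 _ (hsub _ _ he3 _ (act t _ _ (hvv ω1))))
        have z2 : D e2 (D e3 (t • vv ω2)) = 0 := a2 _ (hsub _ _ he3 _ (act t _ _ (hvv ω2)))
        have z3 : D e3 (vv ω2) = 0 := a3 _ (hvv ω2)
        rw [z1, z2, z3]
        simp
      have y1 := b1 _ (hsub _ _ he2 _ (hsub _ _ he3 _ (hvv ω1))) z
      have y2 := b2 _ (hsub _ _ he3 _ (hvv ω1)) y1
      exact hvv0 ω1 (b3 _ (hvv ω1) y2)
    set T : Finset (MulAction.orbit Γ W) := Finset.univ.filter fun ω => t • ω ≠ ω with hT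
    have e1 : {ω : MulAction.orbit Γ W | t • ω ≠ ω} = (T : Set (MulAction.orbit Γ W)) := by
      ext ω; simp [hT]
    rw [e1, Set.ncard_coe_finset]
    refine (Finset.card_le_mul_card_image (f := fun ω => t • vv ω - vv ω) T 2 ?_).trans
      (Nat.mul_le_mul_left 2 (le_trans ?_ (hn t ht)))
    · intro a ha
      obtain ⟨ω1, h1, rfl⟩ := Finset.mem_image.1 ha
      refine le_trans (Finset.card_le_card (t := {ω1, t⁻¹ • ω1}) fun ω2 h2 => ?_) Finset.card_le_two
      have := key ω1 ω2 (Finset.mem_filter.1 h1).2 (Finset.mem_filter.1 h2).2.symm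
      simpa using this
    · rw [← Set.ncard_coe_finset]
      refine Set.ncard_le_ncard (fun a ha => ?_) (Set.toFinite _)
      obtain ⟨ω1, _, rfl⟩ := Finset.mem_image.1 (Finset.mem_coe.1 ha)
      exact ⟨vv ω1, rfl⟩
  have hΩ := perm_card_le S hS (2 * n) hsupp
  have := Fintype.ofFinite (MulAction.orbit Γ W)
  have cl : ∀ ω : MulAction.orbit Γ W, (0 : V) ∈ (ω : Set V) ∧
      (∀ a ∈ (ω : Set V), ∀ b ∈ (ω : Set V), a + b ∈ (ω : Set V)) ∧
      ∀ a ∈ (ω : Set V), -a ∈ (ω : Set V) := by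
    intro ω
    obtain ⟨g, hg⟩ := orb ω
    simp only [hg, mem]
    exact ⟨fun e _ => smul_zero _, fun a ha b hb e he => by rw [smul_add, ha e he, hb e he],
      fun a ha e he => by rw [smul_neg, ha e he]⟩
  let U : AddSubgroup V :=
    { carrier := {v | ∃ f : MulAction.orbit Γ W → V, (∀ ω : MulAction.orbit Γ W, f ω ∈ (ω : Set V)) ∧ ∑ ω, f ω = v}
      add_mem' := by
        rintro _ _ ⟨f, hf, rfl⟩ ⟨f', hf', rfl⟩
        exact ⟨f + f', fun ω => (cl ω).2.1 _ (hf ω) _ (hf' ω), by simp [Finset.sum_add_distrib]⟩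
      zero_mem' := ⟨0, fun ω => (cl ω).1, by simp⟩
      neg_mem' := by
        rintro _ ⟨f, hf, rfl⟩
        exact ⟨-f, fun ω => (cl ω).2.2 _ (hf ω), by simp⟩ }
  have hU : U = ⊤ := by
    refine (hs U ?_).resolve_left fun h => ?_
    · rintro g _ ⟨f, hf, rfl⟩
      refine ⟨fun ω => g • f (g⁻¹ • ω), fun ω => ?_, ?_⟩
      · have := act g _ _ (hf (g⁻¹ • ω))
        rwa [smul_inv_smul] at this
      · rw [Finset.smul_sum]
        exact Equiv.sum_comp (MulAction.toPerm g⁻¹) (fun ω => g • f ω)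
    · let ω0 : MulAction.orbit Γ W := ⟨W, MulAction.mem_orbit_self W⟩
      have : v0 ∈ U := ⟨Pi.single ω0 v0, fun ω => by
        by_cases h0 : ω = ω0
        · rw [h0, Pi.single_eq_same]; exact hv0
        · rw [Pi.single_eq_of_ne h0]; exact (cl ω).1, by simp⟩
      rw [h, AddSubgroup.mem_bot] at this
      exact hv this
  have hsurj : Function.Surjective
      fun f : (ω : MulAction.orbit Γ W) → (ω : Set V) => ∑ ω, (f ω : V) := by
    intro v
    obtain ⟨f, hf, rfl⟩ : v ∈ U := hU ▸ AddSubgroup.mem_top v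
    exact ⟨fun ω => ⟨f ω, hf ω⟩, rfl⟩
  refine (Nat.card_le_card_of_surjective _ hsurj).trans ?_
  rw [Nat.card_pi]
  refine (Finset.prod_le_pow_card _ _ (m + 1) fun ω _ => ?_).trans ?_
  · obtain ⟨g, hg⟩ := orb ω
    rw [Nat.card_coe_set_eq, hg, Set.ncard_smul_set]
    omega
  · rw [Finset.card_univ, ← Nat.card_eq_fintype_card]
    exact Nat.pow_le_pow_right (by omega) hΩ

/-- a faithful simple module of a nontrivial finite solvable group generated by elements `t` with
`|[V, t]| ≤ n` has bounded order -/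
theorem card_le_of_small (n : ℕ) : ∃ g : ℕ, ∀ (Γ V : Type) [Group Γ] [Finite Γ] [Group.IsSolvable Γ]
    [AddCommGroup V] [Finite V] [DistribMulAction Γ V], SimpleMod Γ V → Faith Γ V →
    ∀ S : Set Γ, Subgroup.closure S = ⊤ →
    (∀ t ∈ S, Set.ncard (Set.range fun v : V => t • v - v) ≤ n) →
    (∀ t : Γ, t = 1) ∨ Nat.card V ≤ g := by
  refine ⟨n + n * n + n * n * (n * n) + (n * n + 1) ^ (max 1 (2 * (2 * n))), ?_⟩
  intro Γ V _ _ _ _ _ _ hs hf S hS hn
  replace hn : ∀ t ∈ S, refl_rk V t ≤ n := hn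
  by_cases htriv : ∀ t : Γ, t = 1
  · exact Or.inl htriv
  right
  by_cases hab : (⊤ : Subgroup Γ) ≤ center Γ
  · have : ∃ t ∈ S, t ≠ 1 := by
      by_contra h
      push Not at h
      apply htriv
      intro t
      have h1 : Subgroup.closure S ≤ ⊥ := (closure_le _).2 fun x hx => h x hx
      exact mem_bot.1 (h1 (hS ▸ mem_top t))
    obtain ⟨t, ht, ht1⟩ := this
    have := (refl_central hs hf (hab (mem_top t)) ht1).trans (hn t ht)
    omega
  obtain ⟨N, hN⟩ := exists_minimal_of_wellFoundedLT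
    (fun N : Subgroup Γ => N.Normal ∧ ¬ N ≤ center Γ) ⟨⊤, inferInstance, hab⟩
  obtain ⟨hNn, hNc⟩ := hN.prop
  have small : ∀ M : Subgroup Γ, M.Normal → M ≤ N → M ≠ N → M ≤ center Γ := by
    intro M h1 h2 h3
    by_contra h4
    exact h3 (le_antisymm h2 (hN.le_of_le ⟨h1, h4⟩ h2))
  have hN0 : N ≠ ⊥ := fun h => hNc (h ▸ bot_le)
  have hlt := Group.IsSolvable.commutator_lt_of_ne_bot hN0
  have hcc : ⁅N, N⁆ ≤ center Γ := small _ inferInstance hlt.le hlt.ne
  obtain ⟨y, hy, t, ht, hyt⟩ : ∃ y ∈ N, ∃ t ∈ S, ⁅y, t⁆ ≠ 1 := by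
    by_contra h
    push Not at h
    apply hNc
    intro y hy
    have h1 : Subgroup.closure S ≤ centralizer {y} := (closure_le _).2 fun x hx => by
      rw [SetLike.mem_coe, mem_centralizer_singleton_iff]
      exact (commutatorElement_eq_one_iff_mul_comm.1 (h y hy x hx)).symm
    rw [mem_center_iff]
    intro g
    exact mem_centralizer_singleton_iff.1 (h1 (hS ▸ mem_top g))
  set e := ⁅y, t⁆ with he
  have hy' : t * y⁻¹ * t⁻¹ ∈ N := hNn.conj_mem _ (N.inv_mem hy) t
  have he' : e = y * (t * y⁻¹ * t⁻¹) := by rw [he, commutatorElement_def]; group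
  have heN : e ∈ N := he' ▸ N.mul_mem hy hy'
  have hrk : refl_rk V e ≤ n * n :=
    (refl_rk_comm_right y t).trans (Nat.mul_le_mul (hn t ht) (hn t ht))
  by_cases hec : e ∈ center Γ
  · have := (refl_central hs hf hec hyt).trans hrk
    omega
  by_cases hz : ∃ z ∈ N, ⁅e, z⁆ ≠ 1
  · obtain ⟨z, hz, hz1⟩ := hz
    have := (refl_central hs hf (hcc (commutator_mem_commutator heN hz)) hz1).trans
      ((refl_rk_comm_left e z).trans (Nat.mul_le_mul hrk hrk))
    omega
  push Not at hz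
  have hcomm : ∀ a ∈ N, ∀ b ∈ N, a * b = b * a := by
    have h1 : N ⊓ centralizer (N : Set Γ) = N := by
      by_contra h
      apply hec
      refine small _ inferInstance inf_le_left h (Subgroup.mem_inf.2 ⟨heN, ?_⟩)
      rw [mem_centralizer_iff]
      exact fun z hz' => (commutatorElement_eq_one_iff_mul_comm.1 (hz z hz')).symm
    intro a ha b hb
    have h2 : b ∈ N ⊓ centralizer (N : Set Γ) := h1.symm ▸ hb
    exact mem_centralizer_iff.1 h2.2 a ha
  obtain ⟨r, hr, hrd⟩ := Nat.exists_prime_and_dvd (n := Nat.card N) (by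
    rw [Ne, Subgroup.card_eq_one]; exact hN0)
  have := Fact.mk hr
  let M : Subgroup Γ :=
    { carrier := {x | ∃ a ∈ N, a ^ r = x}
      mul_mem' := by
        rintro _ _ ⟨a, ha, rfl⟩ ⟨b, hb, rfl⟩
        exact ⟨a * b, N.mul_mem ha hb, Commute.mul_pow (hcomm a ha b hb) r⟩
      one_mem' := ⟨1, N.one_mem, one_pow r⟩
      inv_mem' := by
        rintro _ ⟨a, ha, rfl⟩
        exact ⟨a⁻¹, N.inv_mem ha, inv_pow a r⟩ }
  have hM : M ≤ center Γ := by
    refine small M ⟨?_⟩ ?_ fun h => ?_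
    · rintro _ ⟨a, ha, rfl⟩ g
      exact ⟨g * a * g⁻¹, hNn.conj_mem a ha g, conj_pow⟩
    · rintro _ ⟨a, ha, rfl⟩
      exact N.pow_mem ha r
    · have hsurj : Function.Surjective fun a : N => a ^ r := by
        intro b
        have hb : (b : Γ) ∈ M := by rw [h]; exact b.2
        obtain ⟨a, ha, hab⟩ := hb
        exact ⟨⟨a, ha⟩, Subtype.ext hab⟩
      obtain ⟨x, hx⟩ := exists_prime_orderOf_dvd_card' r hrd
      have h1 : x = 1 := Finite.injective_iff_surjective.2 hsurj (by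
        simp only [one_pow]; rw [← hx]; exact pow_orderOf_eq_one x)
      rw [h1, orderOf_one] at hx
      exact hr.one_lt.ne hx
  have her : e ^ r = 1 := by
    have h1 := mem_center_iff.1 (hM ⟨y, hy, rfl⟩) t
    rw [he', Commute.mul_pow (hcomm _ hy _ hy') r, conj_pow, inv_pow, ← mul_assoc, ← mul_assoc, ← h1]
    group
  let E : Subgroup Γ :=
    { carrier := {x | x ∈ N ∧ x ^ r = 1}
      mul_mem' := fun {a b} ha hb => ⟨N.mul_mem ha.1 hb.1, by
        rw [Commute.mul_pow (hcomm a ha.1 b hb.1) r, ha.2, hb.2, one_mul]⟩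
      one_mem' := ⟨N.one_mem, one_pow r⟩
      inv_mem' := fun {a} ha => ⟨N.inv_mem ha.1, by rw [inv_pow, ha.2, inv_one]⟩ }
  have hEn : E.Normal := ⟨fun a ha g => ⟨hNn.conj_mem a ha.1 g, by
    rw [conj_pow, ha.2, mul_one, mul_inv_cancel]⟩⟩
  have heE : e ∈ E := ⟨heN, her⟩
  have hEc : ∀ a ∈ E, ∀ b ∈ E, a * b = b * a := fun a ha b hb => hcomm a ha.1 b hb.1
  obtain ⟨h0, hr0⟩ := cop_zero hs hf E (fun h => hyt (mem_bot.1 (h ▸ heE))) hr fun a ha => ha.2
  obtain ⟨η, hη, ⟨x, hx, hxY⟩, hinj, -⟩ := cop_eta E hEc hr (fun a ha => ha.2) h0 hr0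
    (refl_fix e : AddSubgroup V) (refl_fix_ne_top hf hyt)
  have heη : e ∉ η := fun h => hxY (hx e h)
  have hm : Set.ncard {x : V | ∀ e ∈ η, e • x = x} ≤ n * n := by
    refine le_trans (Set.ncard_le_ncard_of_injOn (t := Set.range fun v : V => e • v - v)
      (fun v => e • v - v) (fun a _ => ⟨a, rfl⟩)
      (fun a ha b hb hab => ?_) (Set.toFinite _)) hrk
    refine sub_eq_zero.1 (hinj e heE heη (a - b) (fun e' he' => by
      rw [smul_sub, ha e' he', hb e' he']) ?_)
    simp only at hab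
    rw [smul_sub, sub_eq_sub_iff_sub_eq_sub, hab]
  have := refl_blocks hs S hS hn E η hEc hη hinj hx
    (fun h => hxY (h ▸ AddSubgroup.zero_mem _)) hm
  omega

end Pool.Agent.FitW
end

-- part Pool.Agent.P.MP_ec89a0_al.State
section

namespace Pool.Agent.FitW

open Subgroup
open scoped commutatorElement

theorem state_inv {G X : Type} [Group G] [Finite G] [AddCommGroup X] [DistribMulAction G X]
    (Y : AddSubgroup X) {g : G} (hg : ∀ x ∈ Y, g • x ∈ Y) : ∀ x ∈ Y, g⁻¹ • x ∈ Y := by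
  have hp : ∀ k : ℕ, ∀ x ∈ Y, g ^ k • x ∈ Y := by
    intro k
    induction k with
    | zero => intro x hx; simpa using hx
    | succ k ih => intro x hx; rw [pow_succ, mul_smul]; exact ih _ (hg x hx)
  have h1 : g⁻¹ = g ^ (orderOf g - 1) := by
    have h0 : 0 < orderOf g := orderOf_pos g
    rw [inv_eq_iff_mul_eq_one, ← pow_succ', Nat.sub_add_cancel h0, pow_orderOf_eq_one]
  rw [h1]
  exact hp _

theorem state_stab {G X : Type} [Group G] [Finite G] [AddCommGroup X] [DistribMulAction G X]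
    (Y : AddSubgroup X) (n : ℕ) :
    ∀ m ∈ Subgroup.closure {t : G | Small Y n t}, ∀ x ∈ Y, m • x ∈ Y := by
  intro m hm
  induction hm using Subgroup.closure_induction with
  | mem t ht => exact ht.1
  | one => intro x hx; simpa using hx
  | mul a b _ _ ha hb => intro x hx; rw [mul_smul]; exact ha _ (hb x hx)
  | inv a _ ha => exact state_inv Y ha

theorem state_quot {G X : Type} [Group G] [AddCommGroup X] [DistribMulAction G X]
    (M : Subgroup G) (Y : AddSubgroup X) (h : ∀ m ∈ M, ∀ x ∈ Y, m • x ∈ Y) :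
    ∃ φ : M →* Equiv.Perm (X ⧸ Y), ∀ (m : M) (x : X),
      φ m (QuotientAddGroup.mk x) = QuotientAddGroup.mk ((m : G) • x) := by
  let F : M → (X ⧸ Y →+ X ⧸ Y) := fun m =>
    QuotientAddGroup.map Y Y (DistribSMul.toAddMonoidHom X (m : G)) (fun x hx => h m m.2 x hx)
  have hF : ∀ (m : M) (x : X),
      F m (QuotientAddGroup.mk x) = QuotientAddGroup.mk ((m : G) • x) := fun m x => rfl
  let act : MulAction M (X ⧸ Y) :=
    { smul := fun m v => F m v
      one_smul := by
        intro v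
        obtain ⟨x, rfl⟩ := QuotientAddGroup.mk_surjective v
        change F 1 (QuotientAddGroup.mk x) = QuotientAddGroup.mk x
        rw [hF, Subgroup.coe_one, one_smul]
      mul_smul := by
        intro a b v
        obtain ⟨x, rfl⟩ := QuotientAddGroup.mk_surjective v
        change F (a * b) (QuotientAddGroup.mk x) = F a (F b (QuotientAddGroup.mk x))
        rw [hF, hF, hF, Subgroup.coe_mul, mul_smul] }
  exact ⟨MulAction.toPermHom M (X ⧸ Y), fun m x => hF m x⟩

/-- state lemma: the subgroup generated by small elements cannot contain, deep in its derived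
series, a subgroup `T` with `[X, T] = X` -/
theorem state_lemma (n : ℕ) : ∃ f : ℕ, ∀ (G X : Type) [Group G] [Finite G] [Group.IsSolvable G]
    [AddCommGroup X] [Finite X] [DistribMulAction G X] (Y : AddSubgroup X), Y ≠ ⊤ →
    ∀ T : Subgroup G, Mov X T → ¬ T ≤ dser (Subgroup.closure {t : G | Small Y n t}) f := by
  classical
  obtain ⟨g, hg⟩ := card_le_of_small n
  refine ⟨g.factorial, ?_⟩
  intro G X _ _ _ _ _ _ Y hY T hT hle
  have hst := state_stab (G := G) Y n
  set M : Subgroup G := Subgroup.closure {t : G | Small Y n t} with hM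
  obtain ⟨Y2, hYY2, hmax⟩ := Finite.exists_le_maximal
    (p := fun U : AddSubgroup X => U ≠ ⊤ ∧ ∀ m ∈ M, ∀ x ∈ U, m • x ∈ U) (a := Y) ⟨hY, hst⟩
  obtain ⟨hne, hinv⟩ := hmax.prop
  obtain ⟨φ, hφ⟩ := state_quot M Y2 hinv
  let act : DistribMulAction φ.range (X ⧸ Y2) :=
    { (inferInstance : MulAction φ.range (X ⧸ Y2)) with
      smul_zero := by
        rintro ⟨_, m, rfl⟩
        change φ m (QuotientAddGroup.mk 0) = QuotientAddGroup.mk 0
        rw [hφ, smul_zero]
      smul_add := by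
        rintro ⟨_, m, rfl⟩ v w
        obtain ⟨x, rfl⟩ := QuotientAddGroup.mk_surjective v
        obtain ⟨y, rfl⟩ := QuotientAddGroup.mk_surjective w
        change φ m (QuotientAddGroup.mk (x + y)) =
          φ m (QuotientAddGroup.mk x) + φ m (QuotientAddGroup.mk y)
        rw [hφ, hφ, hφ, smul_add, QuotientAddGroup.mk_add] }
  have hsm : ∀ (m : M) (x : X), φ.rangeRestrict m • (QuotientAddGroup.mk x : X ⧸ Y2) =
      QuotientAddGroup.mk ((m : G) • x) := fun m x => hφ m x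
  have : Group.IsSolvable φ.range :=
    Group.isSolvable_of_surjective (f := φ.rangeRestrict) φ.rangeRestrict_surjective
  have hsimple : SimpleMod φ.range (X ⧸ Y2) := by
    intro U hU
    by_cases htop : U = ⊤
    · exact Or.inr htop
    · left
      have h1 : U.comap (QuotientAddGroup.mk' Y2) ≠ ⊤ := by
        intro h
        apply htop
        rw [eq_top_iff]
        intro v _
        obtain ⟨x, rfl⟩ := QuotientAddGroup.mk_surjective v
        have : x ∈ U.comap (QuotientAddGroup.mk' Y2) := by rw [h]; trivial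
        exact this
      have h2 : ∀ m ∈ M, ∀ x ∈ U.comap (QuotientAddGroup.mk' Y2),
          m • x ∈ U.comap (QuotientAddGroup.mk' Y2) := by
        intro m hm x hx
        have h3 := hU (φ.rangeRestrict ⟨m, hm⟩) _ hx
        change φ.rangeRestrict ⟨m, hm⟩ • (QuotientAddGroup.mk x : X ⧸ Y2) ∈ U at h3
        rw [hsm] at h3
        exact h3
      have h3 : Y2 ≤ U.comap (QuotientAddGroup.mk' Y2) := by
        intro x hx
        change (QuotientAddGroup.mk x : X ⧸ Y2) ∈ U
        rw [(QuotientAddGroup.eq_zero_iff x).mpr hx]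
        exact U.zero_mem
      have h4 := hmax.le_of_ge ⟨h1, h2⟩ h3
      rw [eq_bot_iff]
      intro v hv
      obtain ⟨x, rfl⟩ := QuotientAddGroup.mk_surjective v
      exact (QuotientAddGroup.eq_zero_iff x).mpr (h4 hv)
  have hfaith : Faith φ.range (X ⧸ Y2) := by
    intro γ hγ
    apply Subtype.ext
    ext v
    exact hγ v
  have hgen : Subgroup.closure (φ.rangeRestrict ''
      (((↑) : M → G) ⁻¹' {t : G | Small Y n t})) = ⊤ := by
    rw [← MonoidHom.map_closure, Subgroup.closure_closure_coe_preimage, ← MonoidHom.range_eq_map,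
      MonoidHom.range_eq_top]
    exact φ.rangeRestrict_surjective
  have hrk : ∀ t ∈ φ.rangeRestrict '' (((↑) : M → G) ⁻¹' {t : G | Small Y n t}),
      Set.ncard (Set.range fun v : X ⧸ Y2 => t • v - v) ≤ n := by
    rintro _ ⟨m, ⟨-, F, hF, hx⟩, rfl⟩
    have h1 : (Set.range fun v : X ⧸ Y2 => φ.rangeRestrict m • v - v) ⊆
        ((F.image fun x : X => (QuotientAddGroup.mk x : X ⧸ Y2) : Finset (X ⧸ Y2)) : Set _) := by
      rintro _ ⟨v, rfl⟩
      obtain ⟨x, rfl⟩ := QuotientAddGroup.mk_surjective v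
      obtain ⟨a, ha, h2⟩ := hx x
      simp only [Finset.coe_image, Set.mem_image, Finset.mem_coe]
      refine ⟨a, ha, ?_⟩
      rw [hsm, ← QuotientAddGroup.mk_sub, eq_comm, ← sub_eq_zero, ← QuotientAddGroup.mk_sub]
      exact (QuotientAddGroup.eq_zero_iff _).mpr (hYY2 h2)
    calc _ ≤ _ := Set.ncard_le_ncard h1 (Finset.finite_toSet _)
      _ ≤ F.card := by rw [Set.ncard_coe_finset]; exact Finset.card_image_le
      _ ≤ n := hF
  have hcard : Nat.card φ.range ≤ g.factorial := by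
    rcases hg φ.range (X ⧸ Y2) hsimple hfaith _ hgen hrk with h | h
    · have : Subsingleton φ.range := ⟨fun a b => by rw [h a, h b]⟩
      exact (Finite.card_le_one_iff_subsingleton.mpr inferInstance).trans (Nat.factorial_pos g)
    · calc Nat.card φ.range ≤ Nat.card (Equiv.Perm (X ⧸ Y2)) := Subgroup.card_le_card_group _
        _ = (Nat.card (X ⧸ Y2)).factorial := Nat.card_perm
        _ ≤ g.factorial := Nat.factorial_le h
  have hbot := dser_eq_bot φ.range hcard
  apply hne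
  rw [eq_top_iff, ← hT, AddSubgroup.closure_le]
  rintro _ ⟨t, ht, x, rfl⟩
  have h1 : t ∈ (dser (⊤ : Subgroup M) g.factorial).map M.subtype := by
    rw [map_dser, ← MonoidHom.range_eq_map, Subgroup.range_subtype]
    exact hle ht
  obtain ⟨m, hm, rfl⟩ := h1
  have h2 : φ m ∈ (dser (⊤ : Subgroup M) g.factorial).map φ := ⟨m, hm, rfl⟩
  rw [map_dser, ← MonoidHom.range_eq_map, hbot, Subgroup.mem_bot] at h2
  have h3 := hφ m x
  rw [h2] at h3
  have h4 : (QuotientAddGroup.mk ((m : G) • x - x) : X ⧸ Y2) = 0 := by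
    rw [QuotientAddGroup.mk_sub, ← h3]
    simp
  exact (QuotientAddGroup.eq_zero_iff _).mp h4

end Pool.Agent.FitW
end

-- part Pool.Agent.P.MP_ec89a0_al.Level
section

namespace Pool.Agent.FitW

open Subgroup
open scoped commutatorElement

variable {G : Type} [Group G]

theorem Level_lcs_normal (N : Subgroup G) [hN : N.Normal] (k : ℕ) :
    (N.lowerCentralSeries k).Normal := by
  induction k with
  | zero => exact hN
  | succ k ih =>
    rw [Subgroup.lowerCentralSeries_succ]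
    infer_instance

theorem Level_lcs_le (N : Subgroup G) (k : ℕ) : N.lowerCentralSeries k ≤ N :=
  N.lowerCentralSeries_antitone (Nat.zero_le k)

theorem Level_sup_comm (K L N : Subgroup G) [K.Normal] : ⁅K ⊔ L, N⁆ ≤ K ⊔ ⁅L, N⁆ := by
  refine commutator_le.2 fun g hg n hn => ?_
  obtain ⟨x, hx, y, hy, rfl⟩ := mem_sup_of_normal_left.1 hg
  rw [commutatorElement_mul_left_eq_conj_mul]
  have h1 : x ∈ K ⊔ ⁅L, N⁆ := mem_sup_left hx
  have h2 : ⁅y, n⁆ ∈ K ⊔ ⁅L, N⁆ := mem_sup_right (commutator_mem_commutator hy hn)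
  have h3 : ⁅x, n⁆ ∈ K ⊔ ⁅L, N⁆ :=
    mem_sup_left (commutator_le_left K N (commutator_mem_commutator hx hn))
  exact mul_mem (mul_mem (mul_mem h1 h2) (inv_mem h1)) h3

/-- choice of a chief factor on which the point stabiliser `A` is seen -/
theorem level_one [Finite G] (A N : Subgroup G) [N.Normal] (k : ℕ)
    (hk : N.lowerCentralSeries k ≤ A) (hN : ¬ N ≤ A) :
    ∃ K Q : Subgroup G, K.Normal ∧ Q.Normal ∧ K ≤ Q ∧ Q ≤ N ∧ ⁅N, N⁆ ≤ K ∧ ¬ Q ≤ A ⊔ K ∧
      ∀ U : Subgroup G, U.Normal → K ≤ U → U ≤ Q → U = K ∨ U = Q := by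
  obtain ⟨K, ⟨hKn, hK1, hK2, hK3⟩, hKmax⟩ := Set.Finite.exists_maximal
    (Set.toFinite {K : Subgroup G | K.Normal ∧ N.lowerCentralSeries k ≤ K ∧ K ≤ N ∧ ¬ N ≤ A ⊔ K})
    ⟨N.lowerCentralSeries k, Level_lcs_normal N k, le_rfl, Level_lcs_le N k,
      fun h => hN (h.trans (sup_le le_rfl hk))⟩
  have hKN : K < N := lt_of_le_of_ne hK2 fun h => hK3 (h ▸ le_sup_right)
  obtain ⟨Q, ⟨hQn, hQ1, hQ2⟩, hQmin⟩ := Set.Finite.exists_minimal
    (Set.toFinite {Q : Subgroup G | Q.Normal ∧ K < Q ∧ Q ≤ N}) ⟨N, inferInstance, hKN, le_rfl⟩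
  have hchief : ∀ U : Subgroup G, U.Normal → K ≤ U → U ≤ Q → U = K ∨ U = Q := by
    intro U hU h1 h2
    rcases h1.eq_or_lt with h | h
    · exact Or.inl h.symm
    · exact Or.inr (le_antisymm h2 (hQmin ⟨hU, h, h2.trans hQ2⟩ h2))
  have hNQ : N ≤ A ⊔ Q := by
    by_contra h
    exact hQ1.not_ge (hKmax ⟨hQn, hK1.trans hQ1.le, hQ2, h⟩ hQ1.le)
  have hQN : ⁅Q, N⁆ ≤ K := by
    rcases hchief (K ⊔ ⁅Q, N⁆) inferInstance le_sup_left
      (sup_le hQ1.le (commutator_le_left Q N)) with h | h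
    · exact le_sup_right.trans h.le
    · exfalso
      have h1 : ∀ i, Q ≤ K ⊔ N.lowerCentralSeries i := by
        intro i
        induction i with
        | zero => exact hQ2.trans le_sup_right
        | succ i ih =>
          refine h.ge.trans (sup_le le_sup_left ?_)
          exact (commutator_mono ih le_rfl).trans (Level_sup_comm K _ N)
      exact hQ1.not_ge ((h1 k).trans (sup_le le_rfl hK1))
  have hNN : ⁅N, N⁆ ≤ A ⊔ K := by
    refine commutator_le.2 fun n hn n' hn' => ?_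
    obtain ⟨a, ha, q, hq, rfl⟩ := mem_sup_of_normal_right.1 (hNQ hn)
    obtain ⟨a', ha', q', hq', rfl⟩ := mem_sup_of_normal_right.1 (hNQ hn')
    have haN : a ∈ N := (mul_mem_cancel_right (hQ2 hq)).1 hn
    have h1 : a ∈ A ⊔ K := mem_sup_left ha
    have h2 : a' ∈ A ⊔ K := mem_sup_left ha'
    have h3 : ⁅q, a' * q'⁆ ∈ A ⊔ K := mem_sup_right (hQN (commutator_mem_commutator hq hn'))
    have h4 : ⁅a, q'⁆ ∈ A ⊔ K := by
      rw [← commutatorElement_inv]
      exact inv_mem (mem_sup_right (hQN (commutator_mem_commutator hq' haN)))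
    have h5 : ⁅a, a'⁆ ∈ A ⊔ K := by
      rw [commutatorElement_def]
      exact mul_mem (mul_mem (mul_mem h1 h2) (inv_mem h1)) (inv_mem h2)
    rw [commutatorElement_mul_left_eq_conj_mul, commutatorElement_mul_right_eq_mul_conj a]
    exact mul_mem (mul_mem (mul_mem h1 h3) (inv_mem h1))
      (mul_mem (mul_mem (mul_mem h5 h2) h4) (inv_mem h2))
  refine ⟨K, Q, hKn, hQn, hQ1.le, hQ2, ?_, fun h => hK3 (hNQ.trans (sup_le le_sup_left h)), hchief⟩
  refine le_sup_right.trans (hKmax (y := K ⊔ ⁅N, N⁆) ⟨inferInstance, hK1.trans le_sup_left,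
    sup_le hK2 (commutator_le_left N N), fun h => hK3 (h.trans ?_)⟩ le_sup_left)
  exact sup_le le_sup_left (sup_le le_sup_right hNN)

/-- an endomorphism that is onto modulo `U` is injective modulo `U` -/
theorem Level_inj {X : Type} [AddCommGroup X] [Finite X] (φ : X →+ X) (U W : AddSubgroup X)
    (hU : ∀ x ∈ U, φ x ∈ U) (hW : ∀ x ∈ W, φ x ∈ W) (hs : W ≤ U ⊔ W.map φ) {v : X} (hv : v ∈ W)
    (h : φ v ∈ U) : v ∈ U := by
  let ψ : X ⧸ U →+ X ⧸ U := QuotientAddGroup.map U U φ fun x hx => hU x hx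
  have hψ : ∀ x : X, ψ (x : X ⧸ U) = (φ x : X ⧸ U) := fun x => rfl
  let S : Set (X ⧸ U) := (fun x : X => (x : X ⧸ U)) '' W
  have h1 : Set.MapsTo ψ S S := by
    rintro _ ⟨x, hx, rfl⟩
    exact ⟨φ x, hW x hx, rfl⟩
  have h2 : Set.SurjOn ψ S S := by
    rintro _ ⟨x, hx, rfl⟩
    obtain ⟨u, hu, _, ⟨y, hy, rfl⟩, rfl⟩ := AddSubgroup.mem_sup.1 (hs hx)
    refine ⟨(y : X ⧸ U), ⟨y, hy, rfl⟩, ?_⟩
    rw [hψ]
    show _ = ((u + φ y : X) : X ⧸ U)
    rw [QuotientAddGroup.mk_add, (QuotientAddGroup.eq_zero_iff u).2 hu, zero_add]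
  have h3 := (((Set.toFinite S).surjOn_iff_bijOn_of_mapsTo h1).1 h2).injOn
  refine (QuotientAddGroup.eq_zero_iff v).1 (h3 ⟨v, hv, rfl⟩ ⟨0, W.zero_mem, rfl⟩ ?_)
  rw [map_zero, hψ]
  exact (QuotientAddGroup.eq_zero_iff _).2 h

theorem Level_pair {X : Type} [AddCommGroup X] [Finite X] [DistribMulAction G X] (T : Subgroup G)
    (k : ℕ) (hk : ∀ g ∈ T.lowerCentralSeries k, ∀ x : X, g • x = x) (n : ℕ) :
    ∀ U W : AddSubgroup X, (W : Set X).ncard - (U : Set X).ncard ≤ n → U ≤ W →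
      (∀ t ∈ T, ∀ x ∈ U, t • x ∈ U) → (∀ t ∈ T, ∀ x ∈ W, t • x ∈ W) →
      W ≤ U ⊔ AddSubgroup.closure {v : X | ∃ t ∈ T, ∃ x ∈ W, v = t • x - x} →
      ∀ v ∈ W, (∀ t ∈ T, t • v - v ∈ U) → v ∈ U := by
  classical
  induction n using Nat.strong_induction_on with
  | _ n ih =>
  intro U W hn hUW hU hW hc v hv hfix
  have hex : ∃ j, ∀ g ∈ T.lowerCentralSeries j, ∀ x ∈ W, g • x - x ∈ U :=
    ⟨k, fun g hg x _ => by rw [hk g hg, sub_self]; exact U.zero_mem⟩
  have hspec := Nat.find_spec hex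
  rcases hj : Nat.find hex with _ | j
  · rw [hj] at hspec
    refine (hc.trans (sup_le le_rfl ((AddSubgroup.closure_le _).2 ?_))) hv
    rintro _ ⟨t, ht, x, hx, rfl⟩
    exact hspec t ht x hx
  rw [hj] at hspec
  have hlt := Nat.find_min hex (m := j) (by omega)
  push Not at hlt
  obtain ⟨z, hz, x0, hx0, hzx⟩ := hlt
  have hzT : z ∈ T := Level_lcs_le T j hz
  let φ : X →+ X := DistribSMul.toAddMonoidHom X z - AddMonoidHom.id X
  have hφ : ∀ x, φ x = z • x - x := fun x => rfl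
  have hφU : ∀ x ∈ U, φ x ∈ U := fun x hx => sub_mem (hU z hzT x hx) hx
  have hφW : ∀ x ∈ W, φ x ∈ W := fun x hx => sub_mem (hW z hzT x hx) hx
  have hcomm : ∀ t ∈ T, ∀ x ∈ W, φ (t • x) - t • φ x ∈ U := by
    intro t ht x hx
    have h1 := hspec ⁅z, t⁆ (commutator_mem_commutator hz ht) (t • z • x)
      (hW t ht _ (hW z hzT x hx))
    have h2 : ⁅z, t⁆ • t • z • x = z • t • x := by
      rw [smul_smul, smul_smul, smul_smul, commutatorElement_def]
      congr 1
      group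
    have h3 : φ (t • x) - t • φ x = z • t • x - t • z • x := by
      rw [hφ, hφ, smul_sub]
      abel
    rw [h3, ← h2]
    exact h1
  set W' := U ⊔ W.map φ with hW'
  have hW'W : W' ≤ W := sup_le hUW (by
    rintro _ ⟨x, hx, rfl⟩
    exact hφW x hx)
  have hmem : ∀ x ∈ W, φ x ∈ W' := fun x hx => AddSubgroup.mem_sup_right ⟨x, hx, rfl⟩
  have hUW' : U < W' := lt_of_le_of_ne le_sup_left fun h => hzx (h ▸ hmem x0 hx0)
  rcases hW'W.eq_or_lt with h | h
  · exact Level_inj φ U W hφU hφW h.ge hv (hfix z hzT)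
  have hinv : ∀ t ∈ T, ∀ x ∈ W', t • x ∈ W' := by
    intro t ht x hx
    obtain ⟨u, hu, _, ⟨y, hy, rfl⟩, rfl⟩ := AddSubgroup.mem_sup.1 hx
    have h1 : t • (u + φ y) = t • u + (φ (t • y) - (φ (t • y) - t • φ y)) := by
      rw [smul_add]
      abel
    rw [h1]
    exact add_mem (hUW'.le (hU t ht u hu))
      (sub_mem (hmem _ (hW t ht y hy)) (hUW'.le (hcomm t ht y hy)))
  have c1 : (U : Set X).ncard < (W' : Set X).ncard :=
    Set.ncard_lt_ncard (SetLike.coe_ssubset_coe.2 hUW') (Set.toFinite _)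
  have c2 : (W' : Set X).ncard < (W : Set X).ncard :=
    Set.ncard_lt_ncard (SetLike.coe_ssubset_coe.2 h) (Set.toFinite _)
  have hv' : v ∈ W' := ih (n - 1) (by omega) W' W (by omega) hW'W hinv hW
    (hc.trans (sup_le_sup_right hUW'.le _)) v hv fun t ht => hUW'.le (hfix t ht)
  refine ih (n - 1) (by omega) U W' (by omega) hUW'.le hU hinv ?_ v hv' hfix
  refine sup_le le_sup_left ?_
  rw [AddSubgroup.map_le_iff_le_comap]
  refine hc.trans (sup_le (fun x hx => AddSubgroup.mem_sup_left (hφU x hx))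
    ((AddSubgroup.closure_le _).2 ?_))
  rintro _ ⟨t, ht, x, hx, rfl⟩
  rw [SetLike.mem_coe, AddSubgroup.mem_comap]
  have h1 : φ (t • x - x) = (φ (t • x) - t • φ x) + (t • φ x - φ x) := by
    rw [map_sub]
    abel
  rw [h1]
  exact add_mem (AddSubgroup.mem_sup_left (hcomm t ht x hx))
    (AddSubgroup.mem_sup_right (AddSubgroup.subset_closure ⟨t, ht, φ x, hmem x hx, rfl⟩))

/-- a group acting through a nilpotent quotient with `[X, T] = X` has no fixed points -/
theorem no_fixed {X : Type} [AddCommGroup X] [Finite X] [DistribMulAction G X] (T : Subgroup G)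
    (k : ℕ) (hk : ∀ g ∈ T.lowerCentralSeries k, ∀ x : X, g • x = x) (hT : Mov X T) (v : X)
    (hv : ∀ t ∈ T, t • v = v) : v = 0 := by
  refine AddSubgroup.mem_bot.1 (Level_pair T k hk _ ⊥ ⊤ le_rfl bot_le (fun t _ x hx => ?_)
    (fun _ _ _ _ => AddSubgroup.mem_top _) ?_ v (AddSubgroup.mem_top _) fun t ht => ?_)
  · rw [AddSubgroup.mem_bot.1 hx, smul_zero]
    exact AddSubgroup.zero_mem _
  · refine le_trans (hT.ge.trans (AddSubgroup.closure_mono ?_)) le_sup_right
    rintro _ ⟨t, ht, x, rfl⟩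
    exact ⟨t, ht, x, AddSubgroup.mem_top _, rfl⟩
  · rw [hv t ht, sub_self]
    exact AddSubgroup.zero_mem _

theorem Level_iter_normal (T : Subgroup G) [T.Normal] (V : Subgroup G) [hV : V.Normal] (j : ℕ) :
    ((fun V : Subgroup G => ⁅V, T⁆)^[j] V).Normal := by
  induction j with
  | zero => exact hV
  | succ j ih =>
    rw [Function.iterate_succ_apply']
    infer_instance

/-- the three subgroups lemma modulo a normal subgroup -/
theorem Level_three (H₁ H₂ H₃ M : Subgroup G) [M.Normal] (h1 : ⁅⁅H₂, H₃⁆, H₁⁆ ≤ M)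
    (h2 : ⁅⁅H₃, H₁⁆, H₂⁆ ≤ M) : ⁅⁅H₁, H₂⁆, H₃⁆ ≤ M := by
  have key : ∀ H : Subgroup G, H ≤ M ↔ H.map (QuotientGroup.mk' M) = ⊥ := fun H => by
    rw [Subgroup.map_eq_bot_iff, QuotientGroup.ker_mk']
  rw [key, map_commutator, map_commutator] at h1 h2 ⊢
  exact commutator_commutator_eq_bot_of_rotate h1 h2

/-- a hypercentral normal subgroup is centralised by `P = [P, T]` -/
theorem hyp_comm (U P T : Subgroup G) [U.Normal] [P.Normal] [T.Normal] (hP : ⁅P, T⁆ = P)
    (k : ℕ) (hk : (fun V : Subgroup G => ⁅V, T⁆)^[k] U = ⊥) : ⁅U, P⁆ = ⊥ := by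
  have key : ∀ (j : ℕ) (V : Subgroup G), V.Normal →
      ⁅V, P⁆ ≤ (fun V : Subgroup G => ⁅V, T⁆)^[j] V := by
    intro j
    induction j with
    | zero => exact fun V _ => commutator_le_left V P
    | succ j ih =>
      intro V hV
      have := Level_iter_normal T V (j + 1)
      have h := Level_three P T V ((fun V : Subgroup G => ⁅V, T⁆)^[j + 1] V)
        (by
          rw [commutator_comm T V, Function.iterate_succ_apply]
          exact ih _ inferInstance)
        (by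
          rw [Function.iterate_succ_apply']
          exact commutator_mono (ih V hV) le_rfl)
      rwa [hP, commutator_comm] at h
  exact le_bot_iff.1 ((key k U inferInstance).trans hk.le)

/-- a minimal normal subgroup with `[Q, T] = Q` -/
theorem exists_min_mov [Finite G] (P T : Subgroup G) [P.Normal] [T.Normal] (hP : ⁅P, T⁆ = P)
    (hne : P ≠ ⊥) :
    ∃ Q : Subgroup G, Q.Normal ∧ Q ≤ P ∧ Q ≠ ⊥ ∧ ⁅Q, T⁆ = Q ∧
      (∀ U : Subgroup G, U.Normal → U < Q → ⁅U, T⁆ = U → U = ⊥) ∧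
      ∀ U : Subgroup G, U.Normal → U < Q → ⁅U, Q⁆ = ⊥ := by
  obtain ⟨Q, ⟨hQn, hQ1, hQ2, hQ3⟩, hQmin⟩ := Set.Finite.exists_minimal
    (Set.toFinite {Q : Subgroup G | Q.Normal ∧ Q ≤ P ∧ Q ≠ ⊥ ∧ ⁅Q, T⁆ = Q})
    ⟨P, inferInstance, le_rfl, hne, hP⟩
  have h1 : ∀ U : Subgroup G, U.Normal → U < Q → ⁅U, T⁆ = U → U = ⊥ := by
    intro U hU hlt he
    by_contra h
    exact hlt.not_ge (hQmin ⟨hU, hlt.le.trans hQ1, h, he⟩ hlt.le)
  refine ⟨Q, hQn, hQ1, hQ2, hQ3, h1, fun U hU hlt => ?_⟩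
  obtain ⟨_, ⟨k, rfl⟩, hmin⟩ := Set.Finite.exists_minimal
    (Set.toFinite (Set.range fun j => (fun V : Subgroup G => ⁅V, T⁆)^[j] U)) ⟨_, 0, rfl⟩
  have hn := Level_iter_normal T U k
  have hle : ∀ j, (fun V : Subgroup G => ⁅V, T⁆)^[j] U ≤ U := by
    intro j
    induction j with
    | zero => exact le_rfl
    | succ j ih =>
      have := Level_iter_normal T U j
      rw [Function.iterate_succ_apply']
      exact (commutator_le_left _ T).trans ih
  refine hyp_comm U Q T hQ3 k (h1 _ hn ((hle k).trans_lt hlt) ?_)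
  refine le_antisymm (commutator_le_left _ T) (hmin ⟨k + 1, ?_⟩ (commutator_le_left _ T))
  exact Function.iterate_succ_apply' _ _ _

end Pool.Agent.FitW
end

-- part Pool.Agent.P.MP_ec89a0_al.Mono
section

namespace Pool.Agent.FitW

open Subgroup
open scoped commutatorElement

theorem mono_cnt_zero {G : Type} [Group G] (N : Subgroup G) {P : G → Prop}
    (h : ∀ y ∈ N, ¬ P y) : cnt N P = 0 := by
  have h1 : {y : G | y ∈ N ∧ P y} = ∅ :=
    Set.eq_empty_iff_forall_notMem.2 fun y hy => h y hy.1 hy.2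
  rw [cnt, h1, Set.ncard_empty]

theorem mono_count {G X : Type} [Group G] [Finite G] [AddCommGroup X] [DistribMulAction G X]
    {N K : Subgroup G} {p : G → X} (h : IsSect N K p) (Y : AddSubgroup X) {n : ℕ} {t : G}
    (ht : ∀ x ∈ Y, t • x ∈ Y) (hs : ¬ Small Y n t) :
    n * cnt N (fun y => t • p y - p y ∈ Y) ≤ Nat.card N := by
  classical
  let H : Subgroup N :=
    { carrier := {y | t • p y - p y ∈ Y}
      one_mem' := by
        show t • p 1 - p 1 ∈ Y
        rw [h.one, smul_zero, sub_zero]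
        exact Y.zero_mem
      mul_mem' := fun {a b} ha hb => by
        show t • p (a * b) - p (a * b) ∈ Y
        rw [h.mul _ a.2 _ b.2, smul_add, add_sub_add_comm]
        exact Y.add_mem ha hb
      inv_mem' := fun {a} ha => by
        show t • p (a : G)⁻¹ - p (a : G)⁻¹ ∈ Y
        rw [h.inv a.2, smul_neg, neg_sub_neg, ← neg_sub]
        exact Y.neg_mem ha }
  have h1 : cnt N (fun y => t • p y - p y ∈ Y) = Nat.card H := by
    have h2 : {y : G | y ∈ N ∧ t • p y - p y ∈ Y} = Subtype.val '' (H : Set N) := by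
      ext y
      exact ⟨fun hy => ⟨⟨y, hy.1⟩, hy.2, rfl⟩, fun ⟨z, hz, e⟩ => e ▸ ⟨z.2, hz⟩⟩
    rw [cnt, h2, Set.ncard_image_of_injective _ Subtype.val_injective]
    rfl
  have h3 : n ≤ H.index := by
    by_contra h4
    have := Fintype.ofFinite (N ⧸ H)
    refine hs ⟨ht, Finset.univ.image fun q : N ⧸ H => t • p q.out - p q.out, ?_, fun x => ?_⟩
    · refine Finset.card_image_le.trans ?_
      rw [Finset.card_univ, ← Nat.card_eq_fintype_card]
      exact (not_le.1 h4).le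
    · obtain ⟨u, hu, rfl⟩ := h.surj x
      refine ⟨_, Finset.mem_image_of_mem _ (Finset.mem_univ (QuotientGroup.mk ⟨u, hu⟩)), ?_⟩
      generalize hq : (QuotientGroup.mk ⟨u, hu⟩ : N ⧸ H) = q
      have h5 : q.out⁻¹ * ⟨u, hu⟩ ∈ H := QuotientGroup.eq.1 (by rw [hq]; exact q.out_eq)
      have h6 : t • p ((q.out : G)⁻¹ * u) - p ((q.out : G)⁻¹ * u) ∈ Y := h5
      rw [h.mul _ (N.inv_mem q.out.2) _ hu, h.inv q.out.2, smul_add, smul_neg] at h6
      have h7 : t • p u - p u - (t • p q.out - p q.out) =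
          -(t • p q.out) + t • p u - (-p q.out + p u) := by abel
      rw [h7]
      exact h6
  rw [h1, ← H.card_mul_index, mul_comm]
  exact Nat.mul_le_mul_left _ h3

/-- coarsening of a point stabiliser across one nilpotent layer -/
theorem mono_lemma (n : ℕ) : ∃ f : ℕ, ∀ (G : Type) [Group G] [Finite G] [Group.IsSolvable G]
    (A N T : Subgroup G), N.Normal → ⁅N, T⁆ = N → (∃ k, N.lowerCentralSeries k ≤ A) →
    ∃ A' : Subgroup G, N ≤ A' ∧
      (∀ t : G, t ∉ A' → n * cnt N (fun y => y⁻¹ * t * y ∈ A) ≤ Nat.card N) ∧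
      (N ≤ A → A' = A) ∧ (¬ N ≤ A → ¬ T ≤ dser A' f) := by
  obtain ⟨f, hf⟩ := state_lemma (max n 1)
  refine ⟨f, fun G _ _ _ A N T hN hT ⟨k, hk⟩ => ?_⟩
  by_cases hA : N ≤ A
  · refine ⟨A, hA, fun t ht => ?_, fun _ => rfl, fun h => absurd hA h⟩
    rw [mono_cnt_zero N, mul_zero]
    · exact Nat.zero_le _
    · intro y hy h1
      have h2 := A.mul_mem (A.mul_mem (hA hy) h1) (A.inv_mem (hA hy))
      rw [show y * (y⁻¹ * t * y) * y⁻¹ = t by group] at h2
      exact ht h2
  obtain ⟨K, Q, hK, -, hKQ, hQN, hNK, hQ, -⟩ := level_one A N k hk hA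
  obtain ⟨X, _, _, _, p, hp⟩ := exists_sect N K (hKQ.trans hQN) hNK
  obtain ⟨Y, hY1, hY2, hY3⟩ := hp.exists_image (A ⊔ K) le_sup_right
  have hNA : N ≤ Subgroup.closure {t : G | Small Y (max n 1) t} := by
    intro g hg
    have h1 : ∀ x : X, g • x = x :=
      hp.smul_eq fun u hu => hNK (Subgroup.commutator_mem_commutator hg hu)
    refine Subgroup.subset_closure ⟨fun x hx => by rwa [h1], {0}, ?_, fun x => ⟨0, ?_, ?_⟩⟩
    · rw [Finset.card_singleton]
      exact le_max_right _ _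
    · exact Finset.mem_singleton_self _
    · rw [h1, sub_self, sub_zero]
      exact Y.zero_mem
  refine ⟨_, hNA, fun t ht => ?_, fun h => absurd h hA,
    fun _ => hf G X Y (hY3 fun h => hQ (hQN.trans h)) T (hp.mov hT)⟩
  by_cases h0 : ∃ y₀ ∈ N, y₀⁻¹ * t * y₀ ∈ A
  · obtain ⟨y₀, hy₀, h1⟩ := h0
    have h2 : y₀⁻¹ * t * y₀ ∈ A ⊔ K := Subgroup.mem_sup_left h1
    have h3 : ¬ Small Y (max n 1) (y₀⁻¹ * t * y₀) := by
      intro h
      have h4 := mul_mem (mul_mem (hNA hy₀) (Subgroup.subset_closure h)) (inv_mem (hNA hy₀))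
      rw [show y₀ * (y₀⁻¹ * t * y₀) * y₀⁻¹ = t by group] at h4
      exact ht h4
    refine le_trans (Nat.mul_le_mul (le_max_left n 1) ?_) (mono_count hp Y (hY2 _ h2) h3)
    rw [← cnt_mul_left N _ hy₀]
    refine cnt_mono N fun z hz h5 => ?_
    generalize hs : y₀⁻¹ * t * y₀ = s at h2
    have h6 : z⁻¹ * (s * z * s⁻¹) ∈ A ⊔ K := by
      have h7 := mul_mem (Subgroup.mem_sup_left h5 : _ ∈ A ⊔ K) (inv_mem h2)
      rwa [show (y₀ * z)⁻¹ * t * (y₀ * z) * s⁻¹ = z⁻¹ * (s * z * s⁻¹) by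
        rw [← hs]
        group] at h7
    have h8 := hN.conj_mem z hz s
    have h9 := (hY1 _ (N.mul_mem (N.inv_mem hz) h8)).2 h6
    rwa [hp.mul _ (N.inv_mem hz) _ h8, hp.inv hz, hp.conj s z hz, neg_add_eq_sub] at h9
  · rw [mono_cnt_zero N fun y hy h1 => h0 ⟨y, hy, h1⟩, mul_zero]
    exact Nat.zero_le _

end Pool.Agent.FitW
end

-- part Pool.Agent.P.MP_ec89a0_al.Lift
section

namespace Pool.Agent.FitW

open Subgroup
open scoped commutatorElement

variable {G : Type} [Group G] {X : Type} [AddCommGroup X] [DistribMulAction G X]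

theorem fox_add (π : Fin 2 → G) (i : Fin 2) (L : List Lt) (x x' : X) :
    fox π i L (x + x') = fox π i L x + fox π i L x' := by
  induction L with
  | nil => simp [fox]
  | cons a L ih =>
    obtain ⟨j, b⟩ := a
    cases b
    · simp only [fox, ih]
      rw [← smul_add]
      congr 1
      split_ifs <;> abel
    · simp only [fox, ih, smul_add]
      split_ifs <;> abel

theorem fox_zero (π : Fin 2 → G) (i : Fin 2) (L : List Lt) : fox π i L (0 : X) = 0 := by
  have := fox_add π i L (0 : X) 0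
  rw [add_zero] at this
  exact left_eq_add.1 this

theorem fox_neg (π : Fin 2 → G) (i : Fin 2) (L : List Lt) (x : X) :
    fox π i L (-x) = -fox π i L x := by
  have := fox_add π i L x (-x)
  rw [add_neg_cancel, fox_zero] at this
  exact (neg_eq_of_add_eq_zero_right this.symm).symm

/-- the Fox derivative computes the change of a word value in an abelian section -/
theorem sect_ev {Q K : Subgroup G} [Q.Normal] {p : G → X} (h : IsSect Q K p)
    {π π' : Fin 2 → G} (i : Fin 2) (x : X) (hQ : ∀ j, π' j * (π j)⁻¹ ∈ Q)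
    (hp : ∀ j, p (π' j * (π j)⁻¹) = if j = i then x else 0) (L : List Lt) :
    p (ev π' L * (ev π L)⁻¹) = fox π i L x := by
  induction L with
  | nil => simp [fox, ev_nil, h.one]
  | cons a L ih =>
    obtain ⟨j, b⟩ := a
    have hd := ev_congr Q hQ L
    cases b
    · have e : ev π' ((j, false) :: L) * (ev π ((j, false) :: L))⁻¹ =
          (π j)⁻¹ * ((π' j * (π j)⁻¹)⁻¹ * (ev π' L * (ev π L)⁻¹)) * ((π j)⁻¹)⁻¹ := by
        rw [ev_cons_false, ev_cons_false]
        group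
      rw [e, h.conj _ _ (Q.mul_mem (Q.inv_mem (hQ j)) hd), h.mul _ (Q.inv_mem (hQ j)) _ hd,
        h.inv (hQ j), hp, ih]
      simp only [fox]
      rw [neg_add_eq_sub]
    · have e : ev π' ((j, true) :: L) * (ev π ((j, true) :: L))⁻¹ =
          (π' j * (π j)⁻¹) * (π j * (ev π' L * (ev π L)⁻¹) * (π j)⁻¹) := by
        rw [ev_cons_true, ev_cons_true]
        group
      rw [e, h.mul _ (hQ j) _ (Normal.conj_mem inferInstance _ hd _), h.conj _ _ hd, hp, ih]
      simp only [fox]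

/-- the changes of one generator along a chief factor that keep a generating pair span a subgroup
of index at most two -/
theorem exists_lifts [Finite G] {Q K : Subgroup G} [Q.Normal] [K.Normal] (hle : K ≤ Q)
    (hab : ⁅Q, Q⁆ ≤ K) (hmin : ∀ U : Subgroup G, U.Normal → K ≤ U → U ≤ Q → U = K ∨ U = Q)
    {p : G → X} (h : IsSect Q K p) {π : Fin 2 → G} (hπ : Gen π) (i : Fin 2) :
    ∃ S : Set X, Idx2 (AddSubgroup.closure S) ∧ ∀ x ∈ S, ∃ π' : Fin 2 → G, Gen π' ∧
      (∀ j, π' j * (π j)⁻¹ ∈ Q) ∧ ∀ L : List Lt, p (ev π' L * (ev π L)⁻¹) = fox π i L x := by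
  refine ⟨{x | ∃ π' : Fin 2 → G, Gen π' ∧ (∀ j, π' j * (π j)⁻¹ ∈ Q) ∧
    ∀ L : List Lt, p (ev π' L * (ev π L)⁻¹) = fox π i L x}, ?_, fun x hx => hx⟩
  by_cases hQK : Q ≤ K
  · intro x x' hx _
    obtain ⟨u, hu, rfl⟩ := h.surj x
    rw [(h.ker u hu).2 (hQK hu)] at hx
    exact absurd (AddSubgroup.zero_mem _) hx
  obtain ⟨u0, hu0, hu0K⟩ := SetLike.not_le_iff_exists.1 hQK
  obtain ⟨r, hr⟩ := exists_ev_of_mem (π := π) (g := u0) (by rw [hπ]; trivial)
  have key : ∀ x : X, (¬ ∃ π' : Fin 2 → G, Gen π' ∧ (∀ j, π' j * (π j)⁻¹ ∈ Q) ∧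
      ∀ L : List Lt, p (ev π' L * (ev π L)⁻¹) = fox π i L x) → fox π i r x + p u0 = 0 := by
    intro x hx
    obtain ⟨u, hu, hux⟩ := h.surj x
    obtain ⟨ρ, hρ⟩ : ∃ ρ : Fin 2 → G, ∀ j, ρ j * (π j)⁻¹ = if j = i then u else 1 :=
      ⟨fun j => (if j = i then u else 1) * π j, fun j => by simp⟩
    have hρQ : ∀ j, ρ j * (π j)⁻¹ ∈ Q := by
      intro j
      rw [hρ]
      split_ifs
      exacts [hu, Q.one_mem]
    have hρp : ∀ j, p (ρ j * (π j)⁻¹) = if j = i then x else 0 := by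
      intro j
      rw [hρ]
      split_ifs
      exacts [hux, h.one]
    set J : Subgroup G := Subgroup.closure (Set.range ρ) ⊔ K with hJ
    have hKJ : K ≤ J := le_sup_right
    have hne : J ≠ ⊤ := by
      intro htop
      obtain ⟨π', g1, g2⟩ := gaschuetz K ⟨π, hπ⟩ ρ htop
      have e : ∀ j, π' j * (π j)⁻¹ = (π' j * (ρ j)⁻¹) * (ρ j * (π j)⁻¹) := fun j => by group
      have g3 : ∀ j, π' j * (π j)⁻¹ ∈ Q := fun j => by
        rw [e]
        exact Q.mul_mem (hle (g2 j)) (hρQ j)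
      refine hx ⟨π', g1, g3, sect_ev h i x g3 fun j => ?_⟩
      rw [e, h.mul _ (hle (g2 j)) _ (hρQ j), (h.ker _ (hle (g2 j))).2 (g2 j), zero_add, hρp]
    have hJQ : J ⊔ Q = ⊤ := by
      rw [eq_top_iff, ← show Subgroup.closure (Set.range π) = ⊤ from hπ, Subgroup.closure_le]
      rintro _ ⟨j, rfl⟩
      have e : π j = (ρ j * (π j)⁻¹)⁻¹ * ρ j := by group
      rw [SetLike.mem_coe, e]
      exact (J ⊔ Q).mul_mem (mem_sup_right (Q.inv_mem (hρQ j)))
        (mem_sup_left (mem_sup_left (Subgroup.subset_closure ⟨j, rfl⟩)))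
    have hN : (J ⊓ Q).Normal := by
      refine ⟨fun n hn g => ?_⟩
      have hg : g ∈ J ⊔ Q := by rw [hJQ]; trivial
      obtain ⟨a, ha, q, hq, rfl⟩ := mem_sup_of_normal_right.1 hg
      have hc : ⁅q, n⁆ ∈ K := hab (commutator_mem_commutator hq hn.2)
      have e : a * q * n * (a * q)⁻¹ = a * (⁅q, n⁆ * n) * a⁻¹ := by
        rw [commutatorElement_def]
        group
      rw [e]
      exact ⟨J.mul_mem (J.mul_mem ha (J.mul_mem (hKJ hc) hn.1)) (J.inv_mem ha),
        Normal.conj_mem inferInstance _ (Q.mul_mem (hle hc) hn.2) _⟩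
    have hK : J ⊓ Q = K := by
      refine (hmin _ hN (le_inf hKJ hle) inf_le_right).resolve_right fun hq => hne ?_
      rw [← hJQ]
      exact (sup_eq_left.2 (inf_eq_right.1 hq)).symm
    have hd := ev_congr Q hρQ r
    have e : ev ρ r = (ev ρ r * (ev π r)⁻¹) * u0 := by rw [← hr]; group
    have hmQ : ev ρ r ∈ Q := by
      rw [e]
      exact Q.mul_mem hd hu0
    have hmK : ev ρ r ∈ K := by
      rw [← hK]
      exact ⟨mem_sup_left (ev_mem_closure ρ r), hmQ⟩
    have h0 := (h.ker _ hmQ).2 hmK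
    rwa [e, h.mul _ hd _ hu0, sect_ev h i x hρQ hρp] at h0
  intro x x' hx hx'
  have k1 := key x fun hs => hx (AddSubgroup.subset_closure hs)
  have k2 := key x' fun hs => hx' (AddSubgroup.subset_closure hs)
  refine AddSubgroup.subset_closure (by_contra fun hs => ?_)
  have k3 := key (x - x') hs
  rw [sub_eq_add_neg, fox_add, fox_neg, add_right_cancel (k1.trans k2.symm), add_neg_cancel,
    zero_add] at k3
  exact hu0K ((h.ker _ hu0).1 k3)

end Pool.Agent.FitW
end

-- part Pool.Agent.P.MP_ec89a0_al.FoxExp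
section

namespace Pool.Agent.FitW

open Subgroup
open scoped commutatorElement

theorem fox_aux {G : Type} [Group G] {X : Type} [AddCommGroup X] [DistribMulAction G X]
    (π : Fin 2 → G) (i : Fin 2) (b : Bool) (post s : List Lt) :
    ∃ T : List (ℤ × List Lt), T.length ≤ s.length ∧
      (∀ a ∈ T, a.2 <:+ s ++ post ∧ (a.2 = s ++ post → s.head? = some (i, !b))) ∧
      ∀ y : X, (ev π (s ++ post))⁻¹ • fox π i s ((if b then π i else 1) • y) =
        (T.map fun a => a.1 • ((ev π a.2)⁻¹ • y)).sum := by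
  induction s with
  | nil => exact ⟨[], le_rfl, by simp, fun y => by simp [fox]⟩
  | cons w s ih =>
    obtain ⟨T, h1, h2, h3⟩ := ih
    have hne : ∀ M : List Lt, M <:+ s ++ post → M ≠ w :: s ++ post := by
      intro M hM h
      have := hM.length_le
      rw [h] at this
      simp at this
    have h2' : ∀ a ∈ T, a.2 <:+ w :: s ++ post ∧
        (a.2 = w :: s ++ post → (w :: s).head? = some (i, !b)) := fun a ha =>
      ⟨(h2 a ha).1.trans (List.suffix_cons _ _), fun h => absurd h (hne _ (h2 a ha).1)⟩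
    obtain ⟨j, c⟩ := w
    by_cases hj : j = i
    · subst hj
      refine ⟨(if c then 1 else -1, if c = b then s ++ post else (j, c) :: s ++ post) :: T,
        by simpa using h1, ?_, fun y => ?_⟩
      · intro a ha
        rcases List.mem_cons.1 ha with rfl | ha
        · by_cases hc : c = b
          · simp only [hc, if_true]
            exact ⟨List.suffix_cons _ _, fun h => absurd h (hc ▸ hne _ List.suffix_rfl)⟩
          · simp only [hc, if_false]
            refine ⟨List.suffix_rfl, fun _ => ?_⟩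
            cases c <;> cases b <;> simp_all
        · exact h2' a ha
      · rw [List.map_cons, List.sum_cons, ← h3 y]
        cases c <;> cases b <;>
          simp [fox, ev_cons_true, ev_cons_false, smul_add, mul_smul, sub_eq_neg_add]
    · refine ⟨T, h1.trans (by simp), h2', fun y => ?_⟩
      rw [← h3 y]
      cases c <;> simp [fox, ev_cons_true, ev_cons_false, mul_smul, hj]

theorem sum_map_neg {X A : Type} [AddCommGroup X] (T : List A) (c : A → ℤ) (f : A → X) :
    (T.map fun a => (-c a) • f a).sum = -(T.map fun a => c a • f a).sum := by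
  induction T with
  | nil => simp
  | cons a T ih => rw [List.map_cons, List.sum_cons, ih, List.map_cons, List.sum_cons, neg_add,
      neg_smul]

/-- the Fox derivative of the initial piece `z :: t` of a reduced list, in the variable of its
first letter, seen from the end point -/
theorem fox_expand {G : Type} [Group G] {X : Type} [AddCommGroup X] [DistribMulAction G X]
    (π : Fin 2 → G) (z : Lt) (t M₀ : List Lt) (hred : FreeGroup.IsReduced (z :: (t ++ M₀))) :
    ∃ (T : List (ℤ × G)) (β : G) (ε : ℤ), (ε = 1 ∨ ε = -1) ∧ T.length ≤ t.length ∧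
      (∀ a ∈ T, ∃ M : List Lt, M <:+ (t ++ M₀) ∧ M ≠ t ++ M₀ ∧
        a.2 = (ev π M)⁻¹ * ev π (t ++ M₀)) ∧
      ∀ x : X, (ev π (z :: (t ++ M₀)))⁻¹ • fox π z.1 (z :: t) (β • x) = ε • opSum T x := by
  obtain ⟨i, b⟩ := z
  obtain ⟨T, h1, h2, h3⟩ := fox_aux (X := X) π i b M₀ t
  have hh : t.head? ≠ some (i, !b) := by
    intro h
    cases t with
    | nil => simp at h
    | cons w t =>
      simp only [List.head?_cons, Option.some.injEq] at h
      subst h
      have := (FreeGroup.isReduced_cons_cons.1 hred).1 rfl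
      cases b <;> simp at this
  refine ⟨T.map fun a => ((if b then a.1 else -a.1), (ev π a.2)⁻¹ * ev π (t ++ M₀)),
    (if b then π i else 1) * ev π (t ++ M₀), if b then 1 else -1, by cases b <;> simp,
    by simpa using h1, ?_, fun x => ?_⟩
  · intro a ha
    obtain ⟨a', ha', rfl⟩ := List.mem_map.1 ha
    exact ⟨a'.2, (h2 a' ha').1, fun h => hh ((h2 a' ha').2 h), rfl⟩
  · have h4 := h3 (ev π (t ++ M₀) • x)
    unfold opSum
    rw [List.map_map]
    cases b
    · have h5 := sum_map_neg T (fun a => a.1) (fun a => (ev π a.2)⁻¹ • ev π (t ++ M₀) • x)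
      simp only [Bool.false_eq_true, if_false, one_smul, one_mul] at h4 ⊢
      simp only [Function.comp_def, mul_smul, h5, ← h4]
      simp [fox, ev_cons_false, mul_smul, sub_eq_add_neg, add_comm]
    · simp only [if_true, one_smul] at h4 ⊢
      simp only [Function.comp_def, mul_smul, ← h4]
      simp [fox, ev_cons_true, mul_smul]

end Pool.Agent.FitW
end

-- part Pool.Agent.P.MP_ec89a0_al.Indep
section

namespace Pool.Agent.FitW

open Subgroup
open scoped commutatorElement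

section IndepAux

variable {G X : Type} [Group G] [AddCommGroup X] [DistribMulAction G X]

variable (X) in
/-- fixed points of `η` -/
def indepW (η : Subgroup G) : AddSubgroup X where
  carrier := {w | ∀ e ∈ η, e • w = w}
  zero_mem' := fun e _ => smul_zero e
  add_mem' := fun {a b} ha hb e he => by rw [smul_add, ha e he, hb e he]
  neg_mem' := fun {a} ha e he => by rw [smul_neg, ha e he]

theorem indep_mem_W {η : Subgroup G} {w : X} : w ∈ indepW X η ↔ ∀ e ∈ η, e • w = w := Iff.rfl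

variable (X) in
/-- the action of one element as an additive map -/
def indepR (g : G) : X →+ X := DistribSMul.toAddMonoidHom X g

@[simp] theorem indepR_apply (g : G) (x : X) : indepR X g x = g • x := rfl

/-- commutes with the action of `Q` -/
def IndepComm (Q : Subgroup G) (c : X →+ X) : Prop := ∀ q ∈ Q, ∀ x : X, c (q • x) = q • c x

/-- injective on the fixed points -/
def IndepInj (η : Subgroup G) (c : X →+ X) : Prop := ∀ w ∈ indepW X η, c w = 0 → w = 0

/-- sum of the terms of a list -/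
def indepS (L : List ((X →+ X) × G)) (w : X) : X := (L.map fun t => t.1 (t.2 • w)).sum

@[simp] theorem indepS_nil (w : X) : indepS ([] : List ((X →+ X) × G)) w = 0 := rfl

@[simp] theorem indepS_cons (t : (X →+ X) × G) (L : List ((X →+ X) × G)) (w : X) :
    indepS (t :: L) w = t.1 (t.2 • w) + indepS L w := by
  simp [indepS]

@[simp] theorem indepS_append (L L' : List ((X →+ X) × G)) (w : X) :
    indepS (L ++ L') w = indepS L w + indepS L' w := by
  simp [indepS]

theorem indepS_comp (f : X →+ X) (L : List ((X →+ X) × G)) (w : X) :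
    indepS (L.map fun t => (f.comp t.1, t.2)) w = f (indepS L w) := by
  induction L with
  | nil => simp
  | cons t L ih => simp [ih]

theorem indepS_split (A B : (X →+ X) × G → Prop) (L : List ((X →+ X) × G))
    (h : ∀ t ∈ L, A t ∨ B t) :
    ∃ L₁ L₂ : List ((X →+ X) × G), L₁.length ≤ L.length ∧ L₂.length ≤ L.length ∧
      (∀ t ∈ L₁, A t) ∧ (∀ t ∈ L₂, B t) ∧ ∀ w : X, indepS L w = indepS L₁ w + indepS L₂ w := by
  induction L with
  | nil => exact ⟨[], [], le_rfl, le_rfl, by simp, by simp, by simp⟩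
  | cons t L ih =>
    obtain ⟨L₁, L₂, h1, h2, hA, hB, hs⟩ := ih (fun s hs => h s (List.mem_cons_of_mem _ hs))
    rcases h t (List.mem_cons_self) with ht | ht
    · refine ⟨t :: L₁, L₂, by simpa using h1, by simp; omega, ?_, hB, fun w => ?_⟩
      · intro s hs
        rcases List.mem_cons.1 hs with rfl | hs
        · exact ht
        · exact hA s hs
      · simp [hs, add_assoc]
    · refine ⟨L₁, t :: L₂, by simp; omega, by simpa using h2, hA, ?_, fun w => ?_⟩
      · intro s hs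
        rcases List.mem_cons.1 hs with rfl | hs
        · exact ht
        · exact hB s hs
      · simp [hs, add_left_comm]

/-- conjugating terms of one coset only changes coefficients -/
theorem indepS_conj {Q : Subgroup G} (σ y e : G) (hy : y ∈ Q) (L : List ((X →+ X) × G))
    (hL : ∀ t ∈ L, IndepComm Q t.1 ∧ t.2 * σ⁻¹ ∈ Q) (w : X) :
    indepS (L.map fun t => ((indepR X ⁅y, t.2 * σ⁻¹⁆ - indepR X e).comp t.1, t.2)) w =
      y • indepS L ((σ⁻¹ * y⁻¹ * σ) • w) - e • indepS L w := by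
  induction L with
  | nil => simp
  | cons t L ih =>
    obtain ⟨hc, hq⟩ := hL t List.mem_cons_self
    have h1 : y • t.1 (t.2 • (σ⁻¹ * y⁻¹ * σ) • w) = ⁅y, t.2 * σ⁻¹⁆ • t.1 (t.2 • w) := by
      have hm : ⁅y, t.2 * σ⁻¹⁆ ∈ Q := by
        rw [commutatorElement_def]
        exact Q.mul_mem (Q.mul_mem (Q.mul_mem hy hq) (Q.inv_mem hy)) (Q.inv_mem hq)
      rw [← hc y hy, ← hc _ hm, smul_smul, smul_smul, smul_smul]
      congr 2
      rw [commutatorElement_def]
      group
    rw [List.map_cons, indepS_cons, ih (fun s hs => hL s (List.mem_cons_of_mem _ hs)),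
      indepS_cons, indepS_cons, smul_add, smul_add, h1]
    simp only [AddMonoidHom.comp_apply, AddMonoidHom.sub_apply, indepR_apply]
    abel

theorem indepS_move {Q : Subgroup G} (y y' : G) (hy : y ∈ Q) (L : List ((X →+ X) × G))
    (hL : ∀ t ∈ L, IndepComm Q t.1) (w : X) :
    indepS (L.map fun t => (t.1, y * t.2 * y')) w = y • indepS L (y' • w) := by
  induction L with
  | nil => simp
  | cons t L ih =>
    have hc := hL t List.mem_cons_self
    rw [List.map_cons, indepS_cons, ih (fun s hs => hL s (List.mem_cons_of_mem _ hs)),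
      indepS_cons, smul_add, ← hc y hy, smul_smul, smul_smul]

/-- certificate: a bounded combination of translates of `Ψ` is a good map on the fixed points -/
def IndepCert (Q η D : Subgroup G) (Ψ : X → X) (b : ℕ) : Prop :=
  ∃ H K : Finset G, (∀ a ∈ H, a ∈ Q) ∧ (∀ k ∈ K, k ∈ D) ∧ H.card ≤ b ∧ K.card ≤ b ∧
    ∃ c : X →+ X, IndepComm Q c ∧ IndepInj η c ∧
      ∀ S : AddSubgroup X, ∀ w ∈ indepW X η, (∀ a ∈ H, ∀ k ∈ K, a • Ψ (k • w) ∈ S) → c w ∈ S

theorem IndepCert.mono {Q η D : Subgroup G} {Ψ : X → X} {b b' : ℕ} (h : IndepCert Q η D Ψ b)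
    (hb : b ≤ b') : IndepCert Q η D Ψ b' := by
  obtain ⟨H, K, h1, h2, h3, h4, h5⟩ := h
  exact ⟨H, K, h1, h2, h3.trans hb, h4.trans hb, h5⟩

theorem indep_cert_base {Q η D : Subgroup G} {Ψ : X → X} (c : X →+ X) (hc : IndepComm Q c)
    (hi : IndepInj η c) (h : ∀ w ∈ indepW X η, Ψ w = c w) : IndepCert Q η D Ψ 1 := by
  refine ⟨{1}, {1}, by simp, by simp, by simp, by simp, c, hc, hi, fun S w hw hS => ?_⟩
  have := hS 1 (by simp) 1 (by simp)
  rwa [one_smul, one_smul, h w hw] at this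

/-- the standing hypotheses -/
structure IndepHyp (X : Type) [AddCommGroup X] [DistribMulAction G X] (Q E η : Subgroup G) :
    Prop where
  normal : Q.Normal
  le₁ : E ≤ Q
  le₂ : η ≤ E
  cent : ∀ e ∈ E, ∀ q ∈ Q, e * q = q * e
  comm : ⁅Q, Q⁆ ≤ E
  free : ∀ e ∈ E, e ∉ η → ∀ x : X, (∀ e' ∈ η, e' • x = x) → e • x = x → x = 0

variable {Q E η : Subgroup G}

theorem IndepHyp.smul_mem (h : IndepHyp X Q E η) {q : G} (hq : q ∈ Q) {w : X}
    (hw : w ∈ indepW X η) : q • w ∈ indepW X η := by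
  intro e he
  rw [smul_smul, h.cent e (h.le₂ he) q hq, ← smul_smul, hw e he]

theorem IndepHyp.map_mem (h : IndepHyp X Q E η) {c : X →+ X} (hc : IndepComm Q c) {w : X}
    (hw : w ∈ indepW X η) : c w ∈ indepW X η := by
  intro e he
  rw [← hc e (h.le₁ (h.le₂ he)), hw e he]

theorem IndepHyp.comm_R (h : IndepHyp X Q E η) {e : G} (he : e ∈ E) :
    IndepComm Q (indepR X e) := by
  intro q hq x
  simp only [indepR_apply, smul_smul, h.cent e he q hq]

theorem IndepHyp.comm_mem (h : IndepHyp X Q E η) {a b : G} (ha : a ∈ Q) (hb : b ∈ Q) :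
    ⁅a, b⁆ ∈ E := h.comm (commutator_mem_commutator ha hb)

theorem IndepComm.sub {c c' : X →+ X} (hc : IndepComm Q c) (hc' : IndepComm Q c') :
    IndepComm Q (c - c') := by
  intro q hq x
  simp only [AddMonoidHom.sub_apply, hc q hq, hc' q hq, smul_sub]

theorem IndepComm.neg {c : X →+ X} (hc : IndepComm Q c) : IndepComm Q (-c) := by
  intro q hq x
  simp only [AddMonoidHom.neg_apply, hc q hq, smul_neg]

theorem IndepComm.comp {c c' : X →+ X} (hc : IndepComm Q c) (hc' : IndepComm Q c') :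
    IndepComm Q (c.comp c') := by
  intro q hq x
  simp only [AddMonoidHom.comp_apply, hc q hq, hc' q hq]

theorem indep_comm_id : IndepComm Q (AddMonoidHom.id X) := fun _ _ _ => rfl

theorem indep_cert_step (h : IndepHyp X Q E η) {D : Subgroup G} {Ψ Ψ' : X → X}
    {b : ℕ} (hD : D ≤ Q) {y y' e : G} (hy : y ∈ Q) (hy' : y' ∈ D) (he : e ∈ Q)
    (hΨ : ∀ w ∈ indepW X η, Ψ' w = y • Ψ (y' • w) - e • Ψ w) (hc : IndepCert Q η D Ψ' b) :
    IndepCert Q η D Ψ (2 * b) := by
  classical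
  obtain ⟨H, K, h1, h2, h3, h4, c, hc1, hc2, hc3⟩ := hc
  refine ⟨H.image (· * y) ∪ H.image (· * e), K.image (y' * ·) ∪ K, ?_, ?_, ?_, ?_, c, hc1, hc2,
    fun S w hw hS => hc3 S w hw fun a ha k hk => ?_⟩
  · intro a ha
    rcases Finset.mem_union.1 ha with ha | ha
    · obtain ⟨a', ha', rfl⟩ := Finset.mem_image.1 ha
      exact Q.mul_mem (h1 a' ha') hy
    · obtain ⟨a', ha', rfl⟩ := Finset.mem_image.1 ha
      exact Q.mul_mem (h1 a' ha') he
  · intro a ha
    rcases Finset.mem_union.1 ha with ha | ha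
    · obtain ⟨a', ha', rfl⟩ := Finset.mem_image.1 ha
      exact D.mul_mem hy' (h2 a' ha')
    · exact h2 a ha
  · have := Finset.card_union_le (H.image (· * y)) (H.image (· * e))
    have := Finset.card_image_le (s := H) (f := (· * y))
    have := Finset.card_image_le (s := H) (f := (· * e))
    omega
  · have := Finset.card_union_le (K.image (y' * ·)) K
    have := Finset.card_image_le (s := K) (f := (y' * ·))
    omega
  · rw [hΨ _ (h.smul_mem (hD (h2 k hk)) hw), smul_sub, smul_smul, smul_smul, smul_smul]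
    refine S.sub_mem (hS _ ?_ _ ?_) (hS _ ?_ _ ?_)
    · exact Finset.mem_union_left _ (Finset.mem_image_of_mem _ ha)
    · exact Finset.mem_union_left _ (Finset.mem_image_of_mem _ hk)
    · exact Finset.mem_union_right _ (Finset.mem_image_of_mem _ ha)
    · exact Finset.mem_union_right _ hk

theorem IndepCert.congr (h : IndepHyp X Q E η) {D : Subgroup G} {Ψ Ψ' : X → X} {b : ℕ}
    (hD : D ≤ Q) (hc : IndepCert Q η D Ψ b) (hΨ : ∀ w ∈ indepW X η, Ψ' w = Ψ w) :
    IndepCert Q η D Ψ' b := by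
  obtain ⟨H, K, h1, h2, h3, h4, c, hc1, hc2, hc3⟩ := hc
  refine ⟨H, K, h1, h2, h3, h4, c, hc1, hc2, fun S w hw hS => hc3 S w hw fun a ha k hk => ?_⟩
  rw [← hΨ _ (h.smul_mem (hD (h2 k hk)) hw)]
  exact hS a ha k hk

theorem IndepHyp.inj_sub (h : IndepHyp X Q E η) {e : G} (he : e ∈ E) (he' : e ∉ η)
    {c : X →+ X} (hc : IndepComm Q c) (hi : IndepInj η c) :
    IndepInj η ((indepR X e - AddMonoidHom.id X).comp c) := by
  intro w hw h0
  refine hi w hw (h.free e he he' _ (h.map_mem hc hw) ?_)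
  simpa [sub_eq_zero] using h0

/-- stage I -/
theorem indep_stage_one (h : IndepHyp X Q E η) {D : Subgroup G} (hD : D ≤ Q) (P : G → Prop)
    (M b : ℕ)
    (hP : ∀ (c : X →+ X) (L : List ((X →+ X) × G)), IndepComm Q c → IndepInj η c →
      L.length ≤ M → (∀ t ∈ L, IndepComm Q t.1 ∧ P t.2) →
      IndepCert Q η D (fun w => c w + indepS L w) b) :
    ∀ (k : ℕ) (c : X →+ X) (L₁ L₂ : List ((X →+ X) × G)), IndepComm Q c → IndepInj η c →
      L₁.length ≤ k → L₂.length ≤ M →
      (∀ t ∈ L₁, IndepComm Q t.1 ∧ ∃ e ∈ E, e ∉ η ∧ t.2⁻¹ * e * t.2 ∈ η) →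
      (∀ t ∈ L₂, IndepComm Q t.1 ∧ P t.2) →
      IndepCert Q η D (fun w => c w + indepS L₁ w + indepS L₂ w) (2 ^ k * b) := by
  intro k
  induction k with
  | zero =>
    intro c L₁ L₂ hc hi h1 h2 _ hL₂
    obtain rfl : L₁ = [] := List.length_eq_zero_iff.1 (Nat.le_zero.1 h1)
    simpa using hP c L₂ hc hi h2 hL₂
  | succ k ih =>
    intro c L₁ L₂ hc hi h1 h2 hL₁ hL₂
    cases L₁ with
    | nil =>
      refine (ih c [] L₂ hc hi (by simp) h2 hL₁ hL₂).mono ?_
      exact Nat.mul_le_mul_right _ (Nat.pow_le_pow_right (by norm_num) (Nat.le_succ k))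
    | cons t L₁ =>
      obtain ⟨ht, e, he, he', hs⟩ := hL₁ t List.mem_cons_self
      set f : X →+ X := indepR X e - AddMonoidHom.id X with hf
      have hfc : IndepComm Q f := (h.comm_R he).sub indep_comm_id
      have key := ih (f.comp c) (L₁.map fun t => (f.comp t.1, t.2))
        (L₂.map fun t => (f.comp t.1, t.2)) (hfc.comp hc) (h.inj_sub he he' hc hi)
        (by simpa using h1) (by simpa using h2)
        (by
          intro s hs
          obtain ⟨s', hs', rfl⟩ := List.mem_map.1 hs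
          obtain ⟨a, b⟩ := hL₁ s' (List.mem_cons_of_mem _ hs')
          exact ⟨hfc.comp a, b⟩)
        (by
          intro s hs
          obtain ⟨s', hs', rfl⟩ := List.mem_map.1 hs
          obtain ⟨a, b⟩ := hL₂ s' hs'
          exact ⟨hfc.comp a, b⟩)
      rw [pow_succ, mul_comm _ 2, mul_assoc]
      refine indep_cert_step h hD (h.le₁ he) D.one_mem Q.one_mem (fun w hw => ?_) key
      have h0 : e • t.1 (t.2 • w) = t.1 (t.2 • w) := by
        rw [← ht e (h.le₁ he)]
        congr 1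
        conv_rhs => rw [← hw _ hs]
        rw [smul_smul, smul_smul]
        congr 1
        group
      rw [indepS_comp, indepS_comp]
      simp only [hf, AddMonoidHom.comp_apply, AddMonoidHom.sub_apply, indepR_apply,
        AddMonoidHom.id_apply, one_smul, indepS_cons, smul_add, h0]
      abel

/-- terms of type III -/
def IndepT (Q η : Subgroup G) (s : G) : Prop := s ∈ Q ∧ ∃ q ∈ Q, ⁅s, q⁆ ∉ η

/-- stage III -/
theorem indep_stage_three (h : IndepHyp X Q E η) :
    ∀ (k : ℕ) (c : X →+ X) (L : List ((X →+ X) × G)), IndepComm Q c → IndepInj η c →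
      L.length ≤ k → (∀ t ∈ L, IndepComm Q t.1 ∧ IndepT Q η t.2) →
      IndepCert Q η Q (fun w => c w + indepS L w) (2 ^ k) := by
  intro k
  induction k with
  | zero =>
    intro c L hc hi h1 _
    obtain rfl : L = [] := List.length_eq_zero_iff.1 (Nat.le_zero.1 h1)
    exact indep_cert_base c hc hi (by simp)
  | succ k ih =>
    intro c L hc hi h1 hL
    cases L with
    | nil =>
      exact (indep_cert_base c hc hi (by simp)).mono Nat.one_le_two_pow
    | cons t L =>
      obtain ⟨ht, hs, q, hq, hqs⟩ := hL t List.mem_cons_self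
      set e := ⁅q, t.2 * (1 : G)⁻¹⁆ with hedef
      have he : e ∈ E := h.comm_mem hq (by simpa using hs)
      have he' : e ∉ η := by
        intro h'
        apply hqs
        have := η.inv_mem h'
        simpa [hedef, commutatorElement_inv] using this
      set f : X →+ X := indepR X e - AddMonoidHom.id X with hf
      have hfc : IndepComm Q f := (h.comm_R he).sub indep_comm_id
      have key := ih (-(f.comp c))
        (L.map fun t => ((indepR X ⁅q, t.2 * (1 : G)⁻¹⁆ - indepR X e).comp t.1, t.2))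
        (hfc.comp hc).neg
        (fun w hw h0 => h.inj_sub he he' hc hi w hw (neg_eq_zero.1 h0))
        (by simpa using h1)
        (by
          intro s hs
          obtain ⟨s', hs', rfl⟩ := List.mem_map.1 hs
          obtain ⟨a, b⟩ := hL s' (List.mem_cons_of_mem _ hs')
          exact ⟨((h.comm_R (h.comm_mem hq (by simpa using b.1))).sub (h.comm_R he)).comp a, b⟩)
      rw [pow_succ, mul_comm _ 2]
      refine indep_cert_step h le_rfl hq (y' := (1 : G)⁻¹ * q⁻¹ * 1) (by simpa using hq)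
        (h.le₁ he) (fun w hw => ?_) key
      have h2 := indepS_conj (Q := Q) 1 q e hq (t :: L)
        (fun s hs => ⟨(hL s hs).1, by simpa using (hL s hs).2.1⟩) w
      rw [List.map_cons, indepS_cons] at h2
      simp only [← hedef, sub_self, AddMonoidHom.zero_comp, AddMonoidHom.zero_apply,
        zero_add] at h2
      have h3 : q • c (((1 : G)⁻¹ * q⁻¹ * 1) • w) = c w := by
        rw [← hc q hq, smul_smul]
        simp
      rw [h2, smul_add, smul_add, h3]
      simp only [hf, AddMonoidHom.neg_apply, AddMonoidHom.comp_apply, AddMonoidHom.sub_apply,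
        indepR_apply, AddMonoidHom.id_apply]
      abel

/-- number of steps -/
def indepG : ℕ → ℕ → ℕ :=
  fun m => Nat.rec (fun M => M) (fun _ g M => M + 2 ^ M * (M + 1) + g (2 ^ M * (M + 1))) m

theorem indepG_zero (M : ℕ) : indepG 0 M = M := rfl

theorem indepG_succ (m M : ℕ) :
    indepG (m + 1) M = M + 2 ^ M * (M + 1) + indepG m (2 ^ M * (M + 1)) := rfl

theorem indep_big_mono {n n' : ℕ} {s : G} (h : Big Q η n s) (hn : n' ≤ n) : Big Q η n' s :=
  fun F hF hc => h F hF (hc.trans hn)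

/-- good terms -/
def IndepGood (Q η : Subgroup G) (Z : List G) (s : G) : Prop :=
  IndepT Q η s ∨ ∃ σ ∈ Z, s * σ⁻¹ ∈ Q

/-- the inner induction of stage II -/
theorem indep_inner (h : IndepHyp X Q E η) (Z : List G) (σ : G) (B b : ℕ) (hσ : Big Q η B σ)
    (hP : ∀ (c : X →+ X) (L : List ((X →+ X) × G)), IndepComm Q c → IndepInj η c →
      L.length ≤ B → (∀ t ∈ L, IndepComm Q t.1 ∧ IndepGood Q η Z t.2) →
      IndepCert Q η Q (fun w => c w + indepS L w) b) :
    ∀ (k : ℕ) (c : X →+ X) (L₁ L₂ : List ((X →+ X) × G)), IndepComm Q c → IndepInj η c →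
      L₁.length ≤ k → 2 ^ k * (L₂.length + 1) ≤ B →
      (∀ t ∈ L₁, IndepComm Q t.1 ∧ t.2 * σ⁻¹ ∈ Q) →
      (∀ t ∈ L₂, IndepComm Q t.1 ∧ IndepGood Q η Z t.2) →
      IndepCert Q η Q (fun w => c w + indepS L₁ w + indepS L₂ w) (2 ^ k * b) := by
  classical
  intro k
  induction k with
  | zero =>
    intro c L₁ L₂ hc hi h1 h2 _ hL₂
    obtain rfl : L₁ = [] := List.length_eq_zero_iff.1 (Nat.le_zero.1 h1)
    simpa using hP c L₂ hc hi (by omega) hL₂
  | succ k ih =>
    intro c L₁ L₂ hc hi h1 h2 hL₁ hL₂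
    have hpow : 2 ^ k ≤ 2 ^ (k + 1) := Nat.pow_le_pow_right (by norm_num) (Nat.le_succ k)
    cases L₁ with
    | nil =>
      exact (ih c [] L₂ hc hi (by simp) ((Nat.mul_le_mul_right _ hpow).trans h2) hL₁ hL₂).mono
        (Nat.mul_le_mul_right _ hpow)
    | cons t L₁ =>
      obtain ⟨ht, hs⟩ := hL₁ t List.mem_cons_self
      have hlen : L₂.length + 1 ≤ B :=
        le_trans (Nat.le_mul_of_pos_left _ (Nat.two_pow_pos _)) h2
      obtain ⟨y, hy, hyF⟩ := hσ (insert 1 (((L₂.map Prod.snd).toFinset).filter (· ∈ Q)))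
        (by
          intro a ha
          rcases Finset.mem_insert.1 ha with rfl | ha
          · exact Q.one_mem
          · exact (Finset.mem_filter.1 ha).2)
        (by
          have a1 := Finset.card_insert_le (1 : G) (((L₂.map Prod.snd).toFinset).filter (· ∈ Q))
          have a2 := Finset.card_filter_le ((L₂.map Prod.snd).toFinset) (· ∈ Q)
          have a3 := List.toFinset_card_le (L₂.map Prod.snd)
          rw [List.length_map] at a3
          omega)
      set y' := σ⁻¹ * y⁻¹ * σ with hy'def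
      have hy' : y' ∈ Q := by
        have := h.normal.conj_mem _ (Q.inv_mem hy) σ⁻¹
        simpa [hy'def] using this
      set e := ⁅y, t.2 * σ⁻¹⁆ with hedef
      have he : e ∈ E := h.comm_mem hy hs
      set f : X →+ X := -indepR X e with hf
      have hfc : IndepComm Q f := (h.comm_R he).neg
      have key := ih (f.comp c)
        (L₁.map fun t => ((indepR X ⁅y, t.2 * σ⁻¹⁆ - indepR X e).comp t.1, t.2))
        ((c, y * y') :: ((L₂.map fun t => (t.1, y * t.2 * y')) ++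
          (L₂.map fun t => (f.comp t.1, t.2))))
        (hfc.comp hc)
        (fun w hw h0 => hi w hw (by
          have h00 : e • c w = 0 := by simpa [hf] using h0
          rw [← inv_smul_smul e (c w), h00, smul_zero]))
        (by simpa using h1)
        (by
          refine le_trans (le_of_eq ?_) h2
          simp only [List.length_cons, List.length_append, List.length_map]
          ring)
        (by
          intro s hs
          obtain ⟨s', hs', rfl⟩ := List.mem_map.1 hs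
          obtain ⟨a, b⟩ := hL₁ s' (List.mem_cons_of_mem _ hs')
          exact ⟨((h.comm_R (h.comm_mem hy b)).sub (h.comm_R he)).comp a, b⟩)
        (by
          intro s hs
          rcases List.mem_cons.1 hs with rfl | hs
          · refine ⟨hc, Or.inl ⟨Q.mul_mem hy hy', ?_⟩⟩
            simpa using hyF 1 (Finset.mem_insert_self _ _)
          rcases List.mem_append.1 hs with hs | hs
          · obtain ⟨s', hs', rfl⟩ := List.mem_map.1 hs
            obtain ⟨a, b⟩ := hL₂ s' hs'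
            refine ⟨a, ?_⟩
            rcases b with b | ⟨τ, hτ, b⟩
            · refine Or.inl ⟨Q.mul_mem (Q.mul_mem hy b.1) hy', hyF s'.2 ?_⟩
              refine Finset.mem_insert_of_mem (Finset.mem_filter.2 ⟨?_, b.1⟩)
              exact List.mem_toFinset.2 (List.mem_map_of_mem hs')
            · refine Or.inr ⟨τ, hτ, ?_⟩
              have := Q.mul_mem (Q.mul_mem hy b) (h.normal.conj_mem _ hy' τ)
              convert this using 1
              group
          · obtain ⟨s', hs', rfl⟩ := List.mem_map.1 hs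
            obtain ⟨a, b⟩ := hL₂ s' hs'
            exact ⟨hfc.comp a, b⟩)
      rw [pow_succ, mul_comm _ 2, mul_assoc]
      refine indep_cert_step h le_rfl hy hy' (h.le₁ he) (fun w hw => ?_) key
      have h2 := indepS_conj (Q := Q) σ y e hy (t :: L₁) hL₁ w
      rw [List.map_cons, indepS_cons] at h2
      simp only [← hedef, sub_self, AddMonoidHom.zero_comp, AddMonoidHom.zero_apply,
        zero_add, ← hy'def] at h2
      have h3 : c ((y * y') • w) = y • c (y' • w) := by rw [← hc y hy, smul_smul]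
      rw [h2, indepS_cons (c, y * y'), indepS_append, indepS_comp,
        indepS_move y y' hy L₂ (fun s hs => (hL₂ s hs).1), h3]
      simp only [hf, AddMonoidHom.neg_apply, AddMonoidHom.comp_apply, indepR_apply, smul_add]
      abel

/-- stage II -/
theorem indep_stage_two (h : IndepHyp X Q E η) :
    ∀ (m M : ℕ) (Z : List G), Z.length ≤ m → (∀ σ ∈ Z, Big Q η (indepG m M) σ) →
      ∀ (c : X →+ X) (L : List ((X →+ X) × G)), IndepComm Q c → IndepInj η c →
      L.length ≤ M → (∀ t ∈ L, IndepComm Q t.1 ∧ IndepGood Q η Z t.2) →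
      IndepCert Q η Q (fun w => c w + indepS L w) (2 ^ indepG m M) := by
  intro m
  induction m with
  | zero =>
    intro M Z hZ _ c L hc hi hM hL
    obtain rfl : Z = [] := List.length_eq_zero_iff.1 (Nat.le_zero.1 hZ)
    refine indep_stage_three h M c L hc hi hM fun t ht => ⟨(hL t ht).1, ?_⟩
    rcases (hL t ht).2 with b | ⟨τ, hτ, _⟩
    · exact b
    · simp at hτ
  | succ m ih =>
    intro M Z hZ hB c L hc hi hM hL
    rw [indepG_succ] at hB ⊢
    set B := 2 ^ M * (M + 1) with hBdef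
    have hMB : M + 1 ≤ B := Nat.le_mul_of_pos_left _ (Nat.two_pow_pos _)
    cases Z with
    | nil =>
      exact (ih B [] (by simp) (by simp) c L hc hi (by omega) hL).mono
        (Nat.pow_le_pow_right (by norm_num) (by omega))
    | cons σ Z =>
      obtain ⟨L₁, L₂, h1, h2, hL₁, hL₂, hs⟩ := indepS_split
        (fun t => IndepComm Q t.1 ∧ t.2 * σ⁻¹ ∈ Q)
        (fun t => IndepComm Q t.1 ∧ IndepGood Q η Z t.2) L (by
          intro t ht
          obtain ⟨a, b⟩ := hL t ht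
          rcases b with b | ⟨τ, hτ, b⟩
          · exact Or.inr ⟨a, Or.inl b⟩
          · rcases List.mem_cons.1 hτ with rfl | hτ
            · exact Or.inl ⟨a, b⟩
            · exact Or.inr ⟨a, Or.inr ⟨τ, hτ, b⟩⟩)
      have key := indep_inner h Z σ B (2 ^ indepG m B)
        (indep_big_mono (hB σ List.mem_cons_self) (by omega))
        (ih B Z (by simpa using hZ)
          (fun τ hτ => indep_big_mono (hB τ (List.mem_cons_of_mem _ hτ)) (by omega)))
        M c L₁ L₂ hc hi (h1.trans hM) (Nat.mul_le_mul_left _ (by omega)) hL₁ hL₂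
      refine (key.congr h le_rfl fun w _ => by rw [hs, add_assoc]).mono ?_
      rw [← pow_add]
      exact Nat.pow_le_pow_right (by norm_num) (by omega)

theorem IndepHyp.surj [Finite X] (h : IndepHyp X Q E η) {c : X →+ X} (hc : IndepComm Q c)
    (hi : IndepInj η c) {w : X} (hw : w ∈ indepW X η) : ∃ u ∈ indepW X η, c u = w := by
  let f : indepW X η → indepW X η := fun u => ⟨c u, h.map_mem hc u.2⟩
  have hf : Function.Injective f := by
    intro u v huv
    have h1 : c u = c v := congrArg Subtype.val huv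
    have h2 := hi (u - v) ((indepW X η).sub_mem u.2 v.2) (by rw [map_sub, h1, sub_self])
    exact Subtype.ext (sub_eq_zero.1 h2)
  obtain ⟨u, hu⟩ := Finite.surjective_of_injective hf ⟨w, hw⟩
  exact ⟨u, u.2, congrArg Subtype.val hu⟩

theorem indep_relIndex_ne [Finite X] (V W : AddSubgroup X) : V.relIndex W ≠ 0 :=
  AddSubgroup.index_ne_zero_of_finite

theorem indep_idx2_index [Finite X] {U : AddSubgroup X} (hU : Idx2 U) : U.index ≤ 2 := by
  classical
  have : Function.Injective (fun z : X ⧸ U => decide (z = 0)) := by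
    intro z z' hz
    induction z using QuotientAddGroup.induction_on with | H x => ?_
    induction z' using QuotientAddGroup.induction_on with | H x' => ?_
    simp only [decide_eq_decide, QuotientAddGroup.eq_zero_iff] at hz
    rw [QuotientAddGroup.eq_iff_sub_mem]
    by_cases hx : x ∈ U
    · exact U.sub_mem hx (hz.1 hx)
    · exact hU x x' hx (fun h' => hx (hz.2 h'))
  have h2 := Nat.card_le_card_of_injective _ this
  have h3 : Nat.card (X ⧸ U) ≤ 2 := by simpa using h2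
  exact h3

/-- a bounded number of translates generates the invariant closure -/
theorem indep_chain [Finite X] (h : IndepHyp X Q E η) (V₁ : AddSubgroup X)
    (h₁ : V₁ ≤ indepW X η) :
    ∀ (I : ℕ) (V : AddSubgroup X), V ≤ indepW X η → V.relIndex (indepW X η) ≤ I →
      ∃ H : Finset G, (∀ a ∈ H, a ∈ Q) ∧ H.card ≤ I ∧ ∀ S : AddSubgroup X, V ≤ S →
        (∀ a ∈ H, ∀ v ∈ V₁, a • v ∈ S) → ∀ a ∈ Q, ∀ v ∈ V₁, a • v ∈ S := by
  classical
  intro I
  induction I with
  | zero =>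
    intro V _ hI
    exact absurd (Nat.le_zero.1 hI) (indep_relIndex_ne _ _)
  | succ I ih =>
    intro V hV hI
    by_cases hall : ∀ a ∈ Q, ∀ v ∈ V₁, a • v ∈ V
    · exact ⟨∅, by simp, by simp, fun S hS _ a ha v hv => hS (hall a ha v hv)⟩
    push Not at hall
    obtain ⟨a, ha, v, hv, hav⟩ := hall
    have hV' : V ⊔ V₁.map (indepR X a) ≤ indepW X η := by
      refine sup_le hV ?_
      rintro _ ⟨u, hu, rfl⟩
      exact h.smul_mem ha (h₁ hu)
    have hmul := AddSubgroup.relIndex_mul_relIndex V (V ⊔ V₁.map (indepR X a)) (indepW X η)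
      le_sup_left hV'
    have hne : V.relIndex (V ⊔ V₁.map (indepR X a)) ≠ 1 := by
      rw [Ne, AddSubgroup.relIndex_eq_one]
      intro hle
      exact hav (hle (AddSubgroup.mem_sup_right ⟨v, hv, rfl⟩))
    have hn0 := indep_relIndex_ne V (V ⊔ V₁.map (indepR X a))
    have hn1 := indep_relIndex_ne (V ⊔ V₁.map (indepR X a)) (indepW X η)
    have hlt : (V ⊔ V₁.map (indepR X a)).relIndex (indepW X η) ≤ I := by
      have h2 : 2 ≤ V.relIndex (V ⊔ V₁.map (indepR X a)) := by omega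
      have h3 := Nat.mul_le_mul_right ((V ⊔ V₁.map (indepR X a)).relIndex (indepW X η)) h2
      omega
    obtain ⟨H, hH, hc, hS⟩ := ih _ hV' hlt
    refine ⟨insert a H, ?_, ?_, fun S hVS hH' => hS S (sup_le hVS ?_) ?_⟩
    · intro x hx
      rcases Finset.mem_insert.1 hx with rfl | hx
      · exact ha
      · exact hH x hx
    · have := Finset.card_insert_le a H
      omega
    · rintro _ ⟨u, hu, rfl⟩
      exact hH' a (Finset.mem_insert_self _ _) u hu
    · exact fun x hx => hH' x (Finset.mem_insert_of_mem hx)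

theorem IndepHyp.eq_of_triv [Finite X] (h : IndepHyp X Q E η) {V : AddSubgroup X} {e : G}
    (he : e ∈ E) (he' : e ∉ η) (hV : ∀ w ∈ indepW X η, e • w - w ∈ V) : indepW X η ≤ V := by
  intro w hw
  obtain ⟨u, hu, rfl⟩ := h.surj (((h.comm_R he).sub indep_comm_id).comp indep_comm_id)
    (h.inj_sub he he' indep_comm_id (fun w _ h0 => h0)) hw
  simpa using hV u hu

/-- an invariant subgroup of small index is everything when some element is big -/
theorem indep_big_top [Finite X] (h : IndepHyp X Q E η) {V : AddSubgroup X} {I : ℕ}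
    (hinv : ∀ a ∈ Q, ∀ v ∈ V, a • v ∈ V) (hI : V.relIndex (indepW X η) ≤ I) {σ : G}
    (hσ : Big Q η (I ^ I) σ) : indepW X η ≤ V := by
  classical
  let β := indepW X η ⧸ V.addSubgroupOf (indepW X η)
  have : Fintype β := Fintype.ofFinite β
  have hβ : Fintype.card β ≤ I := by
    rw [← Nat.card_eq_fintype_card]
    exact hI
  have hβ0 : 0 < Fintype.card β := Fintype.card_pos
  let sg : Q → β → β := fun q z =>
    QuotientAddGroup.mk ⟨(q : G) • ((z.out : indepW X η) : X), h.smul_mem q.2 z.out.2⟩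
  have hsg : ∀ a q : Q, sg a = sg q → ∀ w ∈ indepW X η, (a : G) • w - (q : G) • w ∈ V := by
    intro a q haq w hw
    let z : β := QuotientAddGroup.mk ⟨w, hw⟩
    have h1 : (a : G) • ((z.out : indepW X η) : X) - (q : G) • ((z.out : indepW X η) : X) ∈ V := by
      have := congrFun haq z
      simp only [sg] at this
      rw [QuotientAddGroup.eq_iff_sub_mem, AddSubgroup.mem_addSubgroupOf] at this
      simpa using this
    have h2 : w - ((z.out : indepW X η) : X) ∈ V := by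
      have : (QuotientAddGroup.mk ⟨w, hw⟩ : β) = QuotientAddGroup.mk z.out :=
        (QuotientAddGroup.out_eq' z).symm
      rw [QuotientAddGroup.eq_iff_sub_mem, AddSubgroup.mem_addSubgroupOf] at this
      simpa using this
    have h3 := V.sub_mem (V.add_mem h1 (hinv a a.2 _ h2)) (hinv q q.2 _ h2)
    convert h3 using 1
    simp only [smul_sub]
    abel
  let sec : (β → β) → Q := fun g => if hg : ∃ q, sg q = g then hg.choose else 1
  have hsec : ∀ q, sg (sec (sg q)) = sg q := by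
    intro q
    have hg : ∃ q', sg q' = sg q := ⟨q, rfl⟩
    simp only [sec, dif_pos hg]
    exact hg.choose_spec
  obtain ⟨y, hy, hyF⟩ := hσ (Finset.univ.image fun g => (sec g : G))
    (by
      intro a ha
      obtain ⟨g, _, rfl⟩ := Finset.mem_image.1 ha
      exact (sec g).2)
    (by
      refine Finset.card_image_le.trans ?_
      rw [Finset.card_univ, Fintype.card_fun]
      exact (Nat.pow_le_pow_left hβ _).trans (Nat.pow_le_pow_right (by omega) hβ))
  set y' := σ⁻¹ * y⁻¹ * σ with hy'def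
  have hy' : y' ∈ Q := by
    have := h.normal.conj_mem _ (Q.inv_mem hy) σ⁻¹
    simpa [hy'def] using this
  let q₀ : Q := ⟨y⁻¹ * y'⁻¹, Q.mul_mem (Q.inv_mem hy) (Q.inv_mem hy')⟩
  obtain ⟨q, hq, hne⟩ := hyF (sec (sg q₀)) (Finset.mem_image_of_mem _ (Finset.mem_univ _))
  set a : G := (sec (sg q₀) : G) with hadef
  have ha : a ∈ Q := (sec (sg q₀)).2
  have hz : y * a * y' ∈ Q := Q.mul_mem (Q.mul_mem hy ha) hy'
  have htriv : ∀ w ∈ indepW X η, (y * a * y') • w - w ∈ V := by
    intro w hw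
    have := hinv y hy _ (hsg _ _ (hsec q₀) _ (h.smul_mem hy' hw))
    convert this using 1
    simp only [smul_sub, smul_smul, q₀, ← hadef]
    congr 1
    · rw [mul_assoc]
    · simp
  set z := y * a * y' with hzdef
  refine h.eq_of_triv (h.comm_mem hz hq) hne fun w hw => ?_
  have h1 := htriv _ (h.smul_mem (Q.mul_mem (Q.mul_mem hq (Q.inv_mem hz)) (Q.inv_mem hq)) hw)
  have h2 := hinv q hq _
    (htriv _ (h.smul_mem (Q.mul_mem (Q.inv_mem hz) (Q.inv_mem hq)) hw))
  have h3 := V.sub_mem h1 h2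
  convert h3 using 1
  simp only [smul_sub, smul_smul, commutatorElement_def]
  have e1 : q * (z * (z⁻¹ * q⁻¹)) = 1 := by group
  have e2 : q * (z⁻¹ * q⁻¹) = q * z⁻¹ * q⁻¹ := by group
  have e3 : z * (q * z⁻¹ * q⁻¹) = z * q * z⁻¹ * q⁻¹ := by group
  rw [e1, e2, e3, one_smul]
  abel

/-- from a certificate to the conclusion -/
theorem indep_final [Finite X] (h : IndepHyp X Q E η) {D : Subgroup G} {Ψ : X → X} {b : ℕ}
    (hc : IndepCert Q η D Ψ b) {U : AddSubgroup X} (hU : Idx2 U)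
    (hcase : (∃ σ, Big Q η ((2 ^ b) ^ (2 ^ b)) σ) ∨ (D = ⊥ ∧ ∃ e ∈ E, e ∉ η)) :
    ∃ H : Finset G, (∀ a ∈ H, a ∈ Q) ∧ H.card ≤ (2 ^ b + 1) * b ∧ ∀ S : AddSubgroup X,
      (∀ a ∈ H, ∀ x ∈ U, a • Ψ x ∈ S) → ∀ w : X, (∀ e ∈ η, e • w = w) → w ∈ S := by
  classical
  obtain ⟨H, K, h1, h2, h3, h4, c, hc1, hc2, hc3⟩ := hc
  set U' : AddSubgroup X := indepW X η ⊓ ⨅ k : K, U.comap (indepR X (k : G)) with hU'
  have hU'mem : ∀ u, u ∈ U' ↔ u ∈ indepW X η ∧ ∀ k ∈ K, k • u ∈ U := by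
    intro u
    simp [hU', AddSubgroup.mem_iInf]
  have hI' : U'.relIndex (indepW X η) ≤ 2 ^ b := by
    rw [hU', inf_comm, AddSubgroup.inf_relIndex_right]
    refine (AddSubgroup.relIndex_iInf_le _).trans ?_
    refine (Finset.prod_le_pow_card _ _ 2 fun k _ => ?_).trans ?_
    · refine (AddSubgroup.relIndex_le_of_le_right le_top (indep_relIndex_ne _ _)).trans ?_
      rw [AddSubgroup.relIndex_top_right]
      refine indep_idx2_index fun x x' hx hx' => ?_
      have := hU _ _ hx hx'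
      simpa [smul_sub] using this
    · rw [Finset.card_univ, Fintype.card_coe]
      exact Nat.pow_le_pow_right (by norm_num) h4
  have hmapW : (indepW X η).map c = indepW X η := by
    apply le_antisymm
    · rintro _ ⟨u, hu, rfl⟩
      exact h.map_mem hc1 hu
    · intro w hw
      obtain ⟨u, hu, rfl⟩ := h.surj hc1 hc2 hw
      exact ⟨u, hu, rfl⟩
  have hV₁ : U'.map c ≤ indepW X η := by
    rw [← hmapW]
    exact AddSubgroup.map_mono inf_le_left
  have hI₁ : (U'.map c).relIndex (indepW X η) ≤ 2 ^ b := by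
    conv_lhs => rw [← hmapW, ← AddSubgroup.relIndex_comap]
    exact (AddSubgroup.relIndex_le_of_le_left (AddSubgroup.le_comap_map _ _)
      (indep_relIndex_ne _ _)).trans hI'
  obtain ⟨H₂, hH₂, hcard, hS₂⟩ := indep_chain h (U'.map c) hV₁ (2 ^ b) (U'.map c) hV₁ hI₁
  set V : AddSubgroup X := AddSubgroup.closure {x | ∃ a ∈ Q, ∃ v ∈ U'.map c, x = a • v} with hVdef
  have hV₁V : U'.map c ≤ V := fun v hv =>
    AddSubgroup.subset_closure ⟨1, Q.one_mem, v, hv, (one_smul _ _).symm⟩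
  have hinv : ∀ a ∈ Q, ∀ v ∈ V, a • v ∈ V := by
    intro a ha
    have : V ≤ V.comap (indepR X a) := by
      rw [hVdef, AddSubgroup.closure_le]
      rintro _ ⟨a', ha', v, hv, rfl⟩
      exact AddSubgroup.subset_closure ⟨a * a', Q.mul_mem ha ha', v, hv, smul_smul _ _ _⟩
    exact fun v hv => this hv
  have htop : indepW X η ≤ V := by
    rcases hcase with ⟨σ, hσ⟩ | ⟨rfl, e, he, he'⟩
    · exact indep_big_top h hinv
        ((AddSubgroup.relIndex_le_of_le_left hV₁V (indep_relIndex_ne _ _)).trans hI₁) hσ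
    · have hUU : ∀ u ∈ indepW X η, u ∈ U → c u ∈ V := by
        intro u hu hu'
        refine hV₁V ⟨u, (hU'mem u).2 ⟨hu, fun k hk => ?_⟩, rfl⟩
        rw [Subgroup.mem_bot.1 (h2 k hk), one_smul]
        exact hu'
      refine h.eq_of_triv he he' fun w hw => ?_
      by_cases hwV : w ∈ V
      · exact V.sub_mem (hinv e (h.le₁ he) w hwV) hwV
      have hwV' : e • w ∉ V := by
        intro h'
        have := hinv e⁻¹ (Q.inv_mem (h.le₁ he)) _ h'
        rw [inv_smul_smul] at this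
        exact hwV this
      obtain ⟨u, hu, hcu⟩ := h.surj hc1 hc2 hw
      obtain ⟨u', hu', hcu'⟩ := h.surj hc1 hc2 (h.smul_mem (h.le₁ he) hw)
      have := hUU (u' - u) ((indepW X η).sub_mem hu' hu)
        (hU u' u (fun h' => hwV' (hcu' ▸ hUU u' hu' h')) (fun h' => hwV (hcu ▸ hUU u hu h')))
      rwa [map_sub, hcu, hcu'] at this
  refine ⟨Finset.image₂ (· * ·) (insert 1 H₂) H, ?_, ?_, fun S hS w hw => ?_⟩
  · intro a ha
    obtain ⟨x, hx, y, hy, rfl⟩ := Finset.mem_image₂.1 ha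
    refine Q.mul_mem ?_ (h1 y hy)
    rcases Finset.mem_insert.1 hx with rfl | hx
    · exact Q.one_mem
    · exact hH₂ x hx
  · refine (Finset.card_image₂_le _ _ _).trans (Nat.mul_le_mul ?_ h3)
    have := Finset.card_insert_le 1 H₂
    omega
  · have key : ∀ a ∈ insert 1 H₂, ∀ v ∈ U'.map c, a • v ∈ S := by
      rintro a ha _ ⟨u, hu, rfl⟩
      obtain ⟨hu1, hu2⟩ := (hU'mem u).1 hu
      refine hc3 (S.comap (indepR X a)) u hu1 fun a' ha' k hk => ?_
      have := hS _ (Finset.mem_image₂_of_mem ha ha') _ (hu2 k hk)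
      simpa [smul_smul] using this
    have hall := hS₂ S
      (fun v hv => by simpa using key 1 (Finset.mem_insert_self _ _) v hv)
      (fun a ha => key a (Finset.mem_insert_of_mem ha))
    have hVS : V ≤ S := by
      rw [hVdef, AddSubgroup.closure_le]
      rintro _ ⟨a, ha, v, hv, rfl⟩
      exact hall a ha v hv
    exact hVS (htop hw)

theorem indep_opSum (T : List (ℤ × G)) (x : X) :
    opSum T x = AddMonoidHom.id X x +
      indepS (T.map fun a => (a.1 • AddMonoidHom.id X, a.2)) x := by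
  show x + (T.map fun a => a.1 • (a.2 • x)).sum =
    x + ((T.map fun a => (a.1 • AddMonoidHom.id X, a.2)).map fun t => t.1 (t.2 • x)).sum
  rw [List.map_map]
  rfl

end IndepAux

/-- independence of group elements on a homogeneous component of a class two group -/
theorem indep_lemma (l : ℕ) : ∃ b n : ℕ, ∀ (G X : Type) [Group G] [Finite G] [AddCommGroup X]
    [Finite X] [DistribMulAction G X] (Q E η : Subgroup G), Q.Normal → E ≤ Q → η ≤ E →
    (∀ e ∈ E, ∀ q ∈ Q, e * q = q * e) → ⁅Q, Q⁆ ≤ E →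
    (∀ e ∈ E, e ∉ η → ∀ x : X, (∀ e' ∈ η, e' • x = x) → e • x = x → x = 0) →
    (∃ e ∈ E, e ∉ η) →
    ∀ T : List (ℤ × G), T.length ≤ l →
    (∀ a ∈ T, (∃ e ∈ E, e ∉ η ∧ a.2⁻¹ * e * a.2 ∈ η) ∨ Big Q η n a.2) →
    ∀ U : AddSubgroup X, Idx2 U →
    ∃ H : Finset G, (∀ a ∈ H, a ∈ Q) ∧ H.card ≤ b ∧ ∀ S : AddSubgroup X,
      (∀ a ∈ H, ∀ x ∈ U, a • opSum T x ∈ S) → ∀ w : X, (∀ e ∈ η, e • w = w) → w ∈ S := by
  obtain ⟨b, hb⟩ : ∃ b, b = 2 ^ l * 2 ^ indepG l l := ⟨_, rfl⟩
  obtain ⟨n₀, hn₀⟩ : ∃ n₀, n₀ = (2 ^ b) ^ (2 ^ b) := ⟨_, rfl⟩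
  refine ⟨(2 ^ b + 1) * b, indepG l l + n₀, ?_⟩
  intro G X _ _ _ _ _ Q E η hQ h1 h2 h3 h4 h5 hE T hT hcase U hU
  have h : IndepHyp X Q E η := ⟨hQ, h1, h2, h3, h4, h5⟩
  obtain ⟨L₁, L₂, l1, l2, hL₁, hL₂, hs⟩ := indepS_split
    (fun t => IndepComm Q t.1 ∧ ∃ e ∈ E, e ∉ η ∧ t.2⁻¹ * e * t.2 ∈ η)
    (fun t => IndepComm Q t.1 ∧ Big Q η (indepG l l + n₀) t.2)
    (T.map fun a => (a.1 • AddMonoidHom.id X, a.2)) (by
      intro t ht
      obtain ⟨a, ha, rfl⟩ := List.mem_map.1 ht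
      have hcm : IndepComm Q (a.1 • AddMonoidHom.id X) := by
        intro q _ x
        exact ((indepR X q).map_zsmul a.1 x).symm
      rcases hcase a ha with h' | h'
      · exact Or.inl ⟨hcm, h'⟩
      · exact Or.inr ⟨hcm, h'⟩)
  rw [List.length_map] at l1 l2
  have hid : IndepInj η (AddMonoidHom.id X) := fun w _ h0 => h0
  have hop : ∀ w : X, opSum T w = AddMonoidHom.id X w + indepS L₁ w + indepS L₂ w := by
    intro w
    rw [indep_opSum, hs, add_assoc]
  cases L₂ with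
  | nil =>
    have key := indep_stage_one h (D := ⊥) bot_le (fun _ => True) 0 1
      (fun c L hc hi hL _ => by
        obtain rfl : L = [] := List.length_eq_zero_iff.1 (Nat.le_zero.1 hL)
        exact indep_cert_base c hc hi (by simp))
      l (AddMonoidHom.id X) L₁ [] indep_comm_id hid (l1.trans hT) le_rfl hL₁ (by simp)
    have key' : IndepCert Q η ⊥ (opSum T : X → X) b := by
      refine (key.congr h bot_le fun w _ => hop w).mono ?_
      rw [hb]
      exact Nat.mul_le_mul_left _ Nat.one_le_two_pow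
    exact indep_final h key' hU (Or.inr ⟨rfl, hE⟩)
  | cons t L₂ =>
    have key := indep_stage_one h (D := Q) le_rfl (IndepGood Q η ((t :: L₂).map Prod.snd)) l
      (2 ^ indepG l l)
      (indep_stage_two h l l ((t :: L₂).map Prod.snd) (by rw [List.length_map]; omega) (by
        intro σ hσ
        obtain ⟨s, hs, rfl⟩ := List.mem_map.1 hσ
        exact indep_big_mono (hL₂ s hs).2 (Nat.le_add_right _ _)))
      l (AddMonoidHom.id X) L₁ (t :: L₂) indep_comm_id hid (l1.trans hT) (l2.trans hT) hL₁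
      (fun s hs => ⟨(hL₂ s hs).1, Or.inr ⟨s.2, List.mem_map_of_mem hs, by simp⟩⟩)
    have key' : IndepCert Q η Q (opSum T : X → X) b := by
      rw [hb]
      exact key.congr h le_rfl fun w _ => hop w
    refine indep_final h key' hU (Or.inl ⟨t.2, ?_⟩)
    rw [← hn₀]
    exact indep_big_mono (hL₂ t List.mem_cons_self).2 (Nat.le_add_left _ _)

end Pool.Agent.FitW
end

-- part Pool.Agent.P.MP_ec89a0_al.TwoF
section

namespace Pool.Agent.FitW

open Subgroup
open scoped commutatorElement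

section Aux

variable {G : Type} [Group G] {X : Type} [AddCommGroup X] [DistribMulAction G X]

theorem twoF_opSum_conj (T : List (ℤ × G)) (y : G) (x : X) :
    opSum (T.map fun a => (a.1, y⁻¹ * a.2 * y)) x = y⁻¹ • opSum T (y • x) := by
  unfold opSum
  rw [smul_add, inv_smul_smul]
  congr 1
  induction T with
  | nil => simp
  | cons a T ih =>
    simp only [List.map_cons, List.sum_cons, smul_add]
    rw [ih, mul_smul, mul_smul, smul_comm y⁻¹ a.1]

/-- the counting step -/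
theorem twoF_count [Finite G] {l b n : ℕ} (Q E η : Subgroup G)
    (hc : ∀ e ∈ E, ∀ q ∈ Q, e * q = q * e) (hη : η ≤ E)
    (hind : ∀ T : List (ℤ × G), T.length ≤ l →
      (∀ a ∈ T, (∃ e ∈ E, e ∉ η ∧ a.2⁻¹ * e * a.2 ∈ η) ∨ Big Q η n a.2) →
      ∀ U : AddSubgroup X, Idx2 U →
      ∃ H : Finset G, (∀ a ∈ H, a ∈ Q) ∧ H.card ≤ b ∧ ∀ S : AddSubgroup X,
        (∀ a ∈ H, ∀ x ∈ U, a • opSum T x ∈ S) → ∀ w : X, (∀ e ∈ η, e • w = w) → w ∈ S)
    (Y : AddSubgroup X) (w₀ : X) (hw : ∀ e ∈ η, e • w₀ = w₀) (hwY : w₀ ∉ Y)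
    (P B : Subgroup G) (hQP : Q ≤ P)
    (hB : ∀ s : G, s ∉ B → (∃ e ∈ E, e ∉ η ∧ s⁻¹ * e * s ∈ η) ∨ Big Q η n s)
    (T : List (ℤ × G)) (hT : T.length ≤ l) (U : AddSubgroup X) (hU : Idx2 U) :
    cnt P (fun y => ∀ a ∈ T, y⁻¹ * a.2 * y ∉ B) ≤
      b * cnt P (fun y => ∃ x ∈ U, y⁻¹ • opSum T x ∉ Y) := by
  refine cnt_le_mul_of_cover P Q hQP _ _ b ?_
  intro y _ hy
  have hU' : Idx2 (U.comap (DistribMulAction.toAddMonoidHom X y)) := by
    intro x x' hx hx'
    have := hU (y • x) (y • x') hx hx'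
    rw [← smul_sub] at this
    exact this
  obtain ⟨H, hH, hHc, hS⟩ := hind (T.map fun a => (a.1, y⁻¹ * a.2 * y))
    (by simpa using hT)
    (by
      intro a ha
      obtain ⟨a', ha', rfl⟩ := List.mem_map.1 ha
      exact hB _ (hy a' ha')) _ hU'
  refine ⟨H, hH, hHc, ?_⟩
  intro q hq
  by_contra hcon
  push Not at hcon
  have := hS (Y.comap (DistribMulAction.toAddMonoidHom X q⁻¹)) ?_ (q • w₀) ?_
  · apply hwY
    have h2 : q⁻¹ • q • w₀ ∈ Y := this
    rwa [inv_smul_smul] at h2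
  · intro a ha x hx
    have h3 := hcon a ha (y • x) hx
    show q⁻¹ • a • opSum _ x ∈ Y
    rw [twoF_opSum_conj]
    simpa [mul_smul] using h3
  · intro e he
    rw [← mul_smul, hc e (hη he) q hq, mul_smul, hw e he]

/-- a prime dividing the order of a nontrivial finite group -/
theorem twoF_prime (A : Type) [Group A] [Finite A] [Nontrivial A] :
    ∃ r : ℕ, r.Prime ∧ ∃ x : A, x ≠ 1 ∧ x ^ r = 1 := by
  have h1 : Nat.card A ≠ 1 := (Finite.one_lt_card (α := A)).ne'
  obtain ⟨r, hr, hd⟩ := Nat.exists_prime_and_dvd h1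
  haveI := Fact.mk hr
  obtain ⟨x, hx⟩ := exists_prime_orderOf_dvd_card' (G := A) r hd
  refine ⟨r, hr, x, ?_, ?_⟩
  · rintro rfl
    rw [orderOf_one] at hx
    exact hr.one_lt.ne hx
  · rw [← hx]; exact pow_orderOf_eq_one x

/-- abelian case: the minimal subgroup has prime exponent -/
theorem twoF_exp_ab [Finite G] (Q T : Subgroup G) [hQ : Q.Normal] (hne : Q ≠ ⊥)
    (hc : ∀ x ∈ Q, ∀ y ∈ Q, x * y = y * x) (hT : ⁅Q, T⁆ = Q)
    (hmin : ∀ U : Subgroup G, U.Normal → U < Q → ⁅U, T⁆ = U → U = ⊥) :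
    ∃ r : ℕ, r.Prime ∧ ∀ e ∈ Q, e ^ r = 1 := by
  haveI : Nontrivial Q := (Subgroup.nontrivial_iff_ne_bot Q).2 hne
  obtain ⟨r, hr, x₀, hx₀, hx₀r⟩ := twoF_prime Q
  refine ⟨r, hr, ?_⟩
  let U : Subgroup G :=
    { carrier := {g | ∃ x ∈ Q, x ^ r = g}
      one_mem' := ⟨1, Q.one_mem, one_pow r⟩
      mul_mem' := by
        rintro _ _ ⟨x, hx, rfl⟩ ⟨y, hy, rfl⟩
        exact ⟨x * y, Q.mul_mem hx hy, Commute.mul_pow (hc x hx y hy) r⟩
      inv_mem' := by
        rintro _ ⟨x, hx, rfl⟩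
        exact ⟨x⁻¹, Q.inv_mem hx, inv_pow x r⟩ }
  have hUn : U.Normal := ⟨by
    rintro _ ⟨x, hx, rfl⟩ g
    exact ⟨g * x * g⁻¹, hQ.conj_mem x hx g, conj_pow⟩⟩
  have hUQ : U ≤ Q := by
    rintro _ ⟨x, hx, rfl⟩
    exact Q.pow_mem hx r
  have hUne : U ≠ Q := by
    intro h
    have hsurj : Function.Surjective (fun x : Q => x ^ r) := by
      intro y
      have hy : (y : G) ∈ U := h.ge y.2
      obtain ⟨x, hx, hxy⟩ := hy
      exact ⟨⟨x, hx⟩, Subtype.ext hxy⟩
    have hinj := Finite.injective_iff_surjective.2 hsurj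
    apply hx₀
    apply hinj
    simp [hx₀r]
  have hUT : ⁅U, T⁆ = U := by
    apply le_antisymm
    · exact Subgroup.commutator_le_left U T
    · rintro _ ⟨x, hx, rfl⟩
      have hx' : x ∈ ⁅Q, T⁆ := by rw [hT]; exact hx
      have key : ∀ x ∈ ⁅Q, T⁆, x ∈ Q ∧ x ^ r ∈ ⁅U, T⁆ := by
        intro x hx
        rw [Subgroup.commutator_def] at hx
        induction hx using Subgroup.closure_induction with
        | mem x hx =>
          obtain ⟨q, hq, t, ht, rfl⟩ := hx
          have h1 : t * q⁻¹ * t⁻¹ ∈ Q := hQ.conj_mem _ (Q.inv_mem hq) t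
          have h2 : ⁅q, t⁆ = q * (t * q⁻¹ * t⁻¹) := by
            rw [commutatorElement_def]; group
          refine ⟨h2 ▸ Q.mul_mem hq h1, ?_⟩
          have h3 : ⁅q, t⁆ ^ r = ⁅q ^ r, t⁆ := by
            rw [h2, Commute.mul_pow (hc _ hq _ h1), conj_pow, commutatorElement_def, inv_pow]
            group
          rw [h3]
          exact Subgroup.commutator_mem_commutator ⟨q, hq, rfl⟩ ht
        | one => exact ⟨Q.one_mem, by simp⟩
        | mul x y _ _ ihx ihy =>
          refine ⟨Q.mul_mem ihx.1 ihy.1, ?_⟩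
          rw [Commute.mul_pow (hc _ ihx.1 _ ihy.1)]
          exact Subgroup.mul_mem _ ihx.2 ihy.2
        | inv x _ ih =>
          refine ⟨Q.inv_mem ih.1, ?_⟩
          rw [inv_pow]
          exact Subgroup.inv_mem _ ih.2
      exact (key x hx').2
  have hbot := hmin U hUn (lt_of_le_of_ne hUQ hUne) hUT
  intro e he
  have : e ^ r ∈ U := ⟨e, he, rfl⟩
  rw [hbot] at this
  exact this

/-- commutators of elements normalising `η` centralise `E` modulo `η` -/
theorem twoF_cyc (E η : Subgroup G) [hE : E.Normal] (hη : η ≤ E)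
    (hc : ∀ x ∈ E, ∀ y ∈ E, x * y = y * x) (e₀ : G) (he₀ : e₀ ∈ E)
    (hgen : ∀ e ∈ E, ∃ k : ℕ, (e₀ ^ k)⁻¹ * e ∈ η) :
    ∀ c ∈ ⁅Subgroup.normalizer (η : Set G), Subgroup.normalizer (η : Set G)⁆,
      ∀ e ∈ E, ⁅e, c⁆ ∈ η := by
  have symm : ∀ {x y : G}, x⁻¹ * y ∈ η → y⁻¹ * x ∈ η := by
    intro x y h
    simpa using η.inv_mem h
  have trans : ∀ {x y z : G}, x⁻¹ * y ∈ η → y⁻¹ * z ∈ η → x⁻¹ * z ∈ η := by
    intro x y z h h'
    simpa [mul_assoc] using η.mul_mem h h'
  have pw : ∀ {x y : G} (k : ℕ), x ∈ E → y ∈ E → x⁻¹ * y ∈ η → (x ^ k)⁻¹ * y ^ k ∈ η := by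
    intro x y k hx hy h
    rw [← inv_pow, ← Commute.mul_pow (hc _ (E.inv_mem hx) _ hy)]
    exact η.pow_mem h k
  have cj : ∀ {x y g : G}, g ∈ Subgroup.normalizer (η : Set G) → x⁻¹ * y ∈ η →
      (g * x * g⁻¹)⁻¹ * (g * y * g⁻¹) ∈ η := by
    intro x y g hg h
    have := (Subgroup.mem_normalizer_iff.1 hg _).1 h
    have e : (g * x * g⁻¹)⁻¹ * (g * y * g⁻¹) = g * (x⁻¹ * y) * g⁻¹ := by group
    rw [e]; exact this
  have act : ∀ g ∈ Subgroup.normalizer (η : Set G), ∃ k : ℕ, ∀ e ∈ E,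
      (e ^ k)⁻¹ * (g * e * g⁻¹) ∈ η := by
    intro g hg
    obtain ⟨k, hk⟩ := hgen _ (hE.conj_mem e₀ he₀ g)
    refine ⟨k, fun e he => ?_⟩
    obtain ⟨j, hj⟩ := hgen e he
    have h1 : ((e₀ ^ j) ^ k)⁻¹ * e ^ k ∈ η := pw k (E.pow_mem he₀ j) he hj
    have h2 : ((e₀ ^ k) ^ j)⁻¹ * (g * e₀ * g⁻¹) ^ j ∈ η :=
      pw j (E.pow_mem he₀ k) (hE.conj_mem e₀ he₀ g) hk
    have h3 := cj hg hj
    rw [conj_pow] at h2
    rw [← pow_mul, mul_comm j k, pow_mul] at h1
    exact trans (symm h1) (trans h2 h3)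
  have two : ∀ g ∈ Subgroup.normalizer (η : Set G), ∀ h ∈ Subgroup.normalizer (η : Set G),
      ∀ e ∈ E, (g * h * e * (g * h)⁻¹)⁻¹ * (h * g * e * (h * g)⁻¹) ∈ η := by
    have one : ∀ g ∈ Subgroup.normalizer (η : Set G), ∀ h ∈ Subgroup.normalizer (η : Set G),
        ∀ k m : ℕ, (∀ e ∈ E, (e ^ k)⁻¹ * (g * e * g⁻¹) ∈ η) →
        (∀ e ∈ E, (e ^ m)⁻¹ * (h * e * h⁻¹) ∈ η) →
        ∀ e ∈ E, (e ^ (m * k))⁻¹ * (g * h * e * (g * h)⁻¹) ∈ η := by
      intro g hg h _ k m hk hm e he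
      have h1 := cj hg (hm e he)
      have h2 := hk _ (E.pow_mem he m)
      rw [← pow_mul] at h2
      have h3 := trans h2 h1
      have e1 : g * (h * e * h⁻¹) * g⁻¹ = g * h * e * (g * h)⁻¹ := by group
      rwa [e1] at h3
    intro g hg h hh e he
    obtain ⟨k, hk⟩ := act g hg
    obtain ⟨m, hm⟩ := act h hh
    have h1 := one g hg h hh k m hk hm e he
    have h2 := one h hh g hg m k hm hk e he
    rw [mul_comm k m] at h2
    exact trans (symm h1) h2
  have main : ∀ c ∈ ⁅Subgroup.normalizer (η : Set G), Subgroup.normalizer (η : Set G)⁆,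
      c ∈ Subgroup.normalizer (η : Set G) ∧ ∀ e ∈ E, (c * e * c⁻¹)⁻¹ * e ∈ η := by
    intro c hc'
    rw [Subgroup.commutator_def] at hc'
    induction hc' using Subgroup.closure_induction with
    | mem x hx =>
      obtain ⟨g, hg, h, hh, rfl⟩ := hx
      refine ⟨?_, fun e he => ?_⟩
      · rw [commutatorElement_def]
        exact Subgroup.mul_mem _ (Subgroup.mul_mem _ (Subgroup.mul_mem _ hg hh)
          (Subgroup.inv_mem _ hg)) (Subgroup.inv_mem _ hh)
      · have := two g hg h hh ((h * g)⁻¹ * e * (h * g)⁻¹⁻¹) (hE.conj_mem e he _)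
        convert this using 1
        rw [commutatorElement_def]; group
    | one => exact ⟨Subgroup.one_mem _, fun e _ => by simp⟩
    | mul x y _ _ ihx ihy =>
      refine ⟨Subgroup.mul_mem _ ihx.1 ihy.1, fun e he => ?_⟩
      have h1 := cj ihx.1 (ihy.2 e he)
      have h2 := trans h1 (ihx.2 e he)
      convert h2 using 2
      group
    | inv x _ ih =>
      refine ⟨Subgroup.inv_mem _ ih.1, fun e he => ?_⟩
      have h1 := symm (ih.2 _ (hE.conj_mem e he x⁻¹))
      convert h1 using 2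
      group
  intro c hc' e he
  have h1 := (main c hc').2 e he
  have h2 : ⁅e, c⁆ = (c * e * c⁻¹)⁻¹ * e := by
    rw [hc _ (E.inv_mem (hE.conj_mem e he c)) _ he, commutatorElement_def]
    group
  rw [h2]; exact h1

theorem twoF_comm_mul {x y q : G} (h : Commute x ⁅y, q⁆) : ⁅x * y, q⁆ = ⁅y, q⁆ * ⁅x, q⁆ := by
  have e : ⁅x * y, q⁆ = x * ⁅y, q⁆ * x⁻¹ * ⁅x, q⁆ := by
    simp only [commutatorElement_def]; group
  rw [e, h.eq]; group

theorem twoF_comm_pow {x q : G} (h : Commute x ⁅x, q⁆) (k : ℕ) : ⁅x ^ k, q⁆ = ⁅x, q⁆ ^ k := by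
  induction k with
  | zero => simp
  | succ k ih =>
    rw [pow_succ', twoF_comm_mul, ih, pow_succ]
    rw [ih]
    exact h.pow_right k

theorem twoF_p_pow {Q K : Subgroup G} {p : G → X} (h : IsSect Q K p) {x : G} (hx : x ∈ Q)
    (k : ℕ) : p (x ^ k) = k • p x := by
  induction k with
  | zero => simpa using h.one
  | succ k ih => rw [pow_succ, h.mul _ (Q.pow_mem hx k) _ hx, ih, succ_nsmul]

/-- a nontrivial finite simple module is killed by a prime -/
theorem twoF_kill [Finite X] (hs : SimpleMod G X) (hX : ∃ x : X, x ≠ 0) :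
    ∃ r : ℕ, r.Prime ∧ ∀ x : X, r • x = 0 := by
  obtain ⟨v, hv⟩ := hX
  haveI : Nontrivial (Multiplicative X) := ⟨⟨Multiplicative.ofAdd v, 1, hv⟩⟩
  obtain ⟨r, hr, x₀, hx₀, hx₀r⟩ := twoF_prime (Multiplicative X)
  refine ⟨r, hr, ?_⟩
  have := hs (nsmulAddMonoidHom (α := X) r).ker (by
    intro g x hx
    have hx' : r • x = 0 := hx
    show r • g • x = 0
    rw [smul_comm, hx', smul_zero])
  rcases this with h | h
  · exfalso
    apply hx₀
    have h1 : Multiplicative.toAdd x₀ ∈ (nsmulAddMonoidHom (α := X) r).ker := hx₀r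
    rw [h] at h1
    exact h1
  · intro x
    have h1 : x ∈ (nsmulAddMonoidHom (α := X) r).ker := by rw [h]; trivial
    exact h1

end Aux

/-- level two for a faithful module -/
theorem level_two_faith (l : ℕ) : ∃ b f : ℕ, ∀ (G X : Type) [Group G] [Finite G] [Group.IsSolvable G]
    [AddCommGroup X] [Finite X] [DistribMulAction G X], SimpleMod G X → Faith G X →
    ∀ Y : AddSubgroup X, Y ≠ ⊤ → ∀ P T' : Subgroup G, P.Normal → T'.Normal → ⁅P, T'⁆ = P →
    P ≠ ⊥ → ∃ B : Subgroup G, ¬ T' ≤ dser B f ∧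
      ∀ T : List (ℤ × G), T.length ≤ l → ∀ U : AddSubgroup X, Idx2 U →
        cnt P (fun y => ∀ a ∈ T, y⁻¹ * a.2 * y ∉ B) ≤
          b * cnt P (fun y => ∃ x ∈ U, y⁻¹ • opSum T x ∉ Y) := by
  obtain ⟨b, n, hind⟩ := indep_lemma l
  obtain ⟨f, hstate⟩ := state_lemma n
  refine ⟨b, f + 1, ?_⟩
  intro G X _ _ _ _ _ _ hs hf Y hY P T' hP hT' hPT hne
  classical
  obtain ⟨Q, hQ, hQP, hQne, hQT, hmin, hcen⟩ := exists_min_mov P T' hPT hne
  have hlt : ⁅Q, Q⁆ < Q := Group.IsSolvable.commutator_lt_of_ne_bot hQne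
  by_cases hab : ⁅Q, Q⁆ = ⊥
  · -- abelian case
    have hc : ∀ x ∈ Q, ∀ y ∈ Q, x * y = y * x := by
      intro x hx y hy
      have h1 : ⁅x, y⁆ ∈ ⁅Q, Q⁆ := Subgroup.commutator_mem_commutator hx hy
      rw [hab] at h1
      exact (commutatorElement_eq_one_iff_commute.1 h1).eq
    obtain ⟨r, hr, hexp⟩ := twoF_exp_ab Q T' hQne hc hQT hmin
    obtain ⟨h0, hr0⟩ := cop_zero hs hf Q hQne hr hexp
    obtain ⟨η, hη, ⟨w₀, hw, hwY⟩, hfix, e₀, he₀, he₀η, hgen⟩ :=
      cop_eta Q hc hr hexp h0 hr0 Y hY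
    refine ⟨Subgroup.normalizer (η : Set G), ?_, ?_⟩
    · intro hle
      have h1 : T' ≤ ⁅Subgroup.normalizer (η : Set G), Subgroup.normalizer (η : Set G)⁆ :=
        hle.trans (dser_anti (Subgroup.normalizer (η : Set G)) (Nat.le_add_left 1 f))
      have h2 : ⁅Q, T'⁆ ≤ η := by
        rw [Subgroup.commutator_le]
        intro e he t ht
        exact twoF_cyc Q η hη hc e₀ he₀ hgen t (h1 ht) e he
      rw [hQT] at h2
      exact he₀η (h2 he₀)
    · refine twoF_count Q Q η hc hη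
        (hind G X Q Q η hQ le_rfl hη hc hlt.le hfix ⟨e₀, he₀, he₀η⟩) Y w₀ hw hwY P _ hQP ?_
      intro s hsB
      left
      by_contra hcon
      apply hsB
      apply Subgroup.mem_normalizer_fintype
      intro x hx
      by_contra hx'
      refine hcon ⟨s * x * s⁻¹, hQ.conj_mem x (hη hx) s, hx', ?_⟩
      simpa [mul_assoc] using hx
  · -- nonabelian case
    set Z : Subgroup G := Q ⊓ Subgroup.centralizer (Q : Set G) with hZdef
    haveI hZn : Z.Normal := inferInstance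
    have hZ : ∀ z, z ∈ Z ↔ z ∈ Q ∧ ∀ q ∈ Q, q * z = z * q := by
      intro z
      rw [hZdef, Subgroup.mem_inf, Subgroup.mem_centralizer_iff]
      rfl
    have hZQ : Z ≤ Q := inf_le_left
    have hsub : ∀ U : Subgroup G, U.Normal → U < Q → U ≤ Z := by
      intro U hU hUQ
      exact le_inf hUQ.le (Subgroup.commutator_eq_bot_iff_le_centralizer.1 (hcen U hU hUQ))
    have hQZ : ⁅Q, Q⁆ ≤ Z := hsub _ inferInstance hlt
    have hcomm : ∀ x ∈ Q, ∀ y ∈ Q, ∀ q ∈ Q, Commute x ⁅y, q⁆ := fun x hx y hy q hq =>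
      ((hZ _).1 (hQZ (Subgroup.commutator_mem_commutator hy hq))).2 x hx
    have hZc : ∀ z ∈ Z, ∀ q ∈ Q, ⁅z, q⁆ = 1 := fun z hz q hq =>
      commutatorElement_eq_one_iff_commute.2 (((hZ z).1 hz).2 q hq).symm
    have hnot : ¬ Q ≤ Z := by
      intro h
      apply hab
      rw [eq_bot_iff, Subgroup.commutator_le]
      intro x hx y hy
      rw [hZc x (h hx) y hy]
      exact Subgroup.one_mem _
    obtain ⟨X', _, _, _, p, hp⟩ := exists_sect Q Z hZQ hQZ
    have hsimple : SimpleMod G X' := hp.simple hZQ (by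
      intro U hU hZU hUQ
      by_cases h : U = Q
      · exact Or.inr h
      · exact Or.inl (le_antisymm (hsub U hU (lt_of_le_of_ne hUQ h)) hZU))
    obtain ⟨r, hr, hkill⟩ := twoF_kill hsimple (by
      obtain ⟨x, hx, hxZ⟩ := SetLike.not_le_iff_exists.1 hnot
      exact ⟨p x, fun h => hxZ ((hp.ker x hx).1 h)⟩)
    have hpowZ : ∀ x ∈ Q, x ^ r ∈ Z := fun x hx =>
      (hp.ker _ (Q.pow_mem hx r)).1 (by rw [twoF_p_pow hp hx, hkill])
    let E : Subgroup G :=
      { carrier := {e | e ∈ Z ∧ e ^ r = 1}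
        one_mem' := ⟨Z.one_mem, one_pow r⟩
        mul_mem' := by
          rintro x y ⟨hx, hx'⟩ ⟨hy, hy'⟩
          refine ⟨Z.mul_mem hx hy, ?_⟩
          rw [Commute.mul_pow (((hZ y).1 hy).2 x (hZQ hx)), hx', hy', one_mul]
        inv_mem' := by
          rintro x ⟨hx, hx'⟩
          exact ⟨Z.inv_mem hx, by rw [inv_pow, hx', inv_one]⟩ }
    haveI hEn : E.Normal := ⟨by
      rintro x ⟨hx, hx'⟩ g
      exact ⟨hZn.conj_mem x hx g, by rw [conj_pow, hx']; simp⟩⟩
    have hEZ : E ≤ Z := fun x hx => hx.1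
    have hQE : ⁅Q, Q⁆ ≤ E := by
      rw [Subgroup.commutator_le]
      intro x hx y hy
      refine ⟨hQZ (Subgroup.commutator_mem_commutator hx hy), ?_⟩
      rw [← twoF_comm_pow (hcomm x hx x hx y hy), hZc _ (hpowZ x hx) y hy]
    have hEne : E ≠ ⊥ := by
      intro h
      rw [h] at hQE
      exact hab (le_bot_iff.1 hQE)
    have hEQ : ∀ e ∈ E, ∀ q ∈ Q, e * q = q * e := fun e he q hq =>
      (((hZ e).1 he.1).2 q hq).symm
    have hexp : ∀ e ∈ E, e ^ r = 1 := fun e he => he.2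
    obtain ⟨h0, hr0⟩ := cop_zero hs hf E hEne hr hexp
    obtain ⟨η, hη, ⟨w₀, hw, hwY⟩, hfix, e₀, he₀, he₀η, _⟩ :=
      cop_eta E (fun e he e' he' => hEQ e he e' (hZQ he'.1)) hr hexp h0 hr0 Y hY
    have hQη : ¬ ⁅Q, Q⁆ ≤ η := by
      intro h
      have h1 := (cop_zero hs hf ⁅Q, Q⁆ hab hr (fun e he => hexp e (hQE he))).1 w₀
        (fun e he => hw e (h he))
      apply hwY
      rw [h1]
      exact Y.zero_mem
    let A : Subgroup G :=
      { carrier := {y | y ∈ Q ∧ ∀ q ∈ Q, ⁅y, q⁆ ∈ η}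
        one_mem' := ⟨Q.one_mem, fun q _ => by simp⟩
        mul_mem' := by
          rintro x y ⟨hx, hx'⟩ ⟨hy, hy'⟩
          refine ⟨Q.mul_mem hx hy, fun q hq => ?_⟩
          rw [twoF_comm_mul (hcomm x hx y hy q hq)]
          exact η.mul_mem (hy' q hq) (hx' q hq)
        inv_mem' := by
          rintro x ⟨hx, hx'⟩
          refine ⟨Q.inv_mem hx, fun q hq => ?_⟩
          have h1 := twoF_comm_mul (hcomm x hx x⁻¹ (Q.inv_mem hx) q hq)
          rw [mul_inv_cancel, commutatorElement_one_left] at h1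
          rw [eq_inv_of_mul_eq_one_left h1.symm]
          exact η.inv_mem (hx' q hq) }
    have hZA : Z ≤ A := fun z hz =>
      ⟨hZQ hz, fun q hq => by rw [hZc z hz q hq]; exact η.one_mem⟩
    obtain ⟨Y', hY', -, hY'top⟩ := hp.exists_image A hZA
    have hY'ne : Y' ≠ ⊤ := hY'top (by
      intro h
      apply hQη
      rw [Subgroup.commutator_le]
      intro x hx y hy
      exact (h hx).2 y hy)
    refine ⟨Subgroup.closure {t : G | Small Y' n t}, ?_, ?_⟩
    · intro hle
      exact hstate G X' Y' hY'ne T' (hp.mov hQT) (hle.trans (dser_succ_le _ f))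
    · refine twoF_count Q E η hEQ hη
        (hind G X Q E η hQ (hEZ.trans hZQ) hη hEQ hQE hfix ⟨e₀, he₀, he₀η⟩) Y w₀ hw hwY P _ hQP ?_
      intro s hsB
      by_cases hnorm : ∀ x ∈ η, s * x * s⁻¹ ∈ η
      · right
        have hns : ¬ Small Y' n s := fun h => hsB (Subgroup.subset_closure h)
        have hstab : ∀ x ∈ Y', s • x ∈ Y' := by
          intro x hx
          obtain ⟨u, hu, rfl⟩ := hp.surj x
          have huA := (hY' u hu).1 hx
          rw [← hp.conj s u hu, hY' _ (hQ.conj_mem u hu s)]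
          refine ⟨hQ.conj_mem u hu s, fun q hq => ?_⟩
          have h1 := hnorm _ (huA.2 _ (hQ.conj_mem q hq s⁻¹))
          convert h1 using 1
          simp only [commutatorElement_def]; group
        intro F hF hFc
        have h2 : ¬ ∀ x : X', ∃ φ ∈ F.image (fun a => -p a), s • x - x - φ ∈ Y' := fun h =>
          hns ⟨hstab, _, Finset.card_image_le.trans hFc, h⟩
        push Not at h2
        obtain ⟨x, hx⟩ := h2
        obtain ⟨y, hy, hyx⟩ := hp.surj (s • x)
        refine ⟨y, hy, fun a ha => ?_⟩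
        by_contra hcon
        push Not at hcon
        have h3 : s⁻¹ * y⁻¹ * s ∈ Q := by
          simpa using hQ.conj_mem _ (Q.inv_mem hy) s⁻¹
        have h4 : y * a * (s⁻¹ * y⁻¹ * s) ∈ Q := Q.mul_mem (Q.mul_mem hy (hF a ha)) h3
        have h5 := (hY' _ h4).2 ⟨h4, hcon⟩
        have h6 : p (s⁻¹ * y⁻¹ * s) = -x := by
          have := hp.conj s⁻¹ _ (Q.inv_mem hy)
          rw [inv_inv] at this
          rw [this, hp.inv hy, hyx, smul_neg, inv_smul_smul]
        rw [hp.mul _ (Q.mul_mem hy (hF a ha)) _ h3, hp.mul _ hy _ (hF a ha), h6, hyx] at h5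
        apply hx (-p a) (Finset.mem_image_of_mem _ ha)
        convert h5 using 1
        abel
      · left
        push Not at hnorm
        obtain ⟨x, hx, hx'⟩ := hnorm
        refine ⟨s * x * s⁻¹, hEn.conj_mem x (hη hx) s, hx', ?_⟩
        simpa [mul_assoc] using hx

end Pool.Agent.FitW
end

-- part Pool.Agent.P.MP_ec89a0_al.Two
section

namespace Pool.Agent.FitW

open Subgroup
open scoped commutatorElement

/-- every action factors through a faithful one -/
theorem two_exists_faith (G X : Type) [Group G] [AddCommGroup X] [DistribMulAction G X] :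
    ∃ (H : Type) (_ : Group H) (_ : DistribMulAction H X) (φ : G →* H),
      Function.Surjective φ ∧ Faith H X ∧ ∀ (g : G) (x : X), φ g • x = g • x := by
  refine ⟨(DistribMulAction.toModuleAut ℤ X : G →* X ≃ₗ[ℤ] X).range, inferInstance, inferInstance,
    MonoidHom.rangeRestrict _, MonoidHom.rangeRestrict_surjective _, ?_, ?_⟩
  · intro g hg
    apply Subtype.ext
    apply LinearEquiv.ext
    intro x
    exact hg x
  · intro g x
    rfl

theorem two_opSum {G H X : Type} [Group G] [Group H] [AddCommGroup X] [DistribMulAction G X]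
    [DistribMulAction H X] (φ : G →* H) (hφ : ∀ (g : G) (x : X), φ g • x = g • x)
    (T : List (ℤ × G)) (x : X) :
    opSum (T.map fun a => (a.1, φ a.2)) x = opSum T x := by
  unfold opSum
  rw [List.map_map]
  congr 2
  apply List.map_congr_left
  intro a _
  simp only [Function.comp, hφ]

/-- level two -/
theorem level_two (l : ℕ) : ∃ b f : ℕ, ∀ (G X : Type) [Group G] [Finite G] [Group.IsSolvable G]
    [AddCommGroup X] [Finite X] [DistribMulAction G X], SimpleMod G X →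
    ∀ Y : AddSubgroup X, Y ≠ ⊤ → ∀ P T' : Subgroup G, P.Normal → T'.Normal → ⁅P, T'⁆ = P →
    (∃ t ∈ P, ∃ x : X, t • x ≠ x) →
    ∃ B : Subgroup G, (∀ g : G, (∀ x : X, g • x = x) → g ∈ B) ∧ ¬ T' ≤ dser B f ∧
      ∀ T : List (ℤ × G), T.length ≤ l → ∀ U : AddSubgroup X, Idx2 U →
        cnt P (fun y => ∀ a ∈ T, y⁻¹ * a.2 * y ∉ B) ≤
          b * cnt P (fun y => ∃ x ∈ U, y⁻¹ • opSum T x ∉ Y) := by
  obtain ⟨b, f, hbf⟩ := level_two_faith l
  refine ⟨b, f, ?_⟩
  intro G X _ _ _ _ _ _ hS Y hY P T' hP hT' hPT hne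
  obtain ⟨H, _, _, φ, hsurj, hF, hφ⟩ := two_exists_faith G X
  have : Finite H := Finite.of_surjective φ hsurj
  have : Group.IsSolvable H := Group.isSolvable_of_surjective hsurj
  have hSH : SimpleMod H X := by
    intro U hU
    apply hS U
    intro g x hx
    rw [← hφ]
    exact hU _ x hx
  have hcomm : ⁅P.map φ, T'.map φ⁆ = P.map φ := by
    rw [← Subgroup.map_commutator, hPT]
  have hne' : P.map φ ≠ ⊥ := by
    obtain ⟨t, ht, x, hx⟩ := hne
    intro hb
    have h1 : φ t ∈ P.map φ := Subgroup.mem_map_of_mem φ ht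
    rw [hb, Subgroup.mem_bot] at h1
    apply hx
    rw [← hφ, h1, one_smul]
  obtain ⟨B, hB1, hB2⟩ := hbf H X hSH hF Y hY (P.map φ) (T'.map φ) (hP.map φ hsurj)
    (hT'.map φ hsurj) hcomm hne'
  refine ⟨B.comap φ, ?_, ?_, ?_⟩
  · intro g hg
    have h1 : φ g = 1 := hF _ fun x => by rw [hφ, hg]
    rw [Subgroup.mem_comap, h1]
    exact B.one_mem
  · intro hle
    apply hB1
    have h1 := Subgroup.map_mono (f := φ) hle
    rwa [map_dser, Subgroup.map_comap_eq_self_of_surjective hsurj] at h1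
  · intro T hT U hU
    have h1 := hB2 (T.map fun a => (a.1, φ a.2)) (by simpa using hT) U hU
    have e1 : (fun y : G => ∀ a ∈ T, y⁻¹ * a.2 * y ∉ B.comap φ) =
        fun y : G => (fun z : H => ∀ a ∈ T.map (fun a => (a.1, φ a.2)), z⁻¹ * a.2 * z ∉ B) (φ y) := by
      funext y
      apply propext
      constructor
      · intro h a ha
        obtain ⟨a', ha', rfl⟩ := List.mem_map.1 ha
        have h2 := h a' ha'
        rwa [Subgroup.mem_comap, map_mul, map_mul, map_inv] at h2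
      · intro h a ha
        have h2 := h _ (List.mem_map.2 ⟨a, ha, rfl⟩)
        rwa [Subgroup.mem_comap, map_mul, map_mul, map_inv]
    have e2 : (fun y : G => ∃ x ∈ U, y⁻¹ • opSum T x ∉ Y) =
        fun y : G => (fun z : H => ∃ x ∈ U,
          z⁻¹ • opSum (T.map fun a => (a.1, φ a.2)) x ∉ Y) (φ y) := by
      funext y
      simp only [two_opSum φ hφ, ← map_inv, hφ]
    have c1 := cnt_comap φ P
      (fun z : H => ∀ a ∈ T.map (fun a => (a.1, φ a.2)), z⁻¹ * a.2 * z ∉ B)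
    have c2 := cnt_comap φ P
      (fun z : H => ∃ x ∈ U, z⁻¹ • opSum (T.map fun a => (a.1, φ a.2)) x ∉ Y)
    rw [e1, e2]
    refine (c1.le.trans ?_).trans (Nat.mul_le_mul_left b c2.ge)
    rw [Nat.mul_left_comm]
    exact Nat.mul_le_mul_left _ h1

end Pool.Agent.FitW
end

-- part Pool.Agent.P.MP_ec89a0_al.NewPair
section

namespace Pool.Agent.FitW

open Subgroup
open scoped commutatorElement

theorem NewPair_triv {G : Type} [Group G] {X : Type} [AddCommGroup X] [DistribMulAction G X]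
    {Q K N : Subgroup G} [Q.Normal] {p : G → X} (h : IsSect Q K p) (hQN : Q ≤ N)
    (hNN : ⁅N, N⁆ ≤ K) {g : G} (hg : g ∈ N) (x : X) : g • x = x :=
  h.smul_eq (fun _ hu => hNN (Subgroup.commutator_mem_commutator hg (hQN hu))) x

theorem NewPair_moves {G : Type} [Group G] [Finite G] {X : Type} [AddCommGroup X]
    [DistribMulAction G X] {Q K N P : Subgroup G} [Q.Normal] [K.Normal] [N.Normal] {p : G → X}
    (h : IsSect Q K p) (hKQ : K ≤ Q) (hQN : Q ≤ N) (hNN : ⁅N, N⁆ ≤ K) (hQK : ¬ Q ≤ K)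
    (hNP : ⁅N, P⁆ = N) {k : ℕ} (hk : P.lowerCentralSeries k ≤ N) :
    ∃ t ∈ P, ∃ x : X, t • x ≠ x := by
  by_contra hcon
  push Not at hcon
  obtain ⟨X', i1, i2, i3, p', h'⟩ := exists_sect N K (hKQ.trans hQN) hNN
  obtain ⟨u, huQ, huK⟩ := SetLike.not_le_iff_exists.1 hQK
  have huN : u ∈ N := hQN huQ
  have hv : p' u = 0 := by
    refine no_fixed P k (fun g hg x => NewPair_triv h' le_rfl hNN (hk hg) x) (h'.mov hNP) (p' u) ?_
    intro t ht
    have hc : t * u * t⁻¹ ∈ Q := Subgroup.Normal.conj_mem inferInstance u huQ t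
    have h1 : p (t * u * t⁻¹ * u⁻¹) = 0 := by
      rw [h.mul _ hc _ (Q.inv_mem huQ), h.conj t u huQ, hcon t ht, h.inv huQ, add_neg_cancel]
    have h2 : t * u * t⁻¹ * u⁻¹ ∈ K := (h.ker _ (Q.mul_mem hc (Q.inv_mem huQ))).1 h1
    have h3 : p' (t * u * t⁻¹ * u⁻¹) = 0 := (h'.ker _ (hQN (hKQ h2))).2 h2
    rw [h'.mul _ (hQN hc) _ (N.inv_mem huN), h'.conj t u huN, h'.inv huN] at h3
    exact add_neg_eq_zero.1 h3
  exact huK ((h'.ker u huN).1 hv)

theorem NewPair_excl {G : Type} [Group G] {X : Type} [AddCommGroup X] [DistribMulAction G X]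
    {Q K A : Subgroup G} [Q.Normal] {p : G → X} (h : IsSect Q K p) {Y : AddSubgroup X}
    (hY : ∀ u ∈ Q, u ∈ A → p u ∈ Y) (hYA : ∀ a ∈ A, ∀ x ∈ Y, a • x ∈ Y) {τ τ' c : G}
    (hm : τ' * τ⁻¹ ∈ Q) (h1 : c⁻¹ * τ * c ∈ A) (h2 : c⁻¹ * τ' * c ∈ A) :
    (c⁻¹ * τ⁻¹) • p (τ' * τ⁻¹) ∈ Y := by
  have hc : c⁻¹ * (τ' * τ⁻¹) * c⁻¹⁻¹ ∈ Q := Subgroup.Normal.conj_mem inferInstance _ hm c⁻¹
  have hA : c⁻¹ * (τ' * τ⁻¹) * c⁻¹⁻¹ ∈ A := by
    have e : c⁻¹ * (τ' * τ⁻¹) * c⁻¹⁻¹ = (c⁻¹ * τ' * c) * (c⁻¹ * τ * c)⁻¹ := by group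
    rw [e]
    exact A.mul_mem h2 (A.inv_mem h1)
  have h3 := hY _ hc hA
  rw [h.conj c⁻¹ _ hm] at h3
  have h4 := hYA _ (A.inv_mem h1) _ h3
  rw [← mul_smul] at h4
  have e : (c⁻¹ * τ * c)⁻¹ * c⁻¹ = c⁻¹ * τ⁻¹ := by group
  rwa [e] at h4

/-- separation of one new pair of positions: for a `1 / b` share of the base points `y` there is a
second generating pair such that the new pair is separated for one of the two pairs -/
theorem new_pair (l : ℕ) : ∃ b f : ℕ, ∀ (G : Type) [Group G] [Finite G] [Group.IsSolvable G]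
    (A N P T' : Subgroup G), N.Normal → P.Normal → T'.Normal → ⁅N, P⁆ = N → ⁅P, T'⁆ = P →
    (∃ k, N.lowerCentralSeries k ≤ A) → (∃ k, P.lowerCentralSeries k ≤ N) → ¬ N ≤ A →
    ∃ B : Subgroup G, N ≤ B ∧ ¬ T' ≤ dser B f ∧
      ∀ π : Fin 2 → G, Gen π → ∀ (z : Lt) (t M₀ : List Lt), t.length ≤ l →
        FreeGroup.IsReduced (z :: (t ++ M₀)) →
        cnt P (fun y => ∀ M : List Lt, M <:+ (t ++ M₀) → M ≠ t ++ M₀ →
            y⁻¹ * ((ev π M)⁻¹ * ev π (t ++ M₀)) * y ∉ B) ≤
          b * cnt P (fun y => ∃ π' : Fin 2 → G, Gen π' ∧ (∀ j, π' j * (π j)⁻¹ ∈ N) ∧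
            2 * cnt N (fun u => (y * u)⁻¹ * ((ev π' M₀)⁻¹ * ev π' (z :: (t ++ M₀))) * (y * u)
              ∈ A) ≤ Nat.card N) := by
  obtain ⟨b, f, h2⟩ := level_two l
  refine ⟨b, f, ?_⟩
  intro G _ _ _ A N P T' hN hP hT hNP hPT ⟨k, hk⟩ ⟨k', hk'⟩ hNA
  obtain ⟨K, Q, hK, hQ, hKQ, hQN, hNN, hQA, hmin⟩ := level_one A N k hk hNA
  have hQQ : ⁅Q, Q⁆ ≤ K := (Subgroup.commutator_mono hQN hQN).trans hNN
  obtain ⟨X, i1, i2, i3, p, hs⟩ := exists_sect Q K hKQ hQQ
  obtain ⟨Y, hY, hYA, hYt⟩ := hs.exists_image (A ⊔ K) le_sup_right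
  have hQK : ¬ Q ≤ K := fun h => hQA (h.trans le_sup_right)
  obtain ⟨B, hB1, hB2, hB3⟩ := h2 G X (hs.simple hKQ hmin) Y (hYt hQA) P T' hP hT hPT
    (NewPair_moves hs hKQ hQN hNN hQK hNP hk')
  refine ⟨B, fun g hg => hB1 g (NewPair_triv hs hQN hNN hg), hB2, ?_⟩
  intro π hπ z t M₀ ht hred
  obtain ⟨S, hS, hS'⟩ := exists_lifts hKQ hQQ hmin hs hπ z.1
  obtain ⟨T, β, ε, hε, hTl, hTa, hfox⟩ := fox_expand (X := X) π z t M₀ hred
  let U : AddSubgroup X := (AddSubgroup.closure S).comap (DistribSMul.toAddMonoidHom X β)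
  have hU : ∀ x, x ∈ U ↔ β • x ∈ AddSubgroup.closure S := fun x => Iff.rfl
  have hUi : Idx2 U := by
    intro x x' hx hx'
    rw [hU] at hx hx' ⊢
    rw [smul_sub]
    exact hS _ _ hx hx'
  refine le_trans (cnt_mono P ?_) ((hB3 T (hTl.trans ht) U hUi).trans
    (Nat.mul_le_mul_left b (cnt_mono P ?_)))
  · intro y _ hy a ha
    obtain ⟨M, hM1, hM2, hM3⟩ := hTa a ha
    rw [hM3]
    exact hy M hM1 hM2
  · rintro y _ ⟨x, hxU, hx⟩
    have hex : ∃ x₀ ∈ S, y⁻¹ • (ev π (z :: (t ++ M₀)))⁻¹ • fox π z.1 (z :: t) x₀ ∉ Y := by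
      by_contra hcon
      push Not at hcon
      have hall : ∀ v ∈ AddSubgroup.closure S,
          y⁻¹ • (ev π (z :: (t ++ M₀)))⁻¹ • fox π z.1 (z :: t) v ∈ Y := by
        intro v hv
        induction hv using AddSubgroup.closure_induction with
        | mem v hv => exact hcon v hv
        | zero => rw [fox_zero, smul_zero, smul_zero]; exact Y.zero_mem
        | add v w _ _ h1 h2 => rw [fox_add, smul_add, smul_add]; exact Y.add_mem h1 h2
        | neg v _ h1 => rw [fox_neg, smul_neg, smul_neg]; exact Y.neg_mem h1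
      have h1 := hall _ ((hU x).1 hxU)
      rw [hfox] at h1
      rcases hε with rfl | rfl
      · rw [one_smul] at h1
        exact hx h1
      · rw [neg_one_smul, smul_neg] at h1
        exact hx (by simpa using Y.neg_mem h1)
    obtain ⟨x₀, hx₀, hx₀'⟩ := hex
    obtain ⟨π', hπ', hc, hp⟩ := hS' x₀ hx₀
    have hm₀ : ev π' M₀ * (ev π M₀)⁻¹ ∈ Q := ev_congr Q hc M₀
    have hm : ev π' (z :: t) * (ev π (z :: t))⁻¹ ∈ Q := ev_congr Q hc (z :: t)
    have e1 : ev π (z :: (t ++ M₀)) = ev π (z :: t) * ev π M₀ := by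
      rw [← List.cons_append, ev_append]
    have e2 : ev π' (z :: (t ++ M₀)) = ev π' (z :: t) * ev π' M₀ := by
      rw [← List.cons_append, ev_append]
    have hκ : (ev π M₀ * y)⁻¹ * (ev π' M₀ * (ev π M₀)⁻¹)⁻¹ * (ev π M₀ * y)⁻¹⁻¹ ∈ N :=
      hN.conj_mem _ (N.inv_mem (hQN hm₀)) _
    have hadd := cnt_add_le N
      (P := fun u => (y * u)⁻¹ * ((ev π M₀)⁻¹ * ev π (z :: (t ++ M₀))) * (y * u) ∈ A)
      (P' := fun u => (fun u' => (y * u')⁻¹ * ((ev π' M₀)⁻¹ * ev π' (z :: (t ++ M₀))) * (y * u') ∈ A)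
        (((ev π M₀ * y)⁻¹ * (ev π' M₀ * (ev π M₀)⁻¹)⁻¹ * (ev π M₀ * y)⁻¹⁻¹) * u)) (by
      rintro u hu ⟨b1, b2⟩
      beta_reduce at b2
      rw [e1] at b1
      rw [e2] at b2
      have b1' : (ev π M₀ * (y * u))⁻¹ * ev π (z :: t) * (ev π M₀ * (y * u)) ∈ A := by
        have e : (ev π M₀ * (y * u))⁻¹ * ev π (z :: t) * (ev π M₀ * (y * u)) =
            (y * u)⁻¹ * ((ev π M₀)⁻¹ * (ev π (z :: t) * ev π M₀)) * (y * u) := by group
        rw [e]; exact b1
      have b2' : (ev π M₀ * (y * u))⁻¹ * ev π' (z :: t) * (ev π M₀ * (y * u)) ∈ A := by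
        have e : (ev π M₀ * (y * u))⁻¹ * ev π' (z :: t) * (ev π M₀ * (y * u)) =
            (y * ((ev π M₀ * y)⁻¹ * (ev π' M₀ * (ev π M₀)⁻¹)⁻¹ * (ev π M₀ * y)⁻¹⁻¹ * u))⁻¹ *
              ((ev π' M₀)⁻¹ * (ev π' (z :: t) * ev π' M₀)) *
              (y * ((ev π M₀ * y)⁻¹ * (ev π' M₀ * (ev π M₀)⁻¹)⁻¹ * (ev π M₀ * y)⁻¹⁻¹ * u)) := by
          group
        rw [e]; exact b2
      have h5 := NewPair_excl (A := A ⊔ K) hs (fun v hv hvA => (hY v hv).2 hvA) hYA hm
        (Subgroup.mem_sup_left b1') (Subgroup.mem_sup_left b2')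
      rw [hp] at h5
      apply hx₀'
      have e : (ev π M₀ * (y * u))⁻¹ * (ev π (z :: t))⁻¹ =
          u⁻¹ * (y⁻¹ * (ev π (z :: (t ++ M₀)))⁻¹) := by rw [e1]; group
      rw [e, mul_smul, NewPair_triv hs hQN hNN (N.inv_mem hu), mul_smul] at h5
      exact h5)
    rw [cnt_mul_left N (fun u' => (y * u')⁻¹ * ((ev π' M₀)⁻¹ * ev π' (z :: (t ++ M₀))) * (y * u') ∈ A)
      hκ] at hadd
    by_cases hle : 2 * cnt N (fun u => (y * u)⁻¹ * ((ev π M₀)⁻¹ * ev π (z :: (t ++ M₀))) * (y * u)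
        ∈ A) ≤ Nat.card N
    · exact ⟨π, hπ, fun j => by rw [mul_inv_cancel]; exact N.one_mem, hle⟩
    · exact ⟨π', hπ', fun j => hQN (hc j), by omega⟩

end Pool.Agent.FitW
end

-- part Pool.Agent.P.MP_ec89a0_al.Step
section

namespace Pool.Agent.FitW

open Subgroup
open scoped commutatorElement

theorem step_triples {ι : Type} [Fintype ι] (L : ι → List Lt) {μ : ℕ} (hc : Fintype.card ι ≤ μ)
    (hl : ∀ j, (L j).length ≤ μ) :
    ∃ D : Finset (ι × List Lt × List Lt), D.card ≤ μ * (μ + 1) ^ 2 ∧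
      ∀ j M₁ M₂, M₁ <:+ L j → M₂ <:+ L j → (j, M₁, M₂) ∈ D := by
  classical
  refine ⟨Finset.univ.biUnion fun j =>
    ((L j).tails.toFinset ×ˢ (L j).tails.toFinset).image fun p => (j, p), ?_, ?_⟩
  · refine le_trans Finset.card_biUnion_le ?_
    have : ∀ j ∈ (Finset.univ : Finset ι),
        (((L j).tails.toFinset ×ˢ (L j).tails.toFinset).image fun p => (j, p)).card ≤
          (μ + 1) ^ 2 := by
      intro j _
      refine le_trans Finset.card_image_le ?_
      rw [Finset.card_product, sq]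
      have h1 : (L j).tails.toFinset.card ≤ μ + 1 := by
        refine le_trans (List.toFinset_card_le _) ?_
        rw [List.length_tails]
        exact Nat.succ_le_succ (hl j)
      exact Nat.mul_le_mul h1 h1
    refine le_trans (Finset.sum_le_card_nsmul _ _ _ this) ?_
    rw [Finset.card_univ, smul_eq_mul]
    exact Nat.mul_le_mul_right _ hc
  · intro j M₁ M₂ h₁ h₂
    simp only [Finset.mem_biUnion, Finset.mem_univ, true_and, Finset.mem_image,
      Finset.mem_product, List.mem_toFinset, List.mem_tails]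
    exact ⟨j, (M₁, M₂), ⟨h₁, h₂⟩, rfl⟩

theorem step_cnt_false {G : Type} [Group G] (N : Subgroup G) {P : G → Prop} (h : ∀ y, ¬ P y) :
    cnt N P = 0 := by
  unfold cnt
  have : {y : G | y ∈ N ∧ P y} = ∅ := by
    ext y
    simp [h y]
  rw [this, Set.ncard_empty]

theorem step_avoid {G : Type} [Group G] [Finite G] {α : Type} (N : Subgroup G) (D : Finset α)
    (A A' : α → Subgroup G) (τ : α → G) (n : ℕ)
    (h : ∀ d, ∀ t : G, t ∉ A' d → n * cnt N (fun y => y⁻¹ * t * y ∈ A d) ≤ Nat.card N) :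
    n * cnt N (fun y => ∃ d ∈ D, τ d ∉ A' d ∧ y⁻¹ * τ d * y ∈ A d) ≤ D.card * Nat.card N := by
  refine cnt_exists_le N D (fun d y => τ d ∉ A' d ∧ y⁻¹ * τ d * y ∈ A d) n fun d _ => ?_
  by_cases hd : τ d ∈ A' d
  · rw [step_cnt_false N fun y hy => hy.1 hd]
    simp
  · exact le_trans (Nat.mul_le_mul_left _ (cnt_mono N fun y _ hy => hy.2)) (h d _ hd)

theorem step_conj_ev {G : Type} [Group G] (π : Fin 2 → G) (g : G) (M₁ M₂ : List Lt) :
    (ev (fun j => g⁻¹ * π j * g) M₁)⁻¹ * ev (fun j => g⁻¹ * π j * g) M₂ =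
      g⁻¹ * ((ev π M₁)⁻¹ * ev π M₂) * g := by
  rw [ev_conj, ev_conj]
  group

/-- one layer down without progress -/
theorem step_down (μ : ℕ) : ∃ f : ℕ, ∀ (G : Type) [Group G] [Finite G] [Group.IsSolvable G]
    (ι : Type) [Fintype ι] (A : ι → Subgroup G) (L : ι → List Lt), Fintype.card ι ≤ μ →
    (∀ j, (L j).length ≤ μ) → ∀ N T : Subgroup G, N.Normal → ⁅N, T⁆ = N →
    (∀ j, ∃ k, N.lowerCentralSeries k ≤ A j) →
    ∃ A' : ι → Subgroup G, (∀ j, N ≤ A' j) ∧ (∀ j, N ≤ A j → A' j = A j) ∧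
      (∀ j, ¬ N ≤ A j → ¬ T ≤ dser (A' j) f) ∧
      ∀ π : Fin 2 → G, Gen π → (∀ j, Sep π (A' j) (L j)) →
        ∃ π' : Fin 2 → G, Gen π' ∧ ∀ j, Sep π' (A j) (L j) := by
  obtain ⟨f, hf⟩ := mono_lemma (μ * (μ + 1) ^ 2 + 1)
  refine ⟨f, ?_⟩
  intro G _ _ _ ι _ A L hc hl N T hN hNT hnil
  choose A' h1 h2 h3 h4 using fun j => hf G (A j) N T hN hNT (hnil j)
  refine ⟨A', h1, h3, h4, ?_⟩
  intro π hπ hsep
  obtain ⟨D, hD, hmem⟩ := step_triples L hc hl
  have hb := step_avoid N D (fun d => A d.1) (fun d => A' d.1)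
    (fun d => (ev π d.2.1)⁻¹ * ev π d.2.2) _ (fun d => h2 d.1)
  have hpos : 0 < Nat.card N := Nat.card_pos
  obtain ⟨y, _, hy⟩ := exists_not_of_cnt_lt N (fun y => ∃ d ∈ D,
      (ev π d.2.1)⁻¹ * ev π d.2.2 ∉ A' d.1 ∧ y⁻¹ * ((ev π d.2.1)⁻¹ * ev π d.2.2) * y ∈ A d.1) (by
    by_contra hge
    push Not at hge
    have := Nat.mul_le_mul_left (μ * (μ + 1) ^ 2 + 1) hge
    have h5 := Nat.mul_le_mul_right (Nat.card N) hD
    nlinarith)
  refine ⟨_, hπ.conj y, fun j M₁ M₂ h₁ h₂ hne hmemA => hy ⟨(j, M₁, M₂), hmem j M₁ M₂ h₁ h₂,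
    hsep j M₁ M₂ h₁ h₂ hne, ?_⟩⟩
  rwa [step_conj_ev] at hmemA

theorem step_congr_not_mem {G : Type} [Group G] {π π' : Fin 2 → G} {N A : Subgroup G} [N.Normal]
    (hNA : N ≤ A) (h : ∀ j, π' j * (π j)⁻¹ ∈ N) (y : G) (M₁ M₂ : List Lt)
    (hn : y⁻¹ * ((ev π M₁)⁻¹ * ev π M₂) * y ∉ A) :
    y⁻¹ * ((ev π' M₁)⁻¹ * ev π' M₂) * y ∉ A := by
  intro hm
  apply hn
  have h₁ := ev_congr N h M₁
  have h₂ := ev_congr N h M₂
  have e : y⁻¹ * ((ev π M₁)⁻¹ * ev π M₂) * y =
      (y⁻¹ * (ev π M₁)⁻¹ * (ev π' M₁ * (ev π M₁)⁻¹)⁻¹⁻¹ * (y⁻¹ * (ev π M₁)⁻¹)⁻¹) *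
        (y⁻¹ * ((ev π' M₁)⁻¹ * ev π' M₂) * y) *
        ((y⁻¹ * (ev π' M₂)⁻¹) * (ev π' M₂ * (ev π M₂)⁻¹)⁻¹ * (y⁻¹ * (ev π' M₂)⁻¹)⁻¹) := by
    group
  rw [e]
  refine A.mul_mem (A.mul_mem (hNA ?_) hm) (hNA ?_)
  · exact (inferInstance : N.Normal).conj_mem _ (N.inv_mem (N.inv_mem h₁)) _
  · exact (inferInstance : N.Normal).conj_mem _ (N.inv_mem h₂) _

/-- two layers down with progress at the state `j₀` -/
theorem step_prog (μ : ℕ) : ∃ f : ℕ, ∀ (G : Type) [Group G] [Finite G] [Group.IsSolvable G]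
    (ι : Type) [Fintype ι] (A : ι → Subgroup G) (L : ι → List Lt), Fintype.card ι ≤ μ →
    (∀ j, (L j).length ≤ μ) → ∀ N P T : Subgroup G, N.Normal → P.Normal → T.Normal → P ≤ T →
    ⁅N, P⁆ = N → ⁅P, T⁆ = P → (∀ j, ∃ k, N.lowerCentralSeries k ≤ A j) →
    (∃ k, P.lowerCentralSeries k ≤ N) →
    ∀ (j₀ : ι) (z : Lt) (L' : List Lt), L j₀ = z :: L' → FreeGroup.IsReduced (z :: L') →
    ¬ N ≤ A j₀ →
    ∃ (A' : ι → Subgroup G) (B : Subgroup G), (∀ j, A' j = A j ∨ ¬ T ≤ dser (A' j) f) ∧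
      ¬ T ≤ dser (A' j₀) f ∧ ¬ T ≤ dser B f ∧
      ∀ π : Fin 2 → G, Gen π → (∀ j, j ≠ j₀ → Sep π (A' j) (L j)) → Sep π (A' j₀) L' →
        Sep π B L' → ∃ π' : Fin 2 → G, Gen π' ∧ ∀ j, Sep π' (A j) (L j) := by
  obtain ⟨b, f₁, hnew⟩ := new_pair μ
  set K₀ := μ * (μ + 1) ^ 2 with hK₀
  obtain ⟨f₂, hmono⟩ := mono_lemma ((b + 2) * K₀ + (μ + 1) + 1)
  set n := (b + 2) * K₀ + (μ + 1) + 1 with hn
  refine ⟨f₁ + f₂, ?_⟩
  intro G _ _ _ ι _ A L hc hl N P T hN hP hT hPT hNP hPT' hnil hnilP j₀ z L' hL hred hact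
  classical
  obtain ⟨kP, hkP⟩ := hnilP
  choose A₁ a1 a2 a3 a4 using fun j => hmono G (A j) N P hN hNP (hnil j)
  choose A₂ b1 b2 b3 b4 using fun j => hmono G (A₁ j) P T hP hPT' ⟨kP, hkP.trans (a1 j)⟩
  obtain ⟨B, hNB, hBT, hB⟩ := hnew G (A j₀) N P T hN hP hT hNP hPT' (hnil j₀) ⟨kP, hkP⟩ hact
  obtain ⟨B', c1, c2, c3, c4⟩ := hmono G B P T hP hPT' ⟨kP, hkP.trans hNB⟩
  have up : ∀ j, ¬ N ≤ A j → ¬ T ≤ dser (A₂ j) (f₁ + f₂) := by
    intro j hj hle
    have hle' : T ≤ dser (A₂ j) f₂ := hle.trans (dser_anti _ (Nat.le_add_left _ _))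
    by_cases hp : P ≤ A₁ j
    · rw [b3 j hp] at hle'
      exact a4 j hj (hPT.trans hle')
    · exact b4 j hp hle'
  refine ⟨A₂, B', fun j => ?_, up j₀ hact, ?_, ?_⟩
  · by_cases hj : N ≤ A j
    · by_cases hp : P ≤ A₁ j
      · left; rw [b3 j hp, a3 j hj]
      · right; exact fun hle => b4 j hp (hle.trans (dser_anti _ (Nat.le_add_left _ _)))
    · exact Or.inr (up j hj)
  · intro hle
    by_cases hp : P ≤ B
    · rw [c3 hp] at hle
      exact hBT (hle.trans (dser_anti _ (Nat.le_add_right _ _)))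
    · exact c4 hp (hle.trans (dser_anti _ (Nat.le_add_left _ _)))
  intro π hπ hsep hsep0 hsepB
  obtain ⟨D, hD, hmem⟩ := step_triples L hc hl
  rw [← hK₀] at hD
  -- the exceptional tail
  obtain ⟨M₀, hM₀, hexc⟩ : ∃ M₀, M₀ <:+ L' ∧ ∀ M, M <:+ L' → M ≠ M₀ →
      (ev π M)⁻¹ * ev π (z :: L') ∉ A₂ j₀ := by
    by_cases hex : ∃ M, M <:+ L' ∧ (ev π M)⁻¹ * ev π (z :: L') ∈ A₂ j₀
    · obtain ⟨M₀, h0, h1⟩ := hex
      refine ⟨M₀, h0, fun M hM hne hm => hsep0 M M₀ hM h0 hne ?_⟩
      have := (A₂ j₀).mul_mem hm ((A₂ j₀).inv_mem h1)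
      convert this using 1
      group
    · exact ⟨L', List.suffix_refl _, fun M hM _ hm => hex ⟨M, hM, hm⟩⟩
  obtain ⟨t, ht⟩ := hM₀
  subst ht
  have hlen : (t ++ M₀).length ≤ μ := by
    have := hl j₀
    rw [hL, List.length_cons] at this
    omega
  have htl : t.length ≤ μ := le_trans (by simp) hlen
  have hcount := hB π hπ z t M₀ htl hred
  have hbadP := step_avoid P D (fun d => A₁ d.1) (fun d => A₂ d.1)
    (fun d => (ev π d.2.1)⁻¹ * ev π d.2.2) n (fun d => b2 d.1)
  have hbadB := step_avoid P (t ++ M₀).tails.toFinset (fun _ => B) (fun _ => B')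
    (fun M => (ev π M)⁻¹ * ev π (t ++ M₀)) n (fun _ => c2)
  have htails : (t ++ M₀).tails.toFinset.card ≤ μ + 1 := by
    refine le_trans (List.toFinset_card_le _) ?_
    rw [List.length_tails]
    exact Nat.succ_le_succ hlen
  have hposP : 0 < Nat.card P := Nat.card_pos
  have hposN : 0 < Nat.card N := Nat.card_pos
  obtain ⟨y, hyP, ⟨π', hπ', hcong, hhalf⟩, hyold⟩ : ∃ y ∈ P, (∃ π' : Fin 2 → G, Gen π' ∧
      (∀ j, π' j * (π j)⁻¹ ∈ N) ∧
      2 * cnt N (fun u => (y * u)⁻¹ * ((ev π' M₀)⁻¹ * ev π' (z :: (t ++ M₀))) * (y * u)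
        ∈ A j₀) ≤ Nat.card N) ∧ ¬ ∃ d ∈ D, (ev π d.2.1)⁻¹ * ev π d.2.2 ∉ A₂ d.1 ∧
          y⁻¹ * ((ev π d.2.1)⁻¹ * ev π d.2.2) * y ∈ A₁ d.1 := by
    by_contra hcon
    have h1 := cnt_mono P (P := fun y => ∃ π' : Fin 2 → G, Gen π' ∧
      (∀ j, π' j * (π j)⁻¹ ∈ N) ∧
      2 * cnt N (fun u => (y * u)⁻¹ * ((ev π' M₀)⁻¹ * ev π' (z :: (t ++ M₀))) * (y * u)
        ∈ A j₀) ≤ Nat.card N) (P' := fun y => ∃ d ∈ D, (ev π d.2.1)⁻¹ * ev π d.2.2 ∉ A₂ d.1 ∧
          y⁻¹ * ((ev π d.2.1)⁻¹ * ev π d.2.2) * y ∈ A₁ d.1) (fun y hy hE => by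
        by_contra hno
        exact hcon ⟨y, hy, hE, hno⟩)
    have h2 : Nat.card P ≤ cnt P (fun y => (∀ M : List Lt, M <:+ (t ++ M₀) → M ≠ t ++ M₀ →
        y⁻¹ * ((ev π M)⁻¹ * ev π (t ++ M₀)) * y ∉ B) ∨
        ∃ M ∈ (t ++ M₀).tails.toFinset, (ev π M)⁻¹ * ev π (t ++ M₀) ∉ B' ∧
          y⁻¹ * ((ev π M)⁻¹ * ev π (t ++ M₀)) * y ∈ B) := by
      rw [← cnt_true]
      refine cnt_mono P fun y _ _ => ?_
      by_contra hno
      rw [not_or] at hno
      apply hno.1
      intro M hM hne hm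
      exact hno.2 ⟨M, List.mem_toFinset.mpr ((List.mem_tails _ _).mpr hM), hsepB M _ hM (List.suffix_refl _) hne, hm⟩
    have h3 := le_trans h2 (cnt_or_le P _ _)
    have h4 := le_trans hcount (Nat.mul_le_mul_left b h1)
    have h5 := Nat.mul_le_mul_right (Nat.card P) hD
    have h6 := Nat.mul_le_mul_right (Nat.card P) htails
    have h7 := Nat.mul_le_mul_left n (le_trans h3 (Nat.add_le_add_right h4 _))
    have h8 := Nat.mul_le_mul_left b (le_trans hbadP h5)
    have h9 := le_trans hbadB h6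
    rw [Nat.mul_add, ← Nat.mul_assoc, Nat.mul_comm n b, Nat.mul_assoc] at h7
    have h10 : n * Nat.card P ≤ b * (K₀ * Nat.card P) + (μ + 1) * Nat.card P := by omega
    rw [hn] at h10
    nlinarith
  have hbadN := step_avoid N D (fun d => A d.1) (fun d => A₁ d.1)
    (fun d => y⁻¹ * ((ev π' d.2.1)⁻¹ * ev π' d.2.2) * y) n (fun d => a2 d.1)
  obtain ⟨u, _, hu⟩ := exists_not_of_cnt_lt N (fun u =>
      ((y * u)⁻¹ * ((ev π' M₀)⁻¹ * ev π' (z :: (t ++ M₀))) * (y * u) ∈ A j₀) ∨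
      ∃ d ∈ D, y⁻¹ * ((ev π' d.2.1)⁻¹ * ev π' d.2.2) * y ∉ A₁ d.1 ∧
        u⁻¹ * (y⁻¹ * ((ev π' d.2.1)⁻¹ * ev π' d.2.2) * y) * u ∈ A d.1) (by
    refine lt_of_le_of_lt (cnt_or_le N _ _) ?_
    have h5 := le_trans hbadN (Nat.mul_le_mul_right (Nat.card N) hD)
    by_contra hge
    push Not at hge
    have h6 := Nat.mul_le_mul_left (2 * n) hge
    have h7 := Nat.mul_le_mul_left n hhalf
    have h8 : 2 * K₀ + 1 ≤ n := by rw [hn]; nlinarith
    have h9 := Nat.mul_le_mul_right (Nat.card N) h8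
    nlinarith)
  rw [not_or] at hu
  have hold : ∀ j M₁ M₂, M₁ <:+ L j → M₂ <:+ L j → (ev π M₁)⁻¹ * ev π M₂ ∉ A₂ j →
      (y * u)⁻¹ * ((ev π' M₁)⁻¹ * ev π' M₂) * (y * u) ∉ A j := by
    intro j M₁ M₂ h₁ h₂ hA₂ hm
    have hd := hmem j M₁ M₂ h₁ h₂
    have h1 : y⁻¹ * ((ev π M₁)⁻¹ * ev π M₂) * y ∉ A₁ j := fun h => hyold ⟨(j, M₁, M₂), hd, hA₂, h⟩
    refine hu.2 ⟨(j, M₁, M₂), hd, step_congr_not_mem (a1 j) hcong y M₁ M₂ h1, ?_⟩
    convert hm using 1
    group
  refine ⟨_, hπ'.conj (y * u), fun j M₁ M₂ h₁ h₂ hne => ?_⟩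
  rw [step_conj_ev]
  by_cases hj : j = j₀
  · subst hj
    have top : ∀ M, M <:+ t ++ M₀ →
        (y * u)⁻¹ * ((ev π' M)⁻¹ * ev π' (z :: (t ++ M₀))) * (y * u) ∉ A j := by
      intro M hM
      by_cases hM0 : M = M₀
      · rw [hM0]; exact hu.1
      · exact hold j M _ (by rw [hL]; exact hM.trans (List.suffix_cons _ _))
          (by rw [hL]) (hexc M hM hM0)
    have h₁' := h₁
    have h₂' := h₂
    rw [hL, List.suffix_cons_iff] at h₁' h₂'
    rcases h₁' with h₁' | h₁' <;> rcases h₂' with h₂' | h₂'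
    · exact absurd (h₁'.trans h₂'.symm) hne
    · intro hm
      apply top M₂ h₂'
      have := (A j).inv_mem hm
      rw [h₁'] at this
      convert this using 1
      group
    · rw [h₂']; exact top M₁ h₁'
    · exact hold j M₁ M₂ h₁ h₂ (hsep0 M₁ M₂ h₁' h₂' hne)
  · exact hold j M₁ M₂ h₁ h₂ (hsep j hj M₁ M₂ h₁ h₂ hne)

end Pool.Agent.FitW
end

-- part Pool.Agent.P.MP_ec89a0_al.Main
section

namespace Pool.Agent.FitW

open Subgroup
open scoped commutatorElement

theorem main_sep_nil {G : Type} [Group G] (π : Fin 2 → G) (A : Subgroup G) : Sep π A [] := by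
  intro M₁ M₂ h₁ h₂ hne
  rw [List.suffix_nil] at h₁ h₂
  exact absurd (h₁.trans h₂.symm) hne

theorem main_len_le {ι : Type} [Fintype ι] (L : ι → List Lt) {μ : ℕ}
    (h : ∑ j, 3 ^ (L j).length ≤ μ) :
    Fintype.card ι ≤ μ ∧ ∀ j, (L j).length ≤ μ := by
  constructor
  · refine le_trans ?_ h
    rw [← Finset.card_univ, Finset.card_eq_sum_ones]
    exact Finset.sum_le_sum fun j _ => Nat.one_le_pow _ _ (by norm_num)
  · intro j
    have h1 : 3 ^ (L j).length ≤ ∑ j, 3 ^ (L j).length :=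
      Finset.single_le_sum (f := fun j => 3 ^ (L j).length) (fun _ _ => Nat.zero_le _)
        (Finset.mem_univ j)
    have h2 : (L j).length < 3 ^ (L j).length := Nat.lt_pow_self (by norm_num)
    omega

theorem main_not_le {G : Type} [Group G] {R : ℕ → Subgroup G} (hR : Chain R) {A : Subgroup G}
    {i f j : ℕ} (h : ¬ R i ≤ dser A f) (hij : j + f ≤ i) : ¬ R j ≤ A := fun hj =>
  h ((hR.antitone hij).trans (hR.le_dser hj f))

/-- main induction -/
theorem main_sep (μ : ℕ) : ∃ h : ℕ, ∀ (G : Type) [Group G] [Finite G] [Group.IsSolvable G]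
    (R : ℕ → Subgroup G), Chain R → (∃ π : Fin 2 → G, Gen π) →
    ∀ (ι : Type) [Fintype ι] (A : ι → Subgroup G) (L : ι → List Lt),
    (∑ j, 3 ^ (L j).length ≤ μ) → (∀ j, FreeGroup.IsReduced (L j)) → (∀ j, ¬ R h ≤ A j) →
    ∃ π : Fin 2 → G, Gen π ∧ ∀ j, Sep π (A j) (L j) := by
  induction μ with
  | zero =>
    refine ⟨0, ?_⟩
    intro G _ _ _ R _ ⟨π, hπ⟩ ι _ A L hsum _ _
    refine ⟨π, hπ, fun j => ?_⟩
    have h0 : Fintype.card ι ≤ 0 := (main_len_le L hsum).1
    have : IsEmpty ι := Fintype.card_eq_zero_iff.mp (Nat.le_zero.mp h0)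
    exact this.elim j
  | succ μ ih =>
    obtain ⟨h', ih⟩ := ih
    obtain ⟨f₁, hdown⟩ := step_down (μ + 1)
    obtain ⟨f₂, hprog⟩ := step_prog (μ + 1)
    refine ⟨h' + (f₁ + f₂) + 2, ?_⟩
    intro G _ _ _ R hR hgen ι _ A L hsum hred hA
    classical
    by_cases hall : ∀ j, L j = []
    · obtain ⟨π, hπ⟩ := hgen
      exact ⟨π, hπ, fun j => by rw [hall j]; exact main_sep_nil π _⟩
    push Not at hall
    obtain ⟨j₀, hj₀⟩ := hall
    obtain ⟨z, L', hL⟩ := List.exists_cons_of_ne_nil hj₀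
    obtain ⟨hcard, hlen⟩ := main_len_le L hsum
    have key : ∀ m : ℕ, ∀ A : ι → Subgroup G, (∀ j, R m ≤ A j) →
        ¬ R (h' + (f₁ + f₂) + 2) ≤ A j₀ → (∀ j, ¬ R h' ≤ A j) →
        ∃ π : Fin 2 → G, Gen π ∧ ∀ j, Sep π (A j) (L j) := by
      intro m
      induction m with
      | zero =>
        intro A hm h0 _
        exact absurd ((hR.antitone (Nat.zero_le _)).trans (hm j₀)) h0
      | succ m ihm =>
        intro A hm h0 h1
        have hmh : h' + (f₁ + f₂) + 2 ≤ m := by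
          by_contra hlt
          exact h0 ((hR.antitone (by omega)).trans (hm j₀))
        have hnil : ∀ j, ∃ k, (R m).lowerCentralSeries k ≤ A j := fun j => by
          obtain ⟨k, hk⟩ := hR.nil m
          exact ⟨k, hk.trans (hm j)⟩
        obtain ⟨m₂, rfl⟩ : ∃ m₂, m = m₂ + 2 := ⟨m - 2, by omega⟩
        by_cases hact : R (m₂ + 2) ≤ A j₀
        · obtain ⟨A', hN, heq, hne, himp⟩ := hdown G ι A L hcard hlen (R (m₂ + 2)) (R (m₂ + 1))
            (hR.normal _) (hR.comm _) hnil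
          obtain ⟨π, hπ, hsep⟩ := ihm A' hN (by rw [heq j₀ hact]; exact h0) (fun j => by
            by_cases hj : R (m₂ + 2) ≤ A j
            · rw [heq j hj]; exact h1 j
            · exact main_not_le hR (hne j hj) (by omega))
          exact himp π hπ hsep
        · obtain ⟨A', B, hA', hA0, hB, himp⟩ := hprog G ι A L hcard hlen (R (m₂ + 2))
            (R (m₂ + 1)) (R m₂) (hR.normal _) (hR.normal _) (hR.normal _) (hR.anti _)
            (hR.comm _) (hR.comm _) hnil (hR.nil _) j₀ z L' hL (hL ▸ hred j₀) hact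
          have hredL' : FreeGroup.IsReduced L' := by
            have := hred j₀
            rw [hL] at this
            exact List.IsChain.tail this
          let A₂ : Option ι → Subgroup G := fun o => o.elim B A'
          let L₂ : Option ι → List Lt := fun o => o.elim L' (Function.update L j₀ L')
          have hsum₂ : ∑ o, 3 ^ (L₂ o).length ≤ μ := by
            rw [Fintype.sum_option]
            have e1 : ∑ j, 3 ^ (L j).length =
                3 ^ (L j₀).length + ∑ j ∈ Finset.univ.erase j₀, 3 ^ (L j).length :=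
              (Finset.add_sum_erase _ _ (Finset.mem_univ j₀)).symm
            have e2 : ∑ j, 3 ^ (L₂ (some j)).length =
                3 ^ (L₂ (some j₀)).length +
                  ∑ j ∈ Finset.univ.erase j₀, 3 ^ (L₂ (some j)).length :=
              (Finset.add_sum_erase _ (fun j => 3 ^ (L₂ (some j)).length)
                (Finset.mem_univ j₀)).symm
            have e3 : ∑ j ∈ Finset.univ.erase j₀, 3 ^ (L₂ (some j)).length =
                ∑ j ∈ Finset.univ.erase j₀, 3 ^ (L j).length := by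
              refine Finset.sum_congr rfl fun j hj => ?_
              have : j ≠ j₀ := Finset.ne_of_mem_erase hj
              simp [L₂, Function.update_of_ne this]
            have e4 : (L₂ (some j₀)).length = L'.length := by simp [L₂]
            have e5 : (L₂ none).length = L'.length := by simp [L₂]
            have e6 : (L j₀).length = L'.length + 1 := by rw [hL]; simp
            have e7 : 1 ≤ 3 ^ L'.length := Nat.one_le_pow _ _ (by norm_num)
            rw [e2, e3, e4, e5]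
            rw [e1, e6, pow_succ] at hsum
            omega
          obtain ⟨π, hπ, hsep⟩ := ih G R hR hgen (Option ι) A₂ L₂ hsum₂ (by
              rintro (_ | j)
              · exact hredL'
              · by_cases hj : j = j₀
                · subst hj; simpa [L₂] using hredL'
                · simpa [L₂, Function.update_of_ne hj] using hred j) (by
              rintro (_ | j)
              · exact main_not_le hR hB (by omega)
              · rcases hA' j with hj | hj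
                · show ¬ R h' ≤ A' j
                  rw [hj]; exact h1 j
                · exact main_not_le hR hj (by omega))
          refine himp π hπ (fun j hj => ?_) ?_ (hsep none)
          · simpa [A₂, L₂, Function.update_of_ne hj] using hsep (some j)
          · simpa [A₂, L₂] using hsep (some j₀)
    obtain ⟨m, hm⟩ := hR.fin
    exact key m A (fun j => by rw [hm]; exact bot_le) (hA j₀) fun j hj =>
      hA j ((hR.antitone (by omega)).trans hj)

theorem height_bound (w : FreeGroup (Fin 2)) (hw : w ≠ 1) : ∃ h : ℕ,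
    ∀ (G : Type) [Group G] [Finite G] [Group.IsSolvable G],
      (∃ a b : G, Subgroup.closure ({a, b} : Set G) = ⊤) →
      (∀ φ : FreeGroup (Fin 2) →* G, Function.Surjective φ → φ w = 1) →
      ∃ N : ℕ → Subgroup G, N 0 = ⊤ ∧ N h = ⊥ ∧ (∀ j, (N j).Normal) ∧
        ∀ j, N (j + 1) ≤ N j ∧ ∃ k, (N j).lowerCentralSeries k ≤ N (j + 1) := by
  obtain ⟨h, hh⟩ := main_sep (3 ^ w.toWord.length)
  refine ⟨h, ?_⟩
  intro G _ _ _ ⟨a, b, hab⟩ hdie
  obtain ⟨R, hR⟩ := exists_chain G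
  refine ⟨R, hR.top, ?_, hR.normal, fun j => ⟨hR.anti j, hR.nil j⟩⟩
  by_contra hne
  have hgen : ∃ π : Fin 2 → G, Gen π := by
    refine ⟨![a, b], ?_⟩
    unfold Gen
    rw [← hab]
    congr 1
    ext x
    simp [eq_comm, or_comm]
  obtain ⟨π, hπ, hsep⟩ := hh G R hR hgen Unit (fun _ => ⊥) (fun _ => w.toWord) (by simp)
    (fun _ => FreeGroup.isReduced_toWord) (fun _ hle => hne (le_bot_iff.mp hle))
  have h1 := hsep () [] w.toWord List.nil_suffix (List.suffix_refl _)
    (fun h => hw (FreeGroup.toWord_eq_nil_iff.mp h.symm))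
  apply h1
  rw [ev_nil, inv_one, one_mul, Subgroup.mem_bot]
  unfold ev
  rw [FreeGroup.mk_toWord]
  exact hdie _ hπ.surjective

end Pool.Agent.FitW
end
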