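import Mathlib

/-! Laws of groups: big subgroups of the free group of countable rank. -/

namespace Pool.Agent.LawP

open Subgroup
open scoped commutatorElement

/-- a nontrivial word is not a law of some finite symmetric group -/
theorem exists_perm_ne {α : Type} (w : FreeGroup α) (hw : w ≠ 1) :
    ∃ (S : Type) (_ : Fintype S) (_ : DecidableEq S) (σ : α → Equiv.Perm S),
      FreeGroup.lift σ w ≠ 1 := by
  classical
  obtain ⟨L, rfl⟩ : ∃ L, FreeGroup.mk L = w := ⟨w.toWord, FreeGroup.mk_toWord⟩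
  let S : Finset (FreeGroup α) := (L.tails.map FreeGroup.mk).toFinset
  have hS : ∀ M, M <:+ L → FreeGroup.mk M ∈ S := by
    intro M hM
    simp only [S, List.mem_toFinset, List.mem_map, List.mem_tails]
    exact ⟨M, hM, rfl⟩
  have hex : ∀ x : α, ∃ σ : Equiv.Perm S, ∀ s : S, ∀ h : FreeGroup.of x * s.1 ∈ S,
      σ s = ⟨FreeGroup.of x * s.1, h⟩ := by
    intro x
    obtain ⟨σ, hσ⟩ := Equiv.Perm.exists_extending_pair
      (α := {s : S // FreeGroup.of x * s.1 ∈ S}) (β := S) (f := fun s => s.1)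
      (g := fun s => ⟨FreeGroup.of x * s.1.1, s.2⟩) Subtype.val_injective (by
        intro a b h
        have := congrArg Subtype.val h
        simp only [mul_right_inj] at this
        exact Subtype.ext (Subtype.ext this))
    exact ⟨σ, fun s h => hσ ⟨s, h⟩⟩
  choose σ hσ using hex
  have h1 : (1 : FreeGroup α) ∈ S := hS [] List.nil_suffix
  have key : ∀ M, M <:+ L → ((FreeGroup.lift σ (FreeGroup.mk M)) ⟨1, h1⟩).1 = FreeGroup.mk M := by
    intro M
    induction M with
    | nil => intro _; rw [← FreeGroup.one_eq_mk, map_one]; rfl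
    | cons z M ih =>
      intro hM
      have hM' : M <:+ L := (List.suffix_cons z M).trans hM
      have e := ih hM'
      have e' : (FreeGroup.lift σ (FreeGroup.mk M)) ⟨1, h1⟩ = ⟨FreeGroup.mk M, hS M hM'⟩ :=
        Subtype.ext e
      obtain ⟨x, b⟩ := z
      cases b
      · have hm : FreeGroup.mk ((x, false) :: M) = (FreeGroup.of x)⁻¹ * FreeGroup.mk M := by
          rw [FreeGroup.of, FreeGroup.inv_mk, FreeGroup.mul_mk]; rfl
        have hs := hS _ hM
        rw [hm] at hs ⊢
        rw [map_mul, map_inv, FreeGroup.lift_apply_of, Equiv.Perm.mul_apply, e']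
        have h2 : FreeGroup.of x * ((FreeGroup.of x)⁻¹ * FreeGroup.mk M) ∈ S := by
          rw [mul_inv_cancel_left]; exact hS M hM'
        have h3 := hσ x ⟨_, hs⟩ h2
        have h4 : σ x ⟨_, hs⟩ = ⟨FreeGroup.mk M, hS M hM'⟩ := by
          rw [h3]; exact Subtype.ext (mul_inv_cancel_left _ _)
        rw [← h4, Equiv.Perm.inv_def, Equiv.symm_apply_apply]
      · have hm : FreeGroup.mk ((x, true) :: M) = FreeGroup.of x * FreeGroup.mk M := by
          rw [FreeGroup.of, FreeGroup.mul_mk]; rfl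
        have hs := hS _ hM
        rw [hm] at hs ⊢
        rw [map_mul, FreeGroup.lift_apply_of, Equiv.Perm.mul_apply, e', hσ x _ hs]
  refine ⟨S, inferInstance, inferInstance, σ, ?_⟩
  intro h
  have := key L List.suffix_rfl
  rw [h] at this
  exact hw this.symm

/-- the alternating group on `n` points -/
abbrev Alt (n : ℕ) : Type := alternatingGroup (Fin n)

theorem exists_alt_ne {α : Type} (w : FreeGroup α) (hw : w ≠ 1) :
    ∃ n₀ : ℕ, ∀ n, n₀ ≤ n → ∃ t : α → Alt n, FreeGroup.lift t w ≠ 1 := by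
  classical
  obtain ⟨S, _, _, σ, hσ⟩ := exists_perm_ne w hw
  refine ⟨Fintype.card (S ⊕ S), fun n hn => ?_⟩
  obtain ⟨ι⟩ : Nonempty (S ⊕ S ↪ Fin n) :=
    Function.Embedding.nonempty_of_card_le (by simpa using hn)
  let e : S ⊕ S ≃ {y : Fin n // y ∈ Set.range ι} := Equiv.ofInjective ι ι.injective
  let j : Equiv.Perm S →* Equiv.Perm (Fin n) :=
    (Equiv.Perm.extendDomainHom e).comp ((Equiv.Perm.sumCongrHom S S).comp
      ((MonoidHom.id _).prod (MonoidHom.id _)))
  have hj : ∀ τ, j τ ∈ alternatingGroup (Fin n) := by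
    intro τ
    rw [Equiv.Perm.mem_alternatingGroup]
    show Equiv.Perm.sign ((Equiv.Perm.sumCongr τ τ).extendDomain e) = 1
    rw [Equiv.Perm.sign_extendDomain, Equiv.Perm.sign_sumCongr, Int.units_mul_self]
  have hinj : Function.Injective j := by
    refine (Equiv.Perm.extendDomainHom_injective e).comp
      (Equiv.Perm.sumCongrHom_injective.comp ?_)
    intro a b h
    exact congrArg Prod.fst h
  let j' : Equiv.Perm S →* Alt n := j.codRestrict _ hj
  refine ⟨fun x => j' (σ x), ?_⟩
  have : FreeGroup.lift (fun x => j' (σ x)) = j'.comp (FreeGroup.lift σ) := by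
    ext x; simp
  rw [this, MonoidHom.comp_apply]
  intro h
  apply hσ
  apply hinj
  rw [map_one]
  exact congrArg Subtype.val h

/-- the free group of countable rank -/
abbrev FN : Type := FreeGroup ℕ

/-- `U` maps onto every large alternating quotient -/
def Big (U : Subgroup FN) : Prop :=
  ∃ n₀ : ℕ, ∀ n, n₀ ≤ n → ∀ θ : FN →* Alt n, Function.Surjective θ → U.map θ = ⊤

/-- all elements of `U` are laws of `H` -/
def Kills (U : Subgroup FN) (H : Type) [Group H] : Prop :=
  ∀ f : ℕ → H, ∀ u ∈ U, FreeGroup.lift f u = 1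

theorem exists_surj (H : Type) [Group H] [Finite H] :
    ∃ t : ℕ → H, Function.Surjective (FreeGroup.lift t) := by
  obtain ⟨t, ht⟩ := exists_surjective_nat H
  refine ⟨t, fun h => ?_⟩
  obtain ⟨k, rfl⟩ := ht h
  exact ⟨FreeGroup.of k, by simp⟩

theorem alt_simple {n : ℕ} (hn : 5 ≤ n) : IsSimpleGroup (Alt n) :=
  alternatingGroup.isSimpleGroup (by simpa using hn)

theorem Big.exists_ne {U : Subgroup FN} (h : Big U) : ∃ u ∈ U, u ≠ 1 := by
  obtain ⟨n₀, h⟩ := h
  have := alt_simple (n := max n₀ 5) (le_max_right _ _)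
  obtain ⟨t, ht⟩ := exists_surj (Alt (max n₀ 5))
  have e := h _ (le_max_left _ _) _ ht
  by_contra hc
  push Not at hc
  have : U = ⊥ := (Subgroup.eq_bot_iff_forall _).2 hc
  rw [this, Subgroup.map_bot] at e
  exact bot_ne_top e

theorem Big.mono {U V : Subgroup FN} (h : Big U) (hUV : U ≤ V) : Big V := by
  obtain ⟨n₀, h⟩ := h
  exact ⟨n₀, fun n hn θ hθ => top_le_iff.1 ((h n hn θ hθ).ge.trans (Subgroup.map_mono hUV))⟩

theorem big_top : Big ⊤ :=
  ⟨0, fun _ _ θ hθ => Subgroup.map_top_of_surjective θ hθ⟩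

theorem alt_perfect {n : ℕ} (hn : 5 ≤ n) :
    ⁅(⊤ : Subgroup (Alt n)), (⊤ : Subgroup (Alt n))⁆ = ⊤ :=
  commutator_alternatingGroup_eq_top (α := Fin n) (by simpa using hn)

theorem Big.comm {U V : Subgroup FN} (hU : Big U) (hV : Big V) : Big ⁅U, V⁆ := by
  obtain ⟨n₁, h₁⟩ := hU
  obtain ⟨n₂, h₂⟩ := hV
  refine ⟨max (max n₁ n₂) 5, fun n hn θ hθ => ?_⟩
  rw [Subgroup.map_commutator, h₁ n (by omega) θ hθ, h₂ n (by omega) θ hθ]
  exact alt_perfect (by omega)

theorem Kills.comm_left {U : Subgroup FN} {H : Type} [Group H] (h : Kills U H)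
    (V : Subgroup FN) : Kills ⁅U, V⁆ H := by
  intro f u hu
  have : ⁅U, V⁆ ≤ (FreeGroup.lift f).ker := by
    rw [Subgroup.commutator_le]
    intro a ha b _
    rw [MonoidHom.mem_ker, map_commutatorElement, h f a ha, commutatorElement_one_left]
  exact this hu

theorem Kills.comm_right {V : Subgroup FN} {H : Type} [Group H] (h : Kills V H)
    (U : Subgroup FN) : Kills ⁅U, V⁆ H := by
  rw [Subgroup.commutator_comm]; exact h.comm_left U

/-- values of the word `w` at arguments from `V` -/
def vals {α G : Type} [Group G] (w : FreeGroup α) (V : Subgroup G) : Subgroup G :=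
  closure {y | ∃ g : α → G, (∀ k, g k ∈ V) ∧ FreeGroup.lift g w = y}

theorem map_lift {α G H : Type} [Group G] [Group H] (θ : G →* H) (g : α → G) (w : FreeGroup α) :
    θ (FreeGroup.lift g w) = FreeGroup.lift (fun k => θ (g k)) w := by
  have : FreeGroup.lift (fun k => θ (g k)) = θ.comp (FreeGroup.lift g) := by
    ext x; simp
  rw [this]; rfl

theorem vals_normal {α G : Type} [Group G] (w : FreeGroup α) (V : Subgroup G) [hV : V.Normal] :
    (vals w V).Normal := by
  constructor
  intro y hy g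
  have : (vals w V).map (MulAut.conj g).toMonoidHom ≤ vals w V := by
    unfold vals
    rw [MonoidHom.map_closure]
    apply Subgroup.closure_mono
    rintro _ ⟨_, ⟨f, hf, rfl⟩, rfl⟩
    exact ⟨fun k => (MulAut.conj g).toMonoidHom (f k), fun k => hV.conj_mem _ (hf k) g,
      (map_lift _ _ _).symm⟩
  exact this ⟨y, hy, rfl⟩

theorem map_vals_le {α G H : Type} [Group G] [Group H] (θ : G →* H) (w : FreeGroup α)
    {V : Subgroup G} {V' : Subgroup H} (h : V.map θ ≤ V') : (vals w V).map θ ≤ vals w V' := by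
  unfold vals
  rw [MonoidHom.map_closure]
  apply Subgroup.closure_mono
  rintro _ ⟨_, ⟨f, hf, rfl⟩, rfl⟩
  exact ⟨fun k => θ (f k), fun k => h ⟨_, hf k, rfl⟩, (map_lift _ _ _).symm⟩

theorem Big.vals {α : Type} {w : FreeGroup α} (hw : w ≠ 1) {V : Subgroup FN} (hV : Big V) :
    Big (vals w V) := by
  obtain ⟨n₁, h₁⟩ := hV
  obtain ⟨n₂, h₂⟩ := exists_alt_ne w hw
  refine ⟨max (max n₁ n₂) 5, fun n hn θ hθ => ?_⟩
  have := alt_simple (n := n) (by omega)
  have hle : LawP.vals w (⊤ : Subgroup (Alt n)) ≤ (LawP.vals w V).map θ := by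
    unfold LawP.vals
    rw [closure_le]
    rintro _ ⟨t, -, rfl⟩
    have : ∀ k, ∃ g ∈ V, θ g = t k := fun k => by
      have : t k ∈ V.map θ := by rw [h₁ n (by omega) θ hθ]; trivial
      exact this
    choose g hg hg' using this
    refine ⟨FreeGroup.lift g w, subset_closure ⟨g, hg, rfl⟩, ?_⟩
    rw [map_lift]
    congr 2
    exact funext hg'
  rcases (vals_normal w (⊤ : Subgroup (Alt n))).eq_bot_or_eq_top with h | h
  · obtain ⟨t, ht⟩ := h₂ n (by omega)
    exfalso
    apply ht
    have : FreeGroup.lift t w ∈ LawP.vals w (⊤ : Subgroup (Alt n)) :=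
      subset_closure ⟨t, fun _ => trivial, rfl⟩
    rwa [h] at this
  · exact top_le_iff.1 (h.ge.trans hle)

theorem kills_vals {α : Type} {w : FreeGroup α} {H : Type} [Group H]
    (h : ∀ f : α → H, FreeGroup.lift f w = 1) : Kills (vals w ⊤) H := by
  intro f u hu
  have : vals w (⊤ : Subgroup FN) ≤ (FreeGroup.lift f).ker := by
    unfold vals
    rw [closure_le]
    rintro _ ⟨g, -, rfl⟩
    show FreeGroup.lift f _ = 1
    rw [map_lift]; exact h _
  exact this hu

/-- values of all words of `U` at arguments from `V` -/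
def comp (U V : Subgroup FN) : Subgroup FN :=
  closure {y | ∃ u ∈ U, ∃ g : ℕ → FN, (∀ k, g k ∈ V) ∧ FreeGroup.lift g u = y}

theorem Big.comp {U V : Subgroup FN} (hU : Big U) (hV : Big V) : Big (comp U V) := by
  obtain ⟨n₁, h₁⟩ := hU
  obtain ⟨n₂, h₂⟩ := hV
  refine ⟨max n₁ n₂, fun n hn θ hθ => ?_⟩
  obtain ⟨t, ht⟩ := exists_surj (Alt n)
  have : ∀ k, ∃ g ∈ V, θ g = t k := fun k => by
    have : t k ∈ V.map θ := by rw [h₂ n (by omega) θ hθ]; trivial
    exact this
  choose g hg hg' using this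
  rw [eq_top_iff]
  intro y _
  have : y ∈ U.map (FreeGroup.lift t) := by rw [h₁ n (by omega) _ ht]; trivial
  obtain ⟨u, hu, rfl⟩ := this
  refine ⟨FreeGroup.lift g u, subset_closure ⟨u, hu, g, hg, rfl⟩, ?_⟩
  rw [map_lift]
  congr 2
  exact funext hg'

theorem big_derived (k : ℕ) : Big (derivedSeries FN k) := by
  induction k with
  | zero => exact big_top
  | succ k ih => rw [derivedSeries_succ]; exact ih.comm ih

theorem kills_derived {H : Type} [Group H] {k : ℕ} (h : derivedSeries H k = ⊥) :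
    Kills (derivedSeries FN k) H := by
  intro f u hu
  have := map_derivedSeries_le_derivedSeries (FreeGroup.lift f) k ⟨u, hu, rfl⟩
  rwa [h] at this

/-- finitely many big subgroups have a big common refinement -/
theorem exists_big_le (U : ℕ → Subgroup FN) (hU : ∀ i, Big (U i)) (R : ℕ) :
    ∃ V, Big V ∧ ∀ i, i < R → ∀ (H : Type) [Group H], Kills (U i) H → Kills V H := by
  induction R with
  | zero => exact ⟨⊤, big_top, fun i hi => absurd hi (Nat.not_lt_zero i)⟩
  | succ R ih =>
    obtain ⟨V, hV, h⟩ := ih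
    refine ⟨⁅V, U R⁆, hV.comm (hU R), fun i hi H _ hk => ?_⟩
    rcases Nat.lt_succ_iff_lt_or_eq.1 hi with hi | rfl
    · exact (h i hi H hk).comm_left _
    · exact hk.comm_right _

theorem Kills.of_surjective {U : Subgroup FN} {H K : Type} [Group H] [Group K] (h : Kills U H)
    (θ : H →* K) (hθ : Function.Surjective θ) : Kills U K := by
  intro f u hu
  choose g hg using fun k => hθ (f k)
  have : f = fun k => θ (g k) := funext fun k => (hg k).symm
  rw [this, ← map_lift, h g u hu, map_one]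

theorem Kills.of_injective {U : Subgroup FN} {H K : Type} [Group H] [Group K] (h : Kills U H)
    (θ : K →* H) (hθ : Function.Injective θ) : Kills U K := by
  intro f u hu
  apply hθ
  rw [map_lift, h _ u hu, map_one]

/-- a finite nilpotent group satisfies the laws of all its Sylow subgroups -/
theorem kills_of_sylow {U : Subgroup FN} {H : Type} [Group H] [Finite H] [hH : Group.IsNilpotent H]
    (h : ∀ p : ℕ, p.Prime → ∀ P : Sylow p H, Kills U P) : Kills U H := by
  obtain ⟨e⟩ := ((Group.isNilpotent_of_finite_tfae (G := H)).out 0 4).1 hH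
  refine Kills.of_surjective (H := ∀ p : (Nat.card H).primeFactors, ∀ P : Sylow p H, (P : Subgroup H))
    ?_ e.toMonoidHom e.surjective
  intro f u hu
  funext p P
  have := map_lift ((Pi.evalMonoidHom _ P).comp (Pi.evalMonoidHom
    (fun p : (Nat.card H).primeFactors => ∀ P : Sylow p H, (P : Subgroup H)) p)) f u
  exact this.trans (h p (Nat.prime_of_mem_primeFactors p.2) P _ u hu)

end Pool.Agent.LawP
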