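import Pool.Agent.K.MP_ec89a0_al.C3

-- part Pool.Agent.P.MP_ec89a0_al.LP6
section

/-! Eigen-elements of an automorphism of a nilpotent group of finite exponent. -/

namespace Pool.Agent.LawP

open Subgroup Finset
open scoped commutatorElement

section Ab

variable {X : Type} [AddCommGroup X]

/-- the operator `Σ ζ^i ψ^(t-1-i)` -/
noncomputable def gs (ψ : Module.End ℤ X) (ζ : ℤ) (t : ℕ) : Module.End ℤ X :=
  ∑ i ∈ range t, (ζ : Module.End ℤ X) ^ i * ψ ^ (t - 1 - i)

theorem gs_succ (ψ : Module.End ℤ X) (ζ : ℤ) (t : ℕ) :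
    gs ψ ζ (t + 1) = (ζ : Module.End ℤ X) ^ t + ψ * gs ψ ζ t :=
  (Int.cast_commute ζ ψ).geom_sum₂_succ_eq

theorem mul_gs (ψ : Module.End ℤ X) (ζ : ℤ) (t : ℕ) :
    ((ζ : Module.End ℤ X) - ψ) * gs ψ ζ t = (ζ : Module.End ℤ X) ^ t - ψ ^ t :=
  (Int.cast_commute ζ ψ).mul_geom_sum₂ t

theorem commute_gs (ψ : Module.End ℤ X) (ζ : ℤ) (t : ℕ) : Commute ψ (gs ψ ζ t) :=
  Commute.sum_right _ _ _ fun _ _ =>
    ((Int.commute_cast ψ ζ).pow_right _).mul_right ((Commute.refl ψ).pow_right _)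

theorem castpow_apply (ζ : ℤ) (i : ℕ) (v : X) :
    ((ζ : Module.End ℤ X) ^ i) v = ζ ^ i • v := by
  rw [← Int.cast_pow]; rfl

theorem mem_of_coprime {m : ℕ} (hm : ∀ v : X, m • v = 0) {U : AddSubgroup X} {c : ℤ}
    (hc : IsCoprime c (m : ℤ)) {v : X} (h : c • v ∈ U) : v ∈ U := by
  obtain ⟨a, b, hab⟩ := hc
  have : v = a • c • v := by
    have h1 : (a * c + b * m) • v = v := by rw [hab, one_smul]
    rw [add_smul, mul_smul, mul_smul, natCast_zsmul, hm, smul_zero, add_zero] at h1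
    exact h1.symm
  rw [this]
  exact U.zsmul_mem h a

theorem eq_zero_of_coprime {m : ℕ} (hm : ∀ v : X, m • v = 0) {c : ℤ}
    (hc : IsCoprime c (m : ℤ)) {v : X} (h : c • v = 0) : v = 0 :=
  mem_of_coprime hm (U := ⊥) hc h

theorem smul_eq_of_dvd {m : ℕ} (hm : ∀ v : X, m • v = 0) {a : ℤ} (h : (m : ℤ) ∣ a - 1) (v : X) :
    a • v = v := by
  obtain ⟨k, hk⟩ := h
  have : a = 1 + k * m := by linear_combination hk
  rw [this, add_smul, one_smul, mul_smul, natCast_zsmul, hm, smul_zero, add_zero]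

theorem pow_mem_inv {ψ : Module.End ℤ X} {U : AddSubgroup X} (hU : ∀ v ∈ U, ψ v ∈ U) (k : ℕ)
    {v : X} (hv : v ∈ U) : (ψ ^ k) v ∈ U := by
  induction k with
  | zero => exact hv
  | succ k ih => rw [pow_succ', Module.End.mul_apply]; exact hU _ ih

theorem gs_mem {ψ : Module.End ℤ X} {U : AddSubgroup X} (hU : ∀ v ∈ U, ψ v ∈ U) (ζ : ℤ) (t : ℕ)
    {v : X} (hv : v ∈ U) : gs ψ ζ t v ∈ U := by
  unfold gs
  rw [LinearMap.sum_apply]
  refine U.sum_mem fun i _ => ?_
  rw [Module.End.mul_apply, castpow_apply]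
  exact U.zsmul_mem (pow_mem_inv hU _ hv) _

theorem coprime_of_dvd_pow_sub_one {m n : ℕ} (hn : 0 < n) {ζ : ℤ} (h : (m : ℤ) ∣ ζ ^ n - 1) :
    IsCoprime ζ (m : ℤ) := by
  obtain ⟨k, hk⟩ := h
  obtain ⟨n, rfl⟩ : ∃ n', n = n' + 1 := ⟨n - 1, by omega⟩
  exact ⟨ζ ^ n, -k, by rw [pow_succ] at hk; linear_combination hk⟩

theorem mem_of_gs {m n : ℕ} (hm : ∀ v : X, m • v = 0) (hn : 0 < n)
    (hnm : IsCoprime (n : ℤ) (m : ℤ)) {ζ : ℤ} (hζ : (m : ℤ) ∣ ζ ^ n - 1)
    {ψ : Module.End ℤ X} {U : AddSubgroup X} (hU : ∀ v ∈ U, ψ v ∈ U) {z : X}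
    (h1 : ψ z - ζ • z ∈ U) (h2 : gs ψ ζ n z ∈ U) : z ∈ U := by
  have hk : ∀ k : ℕ, (ψ ^ k) z - ζ ^ k • z ∈ U := by
    intro k
    induction k with
    | zero => simp
    | succ k ih =>
      have := U.add_mem (hU _ ih) (U.zsmul_mem h1 (ζ ^ k))
      convert this using 1
      rw [pow_succ', Module.End.mul_apply, map_sub, map_zsmul, smul_sub, smul_smul, ← pow_succ]
      abel
  have h3 : gs ψ ζ n z - ((n : ℤ) * ζ ^ (n - 1)) • z ∈ U := by
    have : ((n : ℤ) * ζ ^ (n - 1)) • z = ∑ i ∈ range n, ζ ^ i • ζ ^ (n - 1 - i) • z := by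
      rw [Finset.sum_congr rfl (g := fun _ => ζ ^ (n - 1) • z)]
      · rw [Finset.sum_const, card_range, mul_smul, natCast_zsmul]
      · intro i hi
        rw [smul_smul, ← pow_add]
        congr 2
        have := mem_range.1 hi
        omega
    rw [this]
    unfold gs
    rw [LinearMap.sum_apply, ← Finset.sum_sub_distrib]
    refine U.sum_mem fun i _ => ?_
    rw [Module.End.mul_apply, castpow_apply, ← smul_sub]
    exact U.zsmul_mem (hk _) _
  have h4 := U.sub_mem h2 h3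
  rw [sub_sub_cancel] at h4
  exact mem_of_coprime hm (hnm.mul_left (coprime_of_dvd_pow_sub_one hn hζ).pow_left) h4

theorem gs_eigen {m n : ℕ} (hm : ∀ v : X, m • v = 0) {ζ : ℤ} (hζ : (m : ℤ) ∣ ζ ^ n - 1)
    {ψ : Module.End ℤ X} (hψ : ψ ^ n = 1) (v : X) : ψ (gs ψ ζ n v) = ζ • gs ψ ζ n v := by
  have := congrArg (fun f : Module.End ℤ X => f v) (mul_gs ψ ζ n)
  simp only [hψ, Module.End.mul_apply, LinearMap.sub_apply, castpow_apply,
    Module.End.one_apply, smul_eq_of_dvd hm hζ, sub_self] at this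
  exact (sub_eq_zero.1 this).symm

theorem gs_eq_zero {m n : ℕ} (hm : ∀ v : X, m • v = 0) {ζ μ : ℤ} (hζ : (m : ℤ) ∣ ζ ^ n - 1)
    {ψ : Module.End ℤ X} (hψ : ψ ^ n = 1) (hc : IsCoprime (μ - ζ) (m : ℤ)) {v : X}
    (hv : ψ v = μ • v) : gs ψ ζ n v = 0 := by
  refine eq_zero_of_coprime hm hc ?_
  have h1 := gs_eigen hm hζ hψ v
  have h2 : ψ (gs ψ ζ n v) = μ • gs ψ ζ n v := by
    rw [← Module.End.mul_apply, (commute_gs ψ ζ n).eq, Module.End.mul_apply, hv, map_zsmul]
  rw [sub_smul, ← h1, ← h2, sub_self]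

end Ab

/-- `l` is a primitive `n`-th root of unity modulo every prime factor of `m` -/
structure Num (n m : ℕ) (l : ℤ) : Prop where
  pos : 0 < n
  pow : (m : ℤ) ∣ l ^ n - 1
  unit : ∀ i, 0 < i → i < n → IsCoprime (l ^ i - 1) (m : ℤ)
  cop : IsCoprime (n : ℤ) (m : ℤ)

theorem Num.pow_pow {n m : ℕ} {l : ℤ} (h : Num n m l) (j : ℕ) : (m : ℤ) ∣ (l ^ j) ^ n - 1 := by
  rw [← pow_mul, mul_comm, pow_mul]
  exact h.pow.trans (by simpa using sub_dvd_pow_sub_pow (l ^ n) 1 j)

theorem Num.cop_lt {n m : ℕ} {l : ℤ} (h : Num n m l) {a b : ℕ} (hab : b < a) (hn : a < b + n) :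
    IsCoprime (l ^ a - l ^ b) (m : ℤ) := by
  obtain ⟨d, rfl⟩ : ∃ d, a = b + d := ⟨a - b, by omega⟩
  have : l ^ (b + d) - l ^ b = l ^ b * (l ^ d - 1) := by ring
  rw [this]
  exact (coprime_of_dvd_pow_sub_one h.pos h.pow).pow_left.mul_left
    (h.unit d (by omega) (by omega))

theorem Num.cop_diff {n m : ℕ} {l : ℤ} (h : Num n m l) {a k : ℕ} (hk : k < n) (ha : a < 2 * n)
    (h1 : a ≠ k) (h2 : a ≠ k + n) : IsCoprime (l ^ a - l ^ k) (m : ℤ) := by
  have low : ∀ a, a < k + n → a ≠ k → IsCoprime (l ^ a - l ^ k) (m : ℤ) := by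
    intro a ha hne
    rcases lt_or_gt_of_ne hne with hlt | hlt
    · have := (h.cop_lt hlt (by omega)).neg_left
      rwa [neg_sub] at this
    · exact h.cop_lt hlt ha
  rcases lt_or_gt_of_ne h2 with hlt | hlt
  · exact low a hlt h1
  · obtain ⟨d, rfl⟩ : ∃ d, a = d + n := ⟨a - n, by omega⟩
    obtain ⟨c, hc⟩ := h.pow
    have e : l ^ (d + n) - l ^ k = (l ^ d - l ^ k) + (m : ℤ) * (c * l ^ d) := by
      rw [pow_add]; linear_combination l ^ d * hc
    rw [e]
    exact (low d (by omega) (by omega)).add_mul_left_left _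

theorem mem_of_eigen {X : Type} [AddCommGroup X] {n m : ℕ} {l : ℤ} (h : Num n m l)
    (hm : ∀ v : X, m • v = 0) {ψ : Module.End ℤ X} (hψ : ψ ^ n = 1) {U : AddSubgroup X}
    (hU : ∀ i, i < n → ∀ v, ψ v = l ^ i • v → v ∈ U) (v : X) : v ∈ U := by
  refine mem_of_coprime hm h.cop ?_
  have key : ∑ j ∈ range n, l ^ j • gs ψ (l ^ j) n v = (n : ℤ) • v := by
    unfold gs
    simp only [LinearMap.sum_apply, Module.End.mul_apply, castpow_apply, Finset.smul_sum,
      smul_smul]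
    rw [Finset.sum_comm]
    simp only [← Finset.sum_smul]
    obtain ⟨n', rfl⟩ : ∃ n', n = n' + 1 := ⟨n - 1, by have := h.pos; omega⟩
    rw [Finset.sum_range_succ, Finset.sum_eq_zero, zero_add]
    · rw [Nat.add_sub_cancel, Nat.sub_self, pow_zero, Module.End.one_apply, Finset.sum_smul,
        Finset.sum_congr rfl (g := fun _ => v)]
      · rw [Finset.sum_const, card_range, natCast_zsmul]
      · intro j _
        rw [← pow_succ']
        exact smul_eq_of_dvd hm (h.pow_pow j) v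
    · intro i hi
      have hi' := mem_range.1 hi
      refine eq_zero_of_coprime hm (h.unit (i + 1) (by omega) (by omega)) ?_
      have e : ∑ j ∈ range (n' + 1), l ^ j * (l ^ j) ^ i =
          ∑ j ∈ range (n' + 1), (l ^ (i + 1)) ^ j :=
        Finset.sum_congr rfl fun j _ => by ring
      rw [smul_smul, e, mul_geom_sum, sub_smul, smul_eq_of_dvd hm (h.pow_pow _), one_smul,
        sub_self]
  rw [← key]
  exact U.sum_mem fun j hj =>
    U.zsmul_mem (hU j (mem_range.1 hj) _ (gs_eigen hm (h.pow_pow j) hψ v)) _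

section Grp

variable {K : Type} [Group K]

/-- exponent dividing `m`, operator of order dividing `n` -/
structure Op (φ : K →* K) (n m : ℕ) : Prop where
  exp : ∀ g : K, g ^ m = 1
  ord : ∀ x, φ^[n] x = x

theorem semiconj_iter {H : Type} [Group H] {φ : K →* K} {ψ : H →* H} {θ : K →* H}
    (h : ∀ x, ψ (θ x) = θ (φ x)) (t : ℕ) (x : K) : ψ^[t] (θ x) = θ (φ^[t] x) := by
  induction t with
  | zero => rfl
  | succ t ih => rw [Function.iterate_succ_apply', Function.iterate_succ_apply', ih, h]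

theorem Op.of_surj {H : Type} [Group H] {φ : K →* K} {ψ : H →* H} {n m : ℕ} (h : Op φ n m)
    {θ : K →* H} (hθ : Function.Surjective θ) (hs : ∀ x, ψ (θ x) = θ (φ x)) : Op ψ n m := by
  constructor
  · intro g; obtain ⟨x, rfl⟩ := hθ g; rw [← map_pow, h.exp, map_one]
  · intro g; obtain ⟨x, rfl⟩ := hθ g; rw [semiconj_iter hs, h.ord]

theorem Op.of_inj {H : Type} [Group H] {φ : K →* K} {ψ : H →* H} {n m : ℕ} (h : Op ψ n m)
    {θ : K →* H} (hθ : Function.Injective θ) (hs : ∀ x, ψ (θ x) = θ (φ x)) : Op φ n m := by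
  constructor
  · intro g; apply hθ; rw [map_pow, h.exp, map_one]
  · intro g; apply hθ; rw [← semiconj_iter hs, h.ord]

theorem surj_of_iter {φ : K →* K} {n : ℕ} (hn : 0 < n) (h : ∀ x, φ^[n] x = x) :
    Function.Surjective φ := by
  obtain ⟨n, rfl⟩ : ∃ n', n = n' + 1 := ⟨n - 1, by omega⟩
  intro x
  exact ⟨φ^[n] x, by rw [← Function.iterate_succ_apply' φ, h]⟩

theorem exists_quot (φ : K →* K) (N : Subgroup K) [N.Normal] (hN : ∀ x ∈ N, φ x ∈ N) :
    ∃ ψ : K ⧸ N →* K ⧸ N, ∀ x, ψ (QuotientGroup.mk' N x) = QuotientGroup.mk' N (φ x) :=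
  ⟨QuotientGroup.map N N φ hN, fun _ => rfl⟩

theorem exists_restr (φ : K →* K) (S : Subgroup K) (hS : ∀ x ∈ S, φ x ∈ S) :
    ∃ ψ : S →* S, ∀ x, φ (S.subtype x) = S.subtype (ψ x) :=
  ⟨(φ.comp S.subtype).codRestrict S fun x => hS x x.2, fun _ => rfl⟩

theorem end_pow_apply {S : Subgroup K} {X : Type} [AddCommGroup X] {π : K → X} {φ : K →* K}
    {ψ : Module.End ℤ X} (hS : ∀ x ∈ S, φ x ∈ S) (hψ : ∀ x ∈ S, ψ (π x) = π (φ x)) (t : ℕ)
    {x : K} (hx : x ∈ S) : φ^[t] x ∈ S ∧ (ψ ^ t) (π x) = π (φ^[t] x) := by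
  induction t with
  | zero => exact ⟨hx, rfl⟩
  | succ t ih =>
    rw [Function.iterate_succ_apply', pow_succ', Module.End.mul_apply, ih.2]
    exact ⟨hS _ ih.1, hψ _ ih.1⟩

theorem Sec.end_pow_eq_one {S T : Subgroup K} {X : Type} [AddCommGroup X] {π : K → X}
    (h : Sec S T π) {φ : K →* K} {ψ : Module.End ℤ X} (hS : ∀ x ∈ S, φ x ∈ S)
    (hψ : ∀ x ∈ S, ψ (π x) = π (φ x)) {n : ℕ} (hn : ∀ x, φ^[n] x = x) : ψ ^ n = 1 :=
  LinearMap.ext (h.ext fun x hx => by rw [(end_pow_apply hS hψ n hx).2, hn]; rfl)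

theorem zpow_eq_self {m : ℕ} (hm : ∀ g : K, g ^ m = 1) {a : ℤ} (h : (m : ℤ) ∣ a - 1) (x : K) :
    x ^ a = x := by
  obtain ⟨k, hk⟩ := h
  have : a = 1 + m * k := by linear_combination hk
  rw [this, zpow_add, zpow_one, zpow_mul, zpow_natCast, hm, one_zpow, mul_one]

theorem lift_central {φ : K →* K} {n m : ℕ} (hop : Op φ n m) (hn : 0 < n)
    (hnm : IsCoprime (n : ℤ) (m : ℤ)) {ζ : ℤ} (hζ : (m : ℤ) ∣ ζ ^ n - 1) {S : Subgroup K}
    (hS : ∀ x ∈ S, φ x ∈ S) (hc : S ≤ center K) {x : K} (hx : (x ^ ζ)⁻¹ * φ x ∈ S) :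
    ∃ y ∈ S, φ (x * y) = (x * y) ^ ζ := by
  have hcomm : ∀ y ∈ S, ∀ g : K, Commute g y := fun y hy g => Subgroup.mem_center_iff.1 (hc hy) g
  obtain ⟨X, _, π, hπ⟩ := exists_sec S ⊥ (by
    rw [Subgroup.commutator_le]
    intro a _ b hb
    exact commutatorElement_eq_one_iff_commute.2 (hcomm b hb a))
  obtain ⟨ψ, hψ⟩ := hπ.exists_end φ hS (fun y hy => by
    rw [Subgroup.mem_bot] at hy ⊢; rw [hy, map_one])
  have hm := hπ.smul_eq_zero fun g _ => hop.exp g
  set z := (x ^ ζ)⁻¹ * φ x with hz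
  have hφx : φ x = x ^ ζ * z := by rw [hz, mul_inv_cancel_left]
  have key : ∀ t : ℕ, ∃ y ∈ S, φ^[t] x = x ^ ζ ^ t * y ∧ π y = gs ψ ζ t (π z) := by
    intro t
    induction t with
    | zero => exact ⟨1, S.one_mem, by simp, by simp [gs, hπ.addOn.one]⟩
    | succ t ih =>
      obtain ⟨y, hy, e1, e2⟩ := ih
      refine ⟨z ^ ζ ^ t * φ y, S.mul_mem (S.zpow_mem hx _) (hS y hy), ?_, ?_⟩
      · rw [Function.iterate_succ_apply', e1, map_mul, map_zpow, hφx,
          (hcomm z hx _).mul_zpow, ← zpow_mul, ← pow_succ', mul_assoc]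
      · rw [hπ.mul _ (S.zpow_mem hx _) _ (hS y hy), hπ.addOn.zpow hx, ← hψ y hy, e2, gs_succ,
          LinearMap.add_apply, castpow_apply, Module.End.mul_apply]
  obtain ⟨y₀, hy₀, e1, e2⟩ := key n
  rw [hop.ord, zpow_eq_self hop.exp hζ, left_eq_mul] at e1
  rw [e1, hπ.addOn.one] at e2
  have hmem : π z ∈ (LinearMap.range (ψ - (ζ : Module.End ℤ X))).toAddSubgroup := by
    refine mem_of_gs hm hn hnm hζ (ψ := ψ) ?_ ⟨π z, rfl⟩ (by rw [← e2]; exact AddSubgroup.zero_mem _)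
    rintro _ ⟨v, rfl⟩
    refine ⟨ψ v, ?_⟩
    rw [← Module.End.mul_apply, ← Module.End.mul_apply]
    congr 1
    exact ((Commute.refl ψ).sub_left (Int.cast_commute ζ ψ)).eq
  obtain ⟨v, hv⟩ := hmem
  obtain ⟨y, hy, rfl⟩ := hπ.surj v
  refine ⟨y⁻¹, S.inv_mem hy, ?_⟩
  have h1 : π (z * φ y⁻¹) = π (y⁻¹ ^ ζ) := by
    rw [hπ.mul _ hx _ (hS _ (S.inv_mem hy)), ← hψ _ (S.inv_mem hy),
      hπ.addOn.zpow (S.inv_mem hy), hπ.addOn.inv hy, ← hv, map_neg]
    show ψ (π y) - ζ • π y + _ = _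
    rw [smul_neg]; abel
  rw [hπ.eq_iff (S.mul_mem hx (hS _ (S.inv_mem hy))) (S.zpow_mem (S.inv_mem hy) _),
    Subgroup.mem_bot, mul_inv_eq_one] at h1
  rw [map_mul, hφx, mul_assoc, h1, (hcomm _ (S.inv_mem hy) x).mul_zpow]

theorem center_inv {φ : K →* K} (hφ : Function.Surjective φ) : ∀ x ∈ center K, φ x ∈ center K := by
  intro x hx
  rw [Subgroup.mem_center_iff] at hx ⊢
  intro g
  obtain ⟨g, rfl⟩ := hφ g
  rw [← map_mul, hx, map_mul]

/-- eigen-elements lift through invariant normal subgroups -/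
theorem lift_eigen {n m : ℕ} (hn : 0 < n) (hnm : IsCoprime (n : ℤ) (m : ℤ)) {ζ : ℤ}
    (hζ : (m : ℤ) ∣ ζ ^ n - 1) (K : Type) [Group K] [Group.IsNilpotent K] :
    ∀ (φ : K →* K), Op φ n m → ∀ (N : Subgroup K), N.Normal → (∀ x ∈ N, φ x ∈ N) →
      ∀ x : K, (x ^ ζ)⁻¹ * φ x ∈ N → ∃ y ∈ N, φ (x * y) = (x * y) ^ ζ := by
  refine Group.nilpotent_center_quotient_ind (P := fun K _ _ => ∀ (φ : K →* K), Op φ n m →
    ∀ (N : Subgroup K), N.Normal → (∀ x ∈ N, φ x ∈ N) →
      ∀ x : K, (x ^ ζ)⁻¹ * φ x ∈ N → ∃ y ∈ N, φ (x * y) = (x * y) ^ ζ) K ?_ ?_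
  · intro K _ _ φ _ N _ _ x _
    exact ⟨1, N.one_mem, Subsingleton.elim _ _⟩
  · intro K _ _ ih φ hop N hN hinv x hx
    have hZ := center_inv (surj_of_iter hn hop.ord)
    obtain ⟨ψ, hψ⟩ := exists_quot φ (center K) hZ
    have hs := QuotientGroup.mk'_surjective (center K)
    obtain ⟨_, ⟨ν, hν, rfl⟩, e⟩ := ih ψ (hop.of_surj hs hψ) (N.map (QuotientGroup.mk' _))
      (hN.map _ hs) (by rintro _ ⟨y, hy, rfl⟩; exact ⟨φ y, hinv y hy, (hψ y).symm⟩)
      (QuotientGroup.mk' _ x) ⟨_, hx, by rw [map_mul, map_inv, map_zpow, hψ]⟩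
    have h1 : ((x * ν) ^ ζ)⁻¹ * φ (x * ν) ∈ center K := by
      rw [← QuotientGroup.ker_mk' (center K), MonoidHom.mem_ker, map_mul, map_inv, map_zpow,
        ← hψ, map_mul, e, inv_mul_cancel]
    have h2 : ((x * ν) ^ ζ)⁻¹ * φ (x * ν) ∈ N := by
      have a1 : QuotientGroup.mk' N ν = 1 := (QuotientGroup.eq_one_iff _).2 hν
      have a2 : QuotientGroup.mk' N (φ ν) = 1 := (QuotientGroup.eq_one_iff _).2 (hinv ν hν)
      have a3 : QuotientGroup.mk' N ((x ^ ζ)⁻¹ * φ x) = 1 := (QuotientGroup.eq_one_iff _).2 hx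
      rw [← QuotientGroup.ker_mk' N, MonoidHom.mem_ker, ← a3]
      simp only [map_mul, map_inv, map_zpow, a1, a2, mul_one]
    obtain ⟨y, hy, e'⟩ := lift_central hop hn hnm hζ (S := center K ⊓ N)
      (fun y hy => ⟨hZ y hy.1, hinv y hy.2⟩) inf_le_left ⟨h1, h2⟩
    exact ⟨ν * y, N.mul_mem hν hy.2, by rwa [← mul_assoc]⟩

end Grp

end Pool.Agent.LawP
end

-- part Pool.Agent.P.MP_ec89a0_al.LP7
section

/-! Kreknin's argument for nilpotent groups whose exponent admits the roots of unity. -/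

namespace Pool.Agent.LawP

open Subgroup
open scoped commutatorElement

variable {K : Type} [Group K]

/-- eigen-elements inside `H` with weight in `[k, n)` -/
def eigS (φ : K →* K) (l : ℤ) (n k : ℕ) (H : Subgroup K) : Set K :=
  {x | x ∈ H ∧ ∃ j, k ≤ j ∧ j < n ∧ φ x = x ^ l ^ j}

theorem closure_eigS_le (φ : K →* K) (l : ℤ) (n k : ℕ) (H : Subgroup K) :
    closure (eigS φ l n k H) ≤ H := (closure_le _).2 fun _ hx => hx.1

theorem closure_inv {φ : K →* K} {s : Set K} (h : ∀ x ∈ s, φ x ∈ closure s) :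
    ∀ x ∈ closure s, φ x ∈ closure s := by
  have : closure s ≤ (closure s).comap φ := (closure_le _).2 h
  exact this

theorem closure_eigS_inv (φ : K →* K) (l : ℤ) (n k : ℕ) (H : Subgroup K) :
    ∀ x ∈ closure (eigS φ l n k H), φ x ∈ closure (eigS φ l n k H) := by
  refine closure_inv fun x hx => ?_
  obtain ⟨j, _, _, e⟩ := hx.2
  rw [e]
  exact Subgroup.zpow_mem _ (subset_closure hx) _

theorem comm_inv {φ : K →* K} {A B : Subgroup K} (hA : ∀ x ∈ A, φ x ∈ A) (hB : ∀ x ∈ B, φ x ∈ B) :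
    ∀ x ∈ ⁅A, B⁆, φ x ∈ ⁅A, B⁆ := by
  have : ⁅A, B⁆ ≤ (⁅A, B⁆).comap φ := by
    rw [Subgroup.commutator_le]
    intro a ha b hb
    rw [Subgroup.mem_comap, map_commutatorElement]
    exact Subgroup.commutator_mem_commutator (hA a ha) (hB b hb)
  exact this

theorem lcs_inv {φ : K →* K} {A : Subgroup K} (hA : ∀ x ∈ A, φ x ∈ A) (k : ℕ) :
    ∀ x ∈ A.lowerCentralSeries k, φ x ∈ A.lowerCentralSeries k := by
  induction k with
  | zero => exact hA
  | succ k ih => exact comm_inv ih hA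

/-- the image of a subgroup of `S` in the section -/
def AddOn.img {S : Subgroup K} {X : Type} [AddCommGroup X] {π : K → X} (h : AddOn S π)
    (C : Subgroup K) (hC : C ≤ S) : AddSubgroup X where
  carrier := {v | ∃ x ∈ C, π x = v}
  zero_mem' := ⟨1, C.one_mem, h.one⟩
  add_mem' := by
    rintro _ _ ⟨x, hx, rfl⟩ ⟨y, hy, rfl⟩
    exact ⟨x * y, C.mul_mem hx hy, h x (hC hx) y (hC hy)⟩
  neg_mem' := by
    rintro _ ⟨x, hx, rfl⟩
    exact ⟨x⁻¹, C.inv_mem hx, h.inv (hC hx)⟩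

theorem AddOn.closure_mem {S : Subgroup K} {X : Type} [AddCommGroup X] {π : K → X} (h : AddOn S π)
    {s : Set K} (hs : closure s ≤ S) {U : AddSubgroup X} (hU : ∀ x ∈ s, π x ∈ U) :
    ∀ x ∈ closure s, π x ∈ U := by
  intro x hx
  induction hx using Subgroup.closure_induction with
  | mem y hy => exact hU y hy
  | one => rw [h.one]; exact U.zero_mem
  | mul a b ha hb iha ihb => rw [h a (hs ha) b (hs hb)]; exact U.add_mem iha ihb
  | inv a ha iha => rw [h.inv (hs ha)]; exact U.neg_mem iha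

theorem decomp [Group.IsNilpotent K] {φ : K →* K} {n m : ℕ} {l : ℤ} (hnum : Num n m l)
    (hop : Op φ n m) {Γ N : Subgroup K} [hN : N.Normal] (hΓ : ∀ x ∈ Γ, φ x ∈ Γ)
    (hNi : ∀ x ∈ N, φ x ∈ N) (hle : N ≤ Γ) (hab : ⁅Γ, Γ⁆ ≤ N) {y : K} (hy : y ∈ Γ) :
    ∃ c ∈ closure (eigS φ l n 0 Γ), y * c⁻¹ ∈ N := by
  obtain ⟨X, _, π, hπ⟩ := exists_sec Γ N hab
  obtain ⟨ψ, hψ⟩ := hπ.exists_end φ hΓ hNi
  have hm := hπ.smul_eq_zero fun g _ => hop.exp g
  have := mem_of_eigen hnum hm (hπ.end_pow_eq_one hΓ hψ hop.ord)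
    (U := hπ.addOn.img _ (closure_eigS_le φ l n 0 Γ)) (by
      intro i hi v hv
      obtain ⟨x, hx, rfl⟩ := hπ.surj v
      rw [hψ x hx, ← hπ.addOn.zpow hx, hπ.eq_iff (hΓ x hx) (Γ.zpow_mem hx _)] at hv
      have hv' : (x ^ l ^ i)⁻¹ * φ x ∈ N := hN.mem_comm hv
      obtain ⟨ν, hν, e⟩ := lift_eigen hnum.pos hnum.cop (hnum.pow_pow i) K φ hop N hN hNi x hv'
      refine ⟨x * ν, subset_closure ⟨Γ.mul_mem hx (hle hν), i, Nat.zero_le _, hi, e⟩, ?_⟩
      rw [hπ.mul x hx ν (hle hν), (hπ.ker ν (hle hν)).2 hν, add_zero]) (π y)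
  obtain ⟨c, hc, e⟩ := this
  exact ⟨c, hc, (hπ.eq_iff hy (closure_eigS_le φ l n 0 Γ hc)).1 e.symm⟩

theorem fpf_quot [Group.IsNilpotent K] {φ : K →* K} {n m : ℕ} (hn : 0 < n)
    (hnm : IsCoprime (n : ℤ) (m : ℤ)) (hop : Op φ n m) (hf : ∀ x, φ x = x → x = 1)
    {N : Subgroup K} [hN : N.Normal] (hNi : ∀ x ∈ N, φ x ∈ N) {ψ : K ⧸ N →* K ⧸ N}
    (hψ : ∀ x, ψ (QuotientGroup.mk' N x) = QuotientGroup.mk' N (φ x)) :
    ∀ x, ψ x = x → x = 1 := by
  intro x hx
  obtain ⟨x, rfl⟩ := QuotientGroup.mk'_surjective N x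
  have h1 : (x ^ (1 : ℤ))⁻¹ * φ x ∈ N := by
    rw [← QuotientGroup.ker_mk' N, MonoidHom.mem_ker, zpow_one, map_mul, map_inv, ← hψ, hx,
      inv_mul_cancel]
  obtain ⟨ν, hν, e⟩ := lift_eigen hn hnm (ζ := 1) (by simp) K φ hop N hN hNi x h1
  rw [zpow_one] at e
  have h2 := hf _ e
  rw [mul_eq_one_iff_eq_inv] at h2
  rw [h2]
  exact (QuotientGroup.eq_one_iff _).2 (N.inv_mem hν)

theorem comm_mul_right {y g h : K} (hc : ⁅y, h⁆ ∈ center K) : ⁅y, g * h⁆ = ⁅y, g⁆ * ⁅y, h⁆ := by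
  have e := Subgroup.mem_center_iff.1 hc g
  calc ⁅y, g * h⁆ = ⁅y, g⁆ * (g * ⁅y, h⁆) * g⁻¹ := by simp only [commutatorElement_def]; group
    _ = ⁅y, g⁆ * ⁅y, h⁆ := by rw [e]; group

theorem comm_mul_left {y y' g : K} (hc : ⁅y', g⁆ ∈ center K) :
    ⁅y * y', g⁆ = ⁅y, g⁆ * ⁅y', g⁆ := by
  have e := Subgroup.mem_center_iff.1 hc y
  have e2 := Subgroup.mem_center_iff.1 hc ⁅y, g⁆
  calc ⁅y * y', g⁆ = (y * ⁅y', g⁆) * y⁻¹ * ⁅y, g⁆ := by simp only [commutatorElement_def]; group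
    _ = ⁅y', g⁆ * ⁅y, g⁆ := by rw [e]; group
    _ = ⁅y, g⁆ * ⁅y', g⁆ := e2.symm

theorem central_part [Group.IsNilpotent K] {φ : K →* K} {n m : ℕ} {l : ℤ} (hnum : Num n m l)
    (hop : Op φ n m) (hf : ∀ x, φ x = x → x = 1) {k : ℕ} (hk : k < n)
    (hgen : closure (eigS φ l n k ⊤) = ⊤) {Γ : Subgroup K} [Γ.Normal] (hΓ : ∀ x ∈ Γ, φ x ∈ Γ)
    (hc : ⁅Γ, (⊤ : Subgroup K)⁆ ≤ center K) {z : K} (hz : z ∈ ⁅Γ, (⊤ : Subgroup K)⁆)
    (hzz : φ z * (z ^ l ^ k)⁻¹ ∈ closure (eigS φ l n (k + 1) ⊤)) :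
    z ∈ closure (eigS φ l n (k + 1) ⊤) := by
  set N := ⁅Γ, (⊤ : Subgroup K)⁆ with hNdef
  set Kp := closure (eigS φ l n (k + 1) ⊤) with hKp
  have hNi : ∀ x ∈ N, φ x ∈ N := comm_inv hΓ fun _ _ => trivial
  obtain ⟨X, _, π, hπ⟩ := exists_sec N ⊥ (by
    rw [Subgroup.commutator_le]
    intro a _ b hb
    exact commutatorElement_eq_one_iff_commute.2 (Subgroup.mem_center_iff.1 (hc hb) a))
  obtain ⟨ψ, hψ⟩ := hπ.exists_end φ hNi (fun y hy => by
    rw [Subgroup.mem_bot] at hy ⊢; rw [hy, map_one])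
  have hm := hπ.smul_eq_zero fun g _ => hop.exp g
  have hψn := hπ.end_pow_eq_one hNi hψ hop.ord
  set U := hπ.addOn.img (N ⊓ Kp) inf_le_left with hU
  have hUi : ∀ v ∈ U, ψ v ∈ U := by
    rintro _ ⟨x, hx, rfl⟩
    exact ⟨φ x, ⟨hNi x hx.1, closure_eigS_inv φ l n (k + 1) ⊤ x hx.2⟩, (hψ x hx.1).symm⟩
  have hmem : ∀ y ∈ Γ, ∀ g : K, ⁅y, g⁆ ∈ N := fun y hy g =>
    Subgroup.commutator_mem_commutator hy trivial
  have hB1 : ∀ y ∈ Γ, AddOn ⊤ fun g => π ⁅y, g⁆ := fun y hy g _ h _ => by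
    show π ⁅y, g * h⁆ = π ⁅y, g⁆ + π ⁅y, h⁆
    rw [comm_mul_right (hc (hmem y hy h)), hπ.mul _ (hmem y hy g) _ (hmem y hy h)]
  have hB2 : ∀ g : K, AddOn Γ fun y => π ⁅y, g⁆ := fun g y hy y' hy' => by
    show π ⁅y * y', g⁆ = π ⁅y, g⁆ + π ⁅y', g⁆
    rw [comm_mul_left (hc (hmem y' hy' g)), hπ.mul _ (hmem y hy g) _ (hmem y' hy' g)]
  set T : AddSubgroup X := U.comap (gs ψ (l ^ k) n).toAddMonoidHom with hT
  have base : ∀ g ∈ eigS φ l n k ⊤, ∀ y ∈ eigS φ l n 0 Γ, π ⁅y, g⁆ ∈ T := by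
    rintro g ⟨-, j, hj1, hj2, ej⟩ y ⟨hy, i, -, hi2, ei⟩
    show gs ψ (l ^ k) n (π ⁅y, g⁆) ∈ U
    by_cases h1 : i + j = k
    · obtain rfl : i = 0 := by omega
      rw [pow_zero, zpow_one] at ei
      rw [hf y ei, commutatorElement_one_left, hπ.addOn.one, map_zero]
      exact U.zero_mem
    by_cases h2 : i + j = k + n
    · refine gs_mem hUi _ _ ⟨_, ⟨hmem y hy g, ?_⟩, rfl⟩
      have a1 : y ∈ Kp := subset_closure ⟨trivial, i, by omega, hi2, ei⟩
      have a2 : g ∈ Kp := subset_closure ⟨trivial, j, by omega, hj2, ej⟩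
      exact Kp.mul_mem (Kp.mul_mem (Kp.mul_mem a1 a2) (Kp.inv_mem a1)) (Kp.inv_mem a2)
    · rw [gs_eq_zero hm (hnum.pow_pow k) hψn (hnum.cop_diff hk (by omega) h1 h2)]
      · exact U.zero_mem
      · have b1 := (hB2 (g ^ l ^ j)).zpow hy (l ^ i)
        have b2 := (hB1 y hy).zpow (x := g) trivial (l ^ j)
        rw [hψ _ (hmem y hy g), map_commutatorElement, ei, ej, b1, b2, smul_smul, ← pow_add]
  have step1 : ∀ g ∈ eigS φ l n k ⊤, ∀ y ∈ Γ, π ⁅y, g⁆ ∈ T := by
    intro g hg y hy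
    obtain ⟨c, hc1, hc2⟩ := decomp hnum hop hΓ hNi (Subgroup.commutator_le_left _ _)
      (Subgroup.commutator_mono le_rfl le_top) hy
    have h1 := (hB2 g).closure_mem (closure_eigS_le φ l n 0 Γ) (base g hg) c hc1
    have h2 := hB2 g _ (Subgroup.commutator_le_left _ _ hc2) c (closure_eigS_le φ l n 0 Γ hc1)
    simp only [inv_mul_cancel_right] at h2
    have h3 : ⁅y * c⁻¹, g⁆ = 1 :=
      commutatorElement_eq_one_iff_commute.2 (Subgroup.mem_center_iff.1 (hc hc2) g).symm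
    rw [h2, h3, hπ.addOn.one, zero_add]
    exact h1
  have step2 : ∀ y ∈ Γ, ∀ g : K, π ⁅y, g⁆ ∈ T := fun y hy g =>
    (hB1 y hy).closure_mem le_top (fun g hg => step1 g hg y hy) g (by rw [hgen]; trivial)
  have step3 : π z ∈ T := by
    refine hπ.addOn.closure_mem (s := {g | ∃ g₁ ∈ Γ, ∃ g₂ ∈ (⊤ : Subgroup K), ⁅g₁, g₂⁆ = g})
      le_rfl ?_ z hz
    rintro _ ⟨y, hy, g, -, rfl⟩
    exact step2 y hy g
  have hfin : π z ∈ U := by
    refine mem_of_gs hm hnum.pos hnum.cop (hnum.pow_pow k) hUi ?_ step3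
    refine ⟨_, ⟨N.mul_mem (hNi z hz) (N.inv_mem (N.zpow_mem hz _)), hzz⟩, ?_⟩
    rw [hπ.mul _ (hNi z hz) _ (N.inv_mem (N.zpow_mem hz _)), hπ.addOn.inv (N.zpow_mem hz _),
      hπ.addOn.zpow hz, hψ z hz, sub_eq_add_neg]
  obtain ⟨x, hx, e⟩ := hfin
  rw [hπ.eq_iff hx.1 hz, Subgroup.mem_bot, mul_inv_eq_one] at e
  rw [← e]
  exact hx.2

theorem kreknin_a {n m : ℕ} {l : ℤ} (hnum : Num n m l) {k : ℕ} (hk : k < n) (c : ℕ) :
    ∀ (K : Type) [Group K] (φ : K →* K), Op φ n m → (∀ x, φ x = x → x = 1) →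
      (⊤ : Subgroup K).lowerCentralSeries (c + 1) = ⊥ → closure (eigS φ l n k ⊤) = ⊤ →
      ∀ d ∈ commutator K, φ d = d ^ l ^ k → d ∈ closure (eigS φ l n (k + 1) ⊤) := by
  induction c with
  | zero =>
    intro K _ φ _ _ hc _ d hd _
    have : d ∈ (⊥ : Subgroup K) := by rw [← hc]; exact hd
    exact (bot_le : (⊥ : Subgroup K) ≤ _) this
  | succ c ih =>
    intro K _ φ hop hf hc hgen d hd hdk
    have : Group.IsNilpotent K := Subgroup.nilpotent_iff_lowerCentralSeries.2 ⟨_, hc⟩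
    have hΓn := lcs_normal (⊤ : Subgroup K) c
    have hNn := lcs_normal (⊤ : Subgroup K) (c + 1)
    set N := (⊤ : Subgroup K).lowerCentralSeries (c + 1) with hN
    have hNi : ∀ x ∈ N, φ x ∈ N := lcs_inv (fun _ _ => Subgroup.mem_top _) _
    have hcen : N ≤ center K := by
      intro z hz
      rw [Subgroup.mem_center_iff]
      intro g
      have : ⁅z, g⁆ ∈ (⊥ : Subgroup K) := by
        rw [← hc]; exact Subgroup.commutator_mem_commutator hz trivial
      exact (commutatorElement_eq_one_iff_commute.1 this).symm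
    obtain ⟨ψ, hψ⟩ := exists_quot φ N hNi
    have hs := QuotientGroup.mk'_surjective N
    have h1 := ih (K ⧸ N) ψ (hop.of_surj hs hψ) (fpf_quot hnum.pos hnum.cop hop hf hNi hψ)
      (by
        rw [← Subgroup.map_top_of_surjective _ hs, ← Subgroup.map_lowerCentralSeries,
          Subgroup.map_eq_bot_iff, QuotientGroup.ker_mk'])
      (by
        have e := congrArg (Subgroup.map (QuotientGroup.mk' N)) hgen
        rw [Subgroup.map_top_of_surjective _ hs, MonoidHom.map_closure] at e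
        rw [eq_top_iff]
        refine e.ge.trans (Subgroup.closure_mono ?_)
        rintro _ ⟨x, ⟨-, j, hj1, hj2, e⟩, rfl⟩
        exact ⟨trivial, j, hj1, hj2, by rw [hψ, e, map_zpow]⟩)
      (QuotientGroup.mk' N d) (map_derivedSeries_le_derivedSeries _ 1 ⟨d, hd, rfl⟩)
      (by rw [hψ, hdk, map_zpow])
    have h2 : closure (eigS ψ l n (k + 1) ⊤) ≤
        (closure (eigS φ l n (k + 1) ⊤)).map (QuotientGroup.mk' N) := by
      rw [closure_le]
      rintro x ⟨-, j, hj1, hj2, e⟩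
      obtain ⟨x, rfl⟩ := hs x
      obtain ⟨ν, hν, e'⟩ := lift_eigen hnum.pos hnum.cop (hnum.pow_pow j) K φ hop N hNn hNi x (by
        rw [← QuotientGroup.ker_mk' N, MonoidHom.mem_ker, map_mul, map_inv, map_zpow, ← hψ, e,
          inv_mul_cancel])
      refine ⟨x * ν, subset_closure ⟨trivial, j, hj1, hj2, e'⟩, ?_⟩
      rw [map_mul, show QuotientGroup.mk' N ν = 1 from (QuotientGroup.eq_one_iff _).2 hν, mul_one]
    obtain ⟨κ, hκ, e⟩ := h2 h1
    have hz : κ⁻¹ * d ∈ N := by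
      rw [← QuotientGroup.ker_mk' N, MonoidHom.mem_ker, map_mul, map_inv, e, inv_mul_cancel]
    set z := κ⁻¹ * d with hzdef
    have hd' : d = κ * z := by rw [hzdef, mul_inv_cancel_left]
    have h3 : φ z * (z ^ l ^ k)⁻¹ = (φ κ)⁻¹ * κ ^ l ^ k := by
      have hcm : Commute κ z := Subgroup.mem_center_iff.1 (hcen hz) κ
      rw [hd', map_mul, hcm.mul_zpow] at hdk
      rw [mul_inv_eq_iff_eq_mul, mul_assoc, ← hdk, inv_mul_cancel_left]
    have h4 := central_part hnum hop hf hk hgen (Γ := (⊤ : Subgroup K).lowerCentralSeries c)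
      (lcs_inv (fun _ _ => Subgroup.mem_top _) _) hcen hz (by
        rw [h3]
        exact Subgroup.mul_mem _ (Subgroup.inv_mem _ (closure_eigS_inv φ l n (k + 1) ⊤ κ hκ))
          (Subgroup.zpow_mem _ hκ _))
    rw [hd']
    exact Subgroup.mul_mem _ hκ h4

/-- derived series of a subgroup inside the ambient group -/
def ds (H : Subgroup K) : ℕ → Subgroup K
  | 0 => H
  | k + 1 => ⁅ds H k, ds H k⁆

theorem ds_add (H : Subgroup K) (a b : ℕ) : ds H (a + b) = ds (ds H a) b := by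
  induction b with
  | zero => rfl
  | succ b ih => show ⁅ds H (a + b), ds H (a + b)⁆ = ⁅_, _⁆; rw [ih]

theorem ds_mono {H H' : Subgroup K} (h : H ≤ H') (k : ℕ) : ds H k ≤ ds H' k := by
  induction k with
  | zero => exact h
  | succ k ih => exact Subgroup.commutator_mono ih ih

theorem comm_self_le (H : Subgroup K) : ⁅H, H⁆ ≤ H := by
  rw [Subgroup.commutator_le]
  intro a ha b hb
  exact H.mul_mem (H.mul_mem (H.mul_mem ha hb) (H.inv_mem ha)) (H.inv_mem hb)

theorem ds_le (H : Subgroup K) (k : ℕ) : ds H k ≤ H := by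
  induction k with
  | zero => exact le_rfl
  | succ k ih => exact (comm_self_le _).trans ih

theorem ds_inv {φ : K →* K} {H : Subgroup K} (h : ∀ x ∈ H, φ x ∈ H) (k : ℕ) :
    ∀ x ∈ ds H k, φ x ∈ ds H k := by
  induction k with
  | zero => exact h
  | succ k ih => exact comm_inv ih ih

theorem ds_normal (H : Subgroup K) [hH : H.Normal] (k : ℕ) : (ds H k).Normal := by
  induction k with
  | zero => exact hH
  | succ k ih => exact Subgroup.commutator_normal _ _

theorem map_ds {G : Type} [Group G] (θ : K →* G) (H : Subgroup K) (k : ℕ) :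
    (ds H k).map θ = ds (H.map θ) k := by
  induction k with
  | zero => rfl
  | succ k ih => show (⁅ds H k, ds H k⁆).map θ = ⁅_, _⁆; rw [Subgroup.map_commutator, ih]

theorem ds_top (k : ℕ) : ds (⊤ : Subgroup K) k = derivedSeries K k := by
  induction k with
  | zero => rfl
  | succ k ih => show ⁅ds ⊤ k, ds ⊤ k⁆ = _; rw [ih, derivedSeries_succ]

theorem map_closure_eigS {φ : K →* K} {S : Subgroup K} {ψ : S →* S}
    (hψ : ∀ x, φ (S.subtype x) = S.subtype (ψ x)) (l : ℤ) (n k : ℕ) :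
    (closure (eigS ψ l n k ⊤)).map S.subtype = closure (eigS φ l n k S) := by
  rw [MonoidHom.map_closure]
  congr 1
  ext x
  constructor
  · rintro ⟨y, ⟨-, j, h1, h2, e⟩, rfl⟩
    exact ⟨y.2, j, h1, h2, by rw [hψ, e, map_zpow]⟩
  · rintro ⟨hx, j, h1, h2, e⟩
    refine ⟨⟨x, hx⟩, ⟨trivial, j, h1, h2, ?_⟩, rfl⟩
    apply S.subtype_injective
    rw [← hψ, map_zpow]
    exact e

theorem kreknin_b [Group.IsNilpotent K] {φ : K →* K} {n m : ℕ} {l : ℤ} (hnum : Num n m l)
    (hop : Op φ n m) (hf : ∀ x, φ x = x → x = 1) (k : ℕ) : k < n →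
    ∀ H : Subgroup K, (∀ x ∈ H, φ x ∈ H) → ds H (2 ^ k - 1) ≤ closure (eigS φ l n (k + 1) H) := by
  have fpf : ∀ {S : Subgroup K} {ψ : S →* S}, (∀ x, φ (S.subtype x) = S.subtype (ψ x)) →
      ∀ x, ψ x = x → x = 1 := by
    intro S ψ hψ x hx
    apply S.subtype_injective
    rw [map_one]
    exact hf _ (by rw [hψ, hx])
  induction k with
  | zero =>
    intro _ H hH
    obtain ⟨ψ, hψ⟩ := exists_restr φ H hH
    obtain ⟨c, hc⟩ := exists_lcs_top H
    have h1 : closure (eigS ψ l n 1 ⊤) = ⊤ := by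
      refine eq_top_of_sup_comm hc ?_
      rw [eq_top_iff]
      intro y _
      obtain ⟨c, hc1, hc2⟩ := decomp hnum (hop.of_inj H.subtype_injective hψ) (Γ := ⊤)
        (N := ⁅⊤, ⊤⁆) (fun _ _ => trivial) (comm_inv (fun _ _ => trivial) fun _ _ => trivial)
        le_top le_rfl (y := y) trivial
      have hle : closure (eigS ψ l n 0 ⊤) ≤ closure (eigS ψ l n 1 ⊤) := by
        rw [closure_le]
        rintro x ⟨-, j, -, h2, e⟩
        rcases Nat.eq_zero_or_pos j with rfl | hj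
        · rw [pow_zero, zpow_one] at e
          rw [fpf hψ x e]
          exact Subgroup.one_mem _
        · exact subset_closure ⟨trivial, j, hj, h2, e⟩
      have := Subgroup.mul_mem _ (Subgroup.mem_sup_right hc2 :
        _ ∈ closure (eigS ψ l n 1 ⊤) ⊔ ⁅⊤, ⊤⁆) (Subgroup.mem_sup_left (hle hc1))
      rwa [inv_mul_cancel_right] at this
    rw [← map_closure_eigS hψ, h1, ← MonoidHom.range_eq_map, Subgroup.range_subtype]
    exact le_rfl
  | succ k ih =>
    intro hk H hH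
    have hpos : 0 < 2 ^ k := Nat.pos_of_ne_zero (by positivity)
    have e1 : 2 ^ (k + 1) - 1 = 2 ^ k + (2 ^ k - 1) := by omega
    rw [e1, ds_add]
    refine (ih (by omega) _ (ds_inv hH _)).trans ?_
    rw [closure_le]
    rintro x ⟨hx, j, h1, h2, e⟩
    rcases h1.eq_or_lt with rfl | hj
    · set L := closure (eigS φ l n (k + 1) H) with hL
      have hLi := closure_eigS_inv φ l n (k + 1) H
      have hx' : x ∈ ⁅L, L⁆ := by
        have e2 : 2 ^ k = (2 ^ k - 1) + 1 := by omega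
        rw [e2] at hx
        exact Subgroup.commutator_mono (ih (by omega) H hH) (ih (by omega) H hH) hx
      obtain ⟨ψ, hψ⟩ := exists_restr φ L hLi
      obtain ⟨c, hc⟩ := exists_lcs_top L
      rw [← Subgroup.map_subtype_commutator] at hx'
      obtain ⟨y, hy, rfl⟩ := hx'
      have h3 := kreknin_a hnum h2 c L ψ (hop.of_inj L.subtype_injective hψ) (fpf hψ)
        (le_bot_iff.1 ((Subgroup.lowerCentralSeries_antitone _ (Nat.le_succ c)).trans hc.le))
        (by
          apply Subgroup.map_injective L.subtype_injective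
          rw [map_closure_eigS hψ, ← MonoidHom.range_eq_map, Subgroup.range_subtype]
          refine le_antisymm (closure_eigS_le _ _ _ _ _) ?_
          rw [hL]
          exact Subgroup.closure_mono fun z hz => ⟨subset_closure hz, hz.2⟩)
        y hy (by
          apply L.subtype_injective
          rw [← hψ, map_zpow]
          exact e)
      have h4 := Subgroup.mem_map_of_mem L.subtype h3
      rw [map_closure_eigS hψ] at h4
      have h5 : eigS φ l n (k + 1 + 1) L ⊆ eigS φ l n (k + 1 + 1) H :=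
        fun z hz => ⟨closure_eigS_le φ l n (k + 1) H hz.1, hz.2⟩
      exact Subgroup.closure_mono h5 h4
    · exact subset_closure ⟨ds_le H _ hx, j, hj, h2, e⟩

theorem kreknin_group [Group.IsNilpotent K] {φ : K →* K} {n m : ℕ} {l : ℤ} (hnum : Num n m l)
    (hop : Op φ n m) (hf : ∀ x, φ x = x → x = 1) : ds (⊤ : Subgroup K) (2 ^ (n - 1) - 1) = ⊥ := by
  have hn := hnum.pos
  have := kreknin_b hnum hop hf (n - 1) (by omega) ⊤ fun _ _ => trivial
  refine le_bot_iff.1 (this.trans ?_)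
  rw [closure_le]
  rintro x ⟨-, j, h1, h2, -⟩
  omega

end Pool.Agent.LawP
end

-- part Pool.Agent.P.MP_ec89a0_al.LP8
section

/-! Transfer from primes congruent to one to all large primes, for bounded class. -/

namespace Pool.Agent.LawP

open Subgroup
open scoped commutatorElement

variable {K : Type} [Group K]

theorem eq_one_of_coprime {x : K} {a b : ℕ} (ha : x ^ a = 1) (hb : x ^ b = 1) (h : a.Coprime b) :
    x = 1 := by
  have := pow_gcd_eq_one.2 ⟨ha, hb⟩
  rwa [h, pow_one] at this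

theorem comm_pow_left {y g : K} (hc : ⁅y, g⁆ ∈ center K) (k : ℕ) : ⁅y ^ k, g⁆ = ⁅y, g⁆ ^ k := by
  induction k with
  | zero => simp
  | succ k ih => rw [pow_succ, comm_mul_left hc, ih, pow_succ]

theorem comm_pow_right {y g : K} (hc : ⁅y, g⁆ ∈ center K) (k : ℕ) : ⁅y, g ^ k⁆ = ⁅y, g⁆ ^ k := by
  induction k with
  | zero => simp
  | succ k ih => rw [pow_succ, comm_mul_right hc, ih, pow_succ]

/-- central elements killed by `m` -/
def cenTor (K : Type) [Group K] (m : ℕ) : Subgroup K where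
  carrier := {z | z ∈ center K ∧ z ^ m = 1}
  one_mem' := ⟨Subgroup.one_mem _, one_pow m⟩
  mul_mem' := fun {a b} ha hb => ⟨Subgroup.mul_mem _ ha.1 hb.1, by
    rw [(show Commute a b from Subgroup.mem_center_iff.1 hb.1 a).mul_pow, ha.2, hb.2, mul_one]⟩
  inv_mem' := fun {a} ha => ⟨Subgroup.inv_mem _ ha.1, by rw [inv_pow, ha.2, inv_one]⟩

theorem lcs_le_center {c : ℕ} (hc : (⊤ : Subgroup K).lowerCentralSeries (c + 1) = ⊥) :
    (⊤ : Subgroup K).lowerCentralSeries c ≤ center K := by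
  intro z hz
  rw [Subgroup.mem_center_iff]
  intro g
  have : ⁅z, g⁆ ∈ (⊥ : Subgroup K) := by
    rw [← hc]; exact Subgroup.commutator_mem_commutator hz trivial
  exact (commutatorElement_eq_one_iff_commute.1 this).symm

theorem exp_of_gen (m c : ℕ) : ∀ (K : Type) [Group K] (s : Set K), closure s = ⊤ →
    (∀ g ∈ s, g ^ m = 1) → (⊤ : Subgroup K).lowerCentralSeries c = ⊥ → ∀ g : K, g ^ m ^ c = 1 := by
  induction c with
  | zero =>
    intro K _ s _ _ hc g
    have : g ∈ (⊥ : Subgroup K) := by rw [← hc]; trivial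
    rw [pow_zero, pow_one]; exact this
  | succ c ih =>
    intro K _ s hs hm hc g
    have hNn := lcs_normal (⊤ : Subgroup K) c
    have hcen := lcs_le_center hc
    have hN : (⊤ : Subgroup K).lowerCentralSeries c ≤ cenTor K m := by
      rcases c with _ | c
      · show ⊤ ≤ _
        rw [← hs, closure_le]
        exact fun g hg => ⟨hcen trivial, hm g hg⟩
      · rw [Subgroup.lowerCentralSeries_succ, Subgroup.commutator_le]
        intro y hy g _
        have hy' : ∀ h : K, ⁅y, h⁆ ∈ center K := fun h =>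
          hcen (Subgroup.commutator_mem_commutator hy trivial)
        have hg : g ∈ closure s := by rw [hs]; trivial
        induction hg using Subgroup.closure_induction with
        | mem x hx => exact ⟨hy' x, by rw [← comm_pow_right (hy' x), hm x hx]; simp⟩
        | one => rw [commutatorElement_one_right]; exact Subgroup.one_mem _
        | mul a b _ _ ha hb =>
          rw [comm_mul_right (hy' b)]; exact Subgroup.mul_mem _ (ha trivial) (hb trivial)
        | inv a _ ha =>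
          have e := comm_mul_right (g := a) (hy' a⁻¹)
          rw [mul_inv_cancel, commutatorElement_one_right, eq_comm, mul_eq_one_iff_inv_eq] at e
          rw [← e]; exact Subgroup.inv_mem _ (ha trivial)
    set N := (⊤ : Subgroup K).lowerCentralSeries c with hNdef
    have hsj := QuotientGroup.mk'_surjective N
    have h1 := ih (K ⧸ N) (QuotientGroup.mk' N '' s)
      (by rw [← MonoidHom.map_closure, hs, Subgroup.map_top_of_surjective _ hsj])
      (by rintro _ ⟨x, hx, rfl⟩; rw [← map_pow, hm x hx, map_one])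
      (by
        rw [← Subgroup.map_top_of_surjective _ hsj, ← Subgroup.map_lowerCentralSeries,
          Subgroup.map_eq_bot_iff, QuotientGroup.ker_mk'])
      (QuotientGroup.mk' N g)
    rw [← map_pow, ← MonoidHom.mem_ker, QuotientGroup.ker_mk'] at h1
    rw [pow_succ, pow_mul]
    exact (hN h1).2

theorem pow_pow_of_le {x : K} {l a b : ℕ} (h : x ^ l ^ a = 1) (hab : a ≤ b) : x ^ l ^ b = 1 := by
  obtain ⟨d, rfl⟩ := Nat.exists_eq_add_of_le hab
  rw [pow_add, pow_mul, h, one_pow]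

theorem exists_unif {s : Set K} (hs : s.Finite) {l : ℕ} (F : K → K)
    (h : ∀ g ∈ s, ∃ a, F g ^ l ^ a = 1) : ∃ a, ∀ g ∈ s, F g ^ l ^ a = 1 := by
  choose! a ha using h
  obtain ⟨B, hB⟩ := (hs.image a).bddAbove
  exact ⟨B, fun g hg => pow_pow_of_le (ha g hg) (hB ⟨g, hg, rfl⟩)⟩

theorem torsion_of_center (l : ℕ) (K : Type) [Group K] [Group.IsNilpotent K] :
    ∀ s : Set K, s.Finite → closure s = ⊤ → (∀ z ∈ center K, ∃ a, z ^ l ^ a = 1) →
      ∀ g : K, ∃ a, g ^ l ^ a = 1 := by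
  refine Group.nilpotent_center_quotient_ind (P := fun K _ _ => ∀ s : Set K, s.Finite →
    closure s = ⊤ → (∀ z ∈ center K, ∃ a, z ^ l ^ a = 1) → ∀ g : K, ∃ a, g ^ l ^ a = 1) K ?_ ?_
  · intro K _ _ _ _ _ _ g
    exact ⟨0, Subsingleton.elim _ _⟩
  · intro K _ _ ih s hfin hs hz g
    have hsj := QuotientGroup.mk'_surjective (center K)
    obtain ⟨a, ha⟩ := ih (QuotientGroup.mk' _ '' s) (hfin.image _)
      (by rw [← MonoidHom.map_closure, hs, Subgroup.map_top_of_surjective _ hsj]) (by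
        intro x hx
        obtain ⟨x, rfl⟩ := hsj x
        have h1 : ∀ h : K, ⁅x, h⁆ ∈ center K := fun h => by
          rw [← QuotientGroup.ker_mk' (center K), MonoidHom.mem_ker, map_commutatorElement]
          exact commutatorElement_eq_one_iff_commute.2
            (Subgroup.mem_center_iff.1 hx _).symm
        obtain ⟨a, ha⟩ := exists_unif hfin (l := l) (fun h => ⁅x, h⁆) fun h _ => hz _ (h1 h)
        refine ⟨a, ?_⟩
        rw [← map_pow, ← MonoidHom.mem_ker, QuotientGroup.ker_mk', Subgroup.mem_center_iff]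
        have h2 : closure s ≤ centralizer {x ^ l ^ a} := by
          rw [closure_le]
          intro h hh
          rw [SetLike.mem_coe, Subgroup.mem_centralizer_singleton_iff]
          have := ha h hh
          rw [← comm_pow_left (h1 h)] at this
          exact (commutatorElement_eq_one_iff_commute.1 this).symm
        intro h
        exact Subgroup.mem_centralizer_singleton_iff.1 (h2 (by rw [hs]; trivial)))
      (QuotientGroup.mk' _ g)
    rw [← map_pow, ← MonoidHom.mem_ker, QuotientGroup.ker_mk'] at ha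
    obtain ⟨b, hb⟩ := hz _ ha
    exact ⟨a + b, by rw [pow_add, pow_mul, hb]⟩

theorem normal_of_le_center {N : Subgroup K} (h : N ≤ center K) : N.Normal :=
  ⟨fun x hx g => by rw [Subgroup.mem_center_iff.1 (h hx) g, mul_inv_cancel_right]; exact hx⟩

theorem resid_central [Group.IsNilpotent K] {l : ℕ} (hl : l.Prime) {s : Set K} (hfin : s.Finite)
    (hs : closure s = ⊤) {z : K} (hz : z ∈ center K) (hinf : ∀ r, 0 < r → z ^ r ≠ 1) :
    ∃ N : Subgroup K, N.Normal ∧ z ∉ N ∧ ∃ a, ∀ g : K, g ^ l ^ a ∈ N := by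
  obtain ⟨M, -, hM⟩ := zorn_le_nonempty₀ {M : Subgroup K | M.Normal ∧ z ^ l ∈ M ∧ z ∉ M} (by
      intro c hc hch y hy
      have hd : DirectedOn (· ≤ ·) c := hch.directedOn
      refine ⟨sSup c, ⟨⟨fun x hx g => ?_⟩, le_sSup hy (hc hy).2.1, ?_⟩, fun _ h => le_sSup h⟩
      · obtain ⟨M, hM, hx⟩ := (Subgroup.mem_sSup_of_directedOn ⟨y, hy⟩ hd).1 hx
        exact le_sSup hM ((hc hM).1.conj_mem x hx g)
      · intro h
        obtain ⟨M, hM, hx⟩ := (Subgroup.mem_sSup_of_directedOn ⟨y, hy⟩ hd).1 h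
        exact (hc hM).2.2 hx) (zpowers (z ^ l)) (by
      refine ⟨normal_of_le_center (Subgroup.zpowers_le.2 (Subgroup.pow_mem _ hz l)),
        Subgroup.mem_zpowers _, ?_⟩
      rintro ⟨k, hk⟩
      have hno : ¬ IsOfFinOrder z := fun h => by
        obtain ⟨r, hr, e⟩ := isOfFinOrder_iff_pow_eq_one.1 h
        exact hinf r hr e
      have h1 : z ^ ((l : ℤ) * k) = z ^ (1 : ℤ) := by
        rw [zpow_mul, zpow_natCast, zpow_one]; exact hk
      have h2 := injective_zpow_iff_not_isOfFinOrder.2 hno h1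
      have h3 : (l : ℤ) ∣ 1 := ⟨k, h2.symm⟩
      exact hl.not_dvd_one (Int.natCast_dvd_natCast.1 h3))
  obtain ⟨hMn, hzl, hzM⟩ := hM.prop
  have hsj := QuotientGroup.mk'_surjective M
  have hz1 : QuotientGroup.mk' M z ≠ 1 := fun e => hzM ((QuotientGroup.eq_one_iff _).1 e)
  have hz2 : QuotientGroup.mk' M z ^ l = 1 := by
    rw [← map_pow]; exact (QuotientGroup.eq_one_iff _).2 hzl
  have mono : ∀ y ∈ center (K ⧸ M), y ≠ 1 → QuotientGroup.mk' M z ∈ zpowers y := by
    intro y hy hy1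
    by_contra hc
    have hn : (zpowers y).Normal := normal_of_le_center (Subgroup.zpowers_le.2 hy)
    have hle : M ≤ (zpowers y).comap (QuotientGroup.mk' M) := fun x hx => by
      rw [Subgroup.mem_comap, show QuotientGroup.mk' M x = 1 from (QuotientGroup.eq_one_iff _).2 hx]
      exact Subgroup.one_mem _
    have h1 := hM.le_of_ge (y := (zpowers y).comap (QuotientGroup.mk' M))
      ⟨hn.comap _, hle hzl, hc⟩ hle
    obtain ⟨y, rfl⟩ := hsj y
    exact hy1 ((QuotientGroup.eq_one_iff _).2 (h1 (Subgroup.mem_zpowers _)))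
  have tor : ∀ y ∈ center (K ⧸ M), ∃ a, y ^ l ^ a = 1 := by
    intro y hy
    by_cases hy1 : y = 1
    · exact ⟨0, by rw [hy1, one_pow]⟩
    obtain ⟨k, hk⟩ := mono y hy hy1
    have hk' : y ^ k = QuotientGroup.mk' M z := hk
    have hk0 : k ≠ 0 := by rintro rfl; exact hz1 (by rw [← hk', zpow_zero])
    have hfo : IsOfFinOrder y := isOfFinOrder_iff_zpow_eq_one.2
      ⟨k * l, mul_ne_zero hk0 (by exact_mod_cast hl.ne_zero), by
        rw [zpow_mul, hk', zpow_natCast, hz2]⟩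
    obtain ⟨a, o, ho, e⟩ := Nat.exists_eq_pow_mul_and_not_dvd hfo.orderOf_pos.ne' l hl.ne_one
    refine ⟨a, ?_⟩
    by_contra hne
    obtain ⟨j, hj⟩ := mono _ (Subgroup.pow_mem _ hy _) hne
    have hj' : (y ^ l ^ a) ^ j = QuotientGroup.mk' M z := hj
    have h1 : (y ^ l ^ a) ^ o = 1 := by rw [← pow_mul, ← e, pow_orderOf_eq_one]
    have h2 : QuotientGroup.mk' M z ^ o = 1 := by
      rw [← hj', ← zpow_natCast, ← zpow_mul, mul_comm, zpow_mul, zpow_natCast, h1, one_zpow]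
    exact hz1 (eq_one_of_coprime hz2 h2 ((Nat.Prime.coprime_iff_not_dvd hl).2 ho))
  have hgen : closure (QuotientGroup.mk' M '' s) = ⊤ := by
    rw [← MonoidHom.map_closure, hs, Subgroup.map_top_of_surjective _ hsj]
  have h1 := torsion_of_center l (K ⧸ M) _ (hfin.image _) hgen tor
  obtain ⟨a, ha⟩ := exists_unif (hfin.image (QuotientGroup.mk' M)) (l := l) id fun g _ => h1 g
  obtain ⟨c, hc⟩ := exists_lcs_top (K ⧸ M)
  refine ⟨M, hMn, hzM, a * c, fun g => ?_⟩
  have := exp_of_gen (l ^ a) c _ _ hgen ha hc (QuotientGroup.mk' M g)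
  rwa [← pow_mul, ← map_pow, ← MonoidHom.mem_ker, QuotientGroup.ker_mk'] at this

theorem resid {l : ℕ} (hl : l.Prime) (K : Type) [Group K] [Group.IsNilpotent K] :
    ∀ s : Set K, s.Finite → closure s = ⊤ → ∀ δ : K, (∀ r, 0 < r → δ ^ r ≠ 1) →
      ∃ N : Subgroup K, N.Normal ∧ δ ∉ N ∧ ∃ a, ∀ g : K, g ^ l ^ a ∈ N := by
  refine Group.nilpotent_center_quotient_ind (P := fun K _ _ => ∀ s : Set K, s.Finite →
    closure s = ⊤ → ∀ δ : K, (∀ r, 0 < r → δ ^ r ≠ 1) →
      ∃ N : Subgroup K, N.Normal ∧ δ ∉ N ∧ ∃ a, ∀ g : K, g ^ l ^ a ∈ N) K ?_ ?_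
  · intro K _ _ _ _ _ δ h
    exact absurd (Subsingleton.elim _ _) (h 1 one_pos)
  · intro K _ _ ih s hfin hs δ hδ
    have hsj := QuotientGroup.mk'_surjective (center K)
    by_cases h : ∀ r, 0 < r → QuotientGroup.mk' (center K) δ ^ r ≠ 1
    · obtain ⟨N, hN, h1, a, ha⟩ := ih (QuotientGroup.mk' _ '' s) (hfin.image _)
        (by rw [← MonoidHom.map_closure, hs, Subgroup.map_top_of_surjective _ hsj]) _ h
      exact ⟨N.comap (QuotientGroup.mk' _), hN.comap _, h1, a, fun g => by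
        rw [Subgroup.mem_comap, map_pow]; exact ha _⟩
    · push Not at h
      obtain ⟨r, hr, e⟩ := h
      rw [← map_pow, ← MonoidHom.mem_ker, QuotientGroup.ker_mk'] at e
      obtain ⟨N, hN, h1, h2⟩ := resid_central hl hfin hs e fun t ht => by
        rw [← pow_mul]; exact hδ _ (Nat.mul_pos hr ht)
      exact ⟨N, hN, fun hm => h1 (N.pow_mem hm r), h2⟩

theorem exists_num {n : ℕ} (hn : 0 < n) : ∃ l : ℕ, l.Prime ∧ ∀ a, ∃ u : ℤ, Num n (l ^ a) u := by
  obtain ⟨l, hl, hlt, hmod⟩ := Nat.exists_prime_gt_modEq_one n hn.ne'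
  have := Fact.mk hl
  refine ⟨l, hl, fun a => ?_⟩
  obtain ⟨g, hg⟩ := IsCyclic.exists_ofOrder_eq_natCard (α := (ZMod l)ˣ)
  rw [Nat.card_eq_fintype_card, ZMod.card_units] at hg
  have hd : n ∣ orderOf g := by
    rw [hg]; exact (Nat.modEq_iff_dvd' hl.one_le).1 hmod.symm
  have ho := orderOf_pow_orderOf_div (orderOf_pos g).ne' hd
  set u := g ^ (orderOf g / n) with hu
  set v : ℤ := ((u : ZMod l).val : ℤ) with hv
  have hvu : (v : ZMod l) = u := by rw [hv, Int.cast_natCast, ZMod.natCast_zmod_val]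
  have hlz : Prime (l : ℤ) := Nat.prime_iff_prime_int.1 hl
  have cop : ∀ z : ℤ, (z : ZMod l) ≠ 0 → IsCoprime z ((l ^ a : ℕ) : ℤ) := by
    intro z hz
    rw [Nat.cast_pow]
    refine IsCoprime.pow_right ((hlz.irreducible.coprime_iff_not_dvd).2 ?_).symm
    rwa [← ZMod.intCast_zmod_eq_zero_iff_dvd]
  refine ⟨v ^ l ^ a, hn, ?_, ?_, ?_⟩
  · have h1 : (l : ℤ) ∣ v ^ n - 1 := by
      rw [← ZMod.intCast_zmod_eq_zero_iff_dvd]
      push_cast
      rw [hvu, ← Units.val_pow_eq_pow_val, ← ho, pow_orderOf_eq_one, Units.val_one, sub_self]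
    have h2 := dvd_sub_pow_of_dvd_sub h1 a
    rw [one_pow, ← pow_mul, mul_comm n, pow_mul] at h2
    rw [Nat.cast_pow]
    exact (pow_dvd_pow _ (Nat.le_succ a)).trans h2
  · intro i hi hin
    apply cop
    push_cast
    rw [ZMod.pow_card_pow, hvu, ← Units.val_pow_eq_pow_val, sub_ne_zero, Ne, Units.val_eq_one]
    exact pow_ne_one_of_lt_orderOf hi.ne' (ho ▸ hin)
  · apply cop
    rw [Int.cast_natCast, Ne, ZMod.natCast_eq_zero_iff]
    exact Nat.not_dvd_of_pos_of_lt hn hlt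

/-- the splitting identity -/
def Spl (φ : K →* K) (n : ℕ) : Prop := ∀ x, ((List.range n).map fun k => φ^[k] x).prod = 1

theorem map_spl {H : Type} [Group H] {φ : K →* K} {ψ : H →* H} {θ : K →* H}
    (hs : ∀ x, ψ (θ x) = θ (φ x)) (n : ℕ) (x : K) :
    θ ((List.range n).map fun k => φ^[k] x).prod =
      ((List.range n).map fun k => ψ^[k] (θ x)).prod := by
  rw [map_list_prod, List.map_map]
  congr 2
  funext k
  exact (semiconj_iter hs k x).symm

theorem Spl.of_surj {H : Type} [Group H] {φ : K →* K} {ψ : H →* H} {n : ℕ} (h : Spl φ n)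
    {θ : K →* H} (hθ : Function.Surjective θ) (hs : ∀ x, ψ (θ x) = θ (φ x)) : Spl ψ n := by
  intro g
  obtain ⟨x, rfl⟩ := hθ g
  rw [← map_spl hs, h x, map_one]

theorem Spl.of_inj {H : Type} [Group H] {φ : K →* K} {ψ : H →* H} {n : ℕ} (h : Spl ψ n)
    {θ : K →* H} (hθ : Function.Injective θ) (hs : ∀ x, ψ (θ x) = θ (φ x)) : Spl φ n := by
  intro g
  apply hθ
  rw [map_spl hs, h, map_one]

theorem Spl.fpf {φ : K →* K} {n m : ℕ} (h : Spl φ n) (hm : ∀ g : K, g ^ m = 1)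
    (hc : n.Coprime m) (x : K) (hx : φ x = x) : x = 1 := by
  have h1 := h x
  have : ((List.range n).map fun k => φ^[k] x) = List.replicate n x := by
    rw [List.eq_replicate_iff]
    refine ⟨by simp, fun y hy => ?_⟩
    obtain ⟨k, -, rfl⟩ := List.mem_map.1 hy
    exact Function.iterate_fixed hx k
  rw [this, List.prod_replicate] at h1
  exact eq_one_of_coprime h1 (hm x) hc

/-- the word of the derived series -/
def dl : ℕ → (ℕ → K) → K
  | 0, f => f 0
  | k + 1, f => ⁅dl k fun i => f (2 * i), dl k fun i => f (2 * i + 1)⁆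

theorem dl_mem {S : Subgroup K} (k : ℕ) : ∀ f : ℕ → K, (∀ i, i < 2 ^ k → f i ∈ S) →
    dl k f ∈ ds S k := by
  induction k with
  | zero => intro f h; exact h 0 one_pos
  | succ k ih =>
    intro f h
    exact Subgroup.commutator_mem_commutator
      (ih _ fun i hi => h _ (by rw [pow_succ]; omega))
      (ih _ fun i hi => h _ (by rw [pow_succ]; omega))

theorem map_dl {H : Type} [Group H] (θ : K →* H) (k : ℕ) : ∀ f : ℕ → K,
    θ (dl k f) = dl k fun i => θ (f i) := by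
  induction k with
  | zero => intro f; rfl
  | succ k ih => intro f; show θ ⁅_, _⁆ = ⁅_, _⁆; rw [map_commutatorElement, ih, ih]

theorem dl_congr (k : ℕ) : ∀ f g : ℕ → K, (∀ i, i < 2 ^ k → f i = g i) → dl k f = dl k g := by
  induction k with
  | zero => intro f g h; exact h 0 one_pos
  | succ k ih =>
    intro f g h
    show ⁅dl k _, dl k _⁆ = ⁅dl k _, dl k _⁆
    rw [ih _ (fun i => g (2 * i)) fun i hi => h _ (by rw [pow_succ]; omega),
      ih (fun i => f (2 * i + 1)) (fun i => g (2 * i + 1))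
        fun i hi => h _ (by rw [pow_succ]; omega)]

/-- orbits of the first `t` members of a sequence -/
def orb (φ : K →* K) (n t : ℕ) (f : ℕ → K) : Set K := {x | ∃ j < n, ∃ i < t, φ^[j] (f i) = x}

theorem orb_finite (φ : K →* K) (n t : ℕ) (f : ℕ → K) : (orb φ n t f).Finite := by
  refine (((Set.finite_lt_nat n).prod (Set.finite_lt_nat t)).image
    fun p : ℕ × ℕ => φ^[p.1] (f p.2)).subset ?_
  rintro _ ⟨j, hj, i, hi, rfl⟩
  exact ⟨(j, i), ⟨hj, hi⟩, rfl⟩

theorem orb_inv {φ : K →* K} {n : ℕ} (h : ∀ x, φ^[n] x = x) (t : ℕ) (f : ℕ → K) :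
    ∀ x ∈ closure (orb φ n t f), φ x ∈ closure (orb φ n t f) := by
  refine closure_inv ?_
  rintro _ ⟨j, hj, i, hi, rfl⟩
  apply Subgroup.subset_closure
  rw [← Function.iterate_succ_apply' φ]
  rcases Nat.lt_or_eq_of_le (Nat.succ_le_of_lt hj) with h1 | h1
  · exact ⟨j + 1, h1, i, hi, rfl⟩
  · exact ⟨0, by omega, i, hi, by rw [h1, h]; rfl⟩

theorem fg_torsion [Group.IsNilpotent K] {φ : K →* K} {n : ℕ} (hn : 0 < n)
    (hord : ∀ x, φ^[n] x = x) (hspl : Spl φ n) {s : Set K} (hfin : s.Finite)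
    (hs : closure s = ⊤) {δ : K} (hδ : δ ∈ ds (⊤ : Subgroup K) (2 ^ (n - 1) - 1)) :
    ∃ r, 0 < r ∧ δ ^ r = 1 := by
  by_contra hc
  push Not at hc
  obtain ⟨l, hl, hnum⟩ := exists_num hn
  obtain ⟨N, hN, h1, a, ha⟩ := resid hl K s hfin hs δ hc
  obtain ⟨u, hu⟩ := hnum a
  let N' : Subgroup K :=
    { carrier := {x | ∀ i, φ^[i] x ∈ N}
      one_mem' := fun i => by rw [iterate_map_one]; exact N.one_mem
      mul_mem' := fun ha hb i => by rw [iterate_map_mul]; exact N.mul_mem (ha i) (hb i)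
      inv_mem' := fun ha i => by rw [iterate_map_inv]; exact N.inv_mem (ha i) }
  have hN' : N'.Normal := ⟨fun x hx g i => by
    rw [iterate_map_mul, iterate_map_mul, iterate_map_inv]; exact hN.conj_mem _ (hx i) _⟩
  have hi : ∀ x ∈ N', φ x ∈ N' := fun x hx i => hx (i + 1)
  obtain ⟨ψ, hψ⟩ := exists_quot φ N' hi
  have hsj := QuotientGroup.mk'_surjective N'
  have hop : Op ψ n (l ^ a) := by
    constructor
    · intro g
      obtain ⟨g, rfl⟩ := hsj g
      rw [← map_pow]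
      exact (QuotientGroup.eq_one_iff _).2 fun i => by rw [iterate_map_pow]; exact ha _
    · intro g
      obtain ⟨g, rfl⟩ := hsj g
      rw [semiconj_iter hψ, hord]
  have h2 := kreknin_group hu hop ((hspl.of_surj hsj hψ).fpf hop.exp
    (Nat.isCoprime_iff_coprime.1 hu.cop))
  have h3 := Subgroup.mem_map_of_mem (QuotientGroup.mk' N') hδ
  rw [map_ds, Subgroup.map_top_of_surjective _ hsj, h2, Subgroup.mem_bot] at h3
  exact h1 (((QuotientGroup.eq_one_iff _).1 h3 : δ ∈ N') 0)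

theorem transfer {n : ℕ} (hn : 0 < n) (c : ℕ) : ∃ R : ℕ, R ≠ 0 ∧
    ∀ (H : Type) [Group H] (φ : H →* H) (q : ℕ), Op φ n q → q.Coprime R → Spl φ n →
      (⊤ : Subgroup H).lowerCentralSeries c = ⊥ → ∀ f : ℕ → H, dl (2 ^ (n - 1) - 1) f = 1 := by
  by_contra hc
  have hc' : ∀ r : ℕ, ∃ (H : Type) (_ : Group H) (φ : H →* H) (q : ℕ), Op φ n q ∧
      q.Coprime (r + 1).factorial ∧ Spl φ n ∧ (⊤ : Subgroup H).lowerCentralSeries c = ⊥ ∧
      ∃ f : ℕ → H, dl (2 ^ (n - 1) - 1) f ≠ 1 := by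
    intro r
    by_contra h
    refine hc ⟨(r + 1).factorial, Nat.factorial_ne_zero _, fun H _ φ q h1 h2 h3 h4 f => ?_⟩
    by_contra h5
    exact h ⟨H, _, φ, q, h1, h2, h3, h4, f, h5⟩
  choose H inst φ q hop hcop hspl hlcs f hf using hc'
  set k := 2 ^ (n - 1) - 1 with hk
  let Φ : (∀ r, H r) →* (∀ r, H r) := MonoidHom.pi fun r => (φ r).comp (Pi.evalMonoidHom H r)
  have hΦ : ∀ r x, φ r (Pi.evalMonoidHom H r x) = Pi.evalMonoidHom H r (Φ x) := fun _ _ => rfl
  have hord : ∀ x, Φ^[n] x = x := fun x => funext fun r =>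
    (semiconj_iter (hΦ r) n x).symm.trans ((hop r).ord _)
  have hsp : Spl Φ n := fun x => funext fun r => (map_spl (hΦ r) n x).trans (hspl r _)
  have hl : (⊤ : Subgroup (∀ r, H r)).lowerCentralSeries c = ⊥ := by
    rw [Subgroup.eq_bot_iff_forall]
    intro x hx
    funext r
    have := Subgroup.mem_map_of_mem (Pi.evalMonoidHom H r) hx
    rw [Subgroup.map_lowerCentralSeries] at this
    exact (hlcs r).le (Subgroup.lowerCentralSeries_mono c le_top this)
  have : Group.IsNilpotent (∀ r, H r) := Subgroup.nilpotent_iff_lowerCentralSeries.2 ⟨c, hl⟩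
  let F : ℕ → ∀ r, H r := fun i r => f r i
  set Γ := closure (orb Φ n (2 ^ k) F) with hΓ
  obtain ⟨ψ, hψ⟩ := exists_restr Φ Γ (orb_inv hord _ F)
  have h1 : dl k F ∈ ds Γ k := dl_mem k F fun i hi => subset_closure ⟨0, hn, i, hi, rfl⟩
  have h2 : ds Γ k = (ds (⊤ : Subgroup Γ) k).map Γ.subtype := by
    rw [map_ds, ← MonoidHom.range_eq_map, Subgroup.range_subtype]
  rw [h2] at h1
  obtain ⟨δ, hδ, e⟩ := h1
  obtain ⟨r, hr, h3⟩ := fg_torsion hn
    (fun x => Γ.subtype_injective (by rw [← semiconj_iter hψ, hord]))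
    (hsp.of_inj Γ.subtype_injective hψ)
    ((orb_finite Φ n (2 ^ k) F).preimage Subtype.val_injective.injOn)
    Subgroup.closure_closure_coe_preimage hδ
  have h4 := congrArg (fun x => Pi.evalMonoidHom H r (Γ.subtype x)) h3
  simp only [map_pow, map_one] at h4
  rw [e, map_dl] at h4
  refine hf r (eq_one_of_coprime h4 ((hop r).exp _) ?_)
  exact ((hcop r).coprime_dvd_right (Nat.dvd_factorial hr (Nat.le_succ r))).symm

end Pool.Agent.LawP
end

-- part Pool.Agent.P.MP_ec89a0_al.LP9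
section

/-! Rings generated by nil elements whose Lie algebra is nilpotent. -/

namespace Pool.Agent.LawP

open Polynomial
open scoped commutatorElement

section LieG

variable {R : Type} [Ring R] {ι : Type}

/-- left normed ring commutators -/
def cm (a : ι → R) (i₀ : ι) : List ι → R
  | [] => a i₀
  | i :: L => cm a i₀ L * a i - a i * cm a i₀ L

theorem map_cm {S : Type} [Ring S] (θ : R →+* S) (a : ι → R) (i₀ : ι) (L : List ι) :
    θ (cm a i₀ L) = cm (fun i => θ (a i)) i₀ L := by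
  induction L with
  | nil => rfl
  | cons i L ih => simp only [cm, map_sub, map_mul, ih]

theorem commute_cm {a : ι → R} {z : R} (h : ∀ i, Commute z (a i)) (i₀ : ι) (L : List ι) :
    Commute z (cm a i₀ L) := by
  induction L with
  | nil => exact h i₀
  | cons i L ih => exact (ih.mul_right (h i)).sub_right ((h i).mul_right ih)

/-- all products of `M` members of the family vanish -/
def NilP (a : ι → R) (M : ℕ) : Prop := ∀ L : List ι, L.length = M → (L.map a).prod = 0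

theorem central_nil {y a z : R} {m : ℕ} (hz : z = y * a - a * y) (h1 : Commute z a)
    (h2 : Commute z y) (ha : a ^ m = 0) (hu : IsUnit ((m.factorial : ℕ) : R)) : z ^ m = 0 := by
  have der : ∀ k : ℕ, y * a ^ (k + 1) - a ^ (k + 1) * y = ((k + 1 : ℕ) : R) * (z * a ^ k) := by
    intro k
    induction k with
    | zero => simp [hz]
    | succ k ih =>
      have e : y * a ^ (k + 1 + 1) - a ^ (k + 1 + 1) * y =
          (y * a ^ (k + 1) - a ^ (k + 1) * y) * a + a ^ (k + 1) * z := by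
        rw [hz, pow_succ a (k + 1)]; noncomm_ring
      rw [e, ih, ← (h1.pow_right (k + 1)).eq, pow_succ a k]
      push_cast
      noncomm_ring
  have key : ∀ j, j ≤ m → ((m.descFactorial j : ℕ) : R) * (z ^ j * a ^ (m - j)) = 0 := by
    intro j
    induction j with
    | zero => intro _; simp [ha]
    | succ j ih =>
      intro hj
      have h0 := ih (by omega)
      obtain ⟨k, hk⟩ : ∃ k, m - j = k + 1 := ⟨m - j - 1, by omega⟩
      have hk' : m - (j + 1) = k := by omega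
      rw [hk] at h0
      have e : y * (((m.descFactorial j : ℕ) : R) * (z ^ j * a ^ (k + 1))) -
          ((m.descFactorial j : ℕ) : R) * (z ^ j * a ^ (k + 1)) * y =
          ((m.descFactorial j : ℕ) : R) * (z ^ j * (y * a ^ (k + 1) - a ^ (k + 1) * y)) := by
        rw [← mul_assoc y, ← (Nat.cast_commute _ y).eq, mul_assoc, ← mul_assoc y,
          ← (h2.pow_left j).eq]
        noncomm_ring
      rw [h0, der, mul_zero, zero_mul, sub_zero] at e
      rw [Nat.descFactorial_succ, hk, hk', mul_comm (k + 1), Nat.cast_mul, mul_assoc, e,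
        ← mul_assoc (z ^ j), ← (Nat.cast_commute (k + 1) (z ^ j)).eq, pow_succ]
      noncomm_ring
  have := key m le_rfl
  rw [Nat.descFactorial_self, Nat.sub_self, pow_zero, mul_one] at this
  exact hu.mul_right_eq_zero.1 this

theorem nilP_of_quot {a : ι → R} {z : R} {m M : ℕ} (hc : ∀ r, Commute z r) (hz : z ^ m = 0)
    (h : ∀ L : List ι, L.length = M → ∃ r, (L.map a).prod = r * z) : NilP a (M * m) := by
  have key : ∀ j, ∀ L : List ι, L.length = M * j → ∃ r, (L.map a).prod = r * z ^ j := by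
    intro j
    induction j with
    | zero => intro L _; exact ⟨_, by rw [pow_zero, mul_one]⟩
    | succ j ih =>
      intro L hL
      obtain ⟨r, hr⟩ := h (L.take M) (by rw [List.length_take, hL, Nat.mul_succ]; omega)
      obtain ⟨s, hs⟩ := ih (L.drop M) (by rw [List.length_drop, hL, Nat.mul_succ]; omega)
      refine ⟨r * s, ?_⟩
      rw [← List.take_append_drop M L, List.map_append, List.prod_append, hr, hs, pow_succ',
        mul_assoc r z, ← mul_assoc z, (hc s).eq]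
      noncomm_ring
  intro L hL
  obtain ⟨r, hr⟩ := key m L hL
  rw [hr, hz, mul_zero]

theorem nilP_of_list (m M k : ℕ) : ∀ (R : Type) [Ring R] (a : ι → R) (zs : List R),
    zs.length = k → (∀ z ∈ zs, (∀ r, Commute z r) ∧ z ^ m = 0) →
    (∀ (S : Type) [Ring S] (θ : R →+* S), (∀ z ∈ zs, θ z = 0) → NilP (fun i => θ (a i)) M) →
    NilP a (M * m ^ k) := by
  induction k with
  | zero =>
    intro R _ a zs hk _ h
    obtain rfl := List.length_eq_zero_iff.1 hk
    simpa using h R (RingHom.id R) (by simp)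
  | succ k ih =>
    intro R _ a zs hk hz h
    obtain ⟨z, zs, rfl⟩ := List.exists_cons_of_length_eq_add_one hk
    obtain ⟨hc, hm⟩ := hz z List.mem_cons_self
    let I : Ideal R := Ideal.span {z}
    have hI : I.IsTwoSided := ⟨fun {x} b hx => by
      obtain ⟨r, rfl⟩ := Ideal.mem_span_singleton'.1 hx
      exact Ideal.mem_span_singleton'.2 ⟨r * b, by rw [mul_assoc, mul_assoc, (hc b).eq]⟩⟩
    have h1 := ih (R ⧸ I) (fun i => Ideal.Quotient.mk I (a i)) (zs.map (Ideal.Quotient.mk I))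
      (by simpa using hk) (by
        intro y hy
        obtain ⟨y, hy', rfl⟩ := List.mem_map.1 hy
        obtain ⟨h1, h2⟩ := hz y (List.mem_cons_of_mem _ hy')
        refine ⟨fun r => ?_, by rw [← map_pow, h2, map_zero]⟩
        obtain ⟨r, rfl⟩ := Ideal.Quotient.mk_surjective r
        exact (h1 r).map _) (by
        intro S _ θ hθ
        refine h S (θ.comp (Ideal.Quotient.mk I)) fun y hy => ?_
        rcases List.mem_cons.1 hy with rfl | hy
        · rw [RingHom.comp_apply,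
            Ideal.Quotient.eq_zero_iff_mem.2 (Ideal.mem_span_singleton_self _), map_zero]
        · exact hθ _ (List.mem_map_of_mem hy))
    rw [pow_succ, ← mul_assoc]
    refine nilP_of_quot hc hm fun L hL => ?_
    have h2 := h1 L hL
    have h3 : Ideal.Quotient.mk I (L.map a).prod = 0 := by
      rw [map_list_prod, List.map_map]; exact h2
    obtain ⟨r, hr⟩ := Ideal.mem_span_singleton'.1 (Ideal.Quotient.eq_zero_iff_mem.1 h3)
    exact ⟨r, hr.symm⟩

theorem lie_g (ι : Type) [Fintype ι] (m c : ℕ) : ∃ M : ℕ, ∀ (R : Type) [Ring R] (a : ι → R),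
    IsUnit ((m.factorial : ℕ) : R) → (∀ i, a i ^ m = 0) →
    (∀ i₀ L, L.length = c → cm a i₀ L = 0) → NilP a M := by
  classical
  induction c with
  | zero =>
    refine ⟨1, fun R _ a _ _ h L hL => ?_⟩
    obtain ⟨i, rfl⟩ := List.length_eq_one_iff.1 hL
    simpa [cm] using h i [] rfl
  | succ c ih =>
    obtain ⟨M, hM⟩ := ih
    refine ⟨M * m ^ Fintype.card (ι × List.Vector ι c), fun R _ a hu ha hc => ?_⟩
    have hza : ∀ i₀ L, L.length = c → ∀ i, Commute (cm a i₀ L) (a i) := fun i₀ L hL i =>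
      sub_eq_zero.1 (hc i₀ (i :: L) (by simp [hL]))
    have hzm : ∀ i₀ L, L.length = c → cm a i₀ L ^ m = 0 := by
      intro i₀ L hL
      rcases L with _ | ⟨i, L⟩
      · exact ha i₀
      · exact central_nil rfl (hza i₀ _ hL i) (commute_cm (hza i₀ _ hL) i₀ L) (ha i) hu
    let R' : Subring R := Subring.centralizer {z | ∃ i₀ L, L.length = c ∧ cm a i₀ L = z}
    let a' : ι → R' := fun i => ⟨a i, by
      rw [Subring.mem_centralizer_iff]
      rintro _ ⟨i₀, L, hL, rfl⟩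
      exact (hza i₀ L hL i).eq⟩
    have hval : ∀ i₀ L, R'.subtype (cm a' i₀ L) = cm a i₀ L := fun i₀ L => map_cm _ _ _ _
    have hu' : IsUnit ((m.factorial : ℕ) : R') := by
      obtain ⟨u, hu⟩ := hu
      have hinv : ((u⁻¹ : Rˣ) : R) ∈ R' := by
        rw [Subring.mem_centralizer_iff]
        intro z _
        exact (Commute.units_inv_right (hu ▸ Nat.commute_cast z _)).eq
      refine ⟨⟨(m.factorial : ℕ), ⟨_, hinv⟩, Subtype.ext ?_, Subtype.ext ?_⟩, rfl⟩
      · push_cast; rw [← hu]; exact u.mul_inv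
      · push_cast; rw [← hu]; exact u.inv_mul
    have h1 := nilP_of_list m M _ R' a'
      ((Finset.univ : Finset (ι × List.Vector ι c)).toList.map fun p => cm a' p.1 p.2.1)
      (by simp only [List.length_map, Finset.length_toList]; rfl) (by
        intro z hz
        obtain ⟨p, -, rfl⟩ := List.mem_map.1 hz
        refine ⟨fun r => Subtype.ext ?_, Subtype.ext ?_⟩
        · exact (Subring.mem_centralizer_iff.1 r.2) _ ⟨p.1, p.2.1, p.2.2, (hval _ _).symm⟩
        · have := hzm p.1 p.2.1 p.2.2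
          rw [← hval, ← map_pow] at this
          exact this) (by
        intro S _ θ hθ
        refine hM S _ (by simpa using hu'.map θ) (fun i => ?_) fun i₀ L hL => ?_
        · rw [← map_pow, show a' i ^ m = 0 from Subtype.ext (ha i), map_zero]
        · rw [← map_cm]
          exact hθ _ (List.mem_map.2 ⟨(i₀, ⟨L, hL⟩), by simp, rfl⟩))
    intro L hL
    have h2 := congrArg R'.subtype (h1 L hL)
    rw [map_list_prod, List.map_map, map_zero] at h2
    exact h2

end LieG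

section Graded

variable {R : Type} [Ring R] {ι : Type}

theorem cm_monomial (a : ι → R) (i₀ : ι) (L : List ι) :
    cm (fun i => monomial 1 (a i)) i₀ L = monomial (L.length + 1) (cm a i₀ L) := by
  induction L with
  | nil => rfl
  | cons i L ih =>
    simp only [cm, ih, monomial_mul_monomial, List.length_cons, map_sub]
    rw [add_comm 1 (L.length + 1)]

theorem prod_monomial (a : ι → R) (L : List ι) :
    (L.map fun i => monomial 1 (a i)).prod = monomial L.length (L.map a).prod := by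
  induction L with
  | nil => simp
  | cons i L ih =>
    simp only [List.map_cons, List.prod_cons, ih, monomial_mul_monomial, List.length_cons]
    rw [add_comm]

/-- the filtered form of `lie_g` -/
theorem lie_g_filtered (ι : Type) [Fintype ι] (m c : ℕ) : ∃ M : ℕ, ∀ (R : Type) [Ring R]
    (F : ℕ → AddSubgroup R), (1 : R) ∈ F 0 →
    (∀ i j, ∀ x ∈ F i, ∀ y ∈ F j, x * y ∈ F (i + j)) → ∀ (q : ℕ), (q : R) = 0 →
    q.Coprime m.factorial → ∀ a : ι → R, (∀ i, a i ∈ F 1) → (∀ i, a i ^ m ∈ F (m + 1)) →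
    (∀ i₀ L, L.length = c → cm a i₀ L ∈ F (c + 2)) →
    ∀ L : List ι, L.length = M → (L.map a).prod ∈ F (M + 1) := by
  obtain ⟨M, hM⟩ := lie_g ι m c
  refine ⟨M, fun R _ F h1 hmul q hq hcop a ha ham hcm L hL => ?_⟩
  let S : Subring R[X] :=
    { carrier := {f | ∀ i, f.coeff i ∈ F i}
      mul_mem' := fun {f g} hf hg i => by
        rw [coeff_mul]
        refine (F i).sum_mem fun p hp => ?_
        rw [← Finset.HasAntidiagonal.mem_antidiagonal.1 hp]
        exact hmul _ _ _ (hf _) _ (hg _)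
      one_mem' := fun i => by
        rw [coeff_one]
        split_ifs with h
        · rw [h]; exact h1
        · exact (F i).zero_mem
      add_mem' := fun hf hg i => by rw [coeff_add]; exact (F i).add_mem (hf i) (hg i)
      zero_mem' := fun i => (F i).zero_mem
      neg_mem' := fun hf i => by rw [coeff_neg]; exact (F i).neg_mem (hf i) }
  let J : Ideal S :=
    { carrier := {f | ∀ i, f.1.coeff i ∈ F (i + 1)}
      add_mem' := fun {f g} hf hg i => by
        show (f.1 + g.1).coeff i ∈ _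
        rw [coeff_add]; exact (F _).add_mem (hf i) (hg i)
      zero_mem' := fun i => (F _).zero_mem
      smul_mem' := fun f g hg i => by
        show (f.1 * g.1).coeff i ∈ _
        rw [coeff_mul]
        refine (F _).sum_mem fun p hp => ?_
        rw [← Finset.HasAntidiagonal.mem_antidiagonal.1 hp, add_assoc]
        exact hmul _ _ _ (f.2 _) _ (hg _) }
  have hJ : J.IsTwoSided := ⟨fun {f} g hf i => by
    show (f.1 * g.1).coeff i ∈ _
    rw [coeff_mul]
    refine (F _).sum_mem fun p hp => ?_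
    rw [← Finset.HasAntidiagonal.mem_antidiagonal.1 hp, add_right_comm]
    exact hmul _ _ _ (hf _) _ (g.2 _)⟩
  have mono : ∀ (k d : ℕ) (r : R), r ∈ F (k + d) → ∀ i, (monomial k r).coeff i ∈ F (i + d) := by
    intro k d r hr i
    rw [coeff_monomial]
    split_ifs with h
    · rw [← h]; exact hr
    · exact (F _).zero_mem
  let a' : ι → S := fun i => ⟨monomial 1 (a i), mono 1 0 _ (ha i)⟩
  have hq' : (q : S ⧸ J) = 0 := by
    have : (q : S) = 0 := Subtype.ext (by
      push_cast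
      rw [← map_natCast C q, hq, map_zero])
    rw [← map_natCast (Ideal.Quotient.mk J) q, this, map_zero]
  have h2 := hM (S ⧸ J) (fun i => Ideal.Quotient.mk J (a' i))
    (by
      have := isUnit_intCast hq' (Nat.isCoprime_iff_coprime.2 hcop.symm)
      rwa [Int.cast_natCast] at this)
    (fun i => by
      rw [← map_pow, Ideal.Quotient.eq_zero_iff_mem]
      show ∀ k, ((monomial 1 (a i)) ^ m).coeff k ∈ F (k + 1)
      rw [monomial_pow, one_mul]
      exact mono m 1 _ (ham i))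
    (fun i₀ L hL => by
      rw [← map_cm, Ideal.Quotient.eq_zero_iff_mem]
      show ∀ k, (S.subtype (cm a' i₀ L)).coeff k ∈ F (k + 1)
      rw [map_cm]
      show ∀ k, (cm (fun i => monomial 1 (a i)) i₀ L).coeff k ∈ F (k + 1)
      rw [cm_monomial, hL]
      exact mono (c + 1) 1 _ (hcm i₀ L hL)) L hL
  have h3 : Ideal.Quotient.mk J (L.map a').prod = 0 := by
    rw [map_list_prod, List.map_map]; exact h2
  have h4 : ∀ k, (S.subtype (L.map a').prod).coeff k ∈ F (k + 1) :=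
    Ideal.Quotient.eq_zero_iff_mem.1 h3
  have h5 := h4 M
  rw [map_list_prod, List.map_map] at h5
  have e : (S.subtype ∘ a') = fun i => monomial 1 (a i) := rfl
  rwa [e, prod_monomial, hL, coeff_monomial_same] at h5

end Graded

section Aug

variable {O : Type} [CommRing O] {R : Type} [Ring R] [Algebra O R] {K : Type} [Group K]

variable (O) in
/-- the augmentation ideal of the image of `J` -/
def aug (ρ : K →* R) (J : Subgroup K) : Submodule O R :=
  Submodule.span O {r | ∃ g ∈ J, ρ g - 1 = r}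

variable {ρ : K →* R} {J : Subgroup K}

theorem mem_aug {g : K} (hg : g ∈ J) : ρ g - 1 ∈ aug O ρ J := Submodule.subset_span ⟨g, hg, rfl⟩

theorem aug_mul_le : aug O ρ J * aug O ρ J ≤ aug O ρ J := by
  unfold aug
  rw [Submodule.span_mul_span, Submodule.span_le]
  rintro _ ⟨_, ⟨g, hg, rfl⟩, _, ⟨h, hh, rfl⟩, rfl⟩
  have e : (ρ g - 1) * (ρ h - 1) = (ρ (g * h) - 1) - (ρ g - 1) - (ρ h - 1) := by
    rw [map_mul]; noncomm_ring
  show (ρ g - 1) * (ρ h - 1) ∈ aug O ρ J
  rw [e]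
  exact sub_mem (sub_mem (mem_aug (J.mul_mem hg hh)) (mem_aug hg)) (mem_aug hh)

theorem aug_pow_succ_le (k : ℕ) : aug O ρ J ^ (k + 2) ≤ aug O ρ J ^ (k + 1) := by
  rw [pow_succ, pow_succ, mul_assoc]
  exact mul_le_mul_right aug_mul_le _

theorem aug_pow_le {k l : ℕ} (h : k ≤ l) : aug O ρ J ^ (l + 1) ≤ aug O ρ J ^ (k + 1) := by
  induction h with
  | refl => exact le_rfl
  | step _ ih => exact (aug_pow_succ_le _).trans ih

theorem mul_aug {k : ℕ} {x y : R} (hx : x ∈ aug O ρ J ^ k) (hy : y ∈ aug O ρ J) :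
    x * y ∈ aug O ρ J ^ (k + 1) := by
  rw [pow_succ]; exact Submodule.mul_mem_mul hx hy

theorem aug_mul {k : ℕ} {x y : R} (hx : x ∈ aug O ρ J ^ k) (hy : y ∈ aug O ρ J) :
    y * x ∈ aug O ρ J ^ (k + 1) := by
  rw [pow_succ']; exact Submodule.mul_mem_mul hy hx

theorem mul_rho {k : ℕ} {x : R} (hx : x ∈ aug O ρ J ^ (k + 1)) {g : K} (hg : g ∈ J) :
    x * ρ g ∈ aug O ρ J ^ (k + 1) := by
  have e : x * ρ g = x + x * (ρ g - 1) := by noncomm_ring
  rw [e]
  exact add_mem hx (aug_pow_succ_le k (mul_aug hx (mem_aug hg)))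

theorem comm_formula (g h : K) :
    (ρ g - 1) * (ρ h - 1) - (ρ h - 1) * (ρ g - 1) = (ρ ⁅g, h⁆ - 1) * ρ (h * g) := by
  rw [sub_mul (ρ ⁅g, h⁆), ← map_mul, show ⁅g, h⁆ * (h * g) = g * h by
    rw [commutatorElement_def]; group, map_mul, map_mul]
  noncomm_ring

theorem lcs_aug (k : ℕ) : ∀ g ∈ J.lowerCentralSeries k, ρ g - 1 ∈ aug O ρ J ^ (k + 1) := by
  induction k with
  | zero => intro g hg; rw [zero_add, pow_one]; exact mem_aug hg
  | succ k ih =>
    intro g hg
    have hle := J.lowerCentralSeries_le_self (k + 1)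
    rw [Subgroup.lowerCentralSeries_succ, Subgroup.commutator_def] at hg hle
    induction hg using Subgroup.closure_induction with
    | mem y hy =>
      obtain ⟨u, hu, v, hv, rfl⟩ := hy
      have hu' := J.lowerCentralSeries_le_self k hu
      have e : ρ ⁅u, v⁆ - 1 = ((ρ u - 1) * (ρ v - 1) - (ρ v - 1) * (ρ u - 1)) * ρ (v * u)⁻¹ := by
        rw [comm_formula, mul_assoc, ← map_mul, mul_inv_cancel, map_one, mul_one]
      rw [e]
      exact mul_rho (sub_mem (mul_aug (ih u hu) (mem_aug hv)) (aug_mul (ih u hu) (mem_aug hv)))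
        (J.inv_mem (J.mul_mem hv hu'))
    | one => rw [map_one, sub_self]; exact zero_mem _
    | mul u v _ hv iu iv =>
      have e : ρ (u * v) - 1 = (ρ u - 1) * ρ v + (ρ v - 1) := by rw [map_mul]; noncomm_ring
      rw [e]
      exact add_mem (mul_rho iu (hle hv)) iv
    | inv u hu iu =>
      have e : ρ u⁻¹ - 1 = -((ρ u - 1) * ρ u⁻¹) := by
        rw [sub_mul, ← map_mul, mul_inv_cancel, map_one, one_mul, neg_sub]
      rw [e]
      exact neg_mem (mul_rho iu (J.inv_mem (hle hu)))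

theorem cm_mem {ι : Type} {a : ι → R} (ha : ∀ i, a i ∈ aug O ρ J) (i₀ : ι) (L : List ι) :
    cm a i₀ L ∈ aug O ρ (J.lowerCentralSeries L.length) ⊔ aug O ρ J ^ (L.length + 2) := by
  induction L with
  | nil => exact Submodule.mem_sup_left (ha i₀)
  | cons i L ih =>
    obtain ⟨y, hy, z, hz, e⟩ := Submodule.mem_sup.1 ih
    have e2 : cm a i₀ (i :: L) = (y * a i - a i * y) + (z * a i - a i * z) := by
      show cm a i₀ L * a i - a i * cm a i₀ L = _
      rw [← e]; noncomm_ring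
    rw [e2, List.length_cons]
    refine add_mem ?_ (Submodule.mem_sup_right (sub_mem (mul_aug hz (ha i)) (aug_mul hz (ha i))))
    have hb := ha i
    generalize a i = b at hb
    clear e e2 ih
    induction hy using Submodule.span_induction with
    | zero => simp
    | add u v _ _ iu iv =>
      have : (u + v) * b - b * (u + v) = (u * b - b * u) + (v * b - b * v) := by noncomm_ring
      rw [this]; exact add_mem iu iv
    | smul s u _ iu =>
      rw [smul_mul_assoc, mul_smul_comm, ← smul_sub]; exact Submodule.smul_mem _ s iu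
    | mem u hu =>
      obtain ⟨g, hg, rfl⟩ := hu
      induction hb using Submodule.span_induction with
      | zero => simp
      | add u v _ _ iu iv =>
        have : (ρ g - 1) * (u + v) - (u + v) * (ρ g - 1) =
            ((ρ g - 1) * u - u * (ρ g - 1)) + ((ρ g - 1) * v - v * (ρ g - 1)) := by noncomm_ring
        rw [this]; exact add_mem iu iv
      | smul s u _ iu =>
        rw [smul_mul_assoc, mul_smul_comm, ← smul_sub]; exact Submodule.smul_mem _ s iu
      | mem u hu =>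
        obtain ⟨h, hh, rfl⟩ := hu
        have hm : ⁅g, h⁆ ∈ J.lowerCentralSeries (L.length + 1) :=
          Subgroup.commutator_mem_commutator hg hh
        have e : (ρ ⁅g, h⁆ - 1) * ρ (h * g) =
            (ρ ⁅g, h⁆ - 1) + (ρ ⁅g, h⁆ - 1) * (ρ (h * g) - 1) := by noncomm_ring
        rw [comm_formula, e]
        exact add_mem (Submodule.mem_sup_left (mem_aug hm)) (Submodule.mem_sup_right
          (mul_aug (lcs_aug _ _ hm)
            (mem_aug (J.mul_mem hh (J.lowerCentralSeries_le_self _ hg)))))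

/-- nil generators modulo higher terms and bounded class give a nilpotent augmentation ideal -/
theorem aug_nilpotent (ι : Type) [Fintype ι] (m c : ℕ) : ∃ M : ℕ, ∀ (O : Type) [CommRing O]
    (R : Type) [Ring R] [Algebra O R] (K : Type) [Group K] (ρ : K →* R) (J : Subgroup K) (q : ℕ),
    (q : R) = 0 → q.Coprime m.factorial → (∃ N, aug O ρ J ^ N = ⊥) →
    (∀ g ∈ J.lowerCentralSeries c, ρ g = 1) → ∀ a : ι → R, (∀ i, a i ∈ aug O ρ J) →
    (∀ i, a i ^ m ∈ aug O ρ J ^ (m + 1)) →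
    aug O ρ J ≤ Submodule.span O (Set.range a) ⊔ aug O ρ J ^ 2 → aug O ρ J ^ (M + 1) = ⊥ := by
  obtain ⟨M, hM⟩ := lie_g_filtered ι m c
  refine ⟨M, fun O _ R _ _ K _ ρ J q hq hcop ⟨N, hN⟩ hc a ha ham hgen => ?_⟩
  set D := aug O ρ J with hD
  set A := Submodule.span O (Set.range a) with hA
  have hF : ∀ k, D ^ (k + 1) ⊔ D ^ (k + 1 + 1) = D ^ (k + 1) := fun k =>
    sup_eq_left.2 (aug_pow_succ_le k)
  have h1 := hM R (fun k => (D ^ k ⊔ D ^ (k + 1)).toAddSubgroup)
    (Submodule.mem_sup_left (by rw [pow_zero]; exact Submodule.one_le.1 le_rfl)) (by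
      intro i j x hx y hy
      have hle : (D ^ i ⊔ D ^ (i + 1)) * (D ^ j ⊔ D ^ (j + 1)) ≤ D ^ (i + j) ⊔ D ^ (i + j + 1) := by
        rw [Submodule.mul_sup, Submodule.sup_mul, Submodule.sup_mul, ← pow_add, ← pow_add,
          ← pow_add, ← pow_add]
        refine sup_le (sup_le le_sup_left ?_) (sup_le ?_ ?_)
        · rw [add_right_comm]; exact le_sup_right
        · exact le_sup_right
        · refine le_sup_of_le_right ?_
          rw [show i + 1 + (j + 1) = i + j + 2 by omega]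
          exact aug_pow_succ_le _
      exact hle (Submodule.mul_mem_mul hx hy)) q hq hcop a
    (fun i => Submodule.mem_sup_left (by rw [pow_one]; exact ha i))
    (fun i => Submodule.mem_sup_left (ham i)) (fun i₀ L hL => by
      refine Submodule.mem_sup_left ?_
      have h2 := cm_mem ha i₀ L
      rw [hL] at h2
      have h3 : aug O ρ (J.lowerCentralSeries c) = ⊥ := by
        unfold aug
        rw [Submodule.span_eq_bot]
        rintro _ ⟨g, hg, rfl⟩
        rw [hc g hg, sub_self]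
      rwa [h3, bot_sup_eq] at h2)
  have hAD : A ≤ D := by
    rw [hA, Submodule.span_le]
    rintro _ ⟨i, rfl⟩
    exact ha i
  have h2 : A ^ M ≤ D ^ (M + 1) := by
    rw [hA, Submodule.span_pow, Submodule.span_le]
    intro x hx
    obtain ⟨f, rfl⟩ := Set.mem_pow.1 hx
    choose g hg using fun i => (f i).2
    have e : (List.ofFn fun i => (f i : R)) = (List.ofFn g).map a := by
      rw [List.map_ofFn]; congr 1; funext i; exact (hg i).symm
    have h3 := h1 (List.ofFn g) (by simp)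
    rw [e, ← hF]
    exact h3
  have h3 : ∀ k, D ^ k ≤ A ^ k ⊔ D ^ (k + 1) := by
    intro k
    induction k with
    | zero => rw [pow_zero, pow_zero]; exact le_sup_left
    | succ k ih =>
      have hAk : A ^ k ≤ D ^ k := pow_le_pow_left' hAD k
      rw [pow_succ]
      refine (mul_le_mul' ih hgen).trans ?_
      rw [Submodule.mul_sup, Submodule.sup_mul, Submodule.sup_mul, ← pow_succ, ← pow_add]
      refine sup_le (sup_le le_sup_left (le_sup_of_le_right ?_))
        (sup_le (le_sup_of_le_right ?_) (le_sup_of_le_right (aug_pow_le (by omega))))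
      · rw [pow_succ D (k + 1)]; exact mul_le_mul_right hAD _
      · rw [show k + 1 + 1 = k + 2 from rfl, pow_add]; exact mul_le_mul_left hAk _
  have h4 : D ^ M ≤ D ^ (M + 1) := (h3 M).trans (sup_le h2 le_rfl)
  have h5 : ∀ j, D ^ (M + 1) ≤ D ^ (M + 1 + j) := by
    intro j
    induction j with
    | zero => exact le_rfl
    | succ j ih =>
      refine ih.trans ?_
      rw [show M + 1 + j = M + (j + 1) by omega, show M + 1 + (j + 1) = M + 1 + (j + 1) from rfl,
        pow_add D M, pow_add D (M + 1)]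
      exact mul_le_mul_left h4 _
  refine le_bot_iff.1 ((h5 N).trans ?_)
  rw [pow_add, hN, Submodule.mul_bot]

end Aug

end Pool.Agent.LawP
end

-- part Pool.Agent.P.MP_ec89a0_al.LP10
section

/-! Nilpotent action on abelian sections; solvable groups generated by Engel elements. -/

namespace Pool.Agent.LawP

open Subgroup Polynomial
open scoped commutatorElement

variable {K : Type} [Group K]

section NilJ

variable {R : Type} [Ring R]

/-- all products of `k` elements `ρ g - 1` with `g` in `J` vanish -/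
def NilJ (ρ : K →* R) (J : Subgroup K) (k : ℕ) : Prop :=
  ∀ f : Fin k → K, (∀ i, f i ∈ J) → (List.ofFn fun i => ρ (f i) - 1).prod = 0

theorem aug_pow_eq_bot_iff (O : Type) [CommRing O] [Algebra O R] (ρ : K →* R) (J : Subgroup K)
    (k : ℕ) : aug O ρ J ^ k = ⊥ ↔ NilJ ρ J k := by
  unfold aug
  rw [Submodule.span_pow, Submodule.span_eq_bot]
  constructor
  · intro h f hf
    exact h _ (Set.mem_pow.2 ⟨fun i => ⟨ρ (f i) - 1, f i, hf i, rfl⟩, rfl⟩)
  · intro h x hx
    obtain ⟨f, rfl⟩ := Set.mem_pow.1 hx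
    choose g hg hg' using fun i => (f i).2
    rw [← h g hg]
    congr 2
    funext i
    exact (hg' i).symm

theorem nilJ_map {R' : Type} [Ring R'] (θ : R →+* R') (ρ : K →* R) {k : ℕ} (f : Fin k → K) :
    (List.ofFn fun i => (θ.toMonoidHom.comp ρ) (f i) - 1).prod =
      θ (List.ofFn fun i => ρ (f i) - 1).prod := by
  rw [map_list_prod, List.map_ofFn]
  congr 2
  funext i
  simp

theorem NilJ.map {R' : Type} [Ring R'] (θ : R →+* R') {ρ : K →* R} {J : Subgroup K} {k : ℕ}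
    (h : NilJ ρ J k) : NilJ (θ.toMonoidHom.comp ρ) J k := fun f hf => by
  rw [nilJ_map, h f hf, map_zero]

theorem NilJ.of_map {R' : Type} [Ring R'] (θ : R →+* R') (hθ : Function.Injective θ) {ρ : K →* R}
    {J : Subgroup K} {k : ℕ} (h : NilJ (θ.toMonoidHom.comp ρ) J k) : NilJ ρ J k := fun f hf =>
  hθ (by rw [← nilJ_map, h f hf, map_zero])

theorem NilJ.pow {ρ : K →* R} {J : Subgroup K} {k : ℕ} (h : NilJ ρ J k) {x : K} (hx : x ∈ J) :
    (ρ x - 1) ^ k = 0 := by
  have := h (fun _ => x) fun _ => hx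
  rwa [List.ofFn_const, List.prod_replicate] at this

theorem aug_addOn (O : Type) [CommRing O] [Algebra O R] (ρ : K →* R) (J : Subgroup K) :
    AddOn J fun g => (aug O ρ J ^ 2).mkQ (ρ g - 1) := by
  intro u hu v hv
  have e : ρ (u * v) - 1 = (ρ u - 1) + (ρ v - 1) + (ρ u - 1) * (ρ v - 1) := by
    rw [map_mul]; noncomm_ring
  have h0 : (aug O ρ J ^ 2).mkQ ((ρ u - 1) * (ρ v - 1)) = 0 := by
    rw [Submodule.mkQ_apply, Submodule.Quotient.mk_eq_zero, pow_two]
    exact Submodule.mul_mem_mul (mem_aug hu) (mem_aug hv)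
  show (aug O ρ J ^ 2).mkQ (ρ (u * v) - 1) = _
  rw [e, map_add, map_add, h0, add_zero]

theorem aug_le_of_gen {O : Type} [CommRing O] [Algebra O R] {ρ : K →* R} {s : Set K}
    {A : Submodule O R} (h : ∀ g ∈ s, ρ g - 1 ∈ A) :
    aug O ρ (closure s) ≤ A ⊔ aug O ρ (closure s) ^ 2 := by
  have := (aug_addOn O ρ (closure s)).closure_mem le_rfl
    (U := (A.map (aug O ρ (closure s) ^ 2).mkQ).toAddSubgroup)
    fun g hg => ⟨_, h g hg, rfl⟩
  rw [sup_comm, ← Submodule.comap_map_mkQ]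
  refine Submodule.span_le.2 ?_
  rintro _ ⟨g, hg, rfl⟩
  exact this g hg

end NilJ

section Transl

variable {S T : Subgroup K} [hS : S.Normal] {X : Type} [AddCommGroup X] {π : K → X}
  {ρ : K →* Module.End ℤ X}

omit hS in
theorem Sec.rho_eq_one (h : Sec S T π) (hρ : ∀ g, ∀ x ∈ S, ρ g (π x) = π (g * x * g⁻¹)) {g : K}
    (hg : g ∈ S) : ρ g = 1 := by
  refine LinearMap.ext (h.ext fun x hx => ?_)
  rw [hρ g x hx, h.mul _ (S.mul_mem hg hx) _ (S.inv_mem hg), h.mul _ hg _ hx, h.addOn.inv hg]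
  simp

theorem Sec.it_le (h : Sec S T π) (hρ : ∀ g, ∀ x ∈ S, ρ g (π x) = π (g * x * g⁻¹))
    {J : Subgroup K} {k : ℕ} (hk : NilJ ρ J k) : it S J k ≤ T := by
  have key : ∀ k, ∀ u ∈ it S J k,
      π u ∈ AddSubgroup.closure {v | ∃ r ∈ aug ℤ ρ J ^ k, ∃ w, r w = v} := by
    intro k
    induction k with
    | zero =>
      intro u _
      exact AddSubgroup.subset_closure
        ⟨1, by rw [pow_zero]; exact Submodule.one_le.1 le_rfl, π u, rfl⟩
    | succ k ih =>
      refine h.addOn.closure_mem (s := {g | ∃ g₁ ∈ it S J k, ∃ g₂ ∈ J, ⁅g₁, g₂⁆ = g})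
        (LawP.it_le S J (k + 1)) ?_
      rintro _ ⟨y, hy, g, hg, rfl⟩
      have hy' := LawP.it_le S J k hy
      rw [← commutatorElement_inv, h.addOn.inv (x := ⁅g, y⁆) (eng_mem g 1 hy'), neg_mem_iff,
        h.comm_apply hρ g hy']
      have hle : AddSubgroup.closure {v | ∃ r ∈ aug ℤ ρ J ^ k, ∃ w, r w = v} ≤
          (AddSubgroup.closure {v | ∃ r ∈ aug ℤ ρ J ^ (k + 1), ∃ w, r w = v}).comap
            (ρ g - 1).toAddMonoidHom := by
        rw [AddSubgroup.closure_le]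
        rintro _ ⟨r, hr, w, rfl⟩
        exact AddSubgroup.subset_closure ⟨(ρ g - 1) * r, aug_mul hr (mem_aug hg), w, rfl⟩
      exact hle (ih y hy)
  intro u hu
  rw [← h.ker u (LawP.it_le S J k hu)]
  have h1 : AddSubgroup.closure {v | ∃ r ∈ aug ℤ ρ J ^ k, ∃ w, r w = v} ≤ ⊥ := by
    rw [AddSubgroup.closure_le, (aug_pow_eq_bot_iff ℤ ρ J k).2 hk]
    rintro _ ⟨r, hr, w, rfl⟩
    rw [Submodule.mem_bot] at hr
    rw [hr]; rfl
  exact h1 (key k u hu)

theorem Sec.nilJ (h : Sec S T π) (hρ : ∀ g, ∀ x ∈ S, ρ g (π x) = π (g * x * g⁻¹))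
    {J : Subgroup K} {k : ℕ} (hk : it S J k ≤ T) : NilJ ρ J k := by
  have key : ∀ k, ∀ f : Fin k → K, (∀ i, f i ∈ J) → ∀ u ∈ S, ∃ y ∈ it S J k,
      (List.ofFn fun i => ρ (f i) - 1).prod (π u) = π y := by
    intro k
    induction k with
    | zero => intro f _ u hu; exact ⟨u, hu, rfl⟩
    | succ k ih =>
      intro f hf u hu
      obtain ⟨y, hy, e⟩ := ih (fun i => f i.succ) (fun i => hf _) u hu
      refine ⟨⁅f 0, y⁆, ?_, ?_⟩
      · show _ ∈ ⁅it S J k, J⁆
        rw [Subgroup.commutator_comm]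
        exact Subgroup.commutator_mem_commutator (hf 0) hy
      · rw [List.ofFn_succ, List.prod_cons, Module.End.mul_apply, e,
          h.comm_apply hρ _ (LawP.it_le S J k hy)]
  intro f hf
  refine LinearMap.ext (h.ext fun u hu => ?_)
  obtain ⟨y, hy, e⟩ := key k f hf u hu
  rw [e, (h.ker y (LawP.it_le S J k hy)).2 (hk hy)]
  rfl

theorem Sec.exists_nilJ [Group.IsNilpotent K] (h : Sec S T π)
    (hρ : ∀ g, ∀ x ∈ S, ρ g (π x) = π (g * x * g⁻¹)) (J : Subgroup K) : ∃ N, NilJ ρ J N := by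
  obtain ⟨c, hc⟩ := exists_lcs_top K
  exact ⟨c, h.nilJ hρ ((it_le_lcs le_top le_top c).trans (hc.le.trans bot_le))⟩

end Transl

/-- class bounds along the derived series -/
def cb (M : ℕ → ℕ) : ℕ → ℕ
  | 0 => 0
  | i + 1 => cb M i + M (cb M i)

theorem lcs_cb_le {M : ℕ → ℕ} {s : ℕ}
    (h : ∀ i, i < s → (⊤ : Subgroup K).lowerCentralSeries (cb M i) ≤ ds ⊤ i →
      it (ds ⊤ i) ⊤ (M (cb M i)) ≤ ds (⊤ : Subgroup K) (i + 1)) :
    ∀ i, i ≤ s → (⊤ : Subgroup K).lowerCentralSeries (cb M i) ≤ ds ⊤ i := by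
  intro i
  induction i with
  | zero => intro _; exact le_rfl
  | succ i ih =>
    intro hi
    exact (lcs_add_le_it (ih (by omega)) _).trans (h i (by omega) (ih (by omega)))

/-- a solvable group generated by boundedly many bounded Engel elements has bounded class -/
theorem class_of_engel (ι : Type) [Fintype ι] (E s : ℕ) : ∃ c : ℕ, ∀ (K : Type) [Group K]
    [Group.IsNilpotent K] (q : ℕ), (∀ g : K, g ^ q = 1) → q.Coprime E.factorial →
    ∀ y : ι → K, Gn y → (∀ i u, eng (y i) E u = 1) → ds (⊤ : Subgroup K) s = ⊥ →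
    (⊤ : Subgroup K).lowerCentralSeries c = ⊥ := by
  choose M hM using fun c => aug_nilpotent ι E c
  refine ⟨cb (fun c => M c + 1) s, fun K _ _ q hq hcop y hy hE hs => ?_⟩
  refine le_bot_iff.1 ((lcs_cb_le (s := s) ?_ s le_rfl).trans hs.le)
  intro i _ hi
  have := ds_normal (⊤ : Subgroup K) i
  have := ds_normal (⊤ : Subgroup K) (i + 1)
  obtain ⟨X, _, π, hπ⟩ := exists_sec (ds (⊤ : Subgroup K) i) (ds ⊤ (i + 1)) le_rfl
  obtain ⟨ρ, hρ⟩ := hπ.exists_rep
  refine hπ.it_le hρ ((aug_pow_eq_bot_iff ℤ ρ ⊤ _).1 ?_)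
  obtain ⟨N, hN⟩ := hπ.exists_nilJ hρ ⊤
  refine hM _ ℤ _ K ρ ⊤ q (end_natCast_eq_zero (hπ.smul_eq_zero fun g _ => hq g)) hcop
    ⟨N, (aug_pow_eq_bot_iff ℤ ρ ⊤ _).2 hN⟩ (fun g hg => hπ.rho_eq_one hρ (hi hg))
    (fun j => ρ (y j) - 1) (fun j => mem_aug trivial) (fun j => ?_) ?_
  · rw [(hπ.pow_eq_zero_iff hρ (y j) E).2 fun u _ => by rw [hE]; exact Subgroup.one_mem _]
    exact zero_mem _
  · rw [← show closure (Set.range y) = ⊤ from hy]
    refine aug_le_of_gen ?_
    rintro _ ⟨j, rfl⟩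
    exact Submodule.subset_span ⟨j, rfl⟩

/-- the polynomial `f` in the operator `φ`, applied to `x` -/
noncomputable def fp (φ : K →* K) (f : ℤ[X]) (x : K) : K :=
  ((List.range (f.natDegree + 1)).map fun i => (φ^[i] x) ^ f.coeff i).prod

theorem iter_mem {φ : K →* K} {S : Subgroup K} (hS : ∀ x ∈ S, φ x ∈ S) (i : ℕ) {x : K}
    (hx : x ∈ S) : φ^[i] x ∈ S := by
  induction i with
  | zero => exact hx
  | succ i ih => rw [Function.iterate_succ_apply']; exact hS _ ih

theorem fp_mem {φ : K →* K} {S : Subgroup K} (hS : ∀ x ∈ S, φ x ∈ S) (f : ℤ[X]) {x : K}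
    (hx : x ∈ S) : fp φ f x ∈ S := by
  refine S.list_prod_mem fun y hy => ?_
  obtain ⟨i, -, rfl⟩ := List.mem_map.1 hy
  exact S.zpow_mem (iter_mem hS i hx) _

theorem AddOn.list_prod {S : Subgroup K} {X : Type} [AddCommGroup X] {π : K → X} (h : AddOn S π)
    (g : ℕ → K) (hg : ∀ i, g i ∈ S) (N : ℕ) :
    π ((List.range N).map g).prod = ∑ i ∈ Finset.range N, π (g i) := by
  induction N with
  | zero => simpa using h.one
  | succ N ih =>
    rw [List.range_succ, List.map_append, List.prod_append, Finset.sum_range_succ, ← ih,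
      List.map_singleton, List.prod_singleton, h _ _ _ (hg N)]
    refine S.list_prod_mem fun y hy => ?_
    obtain ⟨i, -, rfl⟩ := List.mem_map.1 hy
    exact hg i

theorem AddOn.fp {φ : K →* K} {S : Subgroup K} (hS : ∀ x ∈ S, φ x ∈ S) {X : Type}
    [AddCommGroup X] {π : K → X} (h : AddOn S π) (f : ℤ[X]) {x : K} (hx : x ∈ S) :
    π (fp φ f x) = ∑ i ∈ Finset.range (f.natDegree + 1), f.coeff i • π (φ^[i] x) := by
  unfold LawP.fp
  rw [h.list_prod _ fun i => S.zpow_mem (iter_mem hS i hx) _]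
  exact Finset.sum_congr rfl fun i _ => h.zpow (iter_mem hS i hx) _

theorem AddOn.fp_aeval {φ : K →* K} {S : Subgroup K} (hS : ∀ x ∈ S, φ x ∈ S) {X : Type}
    [AddCommGroup X] {π : K → X} (h : AddOn S π) {ψ : Module.End ℤ X}
    (hψ : ∀ x ∈ S, ψ (π x) = π (φ x)) (f : ℤ[X]) {x : K} (hx : x ∈ S) :
    π (LawP.fp φ f x) = aeval ψ f (π x) := by
  rw [h.fp hS f hx, aeval_eq_sum_range, LinearMap.sum_apply]
  exact Finset.sum_congr rfl fun i _ => by
    rw [LinearMap.smul_apply, (end_pow_apply hS hψ i hx).2]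

theorem map_fp {H : Type} [Group H] {φ : K →* K} {ψ : H →* H} {θ : K →* H}
    (hs : ∀ x, ψ (θ x) = θ (φ x)) (f : ℤ[X]) (x : K) : θ (fp φ f x) = fp ψ f (θ x) := by
  unfold fp
  rw [map_list_prod, List.map_map]
  congr 2
  funext i
  simp only [Function.comp, map_zpow, semiconj_iter hs]

/-- `f(φ)` kills all invariant abelian sections -/
def Wt (φ : K →* K) (f : ℤ[X]) : Prop :=
  ∀ S : Subgroup K, (∀ x ∈ S, φ x ∈ S) → ∀ x ∈ S, fp φ f x ∈ ⁅S, S⁆

theorem Wt.of_inj {H : Type} [Group H] {φ : K →* K} {ψ : H →* H} {f : ℤ[X]} (h : Wt ψ f)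
    {θ : K →* H} (hθ : Function.Injective θ) (hs : ∀ x, ψ (θ x) = θ (φ x)) : Wt φ f := by
  intro S hS x hx
  have := h (S.map θ) (by rintro _ ⟨y, hy, rfl⟩; exact ⟨φ y, hS y hy, (hs y).symm⟩) _ ⟨x, hx, rfl⟩
  rw [← map_fp hs, ← Subgroup.map_commutator] at this
  exact (Subgroup.mem_map_iff_mem hθ).1 this

theorem Wt.aeval_eq_zero {φ : K →* K} {f : ℤ[X]} (hw : Wt φ f) {S T : Subgroup K}
    (hS : ∀ x ∈ S, φ x ∈ S) {X : Type} [AddCommGroup X] {π : K → X} (h : Sec S T π)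
    {ψ : Module.End ℤ X} (hψ : ∀ x ∈ S, ψ (π x) = π (φ x)) : aeval ψ f = 0 :=
  LinearMap.ext (h.ext fun x hx => by
    rw [← h.addOn.fp_aeval hS hψ f hx, h.addOn.comm (hw S hS x hx)]; rfl)

end Pool.Agent.LawP
end
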