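import Pool.Agent.K.MP_ec89a0_al.C5

/-! Weights over the ring of cyclotomic integers. -/

namespace Pool.Agent.LawP

open Polynomial Finset
open scoped commutatorElement TensorProduct

theorem exists_cyc {n : ℕ} (hn : 0 < n) : ∃ (O : Type) (_ : CommRing O) (_ : IsDomain O)
    (_ : CharZero O) (ζ : O), IsPrimitiveRoot ζ n ∧
      (∀ β : O, β ≠ 0 → ∃ (γ : O) (N : ℤ), N ≠ 0 ∧ γ * β = N) ∧
      ∀ (R₀ : Type) [Ring R₀], ∃ (R : Type) (_ : Ring R) (_ : Algebra O R) (θ : R₀ →+* R),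
        Function.Injective θ := by
  have hm := cyclotomic.monic n ℤ
  have hd : IsDomain (AdjoinRoot (cyclotomic n ℤ)) :=
    AdjoinRoot.isDomain_of_prime (cyclotomic.irreducible hn).prime
  have hinj : Function.Injective (AdjoinRoot.of (cyclotomic n ℤ)) :=
    AdjoinRoot.of.injective_of_degree_ne_zero (degree_cyclotomic_pos n ℤ hn).ne'
  have hc : CharZero (AdjoinRoot (cyclotomic n ℤ)) := charZero_of_injective_ringHom hinj
  have hfree := hm.free_adjoinRoot
  have hfin := hm.finite_adjoinRoot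
  refine ⟨AdjoinRoot (cyclotomic n ℤ), inferInstance, hd, hc, AdjoinRoot.root _, ?_, ?_, ?_⟩
  · rw [← isRoot_cyclotomic_iff_charZero hn, ← map_cyclotomic n (AdjoinRoot.of (cyclotomic n ℤ))]
    exact AdjoinRoot.isRoot_root _
  · intro β hβ
    obtain ⟨r, hr, γ, e⟩ := (Algebra.IsIntegral.isIntegral (R := ℤ) β).isAlgebraic.exists_nonzero_dvd
      (mem_nonZeroDivisors_of_ne_zero hβ)
    exact ⟨γ, r, hr, by rw [mul_comm, ← e]; simp⟩
  · intro R₀ _
    refine ⟨AdjoinRoot (cyclotomic n ℤ) ⊗[ℤ] R₀, inferInstance, inferInstance,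
      (Algebra.TensorProduct.includeRight (R := ℤ)).toRingHom, ?_⟩
    rw [injective_iff_map_eq_zero]
    intro x hx
    exact (Module.FaithfullyFlat.one_tmul_eq_zero_iff ℤ R₀ x).1 hx

theorem exists_common {O : Type} [CommRing O]
    (h : ∀ β : O, β ≠ 0 → ∃ (γ : O) (N : ℤ), N ≠ 0 ∧ γ * β = N) (β : ℕ → O) (n : ℕ) :
    ∃ R : ℕ, R ≠ 0 ∧ ∀ i, i < n → β i ≠ 0 → ∃ γ : O, γ * β i = R := by
  induction n with
  | zero => exact ⟨1, one_ne_zero, fun i hi => absurd hi (Nat.not_lt_zero i)⟩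
  | succ n ih =>
    obtain ⟨R, hR, h1⟩ := ih
    by_cases hb : β n = 0
    · refine ⟨R, hR, fun i hi h0 => ?_⟩
      rcases Nat.lt_succ_iff_lt_or_eq.1 hi with hi | rfl
      · exact h1 i hi h0
      · exact absurd hb h0
    · obtain ⟨γ, N, hN, e⟩ := h _ hb
      refine ⟨R * N.natAbs, mul_ne_zero hR (Int.natAbs_ne_zero.2 hN), fun i hi h0 => ?_⟩
      rcases Nat.lt_succ_iff_lt_or_eq.1 hi with hi | rfl
      · obtain ⟨γ', e'⟩ := h1 i hi h0
        exact ⟨N.natAbs * γ', by rw [mul_assoc, e', Nat.cast_mul, mul_comm]⟩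
      · refine ⟨R * (N.sign * γ), ?_⟩
        rw [mul_assoc, mul_assoc, e, ← Int.cast_mul, Int.sign_mul_self_eq_natAbs, Nat.cast_mul,
          Int.cast_natCast]

theorem exists_coprime_add {n ν η : ℕ} (hn : n ≠ 0) (h : Nat.gcd (Nat.gcd n η) ν = 1) :
    ∃ i, (ν + i * η).Coprime n := by
  classical
  refine ⟨∏ p ∈ n.primeFactors.filter fun p => ¬ p ∣ ν, p, Nat.coprime_of_dvd ?_⟩
  intro p hp h1 h2
  by_cases hν : p ∣ ν
  · rcases (Nat.Prime.dvd_mul hp).1 ((Nat.dvd_add_right hν).1 h1) with h3 | h3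
    · obtain ⟨r, hr, h4⟩ := (Prime.dvd_finsetProd_iff hp.prime _).1 h3
      rw [Finset.mem_filter] at hr
      have := (Nat.prime_dvd_prime_iff_eq hp (Nat.prime_of_mem_primeFactors hr.1)).1 h4
      exact hr.2 (this ▸ hν)
    · have : p ∣ 1 := h ▸ Nat.dvd_gcd (Nat.dvd_gcd h2 h3) hν
      exact hp.not_dvd_one this
  · have : p ∣ ∏ p ∈ n.primeFactors.filter fun p => ¬ p ∣ ν, p :=
      Finset.dvd_prod_of_mem _ (Finset.mem_filter.2 ⟨Nat.mem_primeFactors.2 ⟨hp, h2, hn⟩, hν⟩)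
    exact hν ((Nat.dvd_add_left (this.mul_right η)).1 h1)

theorem exists_gcd_add {n : ℕ} (hn : 0 < n) (ν η : ℕ) :
    ∃ i, Nat.gcd n (ν + i * η) = n ∨ n / Nat.gcd n η < n / Nat.gcd n (ν + i * η) := by
  by_cases hd : Nat.gcd n η ∣ ν
  · obtain ⟨k, rfl⟩ := hd
    have e := Nat.gcd_eq_gcd_ab n η
    refine ⟨((-(k : ℤ) * Nat.gcdB n η) % n).toNat, Or.inl (Nat.gcd_eq_left ?_)⟩
    rw [← Int.natCast_dvd_natCast]
    push_cast
    rw [Int.toNat_of_nonneg (Int.emod_nonneg _ (by exact_mod_cast hn.ne')), Int.emod_def]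
    have e' : ((Nat.gcd n η : ℕ) : ℤ) = n * Nat.gcdA n η + η * Nat.gcdB n η := e
    refine ⟨k * Nat.gcdA n η - (-(k : ℤ) * Nat.gcdB n η) / n * η, ?_⟩
    rw [e']
    ring
  · set h := Nat.gcd (Nat.gcd n η) ν with hh
    have hg : 0 < Nat.gcd n η := Nat.gcd_pos_of_pos_left _ hn
    have hpos : 0 < h := Nat.gcd_pos_of_pos_left _ hg
    obtain ⟨n', hn'⟩ : h ∣ n := (Nat.gcd_dvd_left _ _).trans (Nat.gcd_dvd_left _ _)
    obtain ⟨η', hη'⟩ : h ∣ η := (Nat.gcd_dvd_left _ _).trans (Nat.gcd_dvd_right _ _)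
    obtain ⟨ν', hν'⟩ : h ∣ ν := Nat.gcd_dvd_right _ _
    have h1 : Nat.gcd (Nat.gcd n' η') ν' = 1 := by
      have : h * Nat.gcd (Nat.gcd n' η') ν' = h * 1 := by
        rw [← Nat.gcd_mul_left, ← Nat.gcd_mul_left, ← hn', ← hη', ← hν', mul_one]
      exact Nat.eq_of_mul_eq_mul_left hpos this
    obtain ⟨i, hi⟩ := exists_coprime_add (by rintro rfl; omega) h1
    refine ⟨i, Or.inr ?_⟩
    have h2 : Nat.gcd n (ν + i * η) = h := by
      have : ν + i * η = h * (ν' + i * η') := by rw [mul_add, ← hν', mul_left_comm, ← hη']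
      rw [this]
      conv_lhs => rw [hn', Nat.gcd_mul_left, hi.symm, mul_one]
    rw [h2]
    have hlt : h < Nat.gcd n η := by
      refine lt_of_le_of_ne (Nat.le_of_dvd hg (Nat.gcd_dvd_left _ _)) fun e => hd ?_
      rw [← e]; exact Nat.gcd_dvd_right _ _
    exact Nat.div_lt_div_left hn.ne' (Nat.gcd_dvd_left _ _) ⟨n', hn'⟩ |>.2 hlt

/-- the product of the cyclotomic polynomials of orders `2, ..., d` -/
noncomputable def fd (d : ℕ) : ℤ[X] := ∏ D ∈ Icc 2 d, cyclotomic D ℤ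

theorem aeval_cyc {O : Type} [CommRing O] [IsDomain O] [CharZero O] {u : O} {D : ℕ} (hD : 0 < D)
    (h : aeval u (cyclotomic D ℤ) = 0) : orderOf u = D := by
  have : IsPrimitiveRoot u D := by
    rw [← isRoot_cyclotomic_iff_charZero hD, ← map_cyclotomic D (algebraMap ℤ O), IsRoot.def,
      eval_map_algebraMap]
    exact h
  exact this.eq_orderOf.symm

theorem exists_weight {O : Type} [CommRing O] [IsDomain O] [CharZero O] {ζ : O} {n : ℕ}
    (hn : 0 < n) (hζ : IsPrimitiveRoot ζ n) {d η : ℕ} (hd : 0 < d)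
    (h : aeval (ζ ^ η) (cyclotomic d ℤ) = 0) (ν : ℕ) :
    ∃ i, i < n ∧ aeval (ζ ^ ν * (ζ ^ η) ^ i) (fd d) ≠ 0 := by
  have hfo : IsOfFinOrder ζ := isOfFinOrder_iff_pow_eq_one.2 ⟨n, hn, hζ.pow_eq_one⟩
  have ho : ∀ k, orderOf (ζ ^ k) = n / Nat.gcd n k := fun k => by
    rw [hfo.orderOf_pow, ← hζ.eq_orderOf]
  obtain ⟨i, hi⟩ := exists_gcd_add hn ν η
  refine ⟨i % n, Nat.mod_lt _ hn, fun e => ?_⟩
  have e1 : (ζ ^ η) ^ (i % n) = (ζ ^ η) ^ i := by
    refine (pow_eq_pow_mod i ?_).symm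
    rw [← pow_mul, mul_comm, pow_mul, hζ.pow_eq_one, one_pow]
  rw [e1, ← pow_mul, ← pow_add, mul_comm η, fd, map_prod, Finset.prod_eq_zero_iff] at e
  obtain ⟨D, hD, e⟩ := e
  rw [Finset.mem_Icc] at hD
  have h1 := aeval_cyc (by omega) e
  have h2 := aeval_cyc hd h
  rw [ho] at h1 h2
  rcases hi with hi | hi
  · rw [hi, Nat.div_self hn] at h1; omega
  · omega

section Eig

variable {O : Type} [CommRing O] {Y : Type} [AddCommGroup Y] [Module O Y]

/-- the operator `Σ μ^i T^(n-1-i)` -/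
noncomputable def go (T : Module.End O Y) (μ : O) (n : ℕ) : Module.End O Y :=
  ∑ i ∈ range n, algebraMap O (Module.End O Y) μ ^ i * T ^ (n - 1 - i)

theorem go_apply (T : Module.End O Y) (μ : O) (n : ℕ) (v : Y) :
    go T μ n v = ∑ i ∈ range n, μ ^ i • (T ^ (n - 1 - i)) v := by
  unfold go
  rw [LinearMap.sum_apply]
  exact Finset.sum_congr rfl fun i _ => by
    rw [← map_pow, Module.End.mul_apply, Module.algebraMap_end_apply]

theorem go_eigen {T : Module.End O Y} {μ : O} {n : ℕ} (hT : T ^ n = 1) (hμ : μ ^ n = 1) (v : Y) :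
    T (go T μ n v) = μ • go T μ n v := by
  have h := (show Commute (algebraMap O (Module.End O Y) μ) T from Algebra.commutes μ T).mul_geom_sum₂ n
  rw [← map_pow, hμ, hT, map_one, sub_self] at h
  have := congrArg (fun f : Module.End O Y => f v) h
  simp only [Module.End.mul_apply, LinearMap.sub_apply, Module.algebraMap_end_apply,
    LinearMap.zero_apply] at this
  exact (sub_eq_zero.1 this).symm

theorem go_mem {T : Module.End O Y} {U : Submodule O Y} (hU : ∀ v ∈ U, T v ∈ U) (μ : O) (n : ℕ)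
    {v : Y} (hv : v ∈ U) : go T μ n v ∈ U := by
  rw [go_apply]
  refine U.sum_mem fun i _ => U.smul_mem _ ?_
  generalize n - 1 - i = k
  induction k with
  | zero => exact hv
  | succ k ih => rw [pow_succ', Module.End.mul_apply]; exact hU _ ih

theorem commute_go (T : Module.End O Y) (μ : O) (n : ℕ) : Commute T (go T μ n) :=
  Commute.sum_right _ _ _ fun _ _ =>
    ((Commute.symm (Algebra.commutes μ T)).pow_right _).mul_right ((Commute.refl T).pow_right _)

theorem sum_go [IsDomain O] {ζ : O} {n : ℕ} (hn : 0 < n) (hζ : IsPrimitiveRoot ζ n)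
    (T : Module.End O Y) (v : Y) : ∑ j ∈ range n, ζ ^ j • go T (ζ ^ j) n v = n • v := by
  simp only [go_apply, Finset.smul_sum, smul_smul]
  rw [Finset.sum_comm]
  simp only [← Finset.sum_smul]
  obtain ⟨n', rfl⟩ : ∃ n', n = n' + 1 := ⟨n - 1, by omega⟩
  have e : ∀ i, ∑ j ∈ range (n' + 1), ζ ^ j * (ζ ^ j) ^ i =
      ∑ j ∈ range (n' + 1), (ζ ^ (i + 1)) ^ j := fun i =>
    Finset.sum_congr rfl fun j _ => by ring
  rw [Finset.sum_range_succ, Finset.sum_eq_zero, zero_add]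
  · rw [e, hζ.pow_eq_one, Nat.add_sub_cancel, Nat.sub_self, pow_zero, Module.End.one_apply]
    simp only [one_pow, Finset.sum_const, card_range, nsmul_eq_mul, mul_one]
    exact Nat.cast_smul_eq_nsmul O _ v
  · intro i hi
    have hi' := mem_range.1 hi
    have h1 := mul_geom_sum (ζ ^ (i + 1)) (n' + 1)
    rw [← pow_mul, mul_comm (i + 1), pow_mul, hζ.pow_eq_one, one_pow, sub_self, mul_eq_zero] at h1
    rcases h1 with h1 | h1
    · exact absurd (sub_eq_zero.1 h1) (hζ.pow_ne_one_of_pos_of_lt (by omega) (by omega))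
    · rw [e, h1, zero_smul]

theorem pow_eigen {T : Module.End O Y} {μ : O} {v : Y} (h : T v = μ • v) (k : ℕ) :
    (T ^ k) v = μ ^ k • v := by
  induction k with
  | zero => simp
  | succ k ih => rw [pow_succ', Module.End.mul_apply, ih, map_smul, h, smul_smul, pow_succ]

theorem aeval_eigen {T : Module.End O Y} {μ : O} {v : Y} (h : T v = μ • v) (f : ℤ[X]) :
    aeval T f v = aeval μ f • v := by
  rw [aeval_eq_sum_range, aeval_eq_sum_range, LinearMap.sum_apply, Finset.sum_smul]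
  exact Finset.sum_congr rfl fun i _ => by
    rw [LinearMap.smul_apply, pow_eigen h, smul_assoc]

theorem mem_of_smul {q R : ℕ} (hq : ∀ v : Y, q • v = 0) (hc : q.Coprime R) {U : Submodule O Y}
    {β γ : O} (e : γ * β = R) {v : Y} (h : β • v ∈ U) : v ∈ U := by
  refine mem_of_coprime hq (U := U.toAddSubgroup) (Nat.isCoprime_iff_coprime.2 hc.symm) ?_
  have := U.smul_mem γ h
  rw [smul_smul, e, Nat.cast_smul_eq_nsmul] at this
  rw [natCast_zsmul]
  exact this

end Eig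

theorem g1_ring {n : ℕ} (hn : 0 < n) {d : ℕ} (hd : 0 < d) (c : ℕ) : ∃ M R : ℕ, R ≠ 0 ∧
    ∀ (R₀ : Type) [Ring R₀] (K : Type) [Group K] (ρ : K →* R₀) (φ : K →* K) (Ψ : R₀) (q : ℕ)
      (x : K) (J : Subgroup K), (q : R₀) = 0 → q.Coprime R → Ψ ^ n = 1 →
      (∀ g, Ψ * ρ g = ρ (φ g) * Ψ) → aeval Ψ (fd d) = 0 →
      J = Subgroup.closure (Set.range fun i => φ^[i] x) → fp φ (cyclotomic d ℤ) x ∈ ⁅J, J⁆ →
      (∀ g ∈ J.lowerCentralSeries c, ρ g = 1) → (∃ N, NilJ ρ J N) → NilJ ρ J M := by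
  obtain ⟨O, _, _, _, ζ, hζ, hint, hext⟩ := exists_cyc hn
  obtain ⟨M, hM⟩ := aug_nilpotent (Fin n) n c
  obtain ⟨R₁, hR₁, h₁⟩ := exists_common hint (fun ν => aeval (ζ ^ ν) (fd d)) n
  obtain ⟨R₂, hR₂, h₂⟩ := exists_common hint (fun ν => aeval (ζ ^ ν) (cyclotomic d ℤ)) n
  refine ⟨M + 1, n.factorial * (R₁ * R₂),
    mul_ne_zero (Nat.factorial_ne_zero _) (mul_ne_zero hR₁ hR₂), ?_⟩
  intro R₀ _ K _ ρ₀ φ Ψ₀ q x J hq₀ hcop hΨ₀ hcomm₀ hf₀ hJ hpure hc₀ ⟨N, hN⟩
  obtain ⟨R, _, _, θ, hθ⟩ := hext R₀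
  refine NilJ.of_map θ hθ ((aug_pow_eq_bot_iff O _ J _).1 ?_)
  set ρ := θ.toMonoidHom.comp ρ₀ with hρdef
  set Ψ := θ Ψ₀ with hΨdef
  have hq : (q : R) = 0 := by rw [← map_natCast θ, hq₀, map_zero]
  have hqs : ∀ v : R, q • v = 0 := fun v => by rw [nsmul_eq_mul, hq, zero_mul]
  have hΨ : Ψ ^ n = 1 := by rw [hΨdef, ← map_pow, hΨ₀, map_one]
  have hcomm : ∀ g, Ψ * ρ g = ρ (φ g) * Ψ := fun g => by
    have := congrArg θ (hcomm₀ g)
    rwa [map_mul, map_mul] at this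
  have hf : aeval Ψ (fd d) = 0 := by
    have := aeval_algHom_apply θ.toIntAlgHom Ψ₀ (fd d)
    rw [hf₀, map_zero] at this
    exact this
  have hcn : q.Coprime n.factorial := Nat.Coprime.coprime_mul_right_right hcop
  have hc1 : q.Coprime R₁ :=
    Nat.Coprime.coprime_mul_right_right (Nat.Coprime.coprime_mul_left_right hcop)
  have hc2 : q.Coprime R₂ :=
    Nat.Coprime.coprime_mul_left_right (Nat.Coprime.coprime_mul_left_right hcop)
  have hcn' : IsCoprime (n : ℤ) (q : ℤ) := Nat.isCoprime_iff_coprime.2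
    (hcn.symm.coprime_dvd_left (Nat.dvd_factorial hn le_rfl))
  have hζn : ∀ η, (ζ ^ η) ^ n = 1 := fun η => by
    rw [← pow_mul, mul_comm, pow_mul, hζ.pow_eq_one, one_pow]
  have hinv1 : Ψ * Ψ ^ (n - 1) = 1 := by rw [← pow_succ', Nat.sub_add_cancel hn, hΨ]
  have hinv2 : Ψ ^ (n - 1) * Ψ = 1 := by rw [← pow_succ, Nat.sub_add_cancel hn, hΨ]
  let τ : Module.End O R := (LinearMap.mulLeft O Ψ).comp (LinearMap.mulRight O (Ψ ^ (n - 1)))
  have hτ : ∀ r, τ r = Ψ * (r * Ψ ^ (n - 1)) := fun _ => rfl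
  have hτk : ∀ k r, (τ ^ k) r = Ψ ^ k * (r * (Ψ ^ (n - 1)) ^ k) := by
    intro k r
    induction k with
    | zero => simp
    | succ k ih =>
      rw [pow_succ', Module.End.mul_apply, ih, hτ, pow_succ' Ψ, pow_succ (Ψ ^ (n - 1))]
      noncomm_ring
  have hτn : τ ^ n = 1 := LinearMap.ext fun r => by
    rw [hτk, ← pow_mul, mul_comm (n - 1), pow_mul, hΨ]; simp
  have hτρ : ∀ g, τ (ρ g - 1) = ρ (φ g) - 1 := fun g => by
    rw [hτ, sub_mul, mul_sub, ← mul_assoc, hcomm, mul_assoc, one_mul, hinv1, mul_one]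
  have hτρk : ∀ k g, (τ ^ k) (ρ g - 1) = ρ (φ^[k] g) - 1 := by
    intro k g
    induction k with
    | zero => rfl
    | succ k ih => rw [pow_succ', Module.End.mul_apply, ih, hτρ, Function.iterate_succ_apply']
  have hτmul : ∀ r s, τ (r * s) = τ r * τ s := fun r s => by
    rw [hτ, hτ, hτ]
    calc Ψ * (r * s * Ψ ^ (n - 1)) = Ψ * (r * (Ψ ^ (n - 1) * Ψ) * s * Ψ ^ (n - 1)) := by
          rw [hinv2, mul_one]
      _ = _ := by noncomm_ring
  have hJi : ∀ g ∈ J, φ g ∈ J := by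
    rw [hJ]
    refine closure_inv ?_
    rintro _ ⟨i, rfl⟩
    exact Subgroup.subset_closure ⟨i + 1, Function.iterate_succ_apply' _ _ _⟩
  have hxJ : x ∈ J := by rw [hJ]; exact Subgroup.subset_closure ⟨0, rfl⟩
  set D := aug O ρ J with hD
  have hτD : ∀ r ∈ D, τ r ∈ D := by
    have : D ≤ D.comap τ := Submodule.span_le.2 (by
      rintro _ ⟨g, hg, rfl⟩
      show τ (ρ g - 1) ∈ D
      rw [hτρ]; exact mem_aug (hJi g hg))
    exact this
  have hτD2 : ∀ r ∈ D ^ 2, τ r ∈ D ^ 2 := by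
    intro r hr
    rw [pow_two] at hr ⊢
    refine Submodule.mul_induction_on hr (fun u hu v hv => ?_) fun u v hu hv => ?_
    · rw [hτmul]; exact Submodule.mul_mem_mul (hτD u hu) (hτD v hv)
    · rw [map_add]; exact add_mem hu hv
  let a : Fin n → R := fun η => go τ (ζ ^ (η : ℕ)) n (ρ x - 1)
  have ha : ∀ η, a η ∈ D := fun η => go_mem hτD _ _ (mem_aug hxJ)
  have haτ : ∀ η, τ (a η) = ζ ^ (η : ℕ) • a η := fun η => go_eigen hτn (hζn η) _
  have hp : aeval τ (cyclotomic d ℤ) (ρ x - 1) ∈ D ^ 2 := by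
    have h1 := (aug_addOn O ρ J).fp hJi (cyclotomic d ℤ) hxJ
    rw [(aug_addOn O ρ J).comm hpure] at h1
    rw [← Submodule.Quotient.mk_eq_zero, ← Submodule.mkQ_apply, h1, aeval_eq_sum_range,
      LinearMap.sum_apply, map_sum]
    exact Finset.sum_congr rfl fun i _ => by rw [LinearMap.smul_apply, map_zsmul, hτρk]
  refine hM O R K ρ J q hq hcn ⟨N, (aug_pow_eq_bot_iff O _ J _).2 (hN.map θ)⟩
    (fun g hg => by show θ (ρ₀ g) = 1; rw [hc₀ g hg, map_one]) a ha (fun η => ?_) ?_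
  · by_cases h0 : aeval (ζ ^ (η : ℕ)) (cyclotomic d ℤ) = 0
    · have hΨa : Ψ * a η = ζ ^ (η : ℕ) • (a η * Ψ) := by
        rw [← smul_mul_assoc, ← haτ, hτ, mul_assoc, mul_assoc, hinv2, mul_one]
      let T : Module.End O R := LinearMap.mulLeft O Ψ
      have hTn : T ^ n = 1 := by
        rw [LinearMap.pow_mulLeft, hΨ, LinearMap.mulLeft_one]; rfl
      have hTf : ∀ v, aeval T (fd d) v = 0 := fun v => by
        have := aeval_algHom_apply ((Algebra.lmul O R).toRingHom.toIntAlgHom) Ψ (fd d)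
        rw [hf, map_zero] at this
        exact (congrArg (fun f : Module.End O R => f v) this)
      have key : ∀ ν, a η ^ n * go T (ζ ^ ν) n 1 = 0 := by
        intro ν
        set v := go T (ζ ^ ν) n 1 with hv
        have hev : ∀ i, T (a η ^ i * v) = (ζ ^ ν * (ζ ^ (η : ℕ)) ^ i) • (a η ^ i * v) := by
          intro i
          induction i with
          | zero => simpa using go_eigen hTn (hζn ν) 1
          | succ i ih =>
            have ih' : Ψ * (a η ^ i * v) = _ := ih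
            show Ψ * _ = _
            rw [pow_succ' (a η), mul_assoc (a η), ← mul_assoc Ψ, hΨa, smul_mul_assoc,
              mul_assoc (a η), ih', mul_smul_comm, smul_smul]
            congr 1
            ring
        obtain ⟨i, hi, hne⟩ := exists_weight hn hζ hd h0 ν
        have e1 : ζ ^ ν * (ζ ^ (η : ℕ)) ^ i = ζ ^ ((ν + η * i) % n) := by
          rw [← pow_mul, ← pow_add]; exact pow_eq_pow_mod _ hζ.pow_eq_one
        have h3 := aeval_eigen (hev i) (fd d)
        rw [hTf, e1] at h3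
        rw [e1] at hne
        obtain ⟨γ, hγ⟩ := h₁ _ (Nat.mod_lt _ hn) hne
        have h4 : a η ^ i * v = 0 := mem_of_smul hqs hc1 (U := ⊥) hγ h3.symm
        obtain ⟨k, hk⟩ := Nat.exists_eq_add_of_le' hi.le
        have : a η ^ n = a η ^ k * a η ^ i := by rw [← pow_add, ← hk]
        rw [this, mul_assoc, h4, mul_zero]
      have h5 : a η ^ n = 0 := by
        refine eq_zero_of_coprime hqs hcn' ?_
        have := congrArg (fun r => a η ^ n * r) (sum_go hn hζ T 1)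
        simp only [Finset.mul_sum, mul_smul_comm, key, smul_zero, Finset.sum_const_zero,
          mul_one] at this
        rw [natCast_zsmul]; exact this.symm
      rw [h5]; exact zero_mem _
    · obtain ⟨γ, hγ⟩ := h₂ _ η.2 h0
      have h3 : a η ∈ D ^ 2 := by
        refine mem_of_smul hqs hc2 hγ ?_
        rw [← aeval_eigen (haτ η)]
        have hcm : Commute (aeval τ (cyclotomic d ℤ)) (go τ (ζ ^ (η : ℕ)) n) := by
          rw [aeval_eq_sum_range]
          exact Commute.sum_left _ _ _ fun i _ =>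
            ((commute_go τ _ n).pow_left i).smul_left _
        show (aeval τ (cyclotomic d ℤ) * go τ (ζ ^ (η : ℕ)) n) (ρ x - 1) ∈ _
        rw [hcm.eq]
        exact go_mem hτD2 _ _ hp
      have h4 := Submodule.pow_mem_pow _ h3 n
      rw [← pow_mul, show 2 * n = (2 * n - 1) + 1 by omega] at h4
      exact aug_pow_le (by omega) h4
  · have key : ∀ A : Submodule O R, (∀ g ∈ Set.range fun i => φ^[i] x, ρ g - 1 ∈ A) →
        aug O ρ J ≤ A ⊔ aug O ρ J ^ 2 := fun A hA => by rw [hJ]; exact aug_le_of_gen hA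
    refine key _ ?_
    rintro _ ⟨k, rfl⟩
    refine mem_of_coprime hqs (U := (Submodule.span O (Set.range a)).toAddSubgroup) hcn' ?_
    rw [natCast_zsmul, ← hτρk, ← map_nsmul, ← sum_go hn hζ τ, map_sum]
    refine Submodule.sum_mem _ fun j hj => ?_
    rw [map_smul, pow_eigen (go_eigen hτn (hζn j) _)]
    exact Submodule.smul_mem _ _ (Submodule.smul_mem _ _
      (Submodule.subset_span ⟨⟨j, mem_range.1 hj⟩, rfl⟩))

end Pool.Agent.LawP
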