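import Pool.Agent.K.MP_ec89a0_al.C6
import Pool.Agent.K.MP_ec89a0_al.C4
import Pool.Agent.K.MP_ec89a0_al.C1

-- part Pool.Agent.P.MP_ec89a0_al.LP12
section

/-! Fixed point free automorphisms of nilpotent groups without small primes. -/

namespace Pool.Agent.LawP

open Subgroup Polynomial
open scoped commutatorElement

variable {K : Type} [Group K]

/-- the subgroup generated by the orbit of `x` -/
def og (φ : K →* K) (x : K) : Subgroup K := closure (Set.range fun i => φ^[i] x)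

theorem og_inv (φ : K →* K) (x : K) : ∀ g ∈ og φ x, φ g ∈ og φ x := by
  refine closure_inv ?_
  rintro _ ⟨i, rfl⟩
  exact Subgroup.subset_closure ⟨i + 1, Function.iterate_succ_apply' _ _ _⟩

theorem mem_og (φ : K →* K) (x : K) : x ∈ og φ x := Subgroup.subset_closure ⟨0, rfl⟩

theorem og_le {φ : K →* K} {S : Subgroup K} (hS : ∀ x ∈ S, φ x ∈ S) {x : K} (hx : x ∈ S) :
    og φ x ≤ S := by
  refine (closure_le _).2 ?_
  rintro _ ⟨i, rfl⟩
  exact iter_mem hS i hx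

theorem map_og {H : Type} [Group H] {φ : K →* K} {ψ : H →* H} {θ : K →* H}
    (hs : ∀ x, ψ (θ x) = θ (φ x)) (x : K) : (og φ x).map θ = og ψ (θ x) := by
  unfold og
  rw [MonoidHom.map_closure, ← Set.range_comp]
  congr 2
  funext i
  exact (semiconj_iter hs i x).symm

theorem ds_eq_bot_of_inj {H : Type} [Group H] {θ : K →* H} (hθ : Function.Injective θ) {s : ℕ}
    (h : ds (⊤ : Subgroup H) s = ⊥) : ds (⊤ : Subgroup K) s = ⊥ := by
  rw [← Subgroup.map_eq_bot_iff_of_injective _ hθ, map_ds]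
  exact le_bot_iff.1 ((ds_mono le_top s).trans h.le)

theorem ds_eq_bot_of_surj {H : Type} [Group H] {θ : K →* H} (hθ : Function.Surjective θ) {s : ℕ}
    (h : ds (⊤ : Subgroup K) s = ⊥) : ds (⊤ : Subgroup H) s = ⊥ := by
  rw [← Subgroup.map_top_of_surjective θ hθ, ← map_ds, h, Subgroup.map_bot]

theorem g1_sec {n : ℕ} (hn : 0 < n) {d : ℕ} (hd : 0 < d) (c : ℕ) : ∃ M R : ℕ, R ≠ 0 ∧
    ∀ (K : Type) [Group K] [Group.IsNilpotent K] (φ : K →* K) (q : ℕ) (x : K) (i : ℕ),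
      Op φ n q → q.Coprime R → Wt φ (fd d) → fp φ (cyclotomic d ℤ) x ∈ ⁅og φ x, og φ x⁆ →
      (og φ x).lowerCentralSeries c ≤ ds ⊤ i → it (ds ⊤ i) (og φ x) M ≤ ds ⊤ (i + 1) := by
  obtain ⟨M, R, hR, h⟩ := g1_ring hn hd c
  refine ⟨M, R, hR, fun K _ _ φ q x i hop hq hw hx hc => ?_⟩
  have := ds_normal (⊤ : Subgroup K) i
  have := ds_normal (⊤ : Subgroup K) (i + 1)
  obtain ⟨X, _, π, hπ⟩ := exists_sec (ds (⊤ : Subgroup K) i) (ds ⊤ (i + 1)) le_rfl
  obtain ⟨ρ, hρ⟩ := hπ.exists_rep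
  have hi : ∀ j, ∀ y ∈ ds (⊤ : Subgroup K) j, φ y ∈ ds (⊤ : Subgroup K) j :=
    fun j => ds_inv (fun _ _ => Subgroup.mem_top _) j
  obtain ⟨Ψ, hΨ⟩ := hπ.exists_end φ (hi i) (hi (i + 1))
  refine hπ.it_le hρ (h _ K ρ φ Ψ q x _
    (end_natCast_eq_zero (hπ.smul_eq_zero fun g _ => hop.exp g)) hq
    (hπ.end_pow_eq_one (hi i) hΨ hop.ord) (fun g => ?_) (hw.aeval_eq_zero (hi i) hπ hΨ) rfl hx
    (fun g hg => hπ.rho_eq_one hρ (hc hg)) (hπ.exists_nilJ hρ _))
  refine LinearMap.ext (hπ.ext fun u hu => ?_)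
  rw [Module.End.mul_apply, Module.End.mul_apply, hρ g u hu,
    hΨ _ (Subgroup.Normal.conj_mem inferInstance u hu g), hΨ u hu, hρ _ _ (hi i u hu)]
  simp

theorem eng_mem_it {S J : Subgroup K} {x u : K} (hx : x ∈ J) (hu : u ∈ S) (k : ℕ) :
    eng x k u ∈ it S J k := by
  induction k with
  | zero => exact hu
  | succ k ih =>
    show ⁅x, eng x k u⁆ ∈ ⁅it S J k, J⁆
    rw [Subgroup.commutator_comm]
    exact Subgroup.commutator_mem_commutator hx ih

theorem g1_group {n : ℕ} (hn : 0 < n) {d : ℕ} (hd : 0 < d) (s : ℕ) : ∃ E R : ℕ, R ≠ 0 ∧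
    ∀ (K : Type) [Group K] [Group.IsNilpotent K] (φ : K →* K) (q : ℕ) (x : K),
      Op φ n q → q.Coprime R → Wt φ (fd d) → fp φ (cyclotomic d ℤ) x ∈ ⁅og φ x, og φ x⁆ →
      ds (⊤ : Subgroup K) s = ⊥ → ∀ u, eng x E u = 1 := by
  choose M R hR h using g1_sec hn hd
  refine ⟨s * M (cb M s), R (cb M s) * ∏ i ∈ Finset.range s, R (cb M i),
    mul_ne_zero (hR _) (Finset.prod_ne_zero_iff.2 fun _ _ => hR _), ?_⟩
  intro K _ _ φ q x hop hq hw hx hs
  have hJ : (og φ x).lowerCentralSeries (cb M s) = ⊥ := by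
    obtain ⟨ψ, hψ⟩ := exists_restr φ (og φ x) (og_inv φ x)
    have hinj := (og φ x).subtype_injective
    have htop : og ψ ⟨x, mem_og φ x⟩ = ⊤ := by
      apply Subgroup.map_injective hinj
      rw [map_og hψ, ← MonoidHom.range_eq_map, Subgroup.range_subtype]
      rfl
    have h1 := lcs_cb_le (K := og φ x) (M := M) (s := s) (fun i hi hle => by
      have := h (cb M i) (og φ x) ψ q ⟨x, mem_og φ x⟩ i (hop.of_inj hinj hψ)
        ((Nat.Coprime.coprime_mul_left_right hq).coprime_dvd_right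
          (Finset.dvd_prod_of_mem (fun i => R (cb M i)) (Finset.mem_range.2 hi))) (hw.of_inj hinj hψ) (by
            rw [← Subgroup.mem_map_iff_mem hinj, map_fp hψ, Subgroup.map_commutator, map_og hψ]
            exact hx) (by rw [htop]; exact hle)
      rwa [htop] at this) s le_rfl
    rw [ds_eq_bot_of_inj hinj hs, le_bot_iff] at h1
    rw [← Subgroup.top_subtype_lowerCentralSeries, h1, Subgroup.map_bot]
  have key : ∀ i u, eng x (i * M (cb M s)) u ∈ ds (⊤ : Subgroup K) i := by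
    intro i u
    induction i with
    | zero => trivial
    | succ i ih =>
      rw [Nat.succ_mul, add_comm (i * _), eng_add]
      exact h (cb M s) K φ q x i hop (Nat.Coprime.coprime_mul_right_right hq) hw hx
        (hJ.le.trans bot_le) (eng_mem_it (mem_og φ x) ih _)
  intro u
  have := key s u
  rwa [hs, Subgroup.mem_bot] at this

theorem fd_succ {d : ℕ} (hd : 0 < d) : fd (d + 1) = fd d * cyclotomic (d + 1) ℤ :=
  Finset.prod_Icc_succ_top (by omega) _

theorem bezout_fd (d : ℕ) : ∃ (u v : ℤ[X]) (r : ℤ), r ≠ 0 ∧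
    u * cyclotomic (d + 1) ℤ + v * fd d = C r := by
  have h : IsCoprime (cyclotomic (d + 1) ℚ) ((fd d).map (algebraMap ℤ ℚ)) := by
    rw [fd, Polynomial.map_prod]
    refine IsCoprime.prod_right fun i hi => ?_
    rw [map_cyclotomic]
    exact cyclotomic.isCoprime_rat (by have := (Finset.mem_Icc.1 hi).2; omega)
  obtain ⟨a, b, hab⟩ := h
  obtain ⟨s, hs, ea⟩ := IsLocalization.integerNormalization_spec (nonZeroDivisors ℤ) a
  obtain ⟨t, ht, eb⟩ := IsLocalization.integerNormalization_spec (nonZeroDivisors ℤ) b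
  refine ⟨C t * IsLocalization.integerNormalization (nonZeroDivisors ℤ) a,
    C s * IsLocalization.integerNormalization (nonZeroDivisors ℤ) b, s * t,
    mul_ne_zero (nonZeroDivisors.ne_zero hs) (nonZeroDivisors.ne_zero ht), ?_⟩
  apply Polynomial.map_injective (algebraMap ℤ ℚ) (algebraMap ℤ ℚ).injective_int
  rw [Polynomial.map_add, Polynomial.map_mul, Polynomial.map_mul, Polynomial.map_mul,
    Polynomial.map_mul, ea, eb, map_cyclotomic]
  simp only [zsmul_eq_mul, eq_intCast, Int.cast_mul, Polynomial.map_mul, Polynomial.map_intCast]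
  linear_combination ((s : ℚ[X]) * t) * hab

theorem exists_piece {d : ℕ} (hd : 0 < d) : ∃ R : ℕ, R ≠ 0 ∧ ∀ (K : Type) [Group K] [Finite K]
    (φ : K →* K) (q : ℕ), (∀ g : K, g ^ q = 1) → q.Coprime R → Wt φ (fd (d + 1)) →
    ∀ S : Subgroup K, (∀ x ∈ S, φ x ∈ S) → ∀ y ∈ S, ∃ x ∈ S,
      fp φ (cyclotomic (d + 1) ℤ) x ∈ ⁅og φ x, og φ x⁆ ∧ fp φ (fd d) y * x⁻¹ ∈ ⁅S, S⁆ := by
  obtain ⟨u, v, r, hr, e⟩ := bezout_fd d
  refine ⟨r.natAbs, Int.natAbs_ne_zero.2 hr, fun K _ _ φ q hq hcop hw S hS y hy => ?_⟩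
  obtain ⟨X, _, π, hπ⟩ := exists_sec S ⁅S, S⁆ le_rfl
  obtain ⟨ψ, hψ⟩ := hπ.exists_end φ hS (comm_inv hS hS)
  obtain ⟨a, b, hab⟩ : IsCoprime r (q : ℤ) := by
    rw [Int.isCoprime_iff_gcd_eq_one]
    exact hcop.symm
  have hy' := fp_mem hS (fd d) hy
  have h0 : aeval ψ (cyclotomic (d + 1) ℤ) (π (fp φ (fd d) y)) = 0 := by
    rw [hπ.addOn.fp_aeval hS hψ _ hy, ← Module.End.mul_apply, ← map_mul, mul_comm, ← fd_succ hd,
      hw.aeval_eq_zero hS hπ hψ]
    rfl
  obtain ⟨x, ⟨hx, ex⟩, hmin⟩ := Set.exists_min_image {x | x ∈ S ∧ π x = π (fp φ (fd d) y)}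
    (fun x => Nat.card (og φ x)) (Set.toFinite _) ⟨_, hy', rfl⟩
  have hx' := fp_mem hS (C a * v * fd d) hx
  have ex' : π (fp φ (C a * v * fd d) x) = π (fp φ (fd d) y) := by
    have e1 : C a * v * fd d = C (a * r) - C a * u * cyclotomic (d + 1) ℤ := by
      rw [C_mul, ← e]; ring
    rw [hπ.addOn.fp_aeval hS hψ _ hx, e1, ex, map_sub, map_mul (aeval ψ) (C a * u),
      LinearMap.sub_apply, Module.End.mul_apply, h0, map_zero, sub_zero, aeval_C,
      Module.algebraMap_end_apply]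
    exact smul_eq_of_dvd (hπ.smul_eq_zero fun g _ => hq g) ⟨-b, by linear_combination hab⟩ _
  have hmem := fp_mem (og_inv φ x) (C a * v * fd d) (mem_og φ x)
  have hog : og φ (fp φ (C a * v * fd d) x) = og φ x :=
    Subgroup.eq_of_le_of_card_ge (og_le (og_inv φ x) hmem) (hmin _ ⟨hx', ex'⟩)
  refine ⟨_, hx', ?_, (hπ.eq_iff hy' hx').1 ex'.symm⟩
  rw [hog]
  obtain ⟨X', _, π', hπ'⟩ := exists_sec (og φ x) ⁅og φ x, og φ x⁆ le_rfl
  obtain ⟨ψ', hψ'⟩ := hπ'.exists_end φ (og_inv φ x) (comm_inv (og_inv φ x) (og_inv φ x))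
  rw [← hπ'.ker _ (fp_mem (og_inv φ x) _ hmem), hπ'.addOn.fp_aeval (og_inv φ x) hψ' _ hmem,
    hπ'.addOn.fp_aeval (og_inv φ x) hψ' _ (mem_og φ x), ← Module.End.mul_apply, ← map_mul,
    mul_comm, mul_assoc, ← fd_succ hd, map_mul, hw.aeval_eq_zero (og_inv φ x) hπ' hψ', mul_zero]
  rfl

/-- the values of the derived word on the set `X` -/
def dls (X : Set K) (j : ℕ) : Set K := {g | ∃ f : ℕ → K, (∀ i, f i ∈ X) ∧ dl j f = g}

theorem closure_normal_of_conj {X : Set K} (h : ∀ x ∈ X, ∀ g, g * x * g⁻¹ ∈ X) :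
    (closure X).Normal :=
  ⟨fun x hx g => closure_inv (φ := (MulAut.conj g).toMonoidHom)
    (fun y hy => Subgroup.subset_closure (h y hy g)) x hx⟩

theorem comm_closure_le {X : Set K} {M : Subgroup K} [M.Normal]
    (h : ∀ x ∈ X, ∀ y ∈ X, ⁅x, y⁆ ∈ M) : ⁅closure X, closure X⁆ ≤ M := by
  rw [← QuotientGroup.ker_mk' M, ← Subgroup.map_eq_bot_iff, Subgroup.map_commutator,
    MonoidHom.map_closure, Subgroup.commutator_eq_bot_iff_le_centralizer, closure_le,
    Subgroup.centralizer_closure]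
  rintro _ ⟨x, hx, rfl⟩ _ ⟨y, hy, rfl⟩
  have : Commute (QuotientGroup.mk' M y) (QuotientGroup.mk' M x) := by
    rw [← commutatorElement_eq_one_iff_commute, ← map_commutatorElement, ← MonoidHom.mem_ker,
      QuotientGroup.ker_mk']
    exact h y hy x hx
  exact this.eq

theorem ds_closure_le {X : Set K} (h : ∀ x ∈ X, ∀ g, g * x * g⁻¹ ∈ X) (j : ℕ) :
    ds (closure X) j ≤ closure (dls X j) := by
  induction j with
  | zero => exact Subgroup.closure_mono fun x hx => ⟨fun _ => x, fun _ => hx, rfl⟩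
  | succ j ih =>
    have : (closure (dls X (j + 1))).Normal := by
      refine closure_normal_of_conj ?_
      rintro _ ⟨f, hf, rfl⟩ g
      exact ⟨_, fun i => h _ (hf i) g, (map_dl (MulAut.conj g).toMonoidHom _ f).symm⟩
    refine (Subgroup.commutator_mono ih ih).trans (comm_closure_le ?_)
    rintro _ ⟨f, hf, rfl⟩ _ ⟨g, hg, rfl⟩
    refine Subgroup.subset_closure ⟨fun i => if i % 2 = 0 then f (i / 2) else g (i / 2),
      fun i => by dsimp only; split_ifs; exacts [hf _, hg _], ?_⟩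
    show ⁅dl j _, dl j _⁆ = _
    congr 2
    · funext i; simp
    · funext i
      beta_reduce
      rw [if_neg (by omega), show (2 * i + 1) / 2 = i by omega]

theorem engel_closure {n : ℕ} (hn : 0 < n) (E s : ℕ) : ∃ R : ℕ, R ≠ 0 ∧
    ∀ (K : Type) [Group K] [Group.IsNilpotent K] (φ : K →* K) (q : ℕ),
      Op φ n q → q.Coprime R → Spl φ n → ds (⊤ : Subgroup K) s = ⊥ →
      ds (closure {y : K | ∀ u, eng y E u = 1}) (2 ^ (n - 1) - 1) = ⊥ := by
  obtain ⟨c, hc⟩ := class_of_engel (Fin n × Fin (2 ^ (2 ^ (n - 1) - 1))) E s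
  obtain ⟨R, hR, h⟩ := transfer hn c
  refine ⟨E.factorial * R, mul_ne_zero (Nat.factorial_ne_zero _) hR, ?_⟩
  intro K _ _ φ q hop hq hspl hs
  have hinv : ∀ θ : K →* K, Function.Surjective θ → ∀ y : K, (∀ u, eng y E u = 1) →
      ∀ u, eng (θ y) E u = 1 := by
    intro θ hθ y hy u
    obtain ⟨u, rfl⟩ := hθ u
    rw [← map_eng, hy, map_one]
  have hit : ∀ j, ∀ y : K, (∀ u, eng y E u = 1) → ∀ u, eng (φ^[j] y) E u = 1 := by
    intro j y hy
    induction j with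
    | zero => exact hy
    | succ j ih =>
      rw [Function.iterate_succ_apply']
      exact hinv φ (surj_of_iter hn hop.ord) _ ih
  refine le_bot_iff.1 ((ds_closure_le (fun x hx g => hinv (MulAut.conj g).toMonoidHom
    (MulAut.conj g).surjective x hx) _).trans ((closure_le _).2 ?_))
  rintro _ ⟨f, hf, rfl⟩
  set t := 2 ^ (2 ^ (n - 1) - 1) with ht
  set H := closure (orb φ n t f) with hH
  obtain ⟨ψ, hψ⟩ := exists_restr φ H (orb_inv hop.ord t f)
  have hinj := H.subtype_injective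
  let y : Fin n × Fin t → H := fun p =>
    ⟨φ^[p.1] (f p.2), Subgroup.subset_closure ⟨p.1, p.1.2, p.2, p.2.2, rfl⟩⟩
  have hy : Gn y := by
    apply Subgroup.map_injective hinj
    rw [MonoidHom.map_closure, ← Set.range_comp, ← MonoidHom.range_eq_map, Subgroup.range_subtype]
    refine Eq.trans (congrArg Subgroup.closure ?_) hH.symm
    ext z
    constructor
    · rintro ⟨p, rfl⟩; exact ⟨p.1, p.1.2, p.2, p.2.2, rfl⟩
    · rintro ⟨j, hj, i, hi, rfl⟩; exact ⟨(⟨j, hj⟩, ⟨i, hi⟩), rfl⟩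
  have h1 := hc H q (hop.of_inj hinj hψ).exp (Nat.Coprime.coprime_mul_right_right hq) y hy
    (fun p u => hinj (by rw [map_eng, map_one]; exact hit _ _ (hf _) _)) (ds_eq_bot_of_inj hinj hs)
  classical
  have h2 := h H ψ q (hop.of_inj hinj hψ) (Nat.Coprime.coprime_mul_left_right hq)
    (hspl.of_inj hinj hψ) h1 fun i => if hi : i < t then y (⟨0, hn⟩, ⟨i, hi⟩) else 1
  have h3 := congrArg H.subtype h2
  rw [map_dl, map_one] at h3
  rw [SetLike.mem_coe, Subgroup.mem_bot, ← h3]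
  exact dl_congr _ _ _ fun i hi => by rw [dif_pos hi]; rfl

theorem stage {n : ℕ} (hn : 0 < n) (d : ℕ) : ∃ k : ℕ, ∀ s : ℕ, ∃ R : ℕ, R ≠ 0 ∧
    ∀ (K : Type) [Group K] [Finite K] [Group.IsNilpotent K] (φ : K →* K) (q : ℕ),
      Op φ n q → q.Coprime R → Spl φ n → Wt φ (fd (d + 1)) → ds (⊤ : Subgroup K) s = ⊥ →
      ds (⊤ : Subgroup K) k = ⊥ := by
  induction d with
  | zero =>
    refine ⟨0, fun s => ⟨1, one_ne_zero, fun K _ _ _ φ q _ _ _ hw hs => ?_⟩⟩
    have h1 : (⊤ : Subgroup K) ≤ ⁅(⊤ : Subgroup K), (⊤ : Subgroup K)⁆ := fun x _ => by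
      have := hw ⊤ (fun _ _ => Subgroup.mem_top _) x trivial
      simpa [fd, fp] using this
    obtain ⟨c, hc⟩ := exists_lcs_top K
    exact eq_bot_of_le_comm hc le_rfl h1
  | succ d ih =>
    obtain ⟨k, hk⟩ := ih
    refine ⟨k + (2 ^ (n - 1) - 1), fun s => ?_⟩
    obtain ⟨R₁, hR₁, h₁⟩ := hk s
    obtain ⟨E, R₂, hR₂, h₂⟩ := g1_group hn (Nat.succ_pos (d + 1)) s
    obtain ⟨R₃, hR₃, h₃⟩ := exists_piece (Nat.succ_pos d)
    obtain ⟨R₄, hR₄, h₄⟩ := engel_closure hn E s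
    refine ⟨R₁ * R₂ * (R₃ * R₄), mul_ne_zero (mul_ne_zero hR₁ hR₂) (mul_ne_zero hR₃ hR₄), ?_⟩
    intro K _ _ _ φ q hop hq hspl hw hs
    rw [Nat.coprime_mul_iff_right, Nat.coprime_mul_iff_right, Nat.coprime_mul_iff_right] at hq
    obtain ⟨⟨hq₁, hq₂⟩, hq₃, hq₄⟩ := hq
    have hinv : ∀ θ : K →* K, Function.Surjective θ → ∀ y : K, (∀ u, eng y E u = 1) →
        ∀ u, eng (θ y) E u = 1 := by
      intro θ hθ y hy u
      obtain ⟨u, rfl⟩ := hθ u
      rw [← map_eng, hy, map_one]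
    have hN := h₄ K φ q hop hq₄ hspl hs
    set N := closure {y : K | ∀ u, eng y E u = 1} with hNdef
    have : N.Normal := closure_normal_of_conj fun x hx g => hinv (MulAut.conj g).toMonoidHom
      (MulAut.conj g).surjective x hx
    have hNi : ∀ x ∈ N, φ x ∈ N := closure_inv fun x hx =>
      Subgroup.subset_closure (hinv φ (surj_of_iter hn hop.ord) x hx)
    obtain ⟨ψ, hψ⟩ := exists_quot φ N hNi
    have hsurj := QuotientGroup.mk'_surjective N
    have hw' : Wt ψ (fd (d + 1)) := by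
      intro S hS y hy
      obtain ⟨y, rfl⟩ := hsurj y
      obtain ⟨x, -, hx, e⟩ := h₃ K φ q hop.exp hq₃ hw (S.comap (QuotientGroup.mk' N))
        (fun x hx => by rw [Subgroup.mem_comap, ← hψ]; exact hS _ hx) y hy
      have hxN : x ∈ N := Subgroup.subset_closure (h₂ K φ q x hop hq₂ hw hx hs)
      have h1 := Subgroup.mem_map_of_mem (QuotientGroup.mk' N) e
      rw [Subgroup.map_commutator, Subgroup.map_comap_eq_self_of_surjective hsurj, map_mul, map_inv,
        map_fp hψ, show QuotientGroup.mk' N x = 1 from (QuotientGroup.eq_one_iff x).2 hxN,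
        inv_one, mul_one] at h1
      exact h1
    have h1 := h₁ (K ⧸ N) ψ q (hop.of_surj hsurj hψ) hq₁ (hspl.of_surj hsurj hψ) hw'
      (ds_eq_bot_of_surj hsurj hs)
    rw [← Subgroup.map_top_of_surjective _ hsurj, ← map_ds, Subgroup.map_eq_bot_iff,
      QuotientGroup.ker_mk'] at h1
    rw [ds_add]
    exact le_bot_iff.1 ((ds_mono h1 _).trans hN.le)

theorem Spl.wt {φ : K →* K} {n : ℕ} (hn : 0 < n) (h : Spl φ n) : Wt φ (fd n) := by
  intro S hS x hx
  obtain ⟨X, _, π, hπ⟩ := exists_sec S ⁅S, S⁆ le_rfl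
  obtain ⟨ψ, hψ⟩ := hπ.exists_end φ hS (comm_inv hS hS)
  obtain ⟨g, hg⟩ : (∑ i ∈ Finset.range n, (Polynomial.X : ℤ[X]) ^ i) ∣ fd n := by
    rw [← prod_cyclotomic_eq_geom_sum hn, fd]
    refine Finset.prod_dvd_prod_of_subset _ _ _ fun i hi => ?_
    rw [Finset.mem_erase, Nat.mem_divisors] at hi
    have h1 := Nat.le_of_dvd hn hi.2.1
    have h2 := Nat.pos_of_dvd_of_pos hi.2.1 hn
    rw [Finset.mem_Icc]
    omega
  have h0 : aeval ψ (∑ i ∈ Finset.range n, (Polynomial.X : ℤ[X]) ^ i) (π x) = 0 := by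
    rw [← hπ.addOn.one, ← h x, hπ.addOn.list_prod _ fun i => iter_mem hS i hx, map_sum,
      LinearMap.sum_apply]
    exact Finset.sum_congr rfl fun i _ => by
      rw [map_pow, aeval_X, (end_pow_apply hS hψ i hx).2]
  rw [← hπ.ker _ (fp_mem hS _ hx), hπ.addOn.fp_aeval hS hψ _ hx, hg, mul_comm, map_mul,
    Module.End.mul_apply, h0, map_zero]

/-- bounded derived length for splitting automorphisms, away from small primes -/
theorem spl_bound {n : ℕ} (hn : 0 < n) : ∃ k R : ℕ, R ≠ 0 ∧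
    ∀ (K : Type) [Group K] [Finite K] [Group.IsNilpotent K] (φ : K →* K) (q : ℕ),
      Op φ n q → q.Coprime R → Spl φ n → ds (⊤ : Subgroup K) k = ⊥ := by
  obtain ⟨k, hk⟩ := stage hn (n - 1)
  obtain ⟨R, hR, h⟩ := hk (k + 1)
  refine ⟨k, R, hR, fun K _ _ _ φ q hop hq hspl => ?_⟩
  have := ds_normal (⊤ : Subgroup K) (k + 1)
  have := ds_normal (⊤ : Subgroup K) k
  obtain ⟨ψ, hψ⟩ := exists_quot φ (ds (⊤ : Subgroup K) (k + 1))
    (ds_inv (fun _ _ => Subgroup.mem_top _) _)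
  have hsurj := QuotientGroup.mk'_surjective (ds (⊤ : Subgroup K) (k + 1))
  have h1 := h _ ψ q (hop.of_surj hsurj hψ) hq (hspl.of_surj hsurj hψ)
    (by rw [Nat.sub_add_cancel hn]; exact (hspl.of_surj hsurj hψ).wt hn) (by
      rw [← Subgroup.map_top_of_surjective _ hsurj, ← map_ds, Subgroup.map_eq_bot_iff,
        QuotientGroup.ker_mk'])
  rw [← Subgroup.map_top_of_surjective _ hsurj, ← map_ds, Subgroup.map_eq_bot_iff,
    QuotientGroup.ker_mk'] at h1
  obtain ⟨c, hc⟩ := exists_lcs_top K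
  exact eq_bot_of_le_comm hc le_top (h1.trans (Subgroup.commutator_mono le_rfl le_top))

/-- bounded derived length for fixed point free automorphisms, away from small primes -/
theorem fpf_bound {n : ℕ} (hn : 0 < n) : ∃ k R : ℕ, R ≠ 0 ∧
    ∀ (K : Type) [Group K] [Finite K] [Group.IsNilpotent K] (φ : K →* K) (q : ℕ),
      Op φ n q → q.Coprime R → (∀ x, φ x = x → x = 1) → ds (⊤ : Subgroup K) k = ⊥ := by
  obtain ⟨k, R, hR, h⟩ := spl_bound hn
  exact ⟨k, R, hR, fun K _ _ _ φ q hop hq hf => h K φ q hop hq fun x =>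
    MonoidHom.FixedPointFree.prod_pow_eq_one (φ := φ) hf (funext hop.ord) x⟩

end Pool.Agent.LawP
end

-- part Pool.Agent.P.MP_ec89a0_al.LP13
section

/-! Words whose vanishing on generating pairs produces splitting automorphisms. -/

namespace Pool.Agent.LawP

open Subgroup
open scoped commutatorElement

variable {H : Type} [Group H]

theorem conj_iter (a : H) (k : ℕ) (x : H) :
    (MulAut.conj a).toMonoidHom^[k] x = a ^ k * x * (a ^ k)⁻¹ := by
  induction k with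
  | zero => simp
  | succ k ih =>
    rw [Function.iterate_succ_apply', ih]
    show a * _ * a⁻¹ = _
    group

theorem conj_prod (a x : H) (n : ℕ) :
    ((List.range n).map fun k => a ^ k * x * (a ^ k)⁻¹).prod = (x * a) ^ n * (a ^ n)⁻¹ := by
  induction n with
  | zero => simp
  | succ n ih =>
    rw [List.range_succ, List.map_append, List.prod_append, ih, List.map_singleton,
      List.prod_singleton, pow_succ (x * a), pow_succ a]
    group

theorem ds_subtype (D : Subgroup H) (k : ℕ) : (ds (⊤ : Subgroup D) k).map D.subtype = ds D k := by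
  rw [map_ds, ← MonoidHom.range_eq_map, Subgroup.range_subtype]

theorem num_of_prime {n l : ℕ} (hn : 0 < n) (hl : l.Prime) (hd : n ∣ l - 1) (a : ℕ) :
    ∃ u : ℤ, Num n (l ^ a) u := by
  have := Fact.mk hl
  have hlt : n < l := by
    have h1 := hl.two_le
    have := Nat.le_of_dvd (by omega) hd
    omega
  obtain ⟨g, hg⟩ := IsCyclic.exists_ofOrder_eq_natCard (α := (ZMod l)ˣ)
  rw [Nat.card_eq_fintype_card, ZMod.card_units] at hg
  rw [← hg] at hd
  have ho := orderOf_pow_orderOf_div (orderOf_pos g).ne' hd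
  set u := g ^ (orderOf g / n) with hu
  set v : ℤ := ((u : ZMod l).val : ℤ) with hv
  have hvu : (v : ZMod l) = u := by rw [hv, Int.cast_natCast, ZMod.natCast_zmod_val]
  have hlz : Prime (l : ℤ) := Nat.prime_iff_prime_int.1 hl
  have cop : ∀ z : ℤ, (z : ZMod l) ≠ 0 → IsCoprime z ((l ^ a : ℕ) : ℤ) := by
    intro z hz
    rw [Nat.cast_pow]
    refine IsCoprime.pow_right ((hlz.irreducible.coprime_iff_not_dvd).2 ?_).symm
    rwa [← ZMod.intCast_zmod_eq_zero_iff_dvd]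
  refine ⟨v ^ l ^ a, hn, ?_, ?_, ?_⟩
  · have h1 : (l : ℤ) ∣ v ^ n - 1 := by
      rw [← ZMod.intCast_zmod_eq_zero_iff_dvd]
      push_cast
      rw [hvu, ← Units.val_pow_eq_pow_val, ← ho, pow_orderOf_eq_one, Units.val_one, sub_self]
    have h2 := dvd_sub_pow_of_dvd_sub h1 a
    rw [one_pow, ← pow_mul, mul_comm n, pow_mul] at h2
    rw [Nat.cast_pow]
    exact (pow_dvd_pow _ (Nat.le_succ a)).trans h2
  · intro i hi hin
    apply cop
    push_cast
    rw [ZMod.pow_card_pow, hvu, ← Units.val_pow_eq_pow_val, sub_ne_zero, Ne, Units.val_eq_one]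
    exact pow_ne_one_of_lt_orderOf hi.ne' (ho ▸ hin)
  · apply cop
    rw [Int.cast_natCast, Ne, ZMod.natCast_eq_zero_iff]
    exact Nat.not_dvd_of_pos_of_lt hn hlt

/-- `q` is prime to `R` or a power of a prime that is one modulo `N` -/
def Good (N R q : ℕ) : Prop := q.Coprime R ∨ ∃ p a : ℕ, p.Prime ∧ N ∣ p - 1 ∧ q = p ^ a

theorem Good.mono {N R q N' R' : ℕ} (h : Good N R q) (hN : N' ∣ N) (hR : R' ∣ R) : Good N' R' q := by
  rcases h with h | ⟨p, a, hp, hd, e⟩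
  · exact Or.inl (h.coprime_dvd_right hR)
  · exact Or.inr ⟨p, a, hp, hN.trans hd, e⟩

theorem Good.coprime {N R q n : ℕ} (h : Good N R q) (hN : n ∣ N) (hR : n ∣ R) : q.Coprime n := by
  rcases h with h | ⟨p, a, hp, hd, rfl⟩
  · exact h.coprime_dvd_right hR
  · refine Nat.Coprime.pow_left a (Nat.Coprime.coprime_dvd_right (hN.trans hd) ?_)
    obtain ⟨r, rfl⟩ : ∃ r, p = r + 1 := ⟨p - 1, by have := hp.pos; omega⟩
    simp

theorem fpf_good {n : ℕ} (hn : 0 < n) : ∃ k R : ℕ, R ≠ 0 ∧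
    ∀ (K : Type) [Group K] [Finite K] [Group.IsNilpotent K] (φ : K →* K) (q : ℕ),
      Op φ n q → Good n R q → (∀ x, φ x = x → x = 1) → ds (⊤ : Subgroup K) k = ⊥ := by
  obtain ⟨k, R, hR, h⟩ := fpf_bound hn
  refine ⟨k + (2 ^ (n - 1) - 1), R, hR, fun K _ _ _ φ q hop hq hf => ?_⟩
  rcases hq with hq | ⟨p, a, hp, hd, rfl⟩
  · rw [ds_add, h K φ q hop hq hf]
    exact le_bot_iff.1 (ds_le _ _)
  · obtain ⟨u, hu⟩ := num_of_prime hn hp hd a
    rw [add_comm, ds_add, kreknin_group hu hop hf]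
    exact le_bot_iff.1 (ds_le _ _)

theorem ds_le_pows {n : ℕ} (hn : 0 < n) : ∃ k R : ℕ, R ≠ 0 ∧ ∀ (H : Type) [Group H] [Finite H]
    (D : Subgroup H) [D.Normal] [Group.IsNilpotent D] (q : ℕ) (a : H), (∀ g ∈ D, g ^ q = 1) →
    Good n R q → ds D k ≤ closure {y | ∃ u ∈ D, (u * a) ^ n = y} := by
  obtain ⟨k, R, hR, h'⟩ := fpf_good hn
  have h : ∀ (K : Type) [Group K] [Finite K] [Group.IsNilpotent K] (φ : K →* K) (q : ℕ),
      Op φ n q → Good n (R * n) q → Spl φ n → ds (⊤ : Subgroup K) k = ⊥ :=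
    fun K _ _ _ φ q hop hq hs => h' K φ q hop (hq.mono dvd_rfl (dvd_mul_right _ _))
      (hs.fpf hop.exp (hq.coprime dvd_rfl (dvd_mul_left _ _)).symm)
  refine ⟨k, R * n, mul_ne_zero hR hn.ne', fun H _ _ D hD _ q a hq hcop => ?_⟩
  set A := closure {y | ∃ u ∈ D, (u * a) ^ n = y} with hA
  have hconj : ∀ g : H, g * a * g⁻¹ * a⁻¹ ∈ D → ∀ y ∈ A, g * y * g⁻¹ ∈ A := by
    intro g hg
    refine closure_inv (φ := (MulAut.conj g).toMonoidHom) ?_
    rintro _ ⟨u, hu, rfl⟩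
    refine Subgroup.subset_closure ⟨g * u * g⁻¹ * (g * a * g⁻¹ * a⁻¹),
      D.mul_mem (hD.conj_mem u hu g) hg, ?_⟩
    rw [map_pow]
    congr 1
    show _ = g * (u * a) * g⁻¹
    group
  have hconjD : ∀ g ∈ D, ∀ y ∈ A, g * y * g⁻¹ ∈ A := fun g hg => hconj g (by
    rw [mul_assoc, mul_assoc, ← mul_assoc a]
    exact D.mul_mem hg (hD.conj_mem _ (D.inv_mem hg) a))
  have han : a ^ n ∈ A := Subgroup.subset_closure ⟨1, D.one_mem, by rw [one_mul]⟩
  obtain ⟨φ, hφ⟩ := exists_restr (MulAut.conj a).toMonoidHom D fun x hx => hD.conj_mem x hx a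
  have hφk : ∀ j (x : D), D.subtype (φ^[j] x) = a ^ j * x * (a ^ j)⁻¹ := fun j x => by
    rw [← semiconj_iter hφ, conj_iter]; rfl
  have : (A.comap D.subtype).Normal := ⟨fun x hx g => hconjD g g.2 x hx⟩
  obtain ⟨ψ, hψ⟩ := exists_quot φ (A.comap D.subtype) fun x hx => by
    rw [Subgroup.mem_comap, ← hφ]
    exact hconj a (by simp) _ hx
  have hsurj := QuotientGroup.mk'_surjective (A.comap D.subtype)
  have h1 := h _ ψ q ⟨fun g => by
      obtain ⟨x, rfl⟩ := hsurj g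
      rw [← map_pow, show x ^ q = 1 from Subtype.ext (hq x x.2), map_one], fun g => by
      obtain ⟨x, rfl⟩ := hsurj g
      rw [semiconj_iter hψ, ← mul_inv_eq_one, ← map_inv, ← map_mul, ← MonoidHom.mem_ker,
        QuotientGroup.ker_mk', Subgroup.mem_comap, map_mul, map_inv, hφk, mul_assoc, mul_assoc,
        ← mul_assoc (x : H)]
      exact A.mul_mem han (hconjD x x.2 _ (A.inv_mem han))⟩ hcop fun g => by
    obtain ⟨x, rfl⟩ := hsurj g
    rw [← map_spl hψ, ← MonoidHom.mem_ker, QuotientGroup.ker_mk', Subgroup.mem_comap,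
      map_list_prod, List.map_map]
    have e : (D.subtype ∘ fun k => φ^[k] x) = fun k => a ^ k * x * (a ^ k)⁻¹ :=
      funext fun k => hφk k x
    rw [e, conj_prod]
    exact A.mul_mem (Subgroup.subset_closure ⟨x, x.2, rfl⟩) (A.inv_mem han)
  rw [← Subgroup.map_top_of_surjective _ hsurj, ← map_ds, Subgroup.map_eq_bot_iff,
    QuotientGroup.ker_mk'] at h1
  rw [← ds_subtype]
  exact Subgroup.map_le_iff_le_comap.2 h1

/-- vanishing of `w` on all generating pairs bounds the derived length of normal nilpotent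
subgroups without small primes -/
def Core (w : FreeGroup (Fin 2)) (N : ℕ) : Prop :=
  ∃ k R : ℕ, R ≠ 0 ∧ ∀ (H : Type) [Group H] [Finite H] (P : Subgroup H) [P.Normal] (q c : ℕ),
    (∀ g ∈ P, g ^ q = 1) → Good N R q → P.lowerCentralSeries c = ⊥ →
    (∃ x : Fin 2 → H, Gn x) → (∀ x : Fin 2 → H, Gn x → FreeGroup.lift x w = 1) → ds P k = ⊥

theorem nilpotent_of_le {D P : Subgroup H} {c : ℕ} (hc : P.lowerCentralSeries c = ⊥) (h : D ≤ P) :
    Group.IsNilpotent D :=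
  Subgroup.isNilpotent_of_lowerCentralSeries_eq_bot (n := c)
    (le_bot_iff.1 ((Subgroup.lowerCentralSeries_mono c h).trans hc.le))

theorem core_powers {m n : ℕ} (hm : 0 < m) (hn : 0 < n) :
    Core ⁅FreeGroup.of (0 : Fin 2) ^ m, FreeGroup.of (1 : Fin 2) ^ n⁆ (m * n) := by
  obtain ⟨k₁, R₁, hR₁, h₁⟩ := ds_le_pows hm
  obtain ⟨k₂, R₂, hR₂, h₂⟩ := ds_le_pows hn
  refine ⟨1 + (k₁ + k₂ + 1), R₁ * R₂, mul_ne_zero hR₁ hR₂, ?_⟩
  intro H _ _ P _ q c hq hcop hc ⟨x, hx⟩ hdie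
  have := nilpotent_of_le hc (comm_self_le P)
  have hq' : ∀ g ∈ ⁅P, P⁆, g ^ q = 1 := fun g hg => hq g (comm_self_le P hg)
  have e₁ := h₁ H ⁅P, P⁆ q (x 0) hq' (hcop.mono (dvd_mul_right _ _) (dvd_mul_right _ _))
  have e₂ := h₂ H ⁅P, P⁆ q (x 1) hq' (hcop.mono (dvd_mul_left _ _) (dvd_mul_left _ _))
  rw [ds_add]
  show ⁅ds ⁅P, P⁆ (k₁ + k₂), ds ⁅P, P⁆ (k₁ + k₂)⁆ = ⊥
  have l₁ : ds ⁅P, P⁆ (k₁ + k₂) ≤ ds ⁅P, P⁆ k₁ := by rw [ds_add]; exact ds_le _ _
  have l₂ : ds ⁅P, P⁆ (k₁ + k₂) ≤ ds ⁅P, P⁆ k₂ := by rw [add_comm, ds_add]; exact ds_le _ _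
  refine le_bot_iff.1 ((Subgroup.commutator_mono (l₁.trans e₁) (l₂.trans e₂)).trans (Eq.le ?_))
  rw [Subgroup.commutator_eq_bot_iff_le_centralizer, closure_le, Subgroup.centralizer_closure]
  rintro _ ⟨u, hu, rfl⟩ _ ⟨v, hv, rfl⟩
  have := hdie _ (hx.mul_left hc (u := ![u, v]) (Fin.forall_fin_two.2 ⟨hu, hv⟩))
  rw [map_commutatorElement, map_pow, map_pow, FreeGroup.lift_apply_of, FreeGroup.lift_apply_of,
    commutatorElement_eq_one_iff_commute] at this
  exact this.eq.symm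

theorem norm_apply {S T : Subgroup H} [hS : S.Normal] {X : Type} [AddCommGroup X] {π : H → X}
    (hπ : Sec S T π) {ρ : H →* Module.End ℤ X}
    (hρ : ∀ g, ∀ x ∈ S, ρ g (π x) = π (g * x * g⁻¹)) {d y : H} {n : ℕ} (hd : d ^ n = 1)
    (hy : y ∈ S) (h : (y * d) ^ n = 1) : (∑ i ∈ Finset.range n, ρ d ^ i) (π y) = 0 := by
  have h3 := conj_prod d y n
  rw [h, hd, inv_one, mul_one] at h3
  have h4 := hπ.addOn.list_prod _ (fun i => hS.conj_mem _ hy (d ^ i)) n
  rw [h3, hπ.addOn.one] at h4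
  rw [h4, LinearMap.sum_apply]
  exact Finset.sum_congr rfl fun i _ => by rw [← map_pow, hρ _ _ hy]

theorem norm_mul {R : Type} [Ring R] (ρ : H →* R) {d : H} {n : ℕ} (hd : d ^ n = 1) :
    (∑ i ∈ Finset.range n, ρ d ^ i) * ρ d = ∑ i ∈ Finset.range n, ρ d ^ i := by
  have := geom_sum_mul (ρ d) n
  rw [← map_pow, hd, map_one, sub_self, mul_sub, mul_one, sub_eq_zero] at this
  exact this

theorem sign_all {R : Type} [Ring R] (ρ : H →* R) {N : R} {x : Fin 2 → H} (hx : Gn x)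
    (h0 : N * ρ (x 0) = N ∨ N * ρ (x 0) = -N) (h1 : N * ρ (x 1) = N ∨ N * ρ (x 1) = -N) {g : H}
    {q : ℕ} (hg : g ^ q = 1) (hq : q.Coprime 2) : N * ρ g = N := by
  have hall : ∀ g : H, N * ρ g = N ∨ N * ρ g = -N := by
    intro g
    have hg : g ∈ closure (Set.range x) := by rw [show closure (Set.range x) = ⊤ from hx]; trivial
    induction hg using Subgroup.closure_induction with
    | mem y hy =>
      obtain ⟨i, rfl⟩ := hy
      exact (Fin.forall_fin_two (p := fun i => N * ρ (x i) = N ∨ N * ρ (x i) = -N)).2 ⟨h0, h1⟩ i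
    | one => exact Or.inl (by rw [map_one, mul_one])
    | mul a b _ _ iha ihb =>
      rw [map_mul, ← mul_assoc]
      rcases iha with e | e <;> rcases ihb with e' | e' <;> simp [e, e']
    | inv a _ iha =>
      have e0 : N * ρ a * ρ a⁻¹ = N := by rw [mul_assoc, ← map_mul, mul_inv_cancel, map_one, mul_one]
      rcases iha with e | e
      · exact Or.inl (by rwa [e] at e0)
      · exact Or.inr (by rwa [e, neg_mul, neg_eq_iff_eq_neg] at e0)
  obtain ⟨m, hm⟩ := exists_pow_eq_self_of_coprime (x := g) (n := 2)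
    (hq.symm.coprime_dvd_right (orderOf_dvd_of_pow_eq_one hg))
  rw [← hm, ← pow_mul, mul_comm, pow_mul, pow_two, map_mul, ← mul_assoc]
  rcases hall (g ^ m) with e | e
  · rw [e, e]
  · rw [e, neg_mul, e, neg_neg]

/-- the norm of `d` on abelian sections below the derived subgroup of `P` is invariant under `P` -/
def NormInv (P : Subgroup H) (d : H) (n : ℕ) : Prop :=
  ∀ (S : Subgroup H) [S.Normal] (X : Type) [AddCommGroup X] (π : H → X) (ρ : H →* Module.End ℤ X),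
    S ≤ ⁅P, P⁆ → Sec S ⁅S, S⁆ π → (∀ g, ∀ x ∈ S, ρ g (π x) = π (g * x * g⁻¹)) →
    ∀ g ∈ P, (∑ i ∈ Finset.range n, ρ d ^ i) * ρ g = ∑ i ∈ Finset.range n, ρ d ^ i

theorem NormInv.fixed_mem {P S : Subgroup H} [hS : S.Normal] {d : H} {n q : ℕ} (h : NormInv P d n)
    (hn : n.Coprime q) (hq : ∀ g ∈ P, g ^ q = 1) (hSP : S ≤ ⁅P, P⁆) {z : H} (hz : z ∈ ⁅S, P⁆)
    (hfix : d * z * d⁻¹ = z) : z ∈ ⁅S, S⁆ := by
  obtain ⟨X, _, π, hπ⟩ := exists_sec S ⁅S, S⁆ le_rfl
  obtain ⟨ρ, hρ⟩ := hπ.exists_rep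
  have hall := h S X π ρ hSP hπ hρ
  set N := ∑ i ∈ Finset.range n, ρ d ^ i with hN
  have hle : ⁅S, P⁆ ≤ S := Subgroup.commutator_le_left _ _
  have h6 : N (π z) = 0 := by
    refine hπ.addOn.closure_mem (s := {g | ∃ g₁ ∈ S, ∃ g₂ ∈ P, ⁅g₁, g₂⁆ = g}) hle
      (U := (LinearMap.ker N).toAddSubgroup) ?_ z hz
    rintro _ ⟨y, hy, g, hg, rfl⟩
    show N _ = 0
    rw [← commutatorElement_inv, hπ.addOn.inv (x := ⁅g, y⁆) (eng_mem g 1 hy), hπ.comm_apply hρ g hy,
      map_neg, ← Module.End.mul_apply, mul_sub, hall g hg, mul_one, sub_self]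
    simp
  have h7 : ∀ i, (ρ d ^ i) (π z) = π z := by
    intro i
    induction i with
    | zero => rfl
    | succ i ih => rw [pow_succ, Module.End.mul_apply, hρ _ _ (hle hz), hfix, ih]
  rw [hN, LinearMap.sum_apply, Finset.sum_congr rfl fun i _ => h7 i, Finset.sum_const,
    Finset.card_range] at h6
  rw [← hπ.ker z (hle hz)]
  refine eq_zero_of_coprime (hπ.smul_eq_zero fun g hg => hq g (comm_self_le P (hSP hg)))
    (Nat.isCoprime_iff_coprime.2 hn) ?_
  rw [natCast_zsmul]; exact h6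

theorem normInv_bound {n : ℕ} (hn : 0 < n) : ∃ k R : ℕ, R ≠ 0 ∧
    ∀ (H : Type) [Group H] [Finite H] (P : Subgroup H) [P.Normal] (q c : ℕ) (d : H),
    (∀ g ∈ P, g ^ q = 1) → Good n R q → P.lowerCentralSeries c = ⊥ → d ^ n = 1 →
    NormInv P d n → ds P k = ⊥ := by
  obtain ⟨k, R, hR, h⟩ := fpf_good hn
  refine ⟨2 + k, R * n, mul_ne_zero hR hn.ne', ?_⟩
  intro H _ _ P _ q c d hq hcop hc hd hni
  have hfix : ∀ z ∈ P.lowerCentralSeries 2, d * z * d⁻¹ = z → z = 1 := by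
    intro z hz e
    have : ∀ i, z ∈ P.lowerCentralSeries (i + 2) := by
      intro i
      induction i with
      | zero => exact hz
      | succ i ih =>
        have := lcs_normal P (i + 1)
        have hle : P.lowerCentralSeries (i + 1) ≤ ⁅P, P⁆ :=
          Subgroup.commutator_mono (P.lowerCentralSeries_le_self i) le_rfl
        exact three_subgroups (P.lowerCentralSeries (i + 1)) P
          (Subgroup.commutator_mono le_rfl hle (hni.fixed_mem
            (hcop.coprime dvd_rfl (dvd_mul_left _ _)).symm hq hle ih e))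
    have h1 := P.lowerCentralSeries_antitone (Nat.le_add_right c 2) (this c)
    rwa [hc, Subgroup.mem_bot] at h1
  have hE := lcs_normal P 2
  have hle : P.lowerCentralSeries 2 ≤ P := P.lowerCentralSeries_le_self 2
  have := nilpotent_of_le hc hle
  obtain ⟨φ, hφ⟩ := exists_restr (MulAut.conj d).toMonoidHom (P.lowerCentralSeries 2)
    fun y hy => hE.conj_mem y hy _
  have h1 := h _ φ q ⟨fun g => Subtype.ext (hq g (hle g.2)), fun g => by
      apply (P.lowerCentralSeries 2).subtype_injective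
      rw [← semiconj_iter hφ, conj_iter, hd, one_mul, inv_one, mul_one]⟩
    (hcop.mono dvd_rfl (dvd_mul_right _ _)) fun g hg =>
      Subtype.ext (hfix g g.2 ((hφ g).trans (congrArg _ hg)))
  have h2 := ds_subtype (P.lowerCentralSeries 2) k
  rw [h1, Subgroup.map_bot] at h2
  rw [ds_add]
  refine le_bot_iff.1 ((ds_mono ?_ k).trans h2.ge)
  exact Subgroup.commutator_mono le_rfl (comm_self_le P)

theorem core_surface {n : ℕ} (hn : 0 < n) {e : ℤ} (he : e = 1 ∨ e = -1) :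
    Core ((FreeGroup.of (0 : Fin 2) * FreeGroup.of 1 * FreeGroup.of 0 ^ e *
      (FreeGroup.of 1)⁻¹) ^ n) (Nat.lcm 2 n) := by
  obtain ⟨k, R, hR, h⟩ := normInv_bound hn
  refine ⟨k, R * 2, mul_ne_zero hR two_ne_zero, ?_⟩
  intro H _ _ P _ q c hq hcop hc ⟨x, hx⟩ hdie
  have hdie' : ∀ u ∈ ⁅P, P⁆, ∀ v ∈ ⁅P, P⁆,
      (u * x 0 * (v * x 1) * (u * x 0) ^ e * (v * x 1)⁻¹) ^ n = 1 := fun u hu v hv => by
    have := hdie _ (hx.mul_left hc (u := ![u, v]) (Fin.forall_fin_two.2 ⟨hu, hv⟩))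
    simp only [map_pow, map_mul, map_zpow, map_inv, FreeGroup.lift_apply_of] at this
    exact this
  obtain ⟨d, hd⟩ : ∃ d, d = x 0 * x 1 * x 0 ^ e * (x 1)⁻¹ := ⟨_, rfl⟩
  have hdn : d ^ n = 1 := by
    simpa [hd] using hdie' 1 (Subgroup.one_mem _) 1 (Subgroup.one_mem _)
  refine h H P q c d hq (hcop.mono (Nat.dvd_lcm_right _ _) (dvd_mul_right _ _)) hc hdn ?_
  intro S hS X _ π ρ hSP hπ hρ g hg
  have hNd := norm_mul ρ hdn
  have key : ∀ (u y : H), u ∈ S → (u * (y * u⁻¹ * y⁻¹) * d) ^ n = 1 →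
      ((∑ i ∈ Finset.range n, ρ d ^ i) * ρ y) (π u) = (∑ i ∈ Finset.range n, ρ d ^ i) (π u) := by
    intro u y hu h1
    have h5 := norm_apply hπ hρ hdn (S.mul_mem hu (hS.conj_mem _ (S.inv_mem hu) y)) h1
    rw [hπ.mul _ hu _ (hS.conj_mem _ (S.inv_mem hu) _), ← hρ _ _ (S.inv_mem hu), hπ.addOn.inv hu,
      map_add, map_neg, map_neg, add_neg_eq_zero] at h5
    exact h5.symm
  have ha : (∑ i ∈ Finset.range n, ρ d ^ i) * ρ (x 0) = ∑ i ∈ Finset.range n, ρ d ^ i := by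
    have h1 : (∑ i ∈ Finset.range n, ρ d ^ i) * ρ (d * (x 0)⁻¹) =
        ∑ i ∈ Finset.range n, ρ d ^ i := by
      refine LinearMap.ext (hπ.ext fun u hu => key u _ hu ?_)
      have h2 := hdie' 1 (Subgroup.one_mem _) ((x 0)⁻¹ * u * (x 0)⁻¹⁻¹)
        (hSP (hS.conj_mem u hu _))
      rw [← h2]
      congr 1
      rw [hd, one_mul]
      group
    rw [map_mul, ← mul_assoc, hNd] at h1
    conv_lhs => rw [← h1, mul_assoc, ← map_mul, inv_mul_cancel, map_one, mul_one]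
  refine sign_all ρ hx (Or.inl ha) ?_ (hq g hg)
    (hcop.coprime (Nat.dvd_lcm_left _ _) (dvd_mul_left _ _))
  rcases he with rfl | rfl
  · refine Or.inr (LinearMap.ext (hπ.ext fun u hu => ?_))
    have hv := hS.conj_mem u hu (x 0 * x 1)
    have h5 := norm_apply hπ hρ hdn (S.mul_mem hu hv) (by
      rw [← hdie' u (hSP hu) 1 (Subgroup.one_mem _)]
      congr 1
      rw [hd]
      group)
    rw [hπ.mul _ hu _ hv, ← hρ _ _ hu, map_add, ← Module.End.mul_apply, map_mul, ← mul_assoc, ha,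
      add_comm, add_eq_zero_iff_eq_neg] at h5
    exact h5
  · have h1 : (∑ i ∈ Finset.range n, ρ d ^ i) * ρ (d * x 1) = ∑ i ∈ Finset.range n, ρ d ^ i := by
      refine LinearMap.ext (hπ.ext fun u hu => key u _ hu ?_)
      rw [← hdie' u (hSP hu) 1 (Subgroup.one_mem _)]
      congr 1
      rw [hd]
      group
    rw [map_mul, ← mul_assoc, hNd] at h1
    exact Or.inl h1

theorem Core.of_die {w w' : FreeGroup (Fin 2)} {N : ℕ} (h : Core w' N)
    (hw : ∀ (H : Type) [Group H], (∀ x : Fin 2 → H, Gn x → FreeGroup.lift x w = 1) →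
      ∀ x : Fin 2 → H, Gn x → FreeGroup.lift x w' = 1) : Core w N := by
  obtain ⟨k, R, hR, h⟩ := h
  exact ⟨k, R, hR, fun H _ _ P _ q c hq hcop hc hx hdie => h H P q c hq hcop hc hx (hw H hdie)⟩

theorem core_of_commute {w : FreeGroup (Fin 2)} {k l : ℤ} (hk : k ≠ 0) (hl : l ≠ 0)
    (hw : ∀ (H : Type) [Group H], (∀ x : Fin 2 → H, Gn x → FreeGroup.lift x w = 1) →
      ∀ x : Fin 2 → H, Gn x → Commute (x 0 ^ k) (x 1 ^ l)) : ∃ N, 0 < N ∧ Core w N := by
  refine ⟨_, Nat.mul_pos (Int.natAbs_pos.2 hk) (Int.natAbs_pos.2 hl),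
    (core_powers (Int.natAbs_pos.2 hk) (Int.natAbs_pos.2 hl)).of_die fun H _ hdie x hx => ?_⟩
  rw [map_commutatorElement, map_pow, map_pow, FreeGroup.lift_apply_of, FreeGroup.lift_apply_of,
    commutatorElement_eq_one_iff_commute, ← zpow_natCast, ← zpow_natCast, ← Int.sign_mul_self_eq_natAbs,
    ← Int.sign_mul_self_eq_natAbs, mul_comm k.sign, mul_comm l.sign, zpow_mul, zpow_mul]
  exact (hw H hdie x hx).zpow_zpow _ _

theorem Gn.inv_pair {x : Fin 2 → H} (hx : Gn x) : Gn ![(x 0)⁻¹, x 1] ∧ Gn ![x 0, (x 1)⁻¹] ∧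
    Gn ![(x 0)⁻¹, (x 1)⁻¹] :=
  ⟨hx.of_mem (Fin.forall_fin_two.2 ⟨(Subgroup.inv_mem_iff _).1 (Subgroup.subset_closure ⟨0, rfl⟩),
      Subgroup.subset_closure ⟨1, rfl⟩⟩),
    hx.of_mem (Fin.forall_fin_two.2 ⟨Subgroup.subset_closure ⟨0, rfl⟩,
      (Subgroup.inv_mem_iff _).1 (Subgroup.subset_closure ⟨1, rfl⟩)⟩),
    hx.of_mem (Fin.forall_fin_two.2 ⟨(Subgroup.inv_mem_iff _).1 (Subgroup.subset_closure ⟨0, rfl⟩),
      (Subgroup.inv_mem_iff _).1 (Subgroup.subset_closure ⟨1, rfl⟩)⟩)⟩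

theorem core_four {k l m n : ℤ} (hw : FreeGroup.of (0 : Fin 2) ^ k * FreeGroup.of 1 ^ l *
    FreeGroup.of 0 ^ m * FreeGroup.of 1 ^ n ≠ 1) :
    ∃ N, 0 < N ∧ Core (FreeGroup.of (0 : Fin 2) ^ k * FreeGroup.of 1 ^ l * FreeGroup.of 0 ^ m *
      FreeGroup.of 1 ^ n) N := by
  have ev : ∀ (H : Type) [Group H] (x : Fin 2 → H), FreeGroup.lift x (FreeGroup.of (0 : Fin 2) ^ k *
      FreeGroup.of 1 ^ l * FreeGroup.of 0 ^ m * FreeGroup.of 1 ^ n) =
      x 0 ^ k * x 1 ^ l * x 0 ^ m * x 1 ^ n := fun H _ x => by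
    simp only [map_mul, map_zpow, FreeGroup.lift_apply_of]
  have two : ∀ s t : ℤ, ¬ (s = 0 ∧ t = 0) → (∀ (H : Type) [Group H] (a b : H),
      a ^ k * b ^ l * a ^ m * b ^ n = 1 → a ^ s * b ^ t = 1) →
      ∃ N, 0 < N ∧ Core (FreeGroup.of (0 : Fin 2) ^ k * FreeGroup.of 1 ^ l * FreeGroup.of 0 ^ m *
        FreeGroup.of 1 ^ n) N := by
    intro s t hst h
    by_cases hs : s = 0
    · refine core_of_commute one_ne_zero (fun ht => hst ⟨hs, ht⟩) fun H _ hdie x hx => ?_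
      have := h H _ _ ((ev H x).symm.trans (hdie x hx))
      rw [hs, zpow_zero, one_mul] at this
      rw [this]; exact Commute.one_right _
    · refine core_of_commute hs one_ne_zero fun H _ hdie x hx => ?_
      rw [eq_inv_of_mul_eq_one_left (h H _ _ ((ev H x).symm.trans (hdie x hx)))]
      exact ((Commute.refl (x 1)).zpow_zpow _ _).inv_left
  by_cases hk : k = 0
  · refine two m (n + l) (fun ⟨h1, h2⟩ => hw ?_) fun H _ a b e => ?_
    · rw [hk, h1, eq_neg_of_add_eq_zero_left h2]; group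
    · rw [hk] at e
      calc a ^ m * b ^ (n + l) = (b ^ l)⁻¹ * (a ^ (0 : ℤ) * b ^ l * a ^ m * b ^ n) * b ^ l := by group
        _ = 1 := by rw [e]; group
  by_cases hl : l = 0
  · refine two (k + m) n (fun ⟨h1, h2⟩ => hw ?_) fun H _ a b e => ?_
    · rw [hl, h2, eq_neg_of_add_eq_zero_left h1]; group
    · rw [← e, hl]; group
  refine core_of_commute (mul_ne_zero two_ne_zero hk) (mul_ne_zero two_ne_zero hl)
    fun H _ hdie x hx => ?_
  obtain ⟨h1, h2, h3⟩ := hx.inv_pair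
  have e0 := (ev H _).symm.trans (hdie _ hx)
  have e1 : (x 0)⁻¹ ^ k * x 1 ^ l * (x 0)⁻¹ ^ m * x 1 ^ n = 1 := (ev H _).symm.trans (hdie _ h1)
  have e2 : x 0 ^ k * (x 1)⁻¹ ^ l * x 0 ^ m * (x 1)⁻¹ ^ n = 1 := (ev H _).symm.trans (hdie _ h2)
  have e3 : (x 0)⁻¹ ^ k * (x 1)⁻¹ ^ l * (x 0)⁻¹ ^ m * (x 1)⁻¹ ^ n = 1 :=
    (ev H _).symm.trans (hdie _ h3)
  simp only [inv_zpow] at e1 e2 e3
  rw [mul_comm 2 k, mul_comm 2 l, zpow_mul, zpow_mul, zpow_two, zpow_two]
  generalize x 0 ^ k = A at *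
  generalize x 1 ^ l = B at *
  generalize x 0 ^ m = C at *
  generalize x 1 ^ n = D at *
  have f1 : B⁻¹ * (A * A) * B = C⁻¹ * C⁻¹ := by
    calc B⁻¹ * (A * A) * B = B⁻¹ * A * (A * B * C * D) * (A⁻¹ * B * C⁻¹ * D)⁻¹ * (A⁻¹ * B) *
          (C⁻¹ * C⁻¹) := by group
      _ = _ := by rw [e0, e1]; group
  have f2 : B * (A * A) * B⁻¹ = C⁻¹ * C⁻¹ := by
    calc B * (A * A) * B⁻¹ = B * A * (A * B⁻¹ * C * D⁻¹) * (A⁻¹ * B⁻¹ * C⁻¹ * D⁻¹)⁻¹ *
          (A⁻¹ * B⁻¹) * (C⁻¹ * C⁻¹) := by group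
      _ = _ := by rw [e2, e3]; group
  calc A * A * (B * B) = B * (B⁻¹ * (A * A) * B) * B := by group
    _ = B * B * (A * A) := by rw [f1, ← f2]; group

theorem kills_pgroup {G : Type} [Group G] [Finite G] {p : ℕ} (hp : p.Prime) {V : Subgroup FN}
    (hV : ∀ P : Sylow p G, Kills V P) (θ : G →* H) (hθ : Function.Surjective θ) {K : Type}
    [Group K] (hK : IsPGroup p K) (ι : K →* H) (hι : Function.Injective ι) : Kills V K := by
  have := Fact.mk hp
  have h1 : IsPGroup p ι.range := hK.of_surjective ι.rangeRestrict ι.rangeRestrict_surjective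
  obtain ⟨Q, hQ⟩ := h1.exists_le_sylow
  obtain ⟨P, rfl⟩ := Sylow.mapSurjective_surjective hθ p Q
  refine Kills.of_injective ((hV P).of_surjective (θ.subgroupMap P) (θ.subgroupMap_surjective P))
    (ι.codRestrict _ fun x => hQ ⟨x, rfl⟩) fun x y e => hι (congrArg Subtype.val e)

/-- families of solvable groups -/
theorem survive_of_core {M : ℕ} (w : FreeGroup (Fin 2)) (hw : w ≠ 1) (hcore : Core w M) :
    ∃ R : ℕ, ∀ (G : ℕ → Type) [∀ i, Group (G i)] [∀ i, Finite (G i)] [∀ i, Group.IsSolvable (G i)],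
      (∀ i, ∃ a b : G i, Subgroup.closure ({a, b} : Set (G i)) = ⊤) →
      (∀ v : FreeGroup ℕ, v ≠ 1 → ∃ i, ∃ f : ℕ → G i, FreeGroup.lift f v ≠ 1) →
      (∀ p : ℕ, p.Prime → p ≤ R → ¬ M ∣ p - 1 → ∃ v : FreeGroup ℕ, v ≠ 1 ∧
        ∀ i, ∀ P : Sylow p (G i), ∀ f : ℕ → P, FreeGroup.lift f v = 1) →
      ∃ i, ∃ φ : FreeGroup (Fin 2) →* G i, Function.Surjective φ ∧ φ w ≠ 1 := by
  obtain ⟨k, R, hR, hk⟩ := hcore
  refine ⟨R, fun G _ _ _ hgen hlaw hsyl => ?_⟩
  by_contra hc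
  push Not at hc
  obtain ⟨h, hh⟩ := FitW.height_bound w hw
  obtain ⟨V, hV, hVk⟩ := exists_big_small' G (fun p => p ≤ R ∧ ¬ M ∣ p - 1)
    (fun p hp h => hsyl p hp h.1 h.2) R
  have hU : Big ⁅V, derivedSeries FN k⁆ := hV.comm (big_derived k)
  let W : ℕ → Subgroup FN := fun j => Nat.rec ⊤ (fun _ W => comp ⁅V, derivedSeries FN k⁆ W) j
  have hW : ∀ j, Big (W j) := fun j => by
    induction j with
    | zero => exact big_top
    | succ j ih => exact hU.comp ih
  obtain ⟨u, hu, hu1⟩ := (hW h).exists_ne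
  obtain ⟨i, f, hf⟩ := hlaw u hu1
  obtain ⟨N, hN0, hNh, hNn, hN⟩ := hh (G i) (hgen i) (hc i)
  obtain ⟨x, hx⟩ := gn_of_pair (hgen i)
  have key : ∀ j, W j ≤ (N j).comap (FreeGroup.lift f) := by
    intro j
    induction j with
    | zero => rw [hN0]; exact le_top
    | succ j ih =>
      have := hNn j
      have := hNn (j + 1)
      set θ := QuotientGroup.mk' (N (j + 1)) with hθ
      have hsurj : Function.Surjective θ := QuotientGroup.mk'_surjective _
      have hQ : ((N j).map θ).Normal := (hNn j).map θ hsurj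
      obtain ⟨c, hc'⟩ := (hN j).2
      have hnil : Group.IsNilpotent ((N j).map θ) :=
        Subgroup.isNilpotent_of_lowerCentralSeries_eq_bot (n := c) (by
          rw [← Subgroup.map_lowerCentralSeries, Subgroup.map_eq_bot_iff, QuotientGroup.ker_mk']
          exact hc')
      have hkill : Kills ⁅V, derivedSeries FN k⁆ ((N j).map θ) := by
        refine kills_of_sylow fun p hp P => ?_
        have := Fact.mk hp
        have hinj : Function.Injective (((N j).map θ).subtype.comp (P : Subgroup _).subtype) :=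
          Subtype.val_injective.comp Subtype.val_injective
        by_cases hle : ¬ M ∣ p - 1 ∧ p ≤ R
        · exact (kills_pgroup hp (hVk p hp hle.symm hle.2 i) θ hsurj P.isPGroup' _ hinj).comm_left _
        · refine (kills_derived ?_).comm_right _
          have := P.characteristic_of_normal
            (P.normal_of_normalizerCondition Group.normalizerCondition_of_isNilpotent)
          have hP := P.isPGroup'.map ((N j).map θ).subtype
          obtain ⟨c', hc''⟩ := (Subgroup.isNilpotent_iff_lowerCentralSeries _).1 hP.isNilpotent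
          have h1 := hk _ ((P : Subgroup ((N j).map θ)).map ((N j).map θ).subtype) _ c'
            (fun g hg => congrArg Subtype.val (pow_card_eq_one' (x := (⟨g, hg⟩ :
              (P : Subgroup ((N j).map θ)).map ((N j).map θ).subtype))))
            (by
              by_cases hM : M ∣ p - 1
              · obtain ⟨a, ha⟩ := hP.exists_card_eq
                exact Or.inr ⟨p, a, hp, hM, ha⟩
              · exact Or.inl (coprime_card_of_lt hp hP hR (not_le.1 fun h => hle ⟨hM, h⟩)))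
            hc'' ⟨_, hx.map θ hsurj⟩
            (die_of_surj ⟨x, hx⟩ (fun y hy => hc i _ hy.surj) θ hsurj)
          rw [← ds_top, ← Subgroup.map_eq_bot_iff_of_injective _ hinj, map_ds,
            ← MonoidHom.range_eq_map, MonoidHom.range_comp, Subgroup.range_subtype, h1]
      refine (closure_le _).2 ?_
      rintro _ ⟨v, hv, g, hg, rfl⟩
      have h2 := congrArg ((N j).map θ).subtype (hkill (fun l => ⟨θ (FreeGroup.lift f (g l)),
        Subgroup.mem_map_of_mem θ (ih (hg l))⟩) v hv)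
      rw [map_lift, map_one] at h2
      show FreeGroup.lift f _ ∈ N (j + 1)
      rw [← QuotientGroup.ker_mk' (N (j + 1)), MonoidHom.mem_ker,
        map_lift (FreeGroup.lift f) g, map_lift]
      exact h2
  have := key h hu
  rw [hNh] at this
  exact hf this

theorem surface_ne_one {e : ℤ} (he : e = 1 ∨ e = -1) :
    FreeGroup.of (0 : Fin 2) * FreeGroup.of 1 * FreeGroup.of 0 ^ e * (FreeGroup.of 1)⁻¹ ≠ 1 := by
  intro h
  have := congrArg (FreeGroup.lift ![Equiv.swap (0 : Fin 3) 1, Equiv.swap 1 2]) h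
  simp only [map_mul, map_zpow, map_inv, FreeGroup.lift_apply_of, map_one] at this
  revert this
  rcases he with rfl | rfl
  · rw [zpow_one]; decide
  · rw [zpow_neg_one]; decide

end Pool.Agent.LawP
end
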